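import Mathlib
import Pool.Agent.Helper56.Iso.Prob
import Pool.Agent.Helper91.Dich.Defs

/-!
# Random 2-CNF formulas: definitions
-/

namespace Pool.Agent.R2

open Finset Pool.Agent.Helper56.Iso Pool.Agent.Dichotomy

/-- A literal `(v, a)`: the statement `x v = a`. -/
abbrev Lit (n : ℕ) := Fin n × ZMod 2

/-- A 2-clause on the variables `u < v`; the clause `((u, a), (v, b))` excludes `x u = a, x v = b`.
There are `2 n (n - 1)` clauses. -/
abbrev Cl (n : ℕ) := {e : Lit n × Lit n // e.1.1 < e.2.1}

/-- The solutions of the 2-CNF formula `F`. -/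
def SOL {n : ℕ} (F : Finset (Cl n)) : Set (Fin n → ZMod 2) :=
  {x | ∀ e ∈ F, ¬ (x e.1.1.1 = e.1.1.2 ∧ x e.1.2.1 = e.1.2.2)}

/-- The probability that every clause is present independently in the random formula when the
expected number of clauses is `α n`. -/
noncomputable def prob (α : ℝ) (n : ℕ) : ℝ := α / (2 * ((n : ℝ) - 1))

/-- The event `P n` has probability tending to one for the random formulas of density `α`. -/
def Whp (α : ℝ) (P : ∀ n : ℕ, Finset (Cl n) → Prop) : Prop :=
  Filter.Tendsto (fun n : ℕ => Pr (prob α n) (P n)) Filter.atTop (nhds 1)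

/-! ### Implications -/

/-- `F` contains the clause which excludes both `z` and `z'`. -/
def Has {n : ℕ} (F : Finset (Cl n)) (z z' : Lit n) : Prop :=
  ∃ e ∈ F, e.1 = (z, z') ∨ e.1 = (z', z)

/-- The negation of a literal. -/
def neg {n : ℕ} (z : Lit n) : Lit n := (z.1, z.2 + 1)

/-- `F` contains the clause `z → z'`. -/
def Imp {n : ℕ} (F : Finset (Cl n)) (z z' : Lit n) : Prop := Has F z (neg z')

/-- The closure of a literal: everything that is implied by it. -/
def R {n : ℕ} (F : Finset (Cl n)) (z : Lit n) : Set (Lit n) :=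
  {z' | Relation.ReflTransGen (Imp F) z z'}

/-- A consistent set of literals. -/
def Cons {n : ℕ} (T : Set (Lit n)) : Prop := ∀ z ∈ T, neg z ∉ T

/-- `w` is an implication path of length `r` of the formula `F` with distinct variables. -/
def IsPath {n r : ℕ} (F : Finset (Cl n)) (w : Fin (r + 1) → Lit n) : Prop :=
  Function.Injective (fun i => (w i).1) ∧ ∀ i : Fin r, Imp F (w i.castSucc) (w i.succ)

/-- The clauses of the implication path `w`. -/
def pcl {n r : ℕ} (w : Fin (r + 1) → Lit n) : Finset (Cl n) :=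
  univ.filter fun e => ∃ i : Fin r, e.1 = (w i.castSucc, neg (w i.succ)) ∨
    e.1 = (neg (w i.succ), w i.castSucc)

/-- The number of implication paths of length `r` with distinct variables. -/
noncomputable def Y {n : ℕ} (F : Finset (Cl n)) (r : ℕ) : ℕ :=
  {w : Fin (r + 1) → Lit n | IsPath F w}.ncard

/-- A path of length `r ≥ 1` and a further clause `e` which joins the last variable of the path to
an earlier variable of the path (and is not the last clause of the path). -/
def IsCyc {n r : ℕ} (F : Finset (Cl n)) (w : Fin (r + 1) → Lit n) (i : Fin r) (z z' : Lit n) :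
    Prop :=
  IsPath F w ∧ Has F z z' ∧ z.1 = (w i.castSucc).1 ∧ z'.1 = (w (Fin.last r)).1 ∧
    (z, z') ≠ (w i.castSucc, neg (w (Fin.last r)))

/-- The number of these structures. -/
noncomputable def Cy {n : ℕ} (F : Finset (Cl n)) (r : ℕ) : ℕ :=
  {q : (Fin (r + 1) → Lit n) × Fin r × Lit n × Lit n |
    IsCyc F q.1 q.2.1 q.2.2.1 q.2.2.2}.ncard

/-- The bad variables: some literal `z` of the variable is the start of a path of length `J`, or of
a structure `IsCyc` of length less than `J`, or has a closure with more than `K` elements. -/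
def Bad {n : ℕ} (F : Finset (Cl n)) (J K : ℕ) (v : Fin n) : Prop :=
  ∃ a : ZMod 2, (∃ w : Fin (J + 1) → Lit n, IsPath F w ∧ w 0 = (v, a)) ∨
    (∃ r < J, ∃ (w : Fin (r + 1) → Lit n) (i : Fin r) (z z' : Lit n),
      IsCyc F w i z z' ∧ w 0 = (v, a)) ∨ K < (R F (v, a)).ncard

/-! ### The clause graph -/

/-- Adjacency in the clause graph. -/
def Adj {n : ℕ} (F : Finset (Cl n)) (u v : Fin n) : Prop := ∃ a b : ZMod 2, Has F (u, a) (v, b)

/-- Connected sets of variables. -/
inductive Conn {n : ℕ} (F : Finset (Cl n)) : Finset (Fin n) → Prop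
  | single (v : Fin n) : Conn F {v}
  | grow (Q : Finset (Fin n)) (u v : Fin n) : Conn F Q → u ∈ Q → v ∉ Q → Adj F u v →
      Conn F (insert v Q)

/-- All connected subsets of `A` have less than `L` elements. -/
def Small {n : ℕ} (F : Finset (Cl n)) (A : Finset (Fin n)) (L : ℕ) : Prop :=
  ∀ Q ⊆ A, Conn F Q → Q.card < L

/-- `N` disjoint connected sets with `L` elements. -/
def Packing {n : ℕ} (F : Finset (Cl n)) (L N : ℕ) (Q : Fin N → Finset (Fin n)) : Prop :=
  (∀ i, (Q i).card = L ∧ Conn F (Q i)) ∧ ∀ i j, i ≠ j → Disjoint (Q i) (Q j)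

/-- The clauses of `F` with a variable in `Z`. -/
def meet {n : ℕ} (F : Finset (Cl n)) (Z : Finset (Fin n)) : Finset (Cl n) :=
  F.filter fun e => e.1.1.1 ∈ Z ∨ e.1.2.1 ∈ Z

/-- The clauses of `F` between `Z` and `Z'`. -/
def betw {n : ℕ} (F : Finset (Cl n)) (Z Z' : Finset (Fin n)) : Finset (Cl n) :=
  F.filter fun e => (e.1.1.1 ∈ Z ∧ e.1.2.1 ∈ Z') ∨ (e.1.1.1 ∈ Z' ∧ e.1.2.1 ∈ Z)

/-- The clauses of `F` which are neither inside `S \ S'` nor inside `S' \ S`. -/
def cross {n : ℕ} (F : Finset (Cl n)) (S S' : Finset (Fin n)) : Finset (Cl n) :=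
  F.filter fun e => ¬ (e.1.1.1 ∈ S \ S' ∧ e.1.2.1 ∈ S \ S') ∧
    ¬ (e.1.1.1 ∈ S' \ S ∧ e.1.2.1 ∈ S' \ S)

/-- The expansion property of the set `X`. -/
def Link {n : ℕ} (F : Finset (Cl n)) (X : Finset (Fin n)) (ε ρ : ℝ) : Prop :=
  ∀ S S' : Finset (Fin n), ε * X.card ≤ (S ∩ X).card → ε * X.card ≤ (S' ∩ X).card →
    ρ * n ≤ (cross F S S').card

/-- The good clauses: both variables are not bad and have degree at most `D`. -/
def GoodCl {n : ℕ} (F : Finset (Cl n)) (J K D : ℕ) (e : Cl n) : Prop :=
  (¬ Bad F J K e.1.1.1 ∧ ¬ Bad F J K e.1.2.1) ∧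
    (meet F {e.1.1.1}).card ≤ D ∧ (meet F {e.1.2.1}).card ≤ D

/-! ### Exploration -/

/-- The set of the variables which can be reached from `N` inside `A ∪ N`. -/
inductive Rch {n : ℕ} (F : Finset (Cl n)) (A N : Finset (Fin n)) : Fin n → Prop
  | base (v : Fin n) : v ∈ N → Rch F A N v
  | step (u v : Fin n) : Rch F A N u → v ∈ A → Adj F u v → Rch F A N v

open Classical in
/-- The set of the variables which can be reached from `N` inside `A ∪ N`. -/
noncomputable def RS {n : ℕ} (F : Finset (Cl n)) (A N : Finset (Fin n)) : Finset (Fin n) :=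
  univ.filter (Rch F A N)

open Classical in
/-- The neighbours of `u` in `A`. -/
noncomputable def nbr {n : ℕ} (F : Finset (Cl n)) (A : Finset (Fin n)) (u : Fin n) :
    Finset (Fin n) := A.filter (Adj F u)

/-- The event of the exploration: what is reached from `N` together with `m` has less than `L`
elements, and all connected subsets of the rest of `A` have less than `L` elements. -/
def Ev {n : ℕ} (L : ℕ) (F : Finset (Cl n)) (A N : Finset (Fin n)) (m : ℕ) : Prop :=
  (RS F A N).card + m < L ∧ Small F (A \ RS F A N) L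

/-! ### Programs -/

/-- The XOR programs for `A` with leaves of at most `W` points have at least `B / (W + 1)` gates:
for every nonempty set `M top ⊆ SOL F` with at least `δ |SOL F|` elements. -/
def Hard {n : ℕ} (F : Finset (Cl n)) (δ B : ℝ) : Prop :=
  ∀ (g : Type) [Fintype g] (rk : g → ℕ) (W : ℕ) (M : g → Set (Fin n → ZMod 2)) (top : g),
    IsProg rk W M → (M top).Nonempty → M top ⊆ SOL F →
      δ * (SOL F).ncard ≤ (M top).ncard → B ≤ (W + 1) * Fintype.card g

/-- There is a XOR program for the solutions of `F` with at most `B` gates and leaves of one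
point. -/
def Easy {n : ℕ} (F : Finset (Cl n)) (B : ℝ) : Prop :=
  ∃ (g : Type) (_ : Fintype g) (rk : g → ℕ) (M : g → Set (Fin n → ZMod 2)) (top : g),
    IsProg rk 1 M ∧ M top = SOL F ∧ Fintype.card g ≤ B

/-- A bicycle: a path of length `r ≥ 1` with two further different clauses, which are not clauses
of the path and join the first and the last variable of the path to other variables of the path. -/
def IsBic {n r : ℕ} (F : Finset (Cl n)) (w : Fin (r + 1) → Lit n) (e e' : Cl n) : Prop :=
  IsPath F w ∧ e ∈ F ∧ e' ∈ F ∧ e ≠ e' ∧ e ∉ pcl w ∧ e' ∉ pcl w ∧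
    (∃ i, (e.1.1.1 = (w 0).1 ∧ e.1.2.1 = (w i).1) ∨ (e.1.2.1 = (w 0).1 ∧ e.1.1.1 = (w i).1)) ∧
    ∃ i, (e'.1.1.1 = (w (Fin.last r)).1 ∧ e'.1.2.1 = (w i).1) ∨
      (e'.1.2.1 = (w (Fin.last r)).1 ∧ e'.1.1.1 = (w i).1)

end Pool.Agent.R2
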