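import Mathlib
import Pool.Agent.R2.Defs

/-!
# Random 2-CNF formulas: the statements of the modules
-/

namespace Pool.Agent.R2

open Finset Pool.Agent.Helper56.Iso Pool.Agent.Dichotomy

/-! ### Deterministic part -/

/-- [Ov] Overriding a solution by a closed and consistent set of literals. Proof:
`y v = x v + 1` if `(v, x v + 1) ∈ T`, else `x v`. If `y` satisfies both literals `z`, `z'`
excluded by a clause: if `z ∈ T` then `neg z' ∈ T`, contradiction; similarly for `z'`; otherwise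
`x` satisfies both. -/
def St_Ov : Prop :=
  ∀ {n : ℕ} (F : Finset (Cl n)) (T : Set (Lit n)) (x : Fin n → ZMod 2),
    (∀ z ∈ T, ∀ z', Imp F z z' → z' ∈ T) → Cons T → x ∈ SOL F →
    ∃ y ∈ SOL F, (∀ z ∈ T, y z.1 = z.2) ∧ ∀ v, (∀ a, (v, a) ∉ T) → y v = x v

/-- [Cls] Literals which are not starts of long paths or of short structures `IsCyc`.
Proof: take a shortest walk `w 0 = z, w 1, …, w m = z'` of implications. Its literals are distinct.
If a variable repeats, let `j` be the first index with `(w j).1 = (w i).1`, `i < j`; then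
`w j = neg (w i)`, the literals `w 0, …, w (j - 1)` have distinct variables, so `j - 1 < J` (else
there is a path of length `J`), `i ≤ j - 2`, and the last step is the clause excluding `w (j - 1)`
and `w i`, which gives `IsCyc` of length `j - 1` with `(z, z') = (w i, w (j - 1))`. So all variables
are distinct and `m < J`. If `y` and `neg y` are in the closure of `z`, then (contrapositive) `neg z`
is in the closure of `z`, contradicting distinct variables. Last part: `neg z'` in the closure: the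
path from `z` to `neg z'` together with the clause excluding `z1, z2` is an `IsCyc` with `i = 0`. -/
def St_Cls : Prop :=
  ∀ {n : ℕ} (F : Finset (Cl n)) (J : ℕ) (z : Lit n), 1 ≤ J →
    (¬ ∃ w : Fin (J + 1) → Lit n, IsPath F w ∧ w 0 = z) →
    (¬ ∃ r < J, ∃ (w : Fin (r + 1) → Lit n) (i : Fin r) (z1 z2 : Lit n),
      IsCyc F w i z1 z2 ∧ w 0 = z) →
    (∀ z' ∈ R F z, ∃ r < J, ∃ w : Fin (r + 1) → Lit n, IsPath F w ∧ w 0 = z ∧
      w (Fin.last r) = z') ∧
    Cons (R F z) ∧
    ∀ z' z1 z2 : Lit n, Has F z1 z2 → z1.1 = z.1 → z2.1 = z'.1 → (z1, z2) ≠ (z, z') →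
      neg z' ∉ R F z

/-- [Cnt] The number of bad variables. Proof: every bad variable has a literal of one of the three
types; the literals of the first and second type are the first entries of the structures; if `z` is
of the third type only then by [Cls] `K < |R z| ≤` the number of the paths of length `< J` which
start in `z`. -/
def St_Cnt : Prop :=
  ∀ {n : ℕ} (F : Finset (Cl n)) (J K : ℕ), 1 ≤ J →
    (K : ℝ) * {v : Fin n | Bad F J K v}.ncard ≤
      K * (Y F J + ∑ r ∈ range J, (Cy F r : ℝ)) + ∑ r ∈ range J, (Y F r : ℝ)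

/-- [Kap] Every pattern on a set of variables which are not bad is unlikely. Proof: override with
`R F (v, p v + 1)`, `nb v` its variables, `core v = {v}`; the number of the `u` with `u ∈ nb v` is
at most `K`, the number of the `u` with `v ∈ nb u` is at most `2 K` by contraposition; greedy
choice of at least `|X| / (3 K + 1)` elements (`XTW.exists_far`, or a maximal set), and
`XTW.switch`. -/
def St_Kap : Prop :=
  ∀ {n : ℕ} (F : Finset (Cl n)) (J K : ℕ) (X : Finset (Fin n)) (p : Fin n → ZMod 2), 1 ≤ J →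
    (∀ v ∈ X, ¬ Bad F J K v) →
    (({x | x ∈ SOL F ∧ ∀ v ∈ X, x v = p v} : Set (Fin n → ZMod 2)).ncard : ℝ) ≤
      (2 ^ K / (2 ^ K + 1)) ^ (X.card / (3 * K + 1)) * (SOL F).ncard

/-- [Bet] Sumsets inside the solutions are small if they have many crossing good clauses.
Proof: on a crossing clause `e` with variables `u`, `v` the sumset has at most two patterns
(`XTW.edge_lemma` after translating `U`), so some pattern `(a, b)` allowed by `e` does not occur;
override with `R F (u, a) ∪ R F (v, b)`, which is consistent by [Cls] (if `y` is in the first and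
`neg y` in the second then `neg (v, b)` is in the first; third part of [Cls]). `core e = {u, v}`,
`nb e` the variables of the closure, at most `2 K`; every `e` is in conflict with at most
`2 K D + 4 K D` others; then `XTW.switch`. -/
def St_Bet : Prop :=
  ∀ {n : ℕ} (F : Finset (Cl n)) (J K D : ℕ) (E : Finset (Cl n)) (U U' : Set (Fin n → ZMod 2))
    (S S' : Finset (Fin n)), 1 ≤ J →
    (∀ x ∈ U, ∀ y ∈ U', x + y ∈ SOL F) →
    (∀ v, v ∈ S ↔ ∃ x ∈ U, ∃ y ∈ U, x v ≠ y v) → (∀ v, v ∈ S' ↔ ∃ x ∈ U', ∃ y ∈ U', x v ≠ y v) →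
    E ⊆ cross F S S' → (∀ e ∈ E, GoodCl F J K D e) →
    (({z | ∃ x ∈ U, ∃ y ∈ U', z = x + y} : Set (Fin n → ZMod 2)).ncard : ℝ) ≤
      (2 ^ (2 * K) / (2 ^ (2 * K) + 1)) ^ (E.card / (6 * K * D + 1)) * (SOL F).ncard

/-- [Det] The deterministic lower bound: `Dichotomy.path_bound` with `A = M top`,
`K = 2 ^ ⌊ε |X|⌋`-patterns (`XTW.le_free_of_pat`), [Kap] for `X` without the bad variables,
[Bet] for the good crossing clauses. -/
def St_Det : Prop :=
  ∀ (b : ℝ) (J1 K1 : ℕ), 0 < b → 1 ≤ J1 → 1 ≤ K1 → ∃ ε : ℝ, 0 < ε ∧ ∀ ρ : ℝ, 0 < ρ →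
    ∀ J2 K2 D : ℕ, 1 ≤ J2 → 1 ≤ K2 → 1 ≤ D → ∃ c : ℝ, 0 < c ∧ ∃ n0 : ℕ, ∀ n ≥ n0, ∀ F : Finset (Cl n),
    (∃ X : Finset (Fin n), b * n ≤ X.card ∧ Link F X ε ρ) →
    ({v : Fin n | Bad F J1 K1 v}.ncard : ℝ) ≤ b * n / 2 →
    ({e : Cl n | e ∈ F ∧ ¬ GoodCl F J2 K2 D e}.ncard : ℝ) ≤ ρ * n / 2 →
    Hard F ((2 : ℝ) ^ (-(c * n))) ((2 : ℝ) ^ (c * n))

/-- [Lnk] Disjoint connected pieces together with many clauses between large families of pieces
give the expansion property. Proof: variables of type a: in `S \ S'`, of type b: in `S' \ S`, of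
type c: the others. A piece (connected, `L ≥ 2` elements) which is not contained in type a or type b
contains a crossing clause of `F1` (induction over `Conn`). If there are at least `ε / 2 * N` such
pieces we are done. Otherwise at least `ε / 2 * N` pieces have type a and at least `ε / 2 * N` have
type b, and the clauses of `F2` between them are crossing. -/
def St_Lnk : Prop :=
  ∀ {n : ℕ} (F1 F2 : Finset (Cl n)) (L N : ℕ) (Q : Fin N → Finset (Fin n)) (ε ρ : ℝ), 2 ≤ L →
    0 < ε → Packing F1 L N Q →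
    (∀ I I' : Finset (Fin N), Disjoint I I' → ε / 2 * N ≤ I.card → ε / 2 * N ≤ I'.card →
      ρ * n ≤ (betw F2 (I.biUnion Q) (I'.biUnion Q)).card) →
    ρ * n ≤ ε / 2 * N → Link (F1 ∪ F2) (univ.biUnion Q) ε ρ

/-- [Prg] The program of a formula with small connected sets: the solution set is the sumset over
the components `C` (indexed by the smallest element) of the sets of `y` which are zero outside `C`
and satisfy the clauses inside `C`; these have at most `2 ^ m` elements; partial sums. -/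
def St_Prg : Prop :=
  ∀ {n : ℕ} (F : Finset (Cl n)) (m : ℕ), (∀ Q, Conn F Q → Q.card ≤ m) →
    Easy F (((n : ℝ) + 1) * (2 ^ m + 3))

/-- [SatD] An unsatisfiable formula contains a bicycle. Proof: if for every `v` one of the closures
of `(v, 0)`, `(v, 1)` is consistent then `F` is satisfiable (add closures one after the other: a
maximal closed and consistent set `T` of literals contains a literal of every variable: if `R z` is
consistent and `T ∪ R z` is not, then `neg z ∈ T`). So there is `z` with `z ⇝ neg z ⇝ z`. Take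
shortest walks `z = z 0, …, neg z` and `neg z = y 0, y 1, …, z`; `j` the first index at which a
variable of the `z i` repeats (`z j = neg (z i)`), `k ≥ 1` the first index for which the variable
of `y k` is among those of `z 0, …, z (j - 1), y 0, …, y (k - 1)`. The path is
`neg (z (j - 1)) → … → neg (z 0) = y 0 → y 1 → … → y (k - 1)`, the two clauses are
those of the steps `z (j - 1) → z j` and `y (k - 1) → y k`. -/
def St_SatD : Prop :=
  ∀ {n : ℕ} (F : Finset (Cl n)), SOL F = ∅ →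
    ∃ (r : ℕ) (w : Fin (r + 1) → Lit n) (e e' : Cl n), IsBic F w e e'

/-- [Pcl] The clauses of a path of length `r` with distinct variables. -/
def St_Pcl : Prop :=
  ∀ {n r : ℕ} (w : Fin (r + 1) → Lit n), Function.Injective (fun i => (w i).1) →
    (pcl w).card = r ∧ ∀ F : Finset (Cl n), IsPath F w ↔ pcl w ⊆ F

/-! ### Exploration, deterministic part -/

/-- [Rec] One step of the exploration: the variable `u ∈ N` is processed. -/
def St_Rec : Prop :=
  ∀ {n : ℕ} (F : Finset (Cl n)) (A N : Finset (Fin n)) (u : Fin n), Disjoint A N → u ∈ N →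
    RS F A N = insert u (RS F (A \ nbr F A u) (N.erase u ∪ nbr F A u)) ∧
    u ∉ RS F (A \ nbr F A u) (N.erase u ∪ nbr F A u) ∧
    ∀ L m : ℕ, Ev L F A N m ↔ Ev L F (A \ nbr F A u) (N.erase u ∪ nbr F A u) (m + 1)

/-- [Loc] The exploration only depends on the clauses inside `A ∪ N`; a connected set through `v`
is reached from `v`; what is reached from `v` is connected. -/
def St_Loc : Prop :=
  (∀ {n : ℕ} (F F' : Finset (Cl n)) (A N : Finset (Fin n)),
    (∀ e : Cl n, e.1.1.1 ∈ A ∪ N → e.1.2.1 ∈ A ∪ N → (e ∈ F ↔ e ∈ F')) →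
    RS F A N = RS F' A N ∧ ∀ L m : ℕ, Ev L F A N m ↔ Ev L F' A N m) ∧
  (∀ {n : ℕ} (F : Finset (Cl n)) (Q : Finset (Fin n)) (v : Fin n), Conn F Q → v ∈ Q →
    Q ⊆ RS F (univ.erase v) {v}) ∧
  (∀ {n : ℕ} (F : Finset (Cl n)) (A : Finset (Fin n)) (v : Fin n) (L : ℕ), v ∈ A →
    Small F A L → Ev L F (A.erase v) {v} 0) ∧
  ∀ {n : ℕ} (F : Finset (Cl n)) (A : Finset (Fin n)) (L : ℕ), 1 ≤ L →
    (∀ Q ⊆ A, Conn F Q → Q.card ≠ L) → Small F A L

/-! ### Probability -/

/-- [Inc] Probabilities of inclusions, Markov, Chebyshev. -/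
def St_Inc : Prop :=
  ∀ {α : Type} [Fintype α] [DecidableEq α] (p : ℝ), 0 ≤ p → p ≤ 1 →
    (∀ S : Finset α, Pr p (fun F => S ⊆ F) = p ^ S.card) ∧
    (∀ (f : Finset α → ℝ) (t : ℝ), (∀ F, 0 ≤ f F) → 0 < t →
      Pr p (fun F => t ≤ f F) * t ≤ ∑ F, wt p F * f F) ∧
    ∀ (f : Finset α → ℝ) (μ V t : ℝ), 0 < t → (∑ F, wt p F * f F) = μ →
      (∑ F, wt p F * (f F) ^ 2) ≤ μ ^ 2 + V → Pr p (fun F => μ + t ≤ f F) ≤ V / t ^ 2

/-- [Fub] The clauses inside and outside of `H` are independent. -/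
def St_Fub : Prop :=
  ∀ {α : Type} [Fintype α] [DecidableEq α] (p : ℝ) (H : Finset α)
    (f : Finset α → Finset α → ℝ),
    (∑ F, wt p F * f (F ∩ H) (F \ H)) =
      ∑ F, wt p F * ∑ F', wt p F' * f (F ∩ H) (F' \ H)

/-- [Uni] The union of two independent random sets is a random set. -/
def St_Uni : Prop :=
  ∀ {α : Type} [Fintype α] [DecidableEq α] (p p1 p2 : ℝ) (f : Finset α → ℝ),
    1 - p = (1 - p1) * (1 - p2) →
    (∑ F, wt p F * f F) = ∑ F, wt p1 F * ∑ F', wt p2 F' * f (F ∪ F')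

/-- [Mgf] The number of neighbours of `u` in `A` is binomial. Proof: induction on `A` with [Fub],
`H` the four clauses on `u` and a new element. -/
def St_Mgf : Prop :=
  ∀ {n : ℕ} (p θ : ℝ) (A : Finset (Fin n)) (u : Fin n), u ∉ A →
    (∑ F : Finset (Cl n), wt p F * θ ^ (nbr F A u).card) =
      ((1 - p) ^ 4 + (1 - (1 - p) ^ 4) * θ) ^ A.card

/-- [Ovl] Paths which overlap a given set of clauses. Proof: `p ^ |pcl w \ S|` is the product over
the steps of `f (w i) (w (i + 1))`, where `f z z' = 1` if the clause of the step is in `S`, else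
`p`; the sums of `f z z'` over `z'` or over `z` are at most `α + r`; one of the `r` steps is in `S`
(at most `2 r` choices of its two literals); sum over the other literals outwards. -/
def St_Ovl : Prop :=
  ∀ (α : ℝ) (r : ℕ), 0 < α → ∃ C : ℝ, ∀ n : ℕ, 2 ≤ n → prob α n ≤ 1 →
    ∀ S : Finset (Cl n), S.card ≤ r →
    (∑ w : Fin (r + 1) → Lit n, Set.indicator
      {w | Function.Injective (fun i => (w i).1) ∧ (pcl w ∩ S).Nonempty}
      (fun w => (prob α n) ^ (pcl w \ S).card) w) ≤ C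

/-- [PC] The number of paths. Proof: the expectation is at most `2 n α ^ r`, the variance at most
`C * 2 n α ^ r` by [Ovl]; Chebyshev. -/
def St_PC : Prop := ∀ (α : ℝ) (r : ℕ), 0 < α → Whp α fun n F => (Y F r : ℝ) ≤ 3 * n * α ^ r

/-- [CC] The number of the structures `IsCyc`. Proof: the expectation is bounded; Markov. -/
def St_CC : Prop := ∀ (α : ℝ) (r : ℕ) (γ : ℝ), 0 < α → 0 < γ →
  Whp α fun n F => (Cy F r : ℝ) ≤ γ * n

/-- [Edg] Few clauses meet a small set of variables. Proof: `Iso.upper_tail` with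
`θ = exp (2 / γ)`, `R` all clauses which meet `Z`, `|R| ≤ 4 (n - 1) |Z|`; union bound over the at
most `2 ^ n` sets `Z`. -/
def St_Edg : Prop := ∀ α γ : ℝ, 0 < α → 0 < γ → ∃ γ' : ℝ, 0 < γ' ∧
  Whp α fun n F => ∀ Z : Finset (Fin n), (Z.card : ℝ) ≤ γ' * n → ((meet F Z).card : ℝ) ≤ γ * n

/-- [BadS] Few variables are bad. Proof: [Cnt], [PC], [CC]; first `J` with `3 α ^ J ≤ γ / 3`, then
`K` large. -/
def St_BadS : Prop := ∀ α γ : ℝ, 0 < α → α < 1 → 0 < γ → ∃ J K : ℕ, 1 ≤ J ∧ 1 ≤ K ∧
  Whp α fun n F => ({v : Fin n | Bad F J K v}.ncard : ℝ) ≤ γ * n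

/-- [GoodE] Few clauses are not good. Proof: [Edg] for the set of the variables which are bad or have
degree more than `D`; `|F| ≤ C n` by `Iso.upper_tail`, so at most `2 C n / D` variables have degree
more than `D`. -/
def St_GoodE : Prop := ∀ α γ : ℝ, 0 < α → α < 1 → 0 < γ → ∃ J K D : ℕ, 1 ≤ J ∧ 1 ≤ K ∧ 1 ≤ D ∧
  Whp α fun n F => ({e : Cl n | e ∈ F ∧ ¬ GoodCl F J K D e}.ncard : ℝ) ≤ γ * n

/-- [Sup] All components are small with exponentially small probability. Proof: choose
`1 < l < 2 α`, `θ < 1` with `exp (-l (1 - θ)) < θ`, `c > 0` with `exp (c - l (1 - θ)) ≤ θ`, `δ`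
with `2 α (1 - δ) > l`; for `|A| ≥ (1 - δ) n` and `n ≥ n0`,
`E θ ^ |nbr F A u| ≤ exp (-(1 - θ) q |A|) ≤ exp (-l (1 - θ))`, `q = 1 - (1 - p) ^ 4`. By
induction on `2 |A| + |N|` (cases `|A| < (1 - δ) n`: the bound is `≥ 1` if `|N| < L`, and the event
is empty if `|N| ≥ L`; `N = ∅`; `u ∈ N`: [Rec], [Loc], [Fub] with `H` the clauses
between `u` and `A`, [Mgf]):
`Pr (Ev L F A N m) ≤ exp (c ((1 - δ) n + L)) θ ^ (-L) θ ^ |N| exp (-c (|A| + |N|))`. -/
def St_Sup : Prop := ∀ α : ℝ, 1 / 2 < α → ∃ δ c : ℝ, 0 < δ ∧ δ < 1 ∧ 0 < c ∧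
  ∀ L : ℕ, 1 ≤ L → ∃ (C : ℝ) (n0 : ℕ),
  ∀ n ≥ n0, ∀ A : Finset (Fin n),
    Pr (prob α n) (fun F => Small F A L) ≤ C * Real.exp (-(c * (A.card - (1 - δ) * n)))

/-- [Pck] A linear number of disjoint connected sets with `L` elements. Proof: if the maximal
packings have less than `b n / L` sets, then there is a set `D` of at most `b n + L` variables for
which all connected subsets of the complement have less than `L` elements; union bound over `D`:
the number of these `D` is at most `x ^ (-(b n + L)) (1 + x) ^ n` for `0 < x ≤ 1`. -/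
def St_Pck : Prop := ∀ α : ℝ, 1 / 2 < α → ∃ b : ℝ, 0 < b ∧ ∀ L : ℕ, 1 ≤ L →
  Whp α fun n F => ∃ (N : ℕ) (Q : Fin N → Finset (Fin n)), b * n ≤ N * L ∧ Packing F L N Q

/-- [Spr] Sprinkling: many clauses between any two large families of pieces. Proof:
`Iso.lower_tail`, union bound over at most `4 ^ N ≤ 4 ^ (n / L)` pairs of families. -/
def St_Spr : Prop := ∀ α b η : ℝ, 0 < α → 0 < b → 0 < η → ∃ ρ : ℝ, 0 < ρ ∧ ∃ L0 : ℕ, ∀ L ≥ L0,
  ∃ n0 : ℕ, ∀ n ≥ n0, ∀ (N : ℕ) (Q : Fin N → Finset (Fin n)), b * n ≤ N * L →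
    (∀ i, (Q i).card = L) → (∀ i j, i ≠ j → Disjoint (Q i) (Q j)) →
    Pr (prob α n) (fun F => ¬ ∀ I I' : Finset (Fin N), Disjoint I I' → η * N ≤ I.card →
      η * N ≤ I'.card → ρ * n ≤ (betw F (I.biUnion Q) (I'.biUnion Q)).card) ≤ 1 / n

/-- [Gnt] The expansion property. Proof: [Pck] for density `α₁`, `1 / 2 < α₁ < α`, [Spr] for
`α - α₁`, [Lnk] and [Uni] (twice: `p₁ + p₂ - p₁ p₂ ≤ p` and the property is increasing in `F`). -/
def St_Gnt : Prop := ∀ α : ℝ, 1 / 2 < α → ∃ b : ℝ, 0 < b ∧ ∀ ε : ℝ, 0 < ε → ∃ ρ : ℝ, 0 < ρ ∧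
  Whp α fun n F => ∃ X : Finset (Fin n), b * n ≤ X.card ∧ Link F X ε ρ

/-- [Sub] Below density one half all components are small. Proof: choose `θ > 1` with
`exp (2 α' (θ - 1)) < θ`, `2 α < 2 α' < 1`, `c > 0`; induction as in [Sup]:
`Pr (ℓ ≤ |RS F A N|) ≤ θ ^ |N| exp (-c ℓ)`; union bound over the variable `v`. -/
def St_Sub : Prop := ∀ α : ℝ, 0 < α → α < 1 / 2 → ∃ B : ℝ, 0 < B ∧
  Whp α fun n F => ∀ Q : Finset (Fin n), Conn F Q → (Q.card : ℝ) ≤ B * Real.log n

/-- [SatP] There is no bicycle. Proof: the expected number is at most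
`∑ r, 2 n α ^ r (4 (r + 1)) ^ 2 p ^ 2 = O (1 / n)`. -/
def St_SatP : Prop := ∀ α : ℝ, 0 < α → α < 1 →
  Whp α fun n F => ¬ ∃ (r : ℕ) (w : Fin (r + 1) → Lit n) (e e' : Cl n), IsBic F w e e'

end Pool.Agent.R2
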