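import Mathlib
import Pool.Agent.R2.Stmts

/-!
# Random 2-CNF formulas: basic lemmas
-/

namespace Pool.Agent.R2

open Finset Pool.Agent.Helper56.Iso Pool.Agent.Dichotomy Filter Topology

/-! ### Literals -/

section lit

variable {n : ℕ} {F : Finset (Cl n)}

@[simp] theorem neg_neg' (z : Lit n) : neg (neg z) = z := by
  unfold neg
  have : z.2 + 1 + 1 = z.2 := by
    rw [add_assoc]
    have : (1 : ZMod 2) + 1 = 0 := by decide
    rw [this, add_zero]
  exact Prod.ext rfl this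

@[simp] theorem neg_fst (z : Lit n) : (neg z).1 = z.1 := rfl

@[simp] theorem neg_snd (z : Lit n) : (neg z).2 = z.2 + 1 := rfl

theorem neg_ne (z : Lit n) : neg z ≠ z := by
  intro h
  have h1 : z.2 + 1 = z.2 := congrArg Prod.snd h
  have h2 : ∀ a : ZMod 2, a + 1 ≠ a := by decide
  exact h2 _ h1

theorem neg_inj {z z' : Lit n} (h : neg z = neg z') : z = z' := by
  rw [← neg_neg' z, h, neg_neg']

theorem eq_or_neg {z z' : Lit n} (h : z'.1 = z.1) : z' = z ∨ z' = neg z := by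
  have h2 : ∀ a b : ZMod 2, a = b ∨ a = b + 1 := by decide
  rcases h2 z'.2 z.2 with h3 | h3
  · exact Or.inl (Prod.ext h h3)
  · exact Or.inr (Prod.ext h h3)

theorem Has.symm {z z' : Lit n} (h : Has F z z') : Has F z' z := by
  obtain ⟨e, he, h1 | h1⟩ := h
  · exact ⟨e, he, Or.inr h1⟩
  · exact ⟨e, he, Or.inl h1⟩

theorem Has.ne {z z' : Lit n} (h : Has F z z') : z.1 ≠ z'.1 := by
  obtain ⟨e, he, h1 | h1⟩ := h
  · have := e.2
    rw [h1] at this
    exact ne_of_lt this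
  · have := e.2
    rw [h1] at this
    exact (ne_of_lt this).symm

theorem Has.mono {F' : Finset (Cl n)} (hF : F ⊆ F') {z z' : Lit n} (h : Has F z z') :
    Has F' z z' := by
  obtain ⟨e, he, h1⟩ := h
  exact ⟨e, hF he, h1⟩

theorem Imp.ne {z z' : Lit n} (h : Imp F z z') : z.1 ≠ z'.1 := by
  have := Has.ne h
  exact this

theorem Imp.contra {z z' : Lit n} (h : Imp F z z') : Imp F (neg z') (neg z) := by
  unfold Imp at h ⊢
  rw [neg_neg']
  exact h.symm

theorem mem_R_self (z : Lit n) : z ∈ R F z := Relation.ReflTransGen.refl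

theorem mem_R_trans {z z' z'' : Lit n} (h : z' ∈ R F z) (h' : z'' ∈ R F z') : z'' ∈ R F z :=
  Relation.ReflTransGen.trans h h'

theorem mem_R_step {z z' z'' : Lit n} (h : z' ∈ R F z) (h' : Imp F z' z'') : z'' ∈ R F z :=
  Relation.ReflTransGen.tail h h'

theorem R_contra {z z' : Lit n} (h : z' ∈ R F z) : neg z ∈ R F (neg z') := by
  have h0 : Relation.ReflTransGen (Imp F) z z' := h
  clear h
  induction h0 with
  | refl => exact mem_R_self _
  | tail _ h2 ih =>
    have h3 : Imp F (neg _) (neg _) := h2.contra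
    exact Relation.ReflTransGen.head h3 ih

theorem Adj.symm {u v : Fin n} (h : Adj F u v) : Adj F v u := by
  obtain ⟨a, b, h⟩ := h
  exact ⟨b, a, Has.symm h⟩

theorem Adj.ne {u v : Fin n} (h : Adj F u v) : u ≠ v := by
  obtain ⟨a, b, h⟩ := h
  exact Has.ne h

/-- The clause which excludes `z` and `z'`. -/
def mkCl (z z' : Lit n) (h : z.1 ≠ z'.1) : Cl n :=
  if h1 : z.1 < z'.1 then ⟨(z, z'), h1⟩ else ⟨(z', z), lt_of_le_of_ne (not_lt.1 h1) h.symm⟩

theorem mkCl_val (z z' : Lit n) (h : z.1 ≠ z'.1) :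
    (mkCl z z' h).1 = (z, z') ∨ (mkCl z z' h).1 = (z', z) := by
  unfold mkCl
  split_ifs
  · exact Or.inl rfl
  · exact Or.inr rfl

theorem eq_mkCl {z z' : Lit n} (h : z.1 ≠ z'.1) {e : Cl n}
    (he : e.1 = (z, z') ∨ e.1 = (z', z)) : e = mkCl z z' h := by
  apply Subtype.ext
  have h2 := e.2
  rcases he with h1 | h1
  · rw [h1] at h2 ⊢
    unfold mkCl
    rw [dif_pos h2]
  · rw [h1] at h2 ⊢
    unfold mkCl
    rw [dif_neg (not_lt.2 (le_of_lt h2))]

theorem has_iff {z z' : Lit n} (h : z.1 ≠ z'.1) : Has F z z' ↔ mkCl z z' h ∈ F := by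
  constructor
  · rintro ⟨e, he, h1⟩
    rw [← eq_mkCl h h1]
    exact he
  · intro h1
    exact ⟨_, h1, mkCl_val z z' h⟩

theorem mem_cross {S S' : Finset (Fin n)} {e : Cl n} : e ∈ cross F S S' ↔ e ∈ F ∧
    ¬ (e.1.1.1 ∈ S \ S' ∧ e.1.2.1 ∈ S \ S') ∧ ¬ (e.1.1.1 ∈ S' \ S ∧ e.1.2.1 ∈ S' \ S) := by
  unfold cross
  rw [Finset.mem_filter]

theorem mem_meet {Z : Finset (Fin n)} {e : Cl n} :
    e ∈ meet F Z ↔ e ∈ F ∧ (e.1.1.1 ∈ Z ∨ e.1.2.1 ∈ Z) := by
  unfold meet
  rw [Finset.mem_filter]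

theorem mem_betw {Z Z' : Finset (Fin n)} {e : Cl n} :
    e ∈ betw F Z Z' ↔ e ∈ F ∧ ((e.1.1.1 ∈ Z ∧ e.1.2.1 ∈ Z') ∨ (e.1.1.1 ∈ Z' ∧ e.1.2.1 ∈ Z)) := by
  unfold betw
  rw [Finset.mem_filter]

end lit

/-! ### Probability -/

section pr

variable {α : Type} [Fintype α] [DecidableEq α]

theorem Pr_congr {p : ℝ} {P Q : Finset α → Prop} (h : ∀ E, P E ↔ Q E) : Pr p P = Pr p Q := by
  have : P = Q := funext fun E => propext (h E)
  rw [this]

theorem sum_wt (p : ℝ) : ∑ F : Finset α, wt p F = 1 := by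
  have := mgf p 1 (∅ : Finset α)
  simpa using this

theorem Pr_add_not (p : ℝ) (P : Finset α → Prop) : Pr p P + Pr p (fun F => ¬ P F) = 1 := by
  rw [← sum_wt (α := α) p]
  unfold Pr
  rw [← Finset.sum_add_distrib]
  apply Finset.sum_congr rfl
  intro E _
  by_cases h : P E
  · rw [ind_of h, ind_not (Bad := fun F => ¬ P F) (not_not.2 h), add_zero]
  · rw [ind_not h, ind_of (Bad := fun F => ¬ P F) h, zero_add]

theorem Pr_nonneg {p : ℝ} (h0 : 0 ≤ p) (h1 : p ≤ 1) (P : Finset α → Prop) : 0 ≤ Pr p P :=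
  Finset.sum_nonneg fun E _ => ind_nonneg h0 h1 P E

theorem Pr_le_one {p : ℝ} (h0 : 0 ≤ p) (h1 : p ≤ 1) (P : Finset α → Prop) : Pr p P ≤ 1 := by
  have := Pr_add_not p P
  have h2 := Pr_nonneg h0 h1 (fun F => ¬ P F)
  linarith

end pr

theorem prob_nonneg {α : ℝ} (hα : 0 ≤ α) {n : ℕ} (hn : 2 ≤ n) : 0 ≤ prob α n := by
  unfold prob
  have : (2 : ℝ) ≤ n := by exact_mod_cast hn
  apply div_nonneg hα
  linarith

theorem tendsto_prob (α : ℝ) : Tendsto (fun n : ℕ => prob α n) atTop (𝓝 0) := by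
  unfold prob
  apply Tendsto.div_atTop tendsto_const_nhds
  apply Tendsto.const_mul_atTop (by norm_num : (0 : ℝ) < 2)
  exact tendsto_atTop_add_const_right _ _ tendsto_natCast_atTop_atTop

theorem eventually_prob_le (α : ℝ) {q : ℝ} (hq : 0 < q) : ∀ᶠ n : ℕ in atTop, prob α n ≤ q := by
  have := (tendsto_prob α).eventually (ge_mem_nhds hq)
  exact this

theorem eventually_prob (α : ℝ) (hα : 0 ≤ α) :
    ∀ᶠ n : ℕ in atTop, 2 ≤ n ∧ 0 ≤ prob α n ∧ prob α n ≤ 1 := by
  filter_upwards [eventually_prob_le α one_pos, eventually_ge_atTop 2] with n h1 h2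
  exact ⟨h2, prob_nonneg hα h2, h1⟩

/-- A bound of the probability of the complement. -/
theorem whp_of_le {α : ℝ} (hα : 0 ≤ α) {P : ∀ n : ℕ, Finset (Cl n) → Prop} {u : ℕ → ℝ}
    (hu : Tendsto u atTop (𝓝 0))
    (h : ∀ᶠ n : ℕ in atTop, Pr (prob α n) (fun F => ¬ P n F) ≤ u n) : Whp α P := by
  unfold Whp
  have h1 : Tendsto (fun n => 1 - u n) atTop (𝓝 1) := by
    have := hu.const_sub 1
    simpa using this
  refine tendsto_of_tendsto_of_tendsto_of_le_of_le' h1 tendsto_const_nhds ?_ ?_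
  · filter_upwards [h] with n hn
    have := Pr_add_not (prob α n) (P n)
    linarith
  · filter_upwards [eventually_prob α hα] with n hn
    exact Pr_le_one hn.2.1 hn.2.2 _

/-- The complement has small probability. -/
theorem Whp.tendsto_not {α : ℝ} {P : ∀ n : ℕ, Finset (Cl n) → Prop} (h : Whp α P) :
    Tendsto (fun n : ℕ => Pr (prob α n) (fun F => ¬ P n F)) atTop (𝓝 0) := by
  have h1 : (fun n : ℕ => Pr (prob α n) (fun F => ¬ P n F)) =
      fun n : ℕ => 1 - Pr (prob α n) (P n) := by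
    funext n
    have := Pr_add_not (prob α n) (P n)
    linarith
  rw [h1]
  have := h.const_sub 1
  simpa using this

theorem Whp.mono {α : ℝ} (hα : 0 ≤ α) {P Q : ∀ n : ℕ, Finset (Cl n) → Prop} (h : Whp α P)
    (hPQ : ∀ᶠ n : ℕ in atTop, ∀ F, P n F → Q n F) : Whp α Q := by
  apply whp_of_le hα h.tendsto_not
  filter_upwards [hPQ, eventually_prob α hα] with n hn hp
  exact Pr_mono hp.2.1 hp.2.2 fun F hF hP => hF (hn F hP)

theorem Whp.and {α : ℝ} (hα : 0 ≤ α) {P Q : ∀ n : ℕ, Finset (Cl n) → Prop} (h : Whp α P)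
    (h' : Whp α Q) : Whp α (fun n F => P n F ∧ Q n F) := by
  have h1 := h.tendsto_not.add h'.tendsto_not
  rw [add_zero] at h1
  apply whp_of_le hα h1
  filter_upwards [eventually_prob α hα] with n hp
  refine le_trans (Pr_mono hp.2.1 hp.2.2 (Q := fun F => ¬ P n F ∨ ¬ Q n F) fun F hF => ?_)
    (Pr_or_le hp.2.1 hp.2.2 _ _)
  exact not_and_or.1 hF

theorem Whp.true {α : ℝ} (hα : 0 ≤ α) : Whp α fun _ _ => True := by
  apply whp_of_le hα (u := fun _ => 0) tendsto_const_nhds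
  filter_upwards [eventually_prob α hα] with n hp
  have := Pr_add_not (prob α n) (fun _ : Finset (Cl n) => True)
  rw [Pr_true] at this
  linarith

/-- Finitely many events. -/
theorem Whp.all {α : ℝ} (hα : 0 ≤ α) {ι : Type*} (I : Finset ι)
    {P : ι → ∀ n : ℕ, Finset (Cl n) → Prop} (h : ∀ i ∈ I, Whp α (P i)) :
    Whp α (fun n F => ∀ i ∈ I, P i n F) := by
  classical
  induction I using Finset.induction_on with
  | empty =>
    apply (Whp.true hα).mono hα
    exact Eventually.of_forall fun n F _ i hi => absurd hi (Finset.notMem_empty i)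
  | insert a s ha ih =>
    apply ((h a (Finset.mem_insert_self _ _)).and hα
      (ih fun i hi => h i (Finset.mem_insert_of_mem hi))).mono hα
    refine Eventually.of_forall fun n F hF i hi => ?_
    rcases Finset.mem_insert.1 hi with rfl | h1
    · exact hF.1
    · exact hF.2 i h1

end Pool.Agent.R2
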