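import Mathlib
import Pool.Agent.R2.Basic

/-!
# Random 2-CNF formulas: assembly
-/

namespace Pool.Agent.R2

open Finset Pool.Agent.Helper56.Iso Pool.Agent.Dichotomy Filter Topology

theorem Easy.mono {n : ℕ} {F : Finset (Cl n)} {B B' : ℝ} (h : Easy F B) (hB : B ≤ B') :
    Easy F B' := by
  obtain ⟨g, i, rk, M, top, h1, h2, h3⟩ := h
  exact ⟨g, i, rk, M, top, h1, h2, h3.trans hB⟩

theorem assemble_easy (hSub : St_Sub) (hPrg : St_Prg) (α : ℝ) (h0 : 0 < α) (h1 : α < 1 / 2) :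
    ∃ C : ℕ, Whp α fun n F => Easy F ((n : ℝ) ^ C) := by
  obtain ⟨B, hB, hW⟩ := hSub α h0 h1
  -- `2 ^ (B log n) ≤ n ^ k`
  obtain ⟨k, hk⟩ := exists_nat_ge (B * Real.log 2)
  refine ⟨k + 4, hW.mono h0.le ?_⟩
  filter_upwards [eventually_ge_atTop 2] with n hn F hF
  have hn' : (2 : ℝ) ≤ n := by exact_mod_cast hn
  have hn0 : (0 : ℝ) < n := by linarith
  have hlog : 0 ≤ Real.log n := Real.log_nonneg (by linarith)
  have h2 : ∀ Q : Finset (Fin n), Conn F Q → Q.card ≤ ⌊B * Real.log n⌋₊ := fun Q hQ =>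
    Nat.le_floor (hF Q hQ)
  apply (hPrg F _ h2).mono
  have h3 : (2 : ℝ) ^ ⌊B * Real.log n⌋₊ ≤ (n : ℝ) ^ k := by
    have h4 : ((⌊B * Real.log n⌋₊ : ℕ) : ℝ) ≤ B * Real.log n :=
      Nat.floor_le (mul_nonneg hB.le hlog)
    calc (2 : ℝ) ^ ⌊B * Real.log n⌋₊ = (2 : ℝ) ^ ((⌊B * Real.log n⌋₊ : ℕ) : ℝ) :=
          (Real.rpow_natCast _ _).symm
      _ ≤ (2 : ℝ) ^ (B * Real.log n) := Real.rpow_le_rpow_of_exponent_le (by norm_num) h4
      _ = Real.exp (Real.log 2 * (B * Real.log n)) := Real.rpow_def_of_pos (by norm_num) _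
      _ ≤ Real.exp (Real.log n * k) := by
          apply Real.exp_le_exp.2
          have : Real.log 2 * (B * Real.log n) = Real.log n * (B * Real.log 2) := by ring
          rw [this]
          exact mul_le_mul_of_nonneg_left hk hlog
      _ = (n : ℝ) ^ k := by
          rw [← Real.rpow_natCast, Real.rpow_def_of_pos hn0]
  have h5 : (1 : ℝ) ≤ (n : ℝ) ^ k := one_le_pow₀ (by linarith)
  calc ((n : ℝ) + 1) * (2 ^ ⌊B * Real.log n⌋₊ + 3) ≤ (n * 2) * ((n : ℝ) ^ k + 3) := by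
        apply mul_le_mul _ (by linarith) (by positivity) (by positivity)
        linarith
    _ ≤ (n * n) * ((n : ℝ) ^ k * 4) := by
        apply mul_le_mul _ (by linarith) (by positivity) (by positivity)
        exact mul_le_mul_of_nonneg_left hn' hn0.le
    _ ≤ (n * n) * ((n : ℝ) ^ k * (n * n)) := by
        apply mul_le_mul_of_nonneg_left _ (by positivity)
        apply mul_le_mul_of_nonneg_left _ (by positivity)
        nlinarith
    _ = (n : ℝ) ^ (k + 4) := by ring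

theorem assemble_hard (hGnt : St_Gnt) (hBad : St_BadS) (hGood : St_GoodE) (hDet : St_Det)
    (hSatD : St_SatD) (hSatP : St_SatP) (α : ℝ) (h0 : 1 / 2 < α) (h1 : α < 1) :
    ∃ c : ℝ, 0 < c ∧ Whp α fun n F => (SOL F).Nonempty ∧
      Hard F ((2 : ℝ) ^ (-(c * n))) ((2 : ℝ) ^ (c * n)) := by
  have hα : 0 < α := by linarith
  obtain ⟨b, hb, hX⟩ := hGnt α h0
  obtain ⟨J1, K1, hJ1, hK1, hW1⟩ := hBad α (b / 2) hα h1 (by linarith)
  obtain ⟨ε, hε, hD⟩ := hDet b J1 K1 hb hJ1 hK1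
  obtain ⟨ρ, hρ, hW2⟩ := hX ε hε
  obtain ⟨J2, K2, D, hJ2, hK2, hD1, hW3⟩ := hGood α (ρ / 2) hα h1 (by linarith)
  obtain ⟨c, hc, n0, hfin⟩ := hD ρ hρ J2 K2 D hJ2 hK2 hD1
  refine ⟨c, hc, ?_⟩
  apply (((hW1.and hα.le hW2).and hα.le hW3).and hα.le (hSatP α hα h1)).mono hα.le
  filter_upwards [eventually_ge_atTop n0] with n hn F hF
  obtain ⟨⟨⟨hF1, hF2⟩, hF3⟩, hF4⟩ := hF
  constructor
  · by_contra hcon
    exact hF4 (hSatD F (Set.not_nonempty_iff_eq_empty.1 hcon))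
  · apply hfin n hn F hF2
    · refine hF1.trans (le_of_eq ?_)
      ring
    · refine hF3.trans (le_of_eq ?_)
      ring

end Pool.Agent.R2
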