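import Mathlib
import Pool.Agent.R2.Basic

/-!
# Few variables are bad
-/

namespace Pool.Agent.R2

open Finset Pool.Agent.Helper56.Iso Pool.Agent.Dichotomy Filter Topology

theorem thm_BadS (hCnt : St_Cnt) (hPC : St_PC) (hCC : St_CC) : St_BadS := by
  intro α γ hα hα1 hγ
  have hex : ∃ m : ℕ, α ^ m < γ / 9 := exists_pow_lt_of_lt_one (by positivity) hα1
  obtain ⟨m, hm⟩ := hex
  set J : ℕ := m + 1 with hJ
  have hJ1 : 1 ≤ J := Nat.succ_le_succ (Nat.zero_le m)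
  have hJpow : 3 * α ^ J ≤ γ / 3 := by
    have h1 : α ^ J ≤ α ^ m := pow_le_pow_of_le_one hα.le hα1.le (Nat.le_succ m)
    linarith
  have hJr : (0 : ℝ) < J := by exact_mod_cast hJ1
  set K : ℕ := ⌈9 * (J : ℝ) / γ⌉₊ + 1 with hK
  have hK1 : 1 ≤ K := Nat.succ_le_succ (Nat.zero_le _)
  have hKr : (0 : ℝ) < K := by exact_mod_cast hK1
  have hKγ : 3 * (J : ℝ) ≤ K * (γ / 3) := by
    have h1 : 9 * (J : ℝ) / γ ≤ K := by
      rw [hK]
      push_cast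
      have h2 := Nat.le_ceil (9 * (J : ℝ) / γ)
      linarith
    have h3 : 9 * (J : ℝ) ≤ K * γ := (div_le_iff₀ hγ).1 h1
    linarith
  refine ⟨J, K, hJ1, hK1, ?_⟩
  have e1 : Whp α fun n F => (Y F J : ℝ) ≤ 3 * n * α ^ J := hPC α J hα
  have e2 : Whp α fun n F => ∀ r ∈ range J, (Cy F r : ℝ) ≤ γ / (3 * J) * n :=
    Whp.all hα.le (range J) (P := fun r n F => (Cy F r : ℝ) ≤ γ / (3 * J) * n)
      (fun r _ => hCC α r (γ / (3 * J)) hα (by positivity))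
  have e3 : Whp α fun n F => ∀ r ∈ range J, (Y F r : ℝ) ≤ 3 * n * α ^ r :=
    Whp.all hα.le (range J) (P := fun r n F => (Y F r : ℝ) ≤ 3 * n * α ^ r)
      (fun r _ => hPC α r hα)
  have e4 := (e1.and hα.le e2).and hα.le e3
  refine e4.mono hα.le (Eventually.of_forall (fun n F hF => ?_))
  obtain ⟨⟨h1, h2⟩, h3⟩ := hF
  have h4 := hCnt F J K hJ1
  have hn : (0 : ℝ) ≤ n := Nat.cast_nonneg n
  have h5 : ∑ r ∈ range J, (Cy F r : ℝ) ≤ γ / 3 * n := by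
    calc ∑ r ∈ range J, (Cy F r : ℝ) ≤ ∑ _r ∈ range J, γ / (3 * J) * n := Finset.sum_le_sum h2
      _ = γ / 3 * n := by
        rw [Finset.sum_const, Finset.card_range, nsmul_eq_mul]
        field_simp
  have h6 : ∑ r ∈ range J, (Y F r : ℝ) ≤ 3 * J * n := by
    have h7 : ∀ r ∈ range J, (Y F r : ℝ) ≤ 3 * n := by
      intro r hr
      have h8 : α ^ r ≤ 1 := pow_le_one₀ hα.le hα1.le
      calc (Y F r : ℝ) ≤ 3 * n * α ^ r := h3 r hr
        _ ≤ 3 * n * 1 := mul_le_mul_of_nonneg_left h8 (by positivity)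
        _ = 3 * n := mul_one _
    calc ∑ r ∈ range J, (Y F r : ℝ) ≤ ∑ _r ∈ range J, 3 * (n : ℝ) := Finset.sum_le_sum h7
      _ = 3 * J * n := by
        rw [Finset.sum_const, Finset.card_range, nsmul_eq_mul]
        ring
  have h9 : (Y F J : ℝ) ≤ γ / 3 * n := by
    calc (Y F J : ℝ) ≤ 3 * n * α ^ J := h1
      _ = 3 * α ^ J * n := by ring
      _ ≤ γ / 3 * n := mul_le_mul_of_nonneg_right hJpow hn
  have h10 : (K : ℝ) * ((Y F J : ℝ) + ∑ r ∈ range J, (Cy F r : ℝ)) ≤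
      K * (γ / 3 * n + γ / 3 * n) :=
    mul_le_mul_of_nonneg_left (add_le_add h9 h5) hKr.le
  have h11 : 3 * (J : ℝ) * n ≤ K * (γ / 3) * n := mul_le_mul_of_nonneg_right hKγ hn
  have h12 : (K : ℝ) * ({v : Fin n | Bad F J K v}.ncard : ℝ) ≤ K * (γ * n) := by
    calc (K : ℝ) * ({v : Fin n | Bad F J K v}.ncard : ℝ)
        ≤ K * (Y F J + ∑ r ∈ range J, (Cy F r : ℝ)) + ∑ r ∈ range J, (Y F r : ℝ) := h4
      _ ≤ K * (γ / 3 * n + γ / 3 * n) + K * (γ / 3) * n := add_le_add h10 (h6.trans h11)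
      _ = K * (γ * n) := by ring
  exact le_of_mul_le_mul_left h12 hKr

end Pool.Agent.R2
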