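import Mathlib
import Pool.Agent.R2.Basic
import Pool.Agent.Helper34.XTW.Sumset

/-!
# Sumsets inside the solutions
-/

namespace Pool.Agent.R2

open Finset Pool.Agent.Helper56.Iso Pool.Agent.Dichotomy Filter Topology
open Pool.Agent.Helper34.XTW (free edge_lemma zmod2_cases switch)

/-- Greedy choice. -/
theorem bet_far {ι : Type*} [DecidableEq ι] (I : Finset ι) (conf : ι → ι → Prop) :
    ∃ M ⊆ I, (∀ i ∈ M, ∀ j ∈ M, i ≠ j → ¬ conf i j ∧ ¬ conf j i) ∧
      ∀ i ∈ I, ∃ j ∈ M, i = j ∨ conf i j ∨ conf j i := by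
  classical
  obtain ⟨F, hF⟩ : ∃ F : Finset (Finset ι), ∀ M, M ∈ F ↔ M ⊆ I ∧
      ∀ i ∈ M, ∀ j ∈ M, i ≠ j → ¬ conf i j ∧ ¬ conf j i :=
    ⟨I.powerset.filter fun M => ∀ i ∈ M, ∀ j ∈ M, i ≠ j → ¬ conf i j ∧ ¬ conf j i, by
      intro M; rw [mem_filter, mem_powerset]⟩
  obtain ⟨M, hM⟩ := Finset.exists_maximal (s := F) ⟨∅, by rw [hF]; simp⟩
  have hM0 : M ∈ F := hM.1
  have hM1 := (hF M).mp hM0
  refine ⟨M, hM1.1, hM1.2, ?_⟩
  intro i hi
  by_contra hcon
  push Not at hcon
  have hiM : i ∉ M := fun h => (hcon i h).1 rfl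
  have h2 : insert i M ∈ F := by
    rw [hF]
    refine ⟨Finset.insert_subset hi hM1.1, ?_⟩
    intro a ha b hb hab
    rw [mem_insert] at ha hb
    rcases ha with rfl | ha
    · rcases hb with rfl | hb
      · exact absurd rfl hab
      · exact (hcon b hb).2
    · rcases hb with rfl | hb
      · exact ⟨(hcon a ha).2.2, (hcon a ha).2.1⟩
      · exact hM1.2 a ha b hb hab
  have h3 := hM.2 h2 (Finset.subset_insert _ _)
  exact hiM (h3 (mem_insert_self _ _))

theorem bet_notbad {n : ℕ} {F : Finset (Cl n)} {J K : ℕ} {v : Fin n} (h : ¬ Bad F J K v)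
    (a : ZMod 2) :
    (¬ ∃ w : Fin (J + 1) → Lit n, IsPath F w ∧ w 0 = (v, a)) ∧
    (¬ ∃ r < J, ∃ (w : Fin (r + 1) → Lit n) (i : Fin r) (z1 z2 : Lit n),
      IsCyc F w i z1 z2 ∧ w 0 = (v, a)) ∧ (R F (v, a)).ncard ≤ K := by
  refine ⟨fun h1 => h ⟨a, Or.inl h1⟩, fun h1 => h ⟨a, Or.inr (Or.inl h1)⟩, ?_⟩
  by_contra h1
  exact h ⟨a, Or.inr (Or.inr (not_le.1 h1))⟩

open Classical in
/-- The variables of a set of literals. -/
noncomputable def bet_vars {n : ℕ} (T : Set (Lit n)) : Finset (Fin n) :=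
  univ.filter fun w => ∃ c, (w, c) ∈ T

theorem bet_mem_vars {n : ℕ} {T : Set (Lit n)} {w : Fin n} :
    w ∈ bet_vars T ↔ ∃ c, (w, c) ∈ T := by
  classical
  unfold bet_vars
  simp

theorem bet_vars_card {n : ℕ} (T : Set (Lit n)) : (bet_vars T).card ≤ T.ncard := by
  classical
  have h : (bet_vars T : Set (Fin n)) ⊆ Prod.fst '' T := by
    intro w hw
    obtain ⟨c, hc⟩ := bet_mem_vars.1 (Finset.mem_coe.1 hw)
    exact ⟨_, hc, rfl⟩
  rw [← Set.ncard_coe_finset]
  exact (Set.ncard_le_ncard h (Set.toFinite _)).trans (Set.ncard_image_le (Set.toFinite _))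

theorem bet_missing {n : ℕ} {F : Finset (Cl n)} {U U' : Set (Fin n → ZMod 2)}
    {S S' : Finset (Fin n)} (hUU : ∀ x ∈ U, ∀ y ∈ U', x + y ∈ SOL F)
    (hS : ∀ v, v ∈ S ↔ ∃ x ∈ U, ∃ y ∈ U, x v ≠ y v)
    (hS' : ∀ v, v ∈ S' ↔ ∃ x ∈ U', ∃ y ∈ U', x v ≠ y v) {e : Cl n} (he : e ∈ cross F S S') :
    ∃ p : ZMod 2 × ZMod 2, p ≠ (e.1.1.2, e.1.2.2) ∧
      ∀ x ∈ U, ∀ y ∈ U', ¬ ((x + y) e.1.1.1 = p.1 ∧ (x + y) e.1.2.1 = p.2) := by
  classical
  rw [mem_cross] at he
  obtain ⟨heF, he1, he2⟩ := he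
  by_contra hcon
  push Not at hcon
  have huv : e.1.1.1 ≠ e.1.2.1 := ne_of_lt e.2
  have h01 : ∀ a b : ZMod 2, a + b ≠ 1 → b = a := by decide
  have h02 : ∀ a b c : ZMod 2, b = c + a → a + b = c := by decide
  set t : Fin n → ZMod 2 := fun w => if w = e.1.1.1 then e.1.1.2 else
    if w = e.1.2.1 then e.1.2.2 else 0 with ht
  have htu : t e.1.1.1 = e.1.1.2 := by simp [ht]
  have htv : t e.1.2.1 = e.1.2.2 := by
    simp [ht, huv.symm]
  have hfree : ∀ w, w ∈ free ((fun x => t + x) '' U) ↔ w ∈ S := by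
    intro w
    rw [hS]
    constructor
    · rintro ⟨_, ⟨x, hx, rfl⟩, _, ⟨y, hy, rfl⟩, h⟩
      refine ⟨x, hx, y, hy, fun h' => h ?_⟩
      simp only [Pi.add_apply]
      rw [h']
    · rintro ⟨x, hx, y, hy, h⟩
      refine ⟨_, ⟨x, hx, rfl⟩, _, ⟨y, hy, rfl⟩, fun h' => h ?_⟩
      simp only [Pi.add_apply] at h'
      exact add_left_cancel h'
  have hfree' : ∀ w, w ∈ free U' ↔ w ∈ S' := fun w => (hS' w).symm
  rcases edge_lemma (U := (fun x => t + x) '' U) (U' := U') (u := e.1.1.1) (v := e.1.2.1)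
    (by
      rintro _ ⟨x, hx, rfl⟩ y hy
      by_contra h
      push Not at h
      have h1 := hUU x hx y hy e heF
      apply h1
      have e1 : (t + x + y) e.1.1.1 = e.1.1.2 + (x + y) e.1.1.1 := by
        simp only [Pi.add_apply, htu, add_assoc]
      have e2 : (t + x + y) e.1.2.1 = e.1.2.2 + (x + y) e.1.2.1 := by
        simp only [Pi.add_apply, htv, add_assoc]
      exact ⟨h01 _ _ (by rw [← e1]; exact h.1), h01 _ _ (by rw [← e2]; exact h.2)⟩)
    (by
      intro a b hab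
      have hne : (a + e.1.1.2, b + e.1.2.2) ≠ (e.1.1.2, e.1.2.2) := by
        intro h
        have h1 : a + e.1.1.2 = e.1.1.2 := congrArg Prod.fst h
        have h2 : b + e.1.2.2 = e.1.2.2 := congrArg Prod.snd h
        have h3 : a = 0 := by simpa using h1
        have h4 : b = 0 := by simpa using h2
        rw [h3, h4] at hab
        rcases hab with h | h <;> exact absurd h (by decide)
      obtain ⟨x, hx, y, hy, h1, h2⟩ := hcon _ hne
      refine ⟨_, ⟨x, hx, rfl⟩, y, hy, ?_, ?_⟩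
      · have e1 : (t + x + y) e.1.1.1 = e.1.1.2 + (x + y) e.1.1.1 := by
          simp only [Pi.add_apply, htu, add_assoc]
        change (t + x + y) e.1.1.1 = a
        rw [e1]
        exact h02 _ _ _ h1
      · have e2 : (t + x + y) e.1.2.1 = e.1.2.2 + (x + y) e.1.2.1 := by
          simp only [Pi.add_apply, htv, add_assoc]
        change (t + x + y) e.1.2.1 = b
        rw [e2]
        exact h02 _ _ _ h2) with h | h
  · rw [hfree, hfree', hfree, hfree'] at h
    exact he1 ⟨Finset.mem_sdiff.2 h.1, Finset.mem_sdiff.2 h.2⟩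
  · rw [hfree, hfree', hfree, hfree'] at h
    exact he2 ⟨Finset.mem_sdiff.2 h.1, Finset.mem_sdiff.2 h.2⟩

theorem bet_cons (hCls : St_Cls) {n : ℕ} {F : Finset (Cl n)} {J K : ℕ} (hJ : 1 ≤ J) {e : Cl n}
    (he : e ∈ F) (h1 : ¬ Bad F J K e.1.1.1) (h2 : ¬ Bad F J K e.1.2.1) {p : ZMod 2 × ZMod 2}
    (hp : p ≠ (e.1.1.2, e.1.2.2)) :
    Cons (R F (e.1.1.1, p.1) ∪ R F (e.1.2.1, p.2)) := by
  obtain ⟨b1, b2, -⟩ := bet_notbad h1 p.1
  obtain ⟨b3, b4, -⟩ := bet_notbad h2 p.2
  obtain ⟨-, c1, c2⟩ := hCls F J (e.1.1.1, p.1) hJ b1 b2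
  obtain ⟨-, c3, -⟩ := hCls F J (e.1.2.1, p.2) hJ b3 b4
  have hno : ∀ z, z ∈ R F (e.1.1.1, p.1) → neg z ∈ R F (e.1.2.1, p.2) → False := by
    intro z hz hz'
    have d1 := R_contra hz'
    rw [neg_neg'] at d1
    have d2 : neg (e.1.2.1, p.2) ∈ R F (e.1.1.1, p.1) := mem_R_trans hz d1
    refine c2 (e.1.2.1, p.2) e.1.1 e.1.2 ⟨e, he, Or.inl rfl⟩ rfl rfl ?_ d2
    intro h
    apply hp
    have d3 : e.1.1 = (e.1.1.1, p.1) := congrArg Prod.fst h
    have d4 : e.1.2 = (e.1.2.1, p.2) := congrArg Prod.snd h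
    have d5 : e.1.1.2 = p.1 := congrArg Prod.snd d3
    have d6 : e.1.2.2 = p.2 := congrArg Prod.snd d4
    exact Prod.ext d5.symm d6.symm
  rintro z (hz | hz) (hz' | hz')
  · exact c1 z hz hz'
  · exact hno z hz hz'
  · refine hno (neg z) hz' ?_
    rw [neg_neg']
    exact hz
  · exact c3 z hz hz'

theorem thm_Bet (hOv : St_Ov) (hCls : St_Cls) : St_Bet := by
  classical
  intro n F J K D E U U' S S' hJ hUU hS hS' hE hgood
  have hmiss : ∀ e ∈ E, ∃ p : ZMod 2 × ZMod 2, p ≠ (e.1.1.2, e.1.2.2) ∧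
      ∀ x ∈ U, ∀ y ∈ U', ¬ ((x + y) e.1.1.1 = p.1 ∧ (x + y) e.1.2.1 = p.2) :=
    fun e he => bet_missing hUU hS hS' (hE he)
  choose! p hp1 hp2 using hmiss
  have hEF : ∀ e ∈ E, e ∈ F := fun e he => (mem_cross.1 (hE he)).1
  set T : Cl n → Set (Lit n) := fun e =>
    R F (e.1.1.1, (p e).1) ∪ R F (e.1.2.1, (p e).2) with hT
  set core : Cl n → Finset (Fin n) := fun e => {e.1.1.1, e.1.2.1} with hcore
  set nb : Cl n → Finset (Fin n) := fun e => bet_vars (T e) with hnb
  have hcu : ∀ e, e.1.1.1 ∈ core e := fun e => by simp [hcore]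
  have hcv : ∀ e, e.1.2.1 ∈ core e := fun e => by simp [hcore]
  have hK1 : ∀ e ∈ E, ∀ x ∈ core e, ¬ Bad F J K x := by
    intro e he x hx
    simp only [hcore, mem_insert, mem_singleton] at hx
    rcases hx with rfl | rfl
    · exact (hgood e he).1.1
    · exact (hgood e he).1.2
  have hD1 : ∀ e ∈ E, ∀ x ∈ core e, (meet F {x}).card ≤ D := by
    intro e he x hx
    simp only [hcore, mem_insert, mem_singleton] at hx
    rcases hx with rfl | rfl
    · exact (hgood e he).2.1
    · exact (hgood e he).2.2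
  have hmeet : ∀ e ∈ E, ∀ x ∈ core e, e ∈ meet F {x} := by
    intro e he x hx
    rw [mem_meet]
    simp only [hcore, mem_insert, mem_singleton] at hx ⊢
    refine ⟨hEF e he, ?_⟩
    rcases hx with rfl | rfl
    · exact Or.inl rfl
    · exact Or.inr rfl
  have hnbcard : ∀ e ∈ E, (nb e).card ≤ 2 * K := by
    intro e he
    refine (bet_vars_card _).trans ((Set.ncard_union_le _ _).trans ?_)
    have h1 := (bet_notbad (hK1 e he _ (hcu e)) (p e).1).2.2
    have h2 := (bet_notbad (hK1 e he _ (hcv e)) (p e).2).2.2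
    omega
  -- the set of clauses at a variable of small degree
  set ms : Fin n → Finset (Cl n) := fun w => if (meet F {w}).card ≤ D then meet F {w} else ∅
    with hms
  have hmscard : ∀ w, (ms w).card ≤ D := by
    intro w
    simp only [hms]
    split_ifs with h
    · exact h
    · simp
  have hmsmem : ∀ f ∈ E, ∀ w ∈ core f, f ∈ ms w := by
    intro f hf w hw
    simp only [hms]
    rw [if_pos (hD1 f hf w hw)]
    exact hmeet f hf w hw
  set W : Fin n → Finset (Fin n) := fun x => bet_vars (R F (x, 0)) ∪ bet_vars (R F (x, 1))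
    with hW
  obtain ⟨M, hME, hM1, hM2⟩ := bet_far E (fun e f => ¬ Disjoint (core e) (nb f))
  -- counting
  have hcard : E.card ≤ M.card * (6 * K * D) := by
    have h1 : E ⊆ M.biUnion fun e => (nb e).biUnion ms ∪
        (core e).biUnion fun x => (W x).biUnion ms := by
      intro f hf
      obtain ⟨e, he, h⟩ := hM2 f hf
      rw [mem_biUnion]
      refine ⟨e, he, ?_⟩
      have heE := hME he
      have key : ¬ Disjoint (core f) (nb e) → f ∈ (nb e).biUnion ms := by
        intro h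
        rw [Finset.not_disjoint_iff] at h
        obtain ⟨w, hw1, hw2⟩ := h
        exact mem_biUnion.2 ⟨w, hw2, hmsmem f hf w hw1⟩
      rcases h with rfl | h | h
      · apply mem_union_left
        apply key
        rw [Finset.not_disjoint_iff]
        refine ⟨f.1.1.1, hcu f, ?_⟩
        simp only [hnb]
        rw [bet_mem_vars]
        exact ⟨(p f).1, Or.inl (mem_R_self _)⟩
      · exact mem_union_left _ (key h)
      · apply mem_union_right
        rw [Finset.not_disjoint_iff] at h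
        obtain ⟨x, hx1, hx2⟩ := h
        rw [mem_biUnion]
        refine ⟨x, hx1, ?_⟩
        simp only [hnb] at hx2
        rw [bet_mem_vars] at hx2
        obtain ⟨c, hc⟩ := hx2
        have hz : ∃ w ∈ core f, ∃ a, (x, c) ∈ R F (w, a) := by
          rcases hc with hc | hc
          · exact ⟨_, hcu f, _, hc⟩
          · exact ⟨_, hcv f, _, hc⟩
        obtain ⟨w, hw, a, ha⟩ := hz
        rw [mem_biUnion]
        refine ⟨w, ?_, hmsmem f hf w hw⟩
        have h3 := R_contra ha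
        have h4 : (neg (x, c)) = (x, c + 1) := rfl
        have h5 : (neg (w, a)) = (w, a + 1) := rfl
        rw [h4, h5] at h3
        simp only [hW]
        rw [mem_union]
        rcases zmod2_cases (c + 1) with h6 | h6
        · left
          rw [bet_mem_vars]
          rw [h6] at h3
          exact ⟨_, h3⟩
        · right
          rw [bet_mem_vars]
          rw [h6] at h3
          exact ⟨_, h3⟩
    refine (card_le_card h1).trans (card_biUnion_le.trans ?_)
    refine (Finset.sum_le_card_nsmul _ _ (6 * K * D) (fun e he => ?_)).trans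
      (le_of_eq (smul_eq_mul _ _))
    have heE := hME he
    refine (card_union_le _ _).trans ?_
    have c1 : ((nb e).biUnion ms).card ≤ 2 * K * D := by
      refine card_biUnion_le.trans ?_
      refine (Finset.sum_le_card_nsmul _ _ D (fun w _ => hmscard w)).trans ?_
      rw [smul_eq_mul]
      exact Nat.mul_le_mul_right _ (hnbcard e heE)
    have c2 : ((core e).biUnion fun x => (W x).biUnion ms).card ≤ 2 * (2 * K * D) := by
      refine card_biUnion_le.trans ?_
      refine (Finset.sum_le_card_nsmul _ _ (2 * K * D) (fun x hx => ?_)).trans ?_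
      · refine card_biUnion_le.trans ?_
        refine (Finset.sum_le_card_nsmul _ _ D (fun w _ => hmscard w)).trans ?_
        rw [smul_eq_mul]
        apply Nat.mul_le_mul_right
        simp only [hW]
        refine (card_union_le _ _).trans ?_
        have h2 := (bet_notbad (hK1 e heE x hx) 0).2.2
        have h3 := (bet_notbad (hK1 e heE x hx) 1).2.2
        have h4 := bet_vars_card (R F (x, 0))
        have h5 := bet_vars_card (R F (x, 1))
        omega
      · rw [smul_eq_mul]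
        apply Nat.mul_le_mul_right
        exact Finset.card_le_two
    calc _ ≤ 2 * K * D + 2 * (2 * K * D) := Nat.add_le_add c1 c2
      _ = 6 * K * D := by ring
  have hMcard : E.card / (6 * K * D + 1) ≤ M.card := by
    apply Nat.div_le_of_le_mul
    calc E.card ≤ M.card * (6 * K * D) := hcard
      _ ≤ M.card * (6 * K * D + 1) := Nat.mul_le_mul_left _ (Nat.le_succ _)
      _ = (6 * K * D + 1) * M.card := Nat.mul_comm _ _
  have hsw := switch (SOL F) M core nb
    (fun e x => ¬ (x e.1.1.1 = (p e).1 ∧ x e.1.2.1 = (p e).2)) (2 * K) (by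
      intro i hi j hj hij
      exact not_not.1 (hM1 i hi j hj hij).1) (by
      intro e _ x y hxy hx
      rw [hxy _ (hcu e), hxy _ (hcv e)]
      exact hx) (fun e he => hnbcard e (hME he)) (by
      intro e he x hx
      have heE := hME he
      obtain ⟨y, hy1, hy2, hy3⟩ := hOv F (T e) x (by
        rintro z (hz | hz) z' hzz'
        · exact Or.inl (mem_R_step hz hzz')
        · exact Or.inr (mem_R_step hz hzz'))
        (bet_cons hCls hJ (hEF e heE) (hK1 e heE _ (hcu e)) (hK1 e heE _ (hcv e)) (hp1 e heE)) hx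
      refine ⟨y, hy1, ?_, ?_⟩
      · intro v hv
        apply hy3
        intro a ha
        apply hv
        simp only [hnb]
        rw [bet_mem_vars]
        exact ⟨a, ha⟩
      · rw [not_not]
        exact ⟨hy2 (e.1.1.1, (p e).1) (Or.inl (mem_R_self _)),
          hy2 (e.1.2.1, (p e).2) (Or.inr (mem_R_self _))⟩)
  have hsub : ({z | ∃ x ∈ U, ∃ y ∈ U', z = x + y} : Set (Fin n → ZMod 2)) ⊆
      {x ∈ SOL F | ∀ e ∈ M, ¬ (x e.1.1.1 = (p e).1 ∧ x e.1.2.1 = (p e).2)} := by
    rintro z ⟨x, hx, y, hy, rfl⟩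
    exact ⟨hUU x hx y hy, fun e he => hp2 e (hME he) x hx y hy⟩
  have h2 : (({z | ∃ x ∈ U, ∃ y ∈ U', z = x + y} : Set (Fin n → ZMod 2)).ncard : ℝ) ≤
      (({x ∈ SOL F | ∀ e ∈ M, ¬ (x e.1.1.1 = (p e).1 ∧ x e.1.2.1 = (p e).2)} :
        Set (Fin n → ZMod 2)).ncard : ℝ) := by
    exact_mod_cast Set.ncard_le_ncard hsub (Set.toFinite _)
  refine h2.trans (hsw.trans ?_)
  refine mul_le_mul_of_nonneg_right ?_ (Nat.cast_nonneg _)
  apply pow_le_pow_of_le_one (by positivity) _ hMcard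
  rw [div_le_one (by positivity)]
  linarith

end Pool.Agent.R2
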