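import Mathlib
import Pool.Agent.R2.Basic

/-!
# R2 [PC]: the number of paths, second moment
-/

namespace Pool.Agent.R2

open Finset Pool.Agent.Helper56.Iso Pool.Agent.Dichotomy Filter Topology

open Classical in
/-- The sequences of literals with distinct variables. -/
noncomputable def pc_W (n r : ℕ) : Finset (Fin (r + 1) → Lit n) :=
  univ.filter fun w => Function.Injective (fun i => (w i).1)

theorem pc_mem {n r : ℕ} {w : Fin (r + 1) → Lit n} :
    w ∈ pc_W n r ↔ Function.Injective (fun i => (w i).1) := by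
  classical
  unfold pc_W
  rw [Finset.mem_filter]
  exact and_iff_right (Finset.mem_univ _)

theorem pc_card (n r : ℕ) : (pc_W n r).card ≤ n.descFactorial (r + 1) * 2 ^ (r + 1) := by
  classical
  have h1 : (pc_W n r).card =
      Fintype.card {w : Fin (r + 1) → Lit n // Function.Injective (fun i => (w i).1)} := by
    rw [Fintype.card_subtype]
    unfold pc_W
    rfl
  have h2 : Fintype.card {w : Fin (r + 1) → Lit n // Function.Injective (fun i => (w i).1)} ≤
      Fintype.card ((Fin (r + 1) ↪ Fin n) × (Fin (r + 1) → ZMod 2)) := by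
    refine Fintype.card_le_of_injective (fun w =>
      ((⟨fun i => (w.1 i).1, w.2⟩ : Fin (r + 1) ↪ Fin n), fun i => (w.1 i).2)) ?_
    intro w w' h
    apply Subtype.ext
    funext i
    have h3 : (w.1 i).1 = (w'.1 i).1 :=
      DFunLike.congr_fun (congrArg Prod.fst h) i
    have h4 : (w.1 i).2 = (w'.1 i).2 := congrFun (congrArg Prod.snd h) i
    exact Prod.ext h3 h4
  rw [h1]
  refine h2.trans (le_of_eq ?_)
  rw [Fintype.card_prod, Fintype.card_embedding_eq, Fintype.card_fin, Fintype.card_fin,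
    Fintype.card_fun, Fintype.card_fin, ZMod.card]

/-- The expected number of paths is at most `2 n α ^ r`. -/
theorem pc_mean {α : ℝ} (hα : 0 < α) {n : ℕ} (hn : 2 ≤ n) (r : ℕ) :
    ((pc_W n r).card : ℝ) * prob α n ^ r ≤ 2 * n * α ^ r := by
  obtain ⟨m, rfl⟩ : ∃ m, n = m + 1 := ⟨n - 1, by omega⟩
  have hm : (0 : ℝ) < m := by exact_mod_cast (by omega : 0 < m)
  have h1 : (pc_W (m + 1) r).card ≤ ((m + 1) * m ^ r) * 2 ^ (r + 1) := by
    refine (pc_card (m + 1) r).trans (Nat.mul_le_mul_right _ ?_)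
    rw [Nat.succ_descFactorial_succ]
    exact Nat.mul_le_mul_left _ (Nat.descFactorial_le_pow m r)
  have h2 : ((pc_W (m + 1) r).card : ℝ) ≤ (((m : ℝ) + 1) * (m : ℝ) ^ r) * 2 ^ (r + 1) := by
    exact_mod_cast h1
  have h3 : prob α (m + 1) = α / (2 * m) := by
    unfold prob
    push_cast
    congr 1
    ring
  have h4 : 0 ≤ prob α (m + 1) ^ r := by
    rw [h3]
    positivity
  refine (mul_le_mul_of_nonneg_right h2 h4).trans (le_of_eq ?_)
  rw [h3, div_pow, mul_pow]
  push_cast
  field_simp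
  ring

theorem pc_Pr {α : Type} [Fintype α] [DecidableEq α] (p : ℝ) (S : Finset α) :
    Pr p (fun F => S ⊆ F) = ∑ F : Finset α, wt p F * (if S ⊆ F then 1 else 0) := by
  unfold Pr
  apply Finset.sum_congr rfl
  intro F _
  by_cases h : S ⊆ F
  · rw [ind_of (Bad := fun F => S ⊆ F) h, if_pos h, mul_one]
  · rw [ind_not (Bad := fun F => S ⊆ F) h, if_neg h, mul_zero]

theorem pc_Y (hPcl : St_Pcl) {n : ℕ} (F : Finset (Cl n)) (r : ℕ) :
    (Y F r : ℝ) = ∑ w ∈ pc_W n r, (if pcl w ⊆ F then (1 : ℝ) else 0) := by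
  classical
  have h1 : {w : Fin (r + 1) → Lit n | IsPath F w} =
      (((pc_W n r).filter fun w => pcl w ⊆ F : Finset (Fin (r + 1) → Lit n)) :
        Set (Fin (r + 1) → Lit n)) := by
    ext w
    rw [Finset.mem_coe, Finset.mem_filter, pc_mem]
    constructor
    · intro h
      have h' : IsPath F w := h
      exact ⟨h'.1, ((hPcl w h'.1).2 F).1 h'⟩
    · rintro ⟨h2, h3⟩
      exact ((hPcl w h2).2 F).2 h3
  unfold Y
  rw [h1, Set.ncard_coe_finset, ← Finset.sum_filter, Finset.sum_const, nsmul_eq_mul, mul_one]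

theorem thm_PC (hPcl : St_Pcl) (hInc : St_Inc) (hOvl : St_Ovl) : St_PC := by
  classical
  intro α r hα
  obtain ⟨C, hC⟩ := hOvl α r hα
  set K : ℝ := max C 0 with hK
  have hK0 : 0 ≤ K := le_max_right _ _
  have hCK : C ≤ K := le_max_left _ _
  have hu : Tendsto (fun n : ℕ => (2 * K / α ^ r) / (n : ℝ)) atTop (𝓝 0) :=
    tendsto_const_div_atTop_nhds_zero_nat _
  refine whp_of_le hα.le hu ?_
  filter_upwards [eventually_prob α hα.le] with n hn
  obtain ⟨hn2, hp0, hp1⟩ := hn
  set p := prob α n with hp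
  have hnR : (0 : ℝ) < n := by exact_mod_cast (by omega : 0 < n)
  obtain ⟨hI1, -, hI3⟩ := hInc (α := Cl n) p hp0 hp1
  set μ : ℝ := ((pc_W n r).card : ℝ) * p ^ r with hμ
  have hμ0 : 0 ≤ μ := by positivity
  have hμle : μ ≤ 2 * n * α ^ r := pc_mean hα hn2 r
  have hcard : ∀ w ∈ pc_W n r, (pcl w).card = r := fun w hw => (hPcl w (pc_mem.1 hw)).1
  -- first moment
  have hE1 : ∑ F : Finset (Cl n), wt p F * (Y F r : ℝ) = μ := by
    have h1 : ∀ F : Finset (Cl n), wt p F * (Y F r : ℝ) =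
        ∑ w ∈ pc_W n r, wt p F * (if pcl w ⊆ F then 1 else 0) := by
      intro F
      rw [pc_Y hPcl, Finset.mul_sum]
    rw [Finset.sum_congr rfl (fun F _ => h1 F), Finset.sum_comm]
    have h2 : ∀ w ∈ pc_W n r,
        ∑ F : Finset (Cl n), wt p F * (if pcl w ⊆ F then 1 else 0) = p ^ r := by
      intro w hw
      rw [← pc_Pr, hI1, hcard w hw]
    rw [Finset.sum_congr rfl h2, Finset.sum_const, nsmul_eq_mul]
  -- overlaps
  have hov : ∀ w ∈ pc_W n r, ∑ w' ∈ pc_W n r, p ^ (pcl w' \ pcl w).card ≤ μ + K := by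
    intro w hw
    have h1 : ∀ w' ∈ pc_W n r, p ^ (pcl w' \ pcl w).card ≤ p ^ r + Set.indicator
        {w' | Function.Injective (fun i => (w' i).1) ∧ (pcl w' ∩ pcl w).Nonempty}
        (fun w' => p ^ (pcl w' \ pcl w).card) w' := by
      intro w' hw'
      by_cases h2 : (pcl w' ∩ pcl w).Nonempty
      · rw [Set.indicator_of_mem (show w' ∈ {w' : Fin (r + 1) → Lit n |
          Function.Injective (fun i => (w' i).1) ∧ (pcl w' ∩ pcl w).Nonempty} from
          ⟨pc_mem.1 hw', h2⟩)]
        have h3 : 0 ≤ p ^ r := pow_nonneg hp0 r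
        linarith
      · rw [Set.indicator_of_notMem (show w' ∉ {w' : Fin (r + 1) → Lit n |
          Function.Injective (fun i => (w' i).1) ∧ (pcl w' ∩ pcl w).Nonempty} from
          fun h => h2 h.2), add_zero]
        have h3 : pcl w' \ pcl w = pcl w' := by
          rw [Finset.sdiff_eq_self_iff_disjoint]
          exact Finset.disjoint_iff_inter_eq_empty.2 (Finset.not_nonempty_iff_eq_empty.1 h2)
        rw [h3, hcard w' hw']
    refine (Finset.sum_le_sum h1).trans ?_
    rw [Finset.sum_add_distrib, Finset.sum_const, nsmul_eq_mul]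
    refine add_le_add le_rfl (le_trans ?_ ((hC n hn2 hp1 (pcl w) (hcard w hw).le).trans hCK))
    refine Finset.sum_le_sum_of_subset_of_nonneg (Finset.subset_univ _) ?_
    intro w' _ _
    exact Set.indicator_nonneg (fun w' _ => pow_nonneg hp0 _) w'
  -- second moment
  have hE2 : ∑ F : Finset (Cl n), wt p F * (Y F r : ℝ) ^ 2 ≤ μ ^ 2 + K * μ := by
    have h1 : ∀ F : Finset (Cl n), wt p F * (Y F r : ℝ) ^ 2 =
        ∑ w ∈ pc_W n r, ∑ w' ∈ pc_W n r,
          wt p F * (if (pcl w ∪ pcl w') ⊆ F then 1 else 0) := by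
      intro F
      rw [pc_Y hPcl, sq, Finset.sum_mul_sum, Finset.mul_sum]
      apply Finset.sum_congr rfl
      intro w _
      rw [Finset.mul_sum]
      apply Finset.sum_congr rfl
      intro w' _
      by_cases h2 : pcl w ⊆ F
      · by_cases h3 : pcl w' ⊆ F
        · rw [if_pos h2, if_pos h3, if_pos (Finset.union_subset h2 h3), mul_one]
        · rw [if_pos h2, if_neg h3,
            if_neg (fun h => h3 (Finset.subset_union_right.trans h)), mul_zero]
      · rw [if_neg h2, if_neg (fun h => h2 (Finset.subset_union_left.trans h)), zero_mul]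
    rw [Finset.sum_congr rfl (fun F _ => h1 F), Finset.sum_comm]
    have h2 : ∀ w ∈ pc_W n r, ∑ F : Finset (Cl n), ∑ w' ∈ pc_W n r,
        wt p F * (if (pcl w ∪ pcl w') ⊆ F then 1 else 0) ≤ p ^ r * (μ + K) := by
      intro w hw
      rw [Finset.sum_comm]
      have h3 : ∀ w' ∈ pc_W n r, ∑ F : Finset (Cl n),
          wt p F * (if (pcl w ∪ pcl w') ⊆ F then 1 else 0) =
          p ^ r * p ^ (pcl w' \ pcl w).card := by
        intro w' _
        rw [← pc_Pr, hI1]
        have h4 : (pcl w ∪ pcl w').card = r + (pcl w' \ pcl w).card := by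
          rw [← Finset.union_sdiff_self_eq_union,
            Finset.card_union_of_disjoint Finset.disjoint_sdiff, hcard w hw]
        rw [h4, pow_add]
      rw [Finset.sum_congr rfl h3, ← Finset.mul_sum]
      exact mul_le_mul_of_nonneg_left (hov w hw) (pow_nonneg hp0 r)
    refine (Finset.sum_le_sum h2).trans (le_of_eq ?_)
    rw [Finset.sum_const, nsmul_eq_mul, ← mul_assoc, ← hμ]
    ring
  -- Chebyshev
  have hαr : 0 < α ^ r := pow_pos hα r
  have ht : 0 < (n : ℝ) * α ^ r := by positivity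
  have h5 := hI3 (fun F => (Y F r : ℝ)) μ (K * μ) ((n : ℝ) * α ^ r) ht hE1 hE2
  have h6 : Pr p (fun F : Finset (Cl n) => ¬ ((Y F r : ℝ) ≤ 3 * n * α ^ r)) ≤
      Pr p (fun F : Finset (Cl n) => μ + (n : ℝ) * α ^ r ≤ (Y F r : ℝ)) := by
    apply Pr_mono hp0 hp1
    intro F hF
    have h7 := not_le.1 hF
    linarith
  refine h6.trans (h5.trans ?_)
  have h8 : K * μ ≤ K * (2 * n * α ^ r) := mul_le_mul_of_nonneg_left hμle hK0
  calc K * μ / ((n : ℝ) * α ^ r) ^ 2 ≤ K * (2 * n * α ^ r) / ((n : ℝ) * α ^ r) ^ 2 :=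
        div_le_div_of_nonneg_right h8 (by positivity)
    _ = 2 * K / α ^ r / (n : ℝ) := by
        field_simp

end Pool.Agent.R2
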