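import Mathlib
import Pool.Agent.R2.Basic
import Pool.Agent.R2.PC

/-!
# R2 [CC]: the number of cyclic structures, first moment and Markov
-/

namespace Pool.Agent.R2

open Finset Pool.Agent.Helper56.Iso Pool.Agent.Dichotomy Filter Topology

/-- The clause which excludes `z` and `z'`. -/
def cc_cl {n : ℕ} (z z' : Lit n) : Finset (Cl n) :=
  univ.filter fun e => e.1 = (z, z') ∨ e.1 = (z', z)

theorem cc_mem {n : ℕ} {z z' : Lit n} {e : Cl n} :
    e ∈ cc_cl z z' ↔ e.1 = (z, z') ∨ e.1 = (z', z) := by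
  unfold cc_cl
  rw [Finset.mem_filter]
  exact and_iff_right (Finset.mem_univ _)

theorem cc_cl_eq {n : ℕ} {z z' : Lit n} (h : z.1 ≠ z'.1) : cc_cl z z' = {mkCl z z' h} := by
  ext e
  rw [cc_mem, Finset.mem_singleton]
  constructor
  · intro h1
    exact eq_mkCl h h1
  · intro h1
    rw [h1]
    exact mkCl_val z z' h

theorem cc_has {n : ℕ} {F : Finset (Cl n)} {z z' : Lit n} (h : z.1 ≠ z'.1) :
    Has F z z' ↔ cc_cl z z' ⊆ F := by
  rw [has_iff h, cc_cl_eq h, Finset.singleton_subset_iff]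

/-- The literals of the additional clause. -/
def cc_z {n r : ℕ} (t : (Fin (r + 1) → Lit n) × Fin r × ZMod 2 × ZMod 2) : Lit n :=
  ((t.1 t.2.1.castSucc).1, t.2.2.1)

def cc_z' {n r : ℕ} (t : (Fin (r + 1) → Lit n) × Fin r × ZMod 2 × ZMod 2) : Lit n :=
  ((t.1 (Fin.last r)).1, t.2.2.2)

/-- The clauses of the structure. -/
def cc_S {n r : ℕ} (t : (Fin (r + 1) → Lit n) × Fin r × ZMod 2 × ZMod 2) : Finset (Cl n) :=
  pcl t.1 ∪ cc_cl (cc_z t) (cc_z' t)

open Classical in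
/-- The possible structures. -/
noncomputable def cc_T (n r : ℕ) : Finset ((Fin (r + 1) → Lit n) × Fin r × ZMod 2 × ZMod 2) :=
  (pc_W n r ×ˢ (univ : Finset (Fin r × ZMod 2 × ZMod 2))).filter fun t =>
    (cc_z t, cc_z' t) ≠ (t.1 t.2.1.castSucc, neg (t.1 (Fin.last r)))

theorem cc_mem_T {n r : ℕ} {t : (Fin (r + 1) → Lit n) × Fin r × ZMod 2 × ZMod 2} :
    t ∈ cc_T n r ↔ Function.Injective (fun i => (t.1 i).1) ∧
      (cc_z t, cc_z' t) ≠ (t.1 t.2.1.castSucc, neg (t.1 (Fin.last r))) := by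
  classical
  unfold cc_T
  rw [Finset.mem_filter, Finset.mem_product, pc_mem]
  constructor
  · rintro ⟨⟨h1, _⟩, h2⟩
    exact ⟨h1, h2⟩
  · rintro ⟨h1, h2⟩
    exact ⟨⟨h1, Finset.mem_univ _⟩, h2⟩

theorem cc_card_T (n r : ℕ) : (cc_T n r).card ≤ (pc_W n r).card * (4 * r) := by
  classical
  unfold cc_T
  refine (Finset.card_filter_le _ _).trans (le_of_eq ?_)
  rw [Finset.card_product, Finset.card_univ, Fintype.card_prod, Fintype.card_prod,
    Fintype.card_fin, ZMod.card]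
  ring

theorem cc_ne {n r : ℕ} {w : Fin (r + 1) → Lit n} (hw : Function.Injective (fun i => (w i).1))
    (i : Fin r) : (w i.castSucc).1 ≠ (w (Fin.last r)).1 := by
  intro h
  have h1 : i.castSucc = Fin.last r := hw h
  exact (Fin.castSucc_lt_last i).ne h1

theorem cc_card (hPcl : St_Pcl) {n r : ℕ} {t : (Fin (r + 1) → Lit n) × Fin r × ZMod 2 × ZMod 2}
    (ht : t ∈ cc_T n r) : (cc_S t).card = r + 1 := by
  obtain ⟨hw, hne⟩ := cc_mem_T.1 ht
  have h : (cc_z t).1 ≠ (cc_z' t).1 := cc_ne hw t.2.1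
  have h1 : mkCl (cc_z t) (cc_z' t) h ∉ pcl t.1 := by
    intro h2
    unfold pcl at h2
    rw [Finset.mem_filter] at h2
    obtain ⟨-, j, h3⟩ := h2
    have hlast : ∀ j : Fin r, (t.1 j.castSucc).1 ≠ (cc_z' t).1 := fun j => cc_ne hw j
    have hkey : cc_z t = t.1 j.castSucc → cc_z' t = neg (t.1 j.succ) → False := by
      intro h4 h5
      have h6' : (cc_z t).1 = (t.1 j.castSucc).1 := congrArg Prod.fst h4
      have h6 : (t.1 t.2.1.castSucc).1 = (t.1 j.castSucc).1 := h6'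
      have h7 : t.2.1.castSucc = j.castSucc := hw h6
      have h8 : t.2.1 = j := Fin.castSucc_injective r h7
      have h9' : (cc_z' t).1 = (neg (t.1 j.succ)).1 := congrArg Prod.fst h5
      have h9 : (t.1 (Fin.last r)).1 = (t.1 j.succ).1 := h9'
      have h10 : Fin.last r = j.succ := hw h9
      apply hne
      rw [h8, h10, ← h4, ← h5]
    rcases mkCl_val (cc_z t) (cc_z' t) h with h4 | h4 <;> rcases h3 with h3 | h3 <;>
      rw [h4] at h3
    · exact hkey (congrArg Prod.fst h3) (congrArg Prod.snd h3)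
    · exact hlast j (congrArg Prod.fst (congrArg Prod.snd h3)).symm
    · exact hlast j (congrArg Prod.fst (congrArg Prod.fst h3)).symm
    · exact hkey (congrArg Prod.snd h3) (congrArg Prod.fst h3)
  unfold cc_S
  rw [cc_cl_eq h, Finset.card_union_of_disjoint (Finset.disjoint_singleton_right.2 h1),
    (hPcl t.1 hw).1, Finset.card_singleton]

theorem cc_le (hPcl : St_Pcl) {n : ℕ} (F : Finset (Cl n)) (r : ℕ) :
    (Cy F r : ℝ) ≤ ∑ t ∈ cc_T n r, (if cc_S t ⊆ F then (1 : ℝ) else 0) := by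
  classical
  have h1 : {q : (Fin (r + 1) → Lit n) × Fin r × Lit n × Lit n |
      IsCyc F q.1 q.2.1 q.2.2.1 q.2.2.2} ⊆
      ((((cc_T n r).filter fun t => cc_S t ⊆ F).image fun t =>
        (t.1, t.2.1, cc_z t, cc_z' t) :
          Finset ((Fin (r + 1) → Lit n) × Fin r × Lit n × Lit n)) :
        Set ((Fin (r + 1) → Lit n) × Fin r × Lit n × Lit n)) := by
    rintro ⟨w, i, z, z'⟩ hq
    obtain ⟨hp, hh, h2, h3, h4⟩ := hq
    have h2' : z.1 = (w i.castSucc).1 := h2
    have h3' : z'.1 = (w (Fin.last r)).1 := h3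
    rw [Finset.mem_coe, Finset.mem_image]
    refine ⟨(w, i, z.2, z'.2), ?_, ?_⟩
    · have e1 : cc_z (w, i, z.2, z'.2) = z := Prod.ext h2'.symm rfl
      have e2 : cc_z' (w, i, z.2, z'.2) = z' := Prod.ext h3'.symm rfl
      rw [Finset.mem_filter, cc_mem_T, e1, e2]
      refine ⟨⟨hp.1, h4⟩, ?_⟩
      unfold cc_S
      rw [e1, e2]
      refine Finset.union_subset (((hPcl w hp.1).2 F).1 hp) ?_
      have hne : z.1 ≠ z'.1 := Has.ne hh
      exact (cc_has hne).1 hh
    · have e1 : cc_z (w, i, z.2, z'.2) = z := Prod.ext h2'.symm rfl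
      have e2 : cc_z' (w, i, z.2, z'.2) = z' := Prod.ext h3'.symm rfl
      change (w, i, cc_z (w, i, z.2, z'.2), cc_z' (w, i, z.2, z'.2)) = (w, i, z, z')
      rw [e1, e2]
  have h2 : Cy F r ≤ ((cc_T n r).filter fun t => cc_S t ⊆ F).card := by
    unfold Cy
    refine (Set.ncard_le_ncard h1 (Finset.finite_toSet _)).trans ?_
    rw [Set.ncard_coe_finset]
    exact Finset.card_image_le
  have h3 : (∑ t ∈ cc_T n r, (if cc_S t ⊆ F then (1 : ℝ) else 0)) =
      (((cc_T n r).filter fun t => cc_S t ⊆ F).card : ℝ) := by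
    rw [← Finset.sum_filter, Finset.sum_const, nsmul_eq_mul, mul_one]
  rw [h3]
  exact_mod_cast h2

theorem thm_CC (hPcl : St_Pcl) (hInc : St_Inc) : St_CC := by
  classical
  intro α r γ hα hγ
  set M : ℝ := 8 * r * α ^ (r + 1) with hM
  have hu : Tendsto (fun n : ℕ => (M / γ) / (n : ℝ)) atTop (𝓝 0) :=
    tendsto_const_div_atTop_nhds_zero_nat _
  refine whp_of_le hα.le hu ?_
  filter_upwards [eventually_prob α hα.le] with n hn
  obtain ⟨hn2, hp0, hp1⟩ := hn
  set p := prob α n with hp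
  have hnR : (2 : ℝ) ≤ n := by exact_mod_cast hn2
  obtain ⟨hI1, hI2, -⟩ := hInc (α := Cl n) p hp0 hp1
  have hE : ∑ F : Finset (Cl n), wt p F * (Cy F r : ℝ) ≤ M := by
    have h1 : ∑ F : Finset (Cl n), wt p F * (Cy F r : ℝ) ≤
        ∑ F : Finset (Cl n), ∑ t ∈ cc_T n r, wt p F * (if cc_S t ⊆ F then 1 else 0) := by
      apply Finset.sum_le_sum
      intro F _
      rw [← Finset.mul_sum]
      exact mul_le_mul_of_nonneg_left (cc_le hPcl F r) (wt_nonneg hp0 hp1 F)
    refine h1.trans ?_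
    rw [Finset.sum_comm]
    have h2 : ∀ t ∈ cc_T n r,
        ∑ F : Finset (Cl n), wt p F * (if cc_S t ⊆ F then 1 else 0) = p ^ (r + 1) := by
      intro t ht
      rw [← pc_Pr, hI1, cc_card hPcl ht]
    rw [Finset.sum_congr rfl h2, Finset.sum_const, nsmul_eq_mul]
    have h3 : ((cc_T n r).card : ℝ) ≤ ((pc_W n r).card : ℝ) * (4 * r) := by
      exact_mod_cast cc_card_T n r
    have h4 : ((cc_T n r).card : ℝ) * p ^ (r + 1) ≤
        (4 * r) * p * (((pc_W n r).card : ℝ) * p ^ r) := by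
      calc ((cc_T n r).card : ℝ) * p ^ (r + 1)
          ≤ (((pc_W n r).card : ℝ) * (4 * r)) * p ^ (r + 1) :=
            mul_le_mul_of_nonneg_right h3 (pow_nonneg hp0 _)
        _ = (4 * r) * p * (((pc_W n r).card : ℝ) * p ^ r) := by
            rw [pow_succ]
            ring
    refine h4.trans ?_
    have h5 : (4 * (r : ℝ)) * p * (((pc_W n r).card : ℝ) * p ^ r) ≤
        (4 * r) * p * (2 * n * α ^ r) :=
      mul_le_mul_of_nonneg_left (pc_mean hα hn2 r) (by positivity)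
    refine h5.trans ?_
    have h6 : p * n ≤ α := by
      rw [hp]
      unfold prob
      have h7 : (0 : ℝ) < 2 * ((n : ℝ) - 1) := by linarith
      rw [div_mul_eq_mul_div, div_le_iff₀ h7]
      nlinarith
    have h8 : (4 * (r : ℝ)) * p * (2 * n * α ^ r) = 8 * r * α ^ r * (p * n) := by ring
    rw [h8, hM, pow_succ]
    have h9 : (0 : ℝ) ≤ 8 * r * α ^ r := by positivity
    calc 8 * (r : ℝ) * α ^ r * (p * n) ≤ 8 * r * α ^ r * α :=
          mul_le_mul_of_nonneg_left h6 h9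
      _ = 8 * r * (α ^ r * α) := by ring
  have hpos : 0 < γ * n := by positivity
  have h5 := hI2 (fun F => (Cy F r : ℝ)) (γ * n) (fun F => Nat.cast_nonneg _) hpos
  have h6 : Pr p (fun F : Finset (Cl n) => ¬ ((Cy F r : ℝ) ≤ γ * n)) ≤
      Pr p (fun F : Finset (Cl n) => γ * n ≤ (Cy F r : ℝ)) := by
    apply Pr_mono hp0 hp1
    intro F hF
    exact (not_le.1 hF).le
  refine h6.trans ?_
  rw [div_div, le_div_iff₀ hpos]
  exact h5.trans hE

end Pool.Agent.R2
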