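import Mathlib
import Pool.Agent.R2.Basic

/-!
# R2 [Cls]: literals which are not starts of long paths or of short structures `IsCyc`
-/

namespace Pool.Agent.R2

open Finset Pool.Agent.Helper56.Iso Pool.Agent.Dichotomy Filter Topology

variable {n : ℕ} {F : Finset (Cl n)}

/-- A path given by a sequence. -/
theorem cls_path {u : ℕ → Lit n} {r : ℕ}
    (h1 : ∀ i ≤ r, ∀ j ≤ r, (u i).1 = (u j).1 → i = j) (h2 : ∀ i < r, Imp F (u i) (u (i + 1))) :
    IsPath F (fun i : Fin (r + 1) => u i.val) := by
  refine ⟨?_, ?_⟩
  · intro i j hij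
    exact Fin.ext (h1 i.val (Nat.lt_succ_iff.1 i.2) j.val (Nat.lt_succ_iff.1 j.2) hij)
  · intro i
    exact h2 i.val i.2

/-- Every literal of the closure is reached by a short path. -/
theorem cls_main {J : ℕ} {z : Lit n} (hJ : 1 ≤ J)
    (hP : ¬ ∃ w : Fin (J + 1) → Lit n, IsPath F w ∧ w 0 = z)
    (hC : ¬ ∃ r < J, ∃ (w : Fin (r + 1) → Lit n) (i : Fin r) (z1 z2 : Lit n),
      IsCyc F w i z1 z2 ∧ w 0 = z) {z' : Lit n} (hz : z' ∈ R F z) :
    ∃ r < J, ∃ u : ℕ → Lit n, u 0 = z ∧ u r = z' ∧
      (∀ i ≤ r, ∀ j ≤ r, (u i).1 = (u j).1 → i = j) ∧ ∀ i < r, Imp F (u i) (u (i + 1)) := by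
  have h0 : Relation.ReflTransGen (Imp F) z z' := hz
  clear hz
  induction h0 with
  | refl =>
    refine ⟨0, hJ, fun _ => z, rfl, rfl, ?_, ?_⟩
    · intro i hi j hj _
      omega
    · intro i hi
      omega
  | @tail b c _ hbc ih =>
    obtain ⟨r, hr, u, hu0, hur, hinj, himp⟩ := ih
    by_cases hc : ∃ i ≤ r, (u i).1 = c.1
    · obtain ⟨i, hi, hic⟩ := hc
      rcases eq_or_neg hic.symm with h3 | h3
      · -- truncate
        refine ⟨i, lt_of_le_of_lt hi hr, u, hu0, h3.symm, ?_, ?_⟩
        · intro a ha b' hb'
          exact hinj a (ha.trans hi) b' (hb'.trans hi)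
        · intro a ha
          exact himp a (lt_of_lt_of_le ha hi)
      · exfalso
        have hne : i ≠ r := by
          rintro rfl
          have := Imp.ne hbc
          rw [← hur] at this
          exact this hic
        have hir : i < r := lt_of_le_of_ne hi hne
        have hH : Has F (u i) (u r) := by
          have h4 : Has F b (neg c) := hbc
          rw [h3, neg_neg', ← hur] at h4
          exact h4.symm
        apply hC
        refine ⟨r, hr, fun i => u i.val, ⟨i, hir⟩, u i, u r, ⟨cls_path hinj himp, hH, rfl, ?_, ?_⟩,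
          hu0⟩
        · simp
        · intro h5
          have h6 : u r = neg (u r) := by
            have := congrArg Prod.snd h5
            simpa using this
          exact neg_ne _ h6.symm
    · have hc' : ∀ i ≤ r, (u i).1 ≠ c.1 := fun i hi h => hc ⟨i, hi, h⟩
      set u' : ℕ → Lit n := Function.update u (r + 1) c with hu'
      have e1 : ∀ i ≤ r, u' i = u i := fun i hi => by
        rw [hu', Function.update_of_ne (by omega)]
      have e2 : u' (r + 1) = c := by
        rw [hu', Function.update_self]
      have hinj' : ∀ i ≤ r + 1, ∀ j ≤ r + 1, (u' i).1 = (u' j).1 → i = j := by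
        intro i hi j hj hij
        rcases Nat.lt_or_ge r i with h1 | h1 <;> rcases Nat.lt_or_ge r j with h2 | h2
        · omega
        · have : i = r + 1 := by omega
          subst this
          rw [e2, e1 j h2] at hij
          exact absurd hij.symm (hc' j h2)
        · have : j = r + 1 := by omega
          subst this
          rw [e2, e1 i h1] at hij
          exact absurd hij (hc' i h1)
        · rw [e1 i h1, e1 j h2] at hij
          exact hinj i h1 j h2 hij
      have himp' : ∀ i < r + 1, Imp F (u' i) (u' (i + 1)) := by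
        intro i hi
        rcases Nat.lt_or_ge i r with h1 | h1
        · rw [e1 i h1.le, e1 (i + 1) h1]
          exact himp i h1
        · have : i = r := by omega
          subst this
          rw [e1 i le_rfl, e2, hur]
          exact hbc
      have hu0' : u' 0 = z := by rw [e1 0 (Nat.zero_le _), hu0]
      rcases Nat.lt_or_ge (r + 1) J with h1 | h1
      · exact ⟨r + 1, h1, u', hu0', e2, hinj', himp'⟩
      · exfalso
        have h2 : r + 1 = J := by omega
        subst h2
        exact hP ⟨fun i => u' i.val, cls_path hinj' himp', hu0'⟩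

theorem thm_Cls : St_Cls := by
  intro n F J z hJ hP hC
  have key := fun {z' : Lit n} (hz : z' ∈ R F z) => cls_main hJ hP hC hz
  refine ⟨?_, ?_, ?_⟩
  · intro z' hz
    obtain ⟨r, hr, u, hu0, hur, hinj, himp⟩ := key hz
    exact ⟨r, hr, fun i => u i.val, cls_path hinj himp, hu0, hur⟩
  · intro z' h1 h2
    have h3 : neg z ∈ R F z := by
      have h4 := R_contra h2
      rw [neg_neg'] at h4
      exact mem_R_trans h1 h4
    obtain ⟨r, hr, u, hu0, hur, hinj, himp⟩ := key h3
    have h5 : 0 = r := hinj 0 (Nat.zero_le _) r le_rfl (by rw [hu0, hur, neg_fst])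
    subst h5
    rw [hu0] at hur
    exact neg_ne _ hur.symm
  · intro z' z1 z2 hH h1 h2 hne h3
    obtain ⟨r, hr, u, hu0, hur, hinj, himp⟩ := key h3
    rcases Nat.eq_zero_or_pos r with h5 | h5
    · subst h5
      rw [hu0] at hur
      apply Has.ne hH
      rw [h1, h2, hur, neg_fst]
    · apply hC
      refine ⟨r, hr, fun i => u i.val, ⟨0, h5⟩, z1, z2, ⟨cls_path hinj himp, hH, ?_, ?_, ?_⟩, hu0⟩
      · show z1.1 = (u 0).1
        rw [hu0, h1]
      · show z2.1 = (u r).1
        rw [hur, h2, neg_fst]
      · show (z1, z2) ≠ (u 0, neg (u r))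
        rw [hu0, hur, neg_neg']
        exact hne

end Pool.Agent.R2
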