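import Mathlib
import Pool.Agent.R2.Basic

/-!
# Random 2-CNF formulas: [Cnt] the number of the bad variables
-/

namespace Pool.Agent.R2

open Finset Pool.Agent.Helper56.Iso Pool.Agent.Dichotomy Filter Topology

theorem thm_Cnt (hCls : St_Cls) : St_Cnt := by
  classical
  intro n F J K hJ
  -- the three types of literals
  set P : ∀ r : ℕ, Finset (Fin (r + 1) → Lit n) := fun r => univ.filter (IsPath F) with hP
  set C : ∀ r : ℕ, Finset ((Fin (r + 1) → Lit n) × Fin r × Lit n × Lit n) := fun r =>
    univ.filter fun q => IsCyc F q.1 q.2.1 q.2.2.1 q.2.2.2 with hC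
  have hY : ∀ r, Y F r = (P r).card := by
    intro r
    unfold Y
    rw [← Set.ncard_coe_finset]
    congr 1
    ext w
    rw [hP, Finset.mem_coe, Finset.mem_filter]
    exact ⟨fun h => ⟨Finset.mem_univ _, h⟩, fun h => h.2⟩
  have hCy : ∀ r, Cy F r = (C r).card := by
    intro r
    unfold Cy
    rw [← Set.ncard_coe_finset]
    congr 1
    ext w
    rw [hC, Finset.mem_coe, Finset.mem_filter]
    exact ⟨fun h => ⟨Finset.mem_univ _, h⟩, fun h => h.2⟩
  set A1 : Finset (Lit n) := (P J).image fun w => w 0 with hA1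
  set A2 : Finset (Lit n) := (range J).biUnion fun r => (C r).image fun q => q.1 0 with hA2
  set A3 : Finset (Lit n) := univ.filter fun z =>
    z ∉ A1 ∧ z ∉ A2 ∧ K < (R F z).ncard with hA3
  have hA1c : A1.card ≤ Y F J := by
    rw [hY]
    exact Finset.card_image_le
  have hA2c : A2.card ≤ ∑ r ∈ range J, Cy F r := by
    refine Finset.card_biUnion_le.trans (Finset.sum_le_sum fun r _ => ?_)
    rw [hCy]
    exact Finset.card_image_le
  have hR : ∀ z ∈ A3, (R F z).ncard ≤ ∑ r ∈ range J, ((P r).filter fun w => w 0 = z).card := by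
    intro z hz
    rw [hA3, Finset.mem_filter] at hz
    obtain ⟨-, hz1, hz2, -⟩ := hz
    have h1 := (hCls F J z hJ (fun ⟨w, hw, hw0⟩ => hz1 (by
      rw [hA1, Finset.mem_image]
      exact ⟨w, by rw [hP, Finset.mem_filter]; exact ⟨Finset.mem_univ _, hw⟩, hw0⟩))
      (fun ⟨r, hr, w, i, z1, z2, hw, hw0⟩ => hz2 (by
        rw [hA2, Finset.mem_biUnion]
        refine ⟨r, Finset.mem_range.2 hr, ?_⟩
        rw [Finset.mem_image]
        refine ⟨(w, i, z1, z2), ?_, hw0⟩
        rw [hC, Finset.mem_filter]
        exact ⟨Finset.mem_univ _, hw⟩))).1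
    have h2 : R F z ⊆ (((range J).biUnion fun r =>
        ((P r).filter fun w => w 0 = z).image fun w => w (Fin.last r) : Finset (Lit n)) :
          Set (Lit n)) := by
      intro z' hz'
      obtain ⟨r, hr, w, hw, hw0, hwl⟩ := h1 z' hz'
      rw [Finset.mem_coe, Finset.mem_biUnion]
      refine ⟨r, Finset.mem_range.2 hr, ?_⟩
      rw [Finset.mem_image]
      refine ⟨w, ?_, hwl⟩
      rw [Finset.mem_filter, hP, Finset.mem_filter]
      exact ⟨⟨Finset.mem_univ _, hw⟩, hw0⟩
    have h3 := Set.ncard_le_ncard h2 (Finset.finite_toSet _)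
    rw [Set.ncard_coe_finset] at h3
    refine h3.trans (Finset.card_biUnion_le.trans (Finset.sum_le_sum fun r _ => ?_))
    exact Finset.card_image_le
  have hA3c : K * A3.card ≤ ∑ r ∈ range J, Y F r := by
    calc K * A3.card = ∑ z ∈ A3, K := by rw [Finset.sum_const, smul_eq_mul, mul_comm]
      _ ≤ ∑ z ∈ A3, (R F z).ncard := by
          refine Finset.sum_le_sum fun z hz => ?_
          rw [hA3, Finset.mem_filter] at hz
          exact hz.2.2.2.le
      _ ≤ ∑ z ∈ A3, ∑ r ∈ range J, ((P r).filter fun w => w 0 = z).card :=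
          Finset.sum_le_sum hR
      _ = ∑ r ∈ range J, ∑ z ∈ A3, ((P r).filter fun w => w 0 = z).card := Finset.sum_comm
      _ ≤ ∑ r ∈ range J, Y F r := by
          refine Finset.sum_le_sum fun r _ => ?_
          rw [hY, ← Finset.card_biUnion]
          · refine Finset.card_le_card fun w hw => ?_
            rw [Finset.mem_biUnion] at hw
            obtain ⟨z, -, hw⟩ := hw
            exact (Finset.mem_filter.1 hw).1
          · intro z _ z' _ hzz
            rw [Function.onFun, Finset.disjoint_left]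
            intro w hw hw'
            exact hzz ((Finset.mem_filter.1 hw).2.symm.trans (Finset.mem_filter.1 hw').2)
  have hB : {v : Fin n | Bad F J K v}.ncard ≤ A1.card + A2.card + A3.card := by
    have h1 : {v : Fin n | Bad F J K v} ⊆
        (((A1 ∪ A2 ∪ A3).image fun z => z.1 : Finset (Fin n)) : Set (Fin n)) := by
      rintro v ⟨a, h⟩
      rw [Finset.mem_coe, Finset.mem_image]
      refine ⟨(v, a), ?_, rfl⟩
      rw [Finset.mem_union, Finset.mem_union]
      rcases h with ⟨w, hw, hw0⟩ | ⟨r, hr, w, i, z1, z2, hw, hw0⟩ | h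
      · left; left
        rw [hA1, Finset.mem_image]
        exact ⟨w, by rw [hP, Finset.mem_filter]; exact ⟨Finset.mem_univ _, hw⟩, hw0⟩
      · left; right
        rw [hA2, Finset.mem_biUnion]
        refine ⟨r, Finset.mem_range.2 hr, ?_⟩
        rw [Finset.mem_image]
        refine ⟨(w, i, z1, z2), ?_, hw0⟩
        rw [hC, Finset.mem_filter]
        exact ⟨Finset.mem_univ _, hw⟩
      · by_cases k1 : (v, a) ∈ A1
        · exact Or.inl (Or.inl k1)
        · by_cases k2 : (v, a) ∈ A2
          · exact Or.inl (Or.inr k2)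
          · right
            rw [hA3, Finset.mem_filter]
            exact ⟨Finset.mem_univ _, k1, k2, h⟩
    have h2 := Set.ncard_le_ncard h1 (Finset.finite_toSet _)
    rw [Set.ncard_coe_finset] at h2
    refine h2.trans (Finset.card_image_le.trans ((Finset.card_union_le _ _).trans ?_))
    exact Nat.add_le_add_right (Finset.card_union_le _ _) _
  have hfin : K * {v : Fin n | Bad F J K v}.ncard ≤
      K * (Y F J + ∑ r ∈ range J, Cy F r) + ∑ r ∈ range J, Y F r := by
    calc K * {v : Fin n | Bad F J K v}.ncard ≤ K * (A1.card + A2.card + A3.card) :=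
          Nat.mul_le_mul_left _ hB
      _ = K * (A1.card + A2.card) + K * A3.card := by ring
      _ ≤ K * (Y F J + ∑ r ∈ range J, Cy F r) + ∑ r ∈ range J, Y F r :=
          Nat.add_le_add (Nat.mul_le_mul_left _ (Nat.add_le_add hA1c hA2c)) hA3c
  exact_mod_cast hfin

end Pool.Agent.R2
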