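import Mathlib
import Pool.Agent.R2.Basic

/-!
# Random 2-CNF formulas: programs of linear size below the threshold, definitions and statements
-/

namespace Pool.Agent.R2

open Finset Pool.Agent.Helper56.Iso Pool.Agent.Dichotomy

/-- A deterministic decomposable program (a d-DNNF written with sets of assignments): every gate is
a set with at most one element, or the disjoint union of two earlier gates, or the set of the sums
of the elements of two earlier gates which live on disjoint sets of variables. -/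
def IsDProg {ι g : Type*} (rk : g → ℕ) (M : g → Set (ι → ZMod 2)) : Prop :=
  ∀ v, (∃ x, M v ⊆ {x}) ∨
    (∃ a b, rk a < rk v ∧ rk b < rk v ∧ Disjoint (M a) (M b) ∧ M v = M a ∪ M b) ∨
    ∃ a b, rk a < rk v ∧ rk b < rk v ∧
      (∃ B : Set ι, (∀ x ∈ M a, ∀ i ∉ B, x i = 0) ∧ ∀ y ∈ M b, ∀ i ∈ B, y i = 0) ∧
      M v = {z | ∃ x ∈ M a, ∃ y ∈ M b, z = x + y}

/-- The solutions of `F` are computed by a deterministic decomposable program with at most `B`
gates. -/
def EasyD {n : ℕ} (F : Finset (Cl n)) (B : ℕ) : Prop :=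
  ∃ (g : Type) (_ : Fintype g) (rk : g → ℕ) (M : g → Set (Fin n → ZMod 2)) (top : g),
    IsDProg rk M ∧ M top = SOL F ∧ Fintype.card g ≤ B

/-! ### Straight line form -/

/-- `S` is obtained in one step from the sets in `𝓛`. -/
def DGood {ι : Type*} (𝓛 : Set (Set (ι → ZMod 2))) (S : Set (ι → ZMod 2)) : Prop :=
  (∃ x, S ⊆ {x}) ∨ (∃ T ∈ 𝓛, ∃ T' ∈ 𝓛, Disjoint T T' ∧ S = T ∪ T') ∨
    ∃ T ∈ 𝓛, ∃ T' ∈ 𝓛, (∃ B : Set ι, (∀ x ∈ T, ∀ i ∉ B, x i = 0) ∧ ∀ y ∈ T', ∀ i ∈ B, y i = 0) ∧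
      S = {z | ∃ x ∈ T, ∃ y ∈ T', z = x + y}

/-- A list of sets each of which is obtained in one step from the later ones. -/
def DChain {ι : Type*} : List (Set (ι → ZMod 2)) → Prop
  | [] => True
  | S :: L => DGood {T | T ∈ L} S ∧ DChain L

/-- All sets of `𝓛` are gates of a program with `k` gates. -/
def DReach {ι : Type*} (k : ℕ) (𝓛 : Set (Set (ι → ZMod 2))) : Prop :=
  ∃ L : List (Set (ι → ZMod 2)), DChain L ∧ (∀ S ∈ 𝓛, S ∈ L) ∧ L.length ≤ k

/-! ### Paths in the multigraph of the clauses -/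

/-- The clause `e` has the variables `u` and `v`. -/
def Joins {n : ℕ} (e : Cl n) (u v : Fin n) : Prop :=
  (e.1.1.1 = u ∧ e.1.2.1 = v) ∨ (e.1.1.1 = v ∧ e.1.2.1 = u)

/-- The clauses of `F` with both variables in `S`. -/
def inn {n : ℕ} (F : Finset (Cl n)) (S : Finset (Fin n)) : Finset (Cl n) :=
  F.filter fun e => e.1.1.1 ∈ S ∧ e.1.2.1 ∈ S

/-- The clauses of `F` with both variables in `S` one of which is `v`. -/
def inc {n : ℕ} (F : Finset (Cl n)) (S : Finset (Fin n)) (v : Fin n) : Finset (Cl n) :=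
  (inn F S).filter fun e => e.1.1.1 = v ∨ e.1.2.1 = v

/-- A path `v 0, …, v r` of distinct variables in `S`, `c i` a clause of `F` on `v i`, `v (i + 1)`. -/
def IsGPath {n : ℕ} (F : Finset (Cl n)) (S : Finset (Fin n)) (r : ℕ) (v : ℕ → Fin n)
    (c : ℕ → Cl n) : Prop :=
  (∀ i ≤ r, v i ∈ S) ∧ (∀ i ≤ r, ∀ j ≤ r, v i = v j → i = j) ∧
    ∀ i < r, c i ∈ F ∧ Joins (c i) (v i) (v (i + 1))

/-- A path with two further different clauses inside `S`, one on the first and one on the last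
variable of the path, whose other variables are also on the path. -/
def IsGBic {n : ℕ} (F : Finset (Cl n)) (S : Finset (Fin n)) (r : ℕ) (v : ℕ → Fin n)
    (c : ℕ → Cl n) (e e' : Cl n) : Prop :=
  IsGPath F S r v c ∧ e ∈ inn F S ∧ e' ∈ inn F S ∧ e ≠ e' ∧ (∀ i < r, c i ≠ e ∧ c i ≠ e') ∧
    (∃ i ≤ r, Joins e (v 0) (v i)) ∧ ∃ i ≤ r, Joins e' (v r) (v i)

/-! ### Elimination of variables -/

/-- A state of the elimination: `S` the remaining variables, `A v a` the partial solutions on the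
block `B v` with value `a` at `v`, `G` the partial solutions on the block `B0` of the finished
components. -/
structure Stt {n : ℕ} (F : Finset (Cl n)) (S : Finset (Fin n))
    (A : Fin n → ZMod 2 → Set (Fin n → ZMod 2)) (G : Set (Fin n → ZMod 2))
    (B : Fin n → Finset (Fin n)) (B0 : Finset (Fin n)) : Prop where
  mem : ∀ v ∈ S, v ∈ B v
  val : ∀ v ∈ S, ∀ a, ∀ y ∈ A v a, y v = a ∧ ∀ w ∉ B v, y w = 0
  disj : ∀ v ∈ S, ∀ w ∈ S, v ≠ w → Disjoint (B v) (B w)
  disj0 : ∀ v ∈ S, Disjoint (B v) B0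
  val0 : ∀ y ∈ G, ∀ w ∉ B0, y w = 0
  sol : ∀ z, z ∈ SOL F ↔ ∃ x : Fin n → ZMod 2,
    (∀ e ∈ inn F S, ¬ (x e.1.1.1 = e.1.1.2 ∧ x e.1.2.1 = e.1.2.2)) ∧
    ∃ g ∈ G, ∃ m : Fin n → Fin n → ZMod 2, (∀ v ∈ S, m v ∈ A v (x v)) ∧ z = g + ∑ v ∈ S, m v

/-! ### Statements -/

/-- [DR] Straight line programs. Proof: as `XTW.Reach.add_one`, `XTW.isProg_of_chain`,
`XTW.Reach.prog`. -/
def St_DR : Prop :=
  (∀ {ι : Type} (k : ℕ) (𝓛 : Set (Set (ι → ZMod 2))) (S : Set (ι → ZMod 2)), DReach k 𝓛 →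
    DGood 𝓛 S → DReach (k + 1) (𝓛 ∪ {S})) ∧
  (∀ {ι : Type}, DReach 0 (∅ : Set (Set (ι → ZMod 2)))) ∧
  (∀ {ι : Type} (k k' : ℕ) (𝓛 𝓛' : Set (Set (ι → ZMod 2))), DReach k 𝓛 → k ≤ k' → 𝓛' ⊆ 𝓛 →
    DReach k' 𝓛') ∧
  ∀ {ι : Type} (k : ℕ) (S : Set (ι → ZMod 2)), DReach k {S} →
    ∃ (g : Type) (_ : Fintype g) (rk : g → ℕ) (M : g → Set (ι → ZMod 2)) (top : g),
      IsDProg rk M ∧ M top = S ∧ Fintype.card g ≤ k

/-- [Lf] Elimination of a variable `v` with at most one clause. Proof: no clause: the new `G` is the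
sum of `G` and `A v 0 ∪ A v 1` (two gates), the new `B0` is `B0 ∪ B v`. One clause, on `v` and `w`,
excluding `(v, a0), (w, b0)`: the new `A w b` is the sum of `A w b` and, for `b = b0`,
`A v (a0 + 1)`, for `b ≠ b0`, `A v 0 ∪ A v 1` (three gates); the new `B w` is `B w ∪ B v`. -/
def St_Lf : Prop :=
  ∀ {n : ℕ} (F : Finset (Cl n)) (S : Finset (Fin n)) (A : Fin n → ZMod 2 → Set (Fin n → ZMod 2))
    (G : Set (Fin n → ZMod 2)) (B : Fin n → Finset (Fin n)) (B0 : Finset (Fin n)) (k : ℕ)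
    (𝓛 : Set (Set (Fin n → ZMod 2))), Stt F S A G B B0 → DReach k 𝓛 →
    (∀ v ∈ S, ∀ a, A v a ∈ 𝓛) → G ∈ 𝓛 → ∀ v ∈ S, (inc F S v).card ≤ 1 →
    ∃ (A' : Fin n → ZMod 2 → Set (Fin n → ZMod 2)) (G' : Set (Fin n → ZMod 2))
      (B' : Fin n → Finset (Fin n)) (B0' : Finset (Fin n)) (𝓛' : Set (Set (Fin n → ZMod 2))),
      Stt F (S.erase v) A' G' B' B0' ∧ DReach (k + 3) 𝓛' ∧
      (∀ w ∈ S.erase v, ∀ a, A' w a ∈ 𝓛') ∧ G' ∈ 𝓛'

/-- [CyS] Elimination of a component which is a cycle. Proof: let `P i b a` be the set of the sums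
`m (v 0) + … + m (v i)` with `m (v j) ∈ A (v j) (x j)`, `x 0 = b`, `x i = a`, such that the clauses
`c 0, …, c (i - 1)` are satisfied. `P 0 b a` is `A (v 0) b` if `a = b` and empty otherwise;
`P (i + 1) b a` is the sum of `A (v (i + 1)) a` and the union of the `P i b a'` for which `a'`, `a`
satisfy `c i` (eight gates for each `i`; the unions are disjoint because an element of `P i b a`
has the value `a` at `v i`). The new `G` is the sum of `G` and the union of the `P r b a` for which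
`b`, `a` satisfy `e`. One gate for the empty set, at most three for the last union, one for the
sum: `8 r + 5` gates. `A` and `B` are not changed. -/
def St_CyS : Prop :=
  ∀ {n : ℕ} (F : Finset (Cl n)) (S : Finset (Fin n)) (A : Fin n → ZMod 2 → Set (Fin n → ZMod 2))
    (G : Set (Fin n → ZMod 2)) (B : Fin n → Finset (Fin n)) (B0 : Finset (Fin n)) (k : ℕ)
    (𝓛 : Set (Set (Fin n → ZMod 2))), Stt F S A G B B0 → DReach k 𝓛 →
    (∀ v ∈ S, ∀ a, A v a ∈ 𝓛) → G ∈ 𝓛 →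
    ∀ (r : ℕ) (v : ℕ → Fin n) (c : ℕ → Cl n) (e : Cl n), 1 ≤ r → IsGPath F S r v c →
    e ∈ inn F S → Joins e (v 0) (v r) → (∀ i < r, c i ≠ e) →
    (∀ f ∈ inn F S, ∀ i ≤ r, (f.1.1.1 = v i ∨ f.1.2.1 = v i) → f = e ∨ ∃ j < r, f = c j) →
    ∃ (G' : Set (Fin n → ZMod 2)) (B0' : Finset (Fin n)) (𝓛' : Set (Set (Fin n → ZMod 2))),
      Stt F (S \ (range (r + 1)).image v) A G' B B0' ∧ DReach (k + 8 * (r + 1)) 𝓛' ∧
      (∀ w ∈ S \ (range (r + 1)).image v, ∀ a, A w a ∈ 𝓛') ∧ G' ∈ 𝓛'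

/-- [LP] Without an `IsGBic` structure a set of variables all of which have at least two clauses
inside the set contains a component which is a cycle. Proof: take a longest path; `r ≥ 1`. The last
variable has a clause `e' ≠ c (r - 1)`, its other variable is on the path (else the path can be
prolonged); similarly `e ≠ c 0` at the first variable; `e`, `e'` are not among the `c i`. Since
there is no `IsGBic`, `e = e'` joins `v 0` and `v r`. If there were a further clause `f` at `v i`: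
if its other variable is not on the path, then the path `v (i + 1), …, v r, v 0, …, v i` (closed up
with `e`) can be prolonged; if it is on the path, then the path
`v i, v (i - 1), …, v 0, v r, …, v (i + 1)` together with `f` and `c i` is an `IsGBic` (for `i = r`
the path itself with `e` at `v 0` and `f` at `v r`). -/
def St_LP : Prop :=
  ∀ {n : ℕ} (F : Finset (Cl n)) (S : Finset (Fin n)), S.Nonempty →
    (¬ ∃ (r : ℕ) (v : ℕ → Fin n) (c : ℕ → Cl n) (e e' : Cl n), IsGBic F S r v c e e') →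
    (∀ v ∈ S, 2 ≤ (inc F S v).card) →
    ∃ (r : ℕ) (v : ℕ → Fin n) (c : ℕ → Cl n) (e : Cl n), 1 ≤ r ∧ IsGPath F S r v c ∧
      e ∈ inn F S ∧ Joins e (v 0) (v r) ∧ (∀ i < r, c i ≠ e) ∧
      ∀ f ∈ inn F S, ∀ i ≤ r, (f.1.1.1 = v i ∨ f.1.2.1 = v i) → f = e ∨ ∃ j < r, f = c j

/-- [LinD] The program of linear size. Proof: induction on the number of the remaining variables
with [Lf], [LP], [CyS]; initially `S = univ`, `A v a = {Pi.single v a}`, `G = {0}`, `B v = {v}`,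
`B0 = ∅`, `n + 1` gates (`Pi.single v 0 = 0`). -/
def St_LinD : Prop :=
  ∀ {n : ℕ} (F : Finset (Cl n)),
    (¬ ∃ (r : ℕ) (v : ℕ → Fin n) (c : ℕ → Cl n) (e e' : Cl n), IsGBic F univ r v c e e') →
    EasyD F (9 * n + 1)

/-- [GBP] Below density one half there is no `IsGBic` structure. Proof: `r < n`; the expected number
of the structures is at most
`∑ r, n (n - 1) ^ r 4 ^ r (4 (r + 1)) ^ 2 p ^ (r + 2) = O (1 / n)`, since `4 (n - 1) p = 2 α < 1`. -/
def St_GBP : Prop := ∀ α : ℝ, 0 < α → α < 1 / 2 →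
  Whp α fun n F => ¬ ∃ (r : ℕ) (v : ℕ → Fin n) (c : ℕ → Cl n) (e e' : Cl n),
    IsGBic F univ r v c e e'

end Pool.Agent.R2
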