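import Mathlib
import Pool.Agent.R2.Lin

/-!
# Random 2-CNF formulas, module CyS: elimination of a component which is a cycle
-/

namespace Pool.Agent.R2

open Finset Pool.Agent.Helper56.Iso Pool.Agent.Dichotomy Filter Topology

section reach

variable {ι : Type*}

private theorem cys_mono {𝓛 𝓛' : Set (Set (ι → ZMod 2))} {S : Set (ι → ZMod 2)} (h : DGood 𝓛 S)
    (hs : 𝓛 ⊆ 𝓛') : DGood 𝓛' S := by
  rcases h with h | ⟨T, hT, T', hT', h1⟩ | ⟨T, hT, T', hT', h1⟩
  · exact Or.inl h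
  · exact Or.inr (Or.inl ⟨T, hs hT, T', hs hT', h1⟩)
  · exact Or.inr (Or.inr ⟨T, hs hT, T', hs hT', h1⟩)

private theorem cys_append {L K : List (Set (ι → ZMod 2))} (hL : DChain L)
    (hK : ∀ S ∈ K, DGood {T | T ∈ L} S) : DChain (K ++ L) := by
  induction K with
  | nil => exact hL
  | cons S K ih =>
    refine ⟨?_, ih (fun S hS => hK S (List.mem_cons_of_mem _ hS))⟩
    exact cys_mono (hK S List.mem_cons_self) (fun T hT => List.mem_append_right _ hT)

private theorem cys_le {k k' : ℕ} {𝓛 𝓛' : Set (Set (ι → ZMod 2))} (h : DReach k 𝓛) (hn : k ≤ k')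
    (hs : 𝓛' ⊆ 𝓛) : DReach k' 𝓛' := by
  obtain ⟨L, h1, h2, h3⟩ := h
  exact ⟨L, h1, fun S hS => h2 S (hs hS), h3.trans hn⟩

private theorem cys_add {k : ℕ} {𝓛 : Set (Set (ι → ZMod 2))} (h : DReach k 𝓛) {A : Type*}
    [Fintype A] (f : A → Set (ι → ZMod 2)) (hf : ∀ a, DGood 𝓛 (f a)) :
    DReach (k + Fintype.card A) (𝓛 ∪ Set.range f) := by
  classical
  obtain ⟨L, h1, h2, h3⟩ := h
  refine ⟨(Finset.univ : Finset A).toList.map f ++ L, cys_append h1 ?_, ?_, ?_⟩
  · intro S hS
    rw [List.mem_map] at hS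
    obtain ⟨a, -, rfl⟩ := hS
    exact cys_mono (hf a) (fun T hT => h2 T hT)
  · rintro S (hS | ⟨a, rfl⟩)
    · exact List.mem_append_right _ (h2 S hS)
    · exact List.mem_append_left _ (List.mem_map.mpr ⟨a, by simp, rfl⟩)
  · rw [List.length_append, List.length_map, Finset.length_toList, Finset.card_univ]
    omega

private theorem cys_add_one {k : ℕ} {𝓛 : Set (Set (ι → ZMod 2))} (h : DReach k 𝓛)
    {S : Set (ι → ZMod 2)} (hf : DGood 𝓛 S) : DReach (k + 1) (𝓛 ∪ {S}) := by
  have h1 := cys_add h (A := Unit) (fun _ => S) (fun _ => hf)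
  refine cys_le h1 (by simp) ?_
  rintro T (hT | hT)
  · exact Or.inl hT
  · exact Or.inr ⟨(), hT.symm⟩

private theorem cys_two (a : ZMod 2) : a = 0 ∨ a = 1 := by
  revert a
  decide

/-- the union of the sets `Q a`, `p a` -/
private theorem cys_union {𝓛 : Set (Set (ι → ZMod 2))} (h0 : ∅ ∈ 𝓛) (p : ZMod 2 → Prop)
    (Q : ZMod 2 → Set (ι → ZMod 2)) (hQ : ∀ a, Q a ∈ 𝓛) (hd : Disjoint (Q 0) (Q 1)) :
    DGood 𝓛 {y | ∃ a, p a ∧ y ∈ Q a} := by
  right
  left
  by_cases h1 : p 0
  · by_cases h2 : p 1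
    · refine ⟨Q 0, hQ 0, Q 1, hQ 1, hd, ?_⟩
      ext y
      constructor
      · rintro ⟨a, ha, hy⟩
        rcases cys_two a with rfl | rfl
        · exact Or.inl hy
        · exact Or.inr hy
      · rintro (hy | hy)
        · exact ⟨0, h1, hy⟩
        · exact ⟨1, h2, hy⟩
    · refine ⟨Q 0, hQ 0, ∅, h0, disjoint_bot_right, ?_⟩
      ext y
      constructor
      · rintro ⟨a, ha, hy⟩
        rcases cys_two a with rfl | rfl
        · exact Or.inl hy
        · exact absurd ha h2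
      · rintro (hy | hy)
        · exact ⟨0, h1, hy⟩
        · exact hy.elim
  · by_cases h2 : p 1
    · refine ⟨∅, h0, Q 1, hQ 1, disjoint_bot_left, ?_⟩
      ext y
      constructor
      · rintro ⟨a, ha, hy⟩
        rcases cys_two a with rfl | rfl
        · exact absurd ha h1
        · exact Or.inr hy
      · rintro (hy | hy)
        · exact hy.elim
        · exact ⟨1, h2, hy⟩
    · refine ⟨∅, h0, ∅, h0, disjoint_bot_left, ?_⟩
      ext y
      constructor
      · rintro ⟨a, ha, hy⟩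
        rcases cys_two a with rfl | rfl
        · exact absurd ha h1
        · exact absurd ha h2
      · rintro (hy | hy)
        · exact hy.elim
        · exact hy.elim

end reach

section cyc

variable {n : ℕ}

/-- the values `a` at `u` and `b` at the other variable satisfy `f` -/
def cys_ok (f : Cl n) (u : Fin n) (a b : ZMod 2) : Prop :=
  if f.1.1.1 = u then ¬ (a = f.1.1.2 ∧ b = f.1.2.2) else ¬ (b = f.1.1.2 ∧ a = f.1.2.2)

private theorem cys_ok_iff {f : Cl n} {u w : Fin n} (h : Joins f u w) (x : Fin n → ZMod 2) :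
    cys_ok f u (x u) (x w) ↔ ¬ (x f.1.1.1 = f.1.1.2 ∧ x f.1.2.1 = f.1.2.2) := by
  unfold cys_ok
  rcases h with ⟨h1, h2⟩ | ⟨h1, h2⟩
  · rw [if_pos h1, h1, h2]
  · have h3 : f.1.1.1 ≠ u := by
      rw [← h2]
      exact ne_of_lt f.2
    rw [if_neg h3, h1, h2]

/-- the solutions on an initial part of the path -/
def cys_P (A : Fin n → ZMod 2 → Set (Fin n → ZMod 2)) (v : ℕ → Fin n) (c : ℕ → Cl n) :
    ℕ → ZMod 2 → ZMod 2 → Set (Fin n → ZMod 2)
  | 0, b, a => {y | a = b ∧ y ∈ A (v 0) b}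
  | i + 1, b, a => {z | ∃ x ∈ A (v (i + 1)) a, ∃ y ∈ {y | ∃ a', cys_ok (c i) (v i) a' a ∧
      y ∈ cys_P A v c i b a'}, z = x + y}

private theorem cys_sem (A : Fin n → ZMod 2 → Set (Fin n → ZMod 2)) (v : ℕ → Fin n)
    (c : ℕ → Cl n) (i : ℕ) (b a : ZMod 2) (y : Fin n → ZMod 2) :
    y ∈ cys_P A v c i b a ↔ ∃ (x : ℕ → ZMod 2) (m : ℕ → Fin n → ZMod 2), x 0 = b ∧ x i = a ∧
      (∀ j ≤ i, m j ∈ A (v j) (x j)) ∧ (∀ j < i, cys_ok (c j) (v j) (x j) (x (j + 1))) ∧
      y = ∑ j ∈ range (i + 1), m j := by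
  induction i generalizing a y with
  | zero =>
    constructor
    · rintro ⟨rfl, hy⟩
      refine ⟨fun _ => a, fun _ => y, rfl, rfl, ?_, ?_, by simp⟩
      · intro j hj
        obtain rfl : j = 0 := by omega
        exact hy
      · intro j hj
        omega
    · rintro ⟨x, m, h0, h1, h2, -, h4⟩
      refine ⟨h1.symm.trans h0, ?_⟩
      rw [h4, zero_add, Finset.sum_range_one, ← h0]
      exact h2 0 le_rfl
  | succ i ih =>
    constructor
    · rintro ⟨p, hp, y', ⟨a', ha', hy'⟩, rfl⟩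
      obtain ⟨x, m, h0, h1, h2, h3, h4⟩ := (ih a' y').1 hy'
      refine ⟨Function.update x (i + 1) a, Function.update m (i + 1) p, ?_, ?_, ?_, ?_, ?_⟩
      · rw [Function.update_of_ne (by omega)]
        exact h0
      · rw [Function.update_self]
      · intro j hj
        rcases Nat.lt_or_ge j (i + 1) with h | h
        · rw [Function.update_of_ne (by omega), Function.update_of_ne (by omega)]
          exact h2 j (by omega)
        · obtain rfl : j = i + 1 := by omega
          rw [Function.update_self, Function.update_self]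
          exact hp
      · intro j hj
        rcases Nat.lt_or_ge j i with h | h
        · rw [Function.update_of_ne (by omega), Function.update_of_ne (by omega)]
          exact h3 j h
        · obtain rfl : j = i := by omega
          rw [Function.update_of_ne (by omega), Function.update_self, h1]
          exact ha'
      · rw [Finset.sum_range_succ, Function.update_self, h4, add_comm]
        congr 1
        refine Finset.sum_congr rfl fun j hj => ?_
        have := Finset.mem_range.1 hj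
        rw [Function.update_of_ne (by omega)]
    · rintro ⟨x, m, h0, h1, h2, h3, h4⟩
      refine ⟨m (i + 1), ?_, ∑ j ∈ range (i + 1), m j, ⟨x i, ?_, ?_⟩, ?_⟩
      · rw [← h1]
        exact h2 (i + 1) le_rfl
      · rw [← h1]
        exact h3 i (by omega)
      · exact (ih (x i) _).2 ⟨x, m, h0, rfl, fun j hj => h2 j (by omega),
          fun j hj => h3 j (by omega), rfl⟩
      · rw [h4, Finset.sum_range_succ, add_comm]

variable {F : Finset (Cl n)} {S : Finset (Fin n)} {A : Fin n → ZMod 2 → Set (Fin n → ZMod 2)}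
  {G : Set (Fin n → ZMod 2)} {B : Fin n → Finset (Fin n)} {B0 : Finset (Fin n)}

/-- the value of an element of `cys_P` at a variable of the path -/
private theorem cys_val (st : Stt F S A G B B0) {r : ℕ} {v : ℕ → Fin n} {c : ℕ → Cl n}
    (hp : IsGPath F S r v c) {i : ℕ} (hi : i ≤ r) (x : ℕ → ZMod 2) (m : ℕ → Fin n → ZMod 2)
    (hm : ∀ j ≤ i, m j ∈ A (v j) (x j)) {l : ℕ} (hl : l ≤ i) :
    (∑ j ∈ range (i + 1), m j) (v l) = x l := by
  rw [Finset.sum_apply, Finset.sum_eq_single l]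
  · exact (st.val _ (hp.1 l (by omega)) _ _ (hm l hl)).1
  · intro j hj hjl
    have hji := Finset.mem_range.1 hj
    refine (st.val _ (hp.1 j (by omega)) _ _ (hm j (by omega))).2 _ ?_
    intro h
    have h1 : v j ≠ v l := fun h2 => hjl (hp.2.1 j (by omega) l (by omega) h2)
    have h2 := st.disj _ (hp.1 j (by omega)) _ (hp.1 l (by omega)) h1
    exact Finset.disjoint_left.1 h2 h (st.mem _ (hp.1 l (by omega)))
  · intro h
    exact absurd (Finset.mem_range.2 (by omega)) h

/-- the support of an element of `cys_P` -/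
private theorem cys_supp (st : Stt F S A G B B0) {r : ℕ} {v : ℕ → Fin n} {c : ℕ → Cl n}
    (hp : IsGPath F S r v c) {i : ℕ} (hi : i ≤ r) (x : ℕ → ZMod 2) (m : ℕ → Fin n → ZMod 2)
    (hm : ∀ j ≤ i, m j ∈ A (v j) (x j)) {w : Fin n} (hw : ∀ j ≤ i, w ∉ B (v j)) :
    (∑ j ∈ range (i + 1), m j) w = 0 := by
  rw [Finset.sum_apply]
  refine Finset.sum_eq_zero fun j hj => ?_
  have hji := Finset.mem_range.1 hj
  exact (st.val _ (hp.1 j (by omega)) _ _ (hm j (by omega))).2 _ (hw j (by omega))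

private theorem cys_disj (st : Stt F S A G B B0) {r : ℕ} {v : ℕ → Fin n} {c : ℕ → Cl n}
    (hp : IsGPath F S r v c) {i : ℕ} (hi : i ≤ r) (b b' a a' : ZMod 2) (h : b ≠ b' ∨ a ≠ a') :
    Disjoint (cys_P A v c i b a) (cys_P A v c i b' a') := by
  rw [Set.disjoint_left]
  intro y hy hy'
  rw [cys_sem] at hy hy'
  obtain ⟨x, m, h0, h1, h2, -, h4⟩ := hy
  obtain ⟨x', m', h0', h1', h2', -, h4'⟩ := hy'
  have e0 := cys_val st hp hi x m h2 (Nat.zero_le i)
  have e1 := cys_val st hp hi x m h2 (le_refl i)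
  have e0' := cys_val st hp hi x' m' h2' (Nat.zero_le i)
  have e1' := cys_val st hp hi x' m' h2' (le_refl i)
  rw [← h4] at e0 e1
  rw [← h4'] at e0' e1'
  rcases h with h | h
  · apply h
    rw [← h0, ← h0', ← e0, ← e0']
  · apply h
    rw [← h1, ← h1', ← e1, ← e1']

private theorem cys_reach (st : Stt F S A G B B0) {k : ℕ} {𝓛 : Set (Set (Fin n → ZMod 2))}
    (hr : DReach k 𝓛) (hA : ∀ v ∈ S, ∀ a, A v a ∈ 𝓛) {r : ℕ} {v : ℕ → Fin n} {c : ℕ → Cl n}
    (hp : IsGPath F S r v c) (i : ℕ) (hi : i ≤ r) :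
    DReach (k + 1 + 8 * i) (𝓛 ∪ {∅} ∪ Set.range fun p : ZMod 2 × ZMod 2 =>
      cys_P A v c i p.1 p.2) := by
  induction i with
  | zero =>
    have h1 : DReach (k + 1) (𝓛 ∪ {∅}) := cys_add_one hr (Or.inl ⟨0, Set.empty_subset _⟩)
    refine cys_le h1 (by omega) ?_
    rintro T (hT | ⟨⟨b, a⟩, rfl⟩)
    · exact hT
    · by_cases hab : a = b
      · left
        have h2 : cys_P A v c 0 b a = A (v 0) b := by
          ext y
          exact ⟨fun h => h.2, fun h => ⟨hab, h⟩⟩
        show cys_P A v c 0 b a ∈ 𝓛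
        rw [h2]
        exact hA _ (hp.1 0 (by omega)) _
      · right
        have h2 : cys_P A v c 0 b a = ∅ := by
          ext y
          exact ⟨fun h => hab h.1, fun h => h.elim⟩
        exact h2
  | succ i ih =>
    have h1 := ih (by omega)
    have h2 := cys_add h1 (A := ZMod 2 × ZMod 2) (fun p => {y | ∃ a', cys_ok (c i) (v i) a' p.2 ∧
      y ∈ cys_P A v c i p.1 a'}) (fun p => cys_union (Or.inl (Or.inr rfl)) _ _
        (fun a => Or.inr ⟨(p.1, a), rfl⟩)
        (cys_disj st hp (by omega) _ _ _ _ (Or.inr (by decide))))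
    have h3 := cys_add h2 (A := ZMod 2 × ZMod 2) (fun p => cys_P A v c (i + 1) p.1 p.2)
      (fun p => Or.inr (Or.inr ⟨A (v (i + 1)) p.2, Or.inl (Or.inl (Or.inl (hA _ (hp.1 _ hi) _))),
        _, Or.inr ⟨p, rfl⟩, ⟨B (v (i + 1)), ?_, ?_⟩, rfl⟩))
    · refine cys_le h3 ?_ ?_
      · have : Fintype.card (ZMod 2 × ZMod 2) = 4 := rfl
        rw [this]
        omega
      · rintro T (hT | hT)
        · exact Or.inl (Or.inl (Or.inl hT))
        · exact Or.inr hT
    · intro x hx j hj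
      exact (st.val _ (hp.1 _ hi) _ _ hx).2 j (by simpa using hj)
    · rintro y ⟨a', -, hy⟩ j hj
      rw [cys_sem] at hy
      obtain ⟨x, m, h0, h1, h2, -, h4⟩ := hy
      rw [h4]
      refine cys_supp st hp (by omega) x m h2 fun l hl hjl => ?_
      have h5 : v l ≠ v (i + 1) := fun h6 => by
        have := hp.2.1 l (by omega) (i + 1) hi h6
        omega
      have h6 := st.disj _ (hp.1 l (by omega)) _ (hp.1 _ hi) h5
      exact Finset.disjoint_left.1 h6 hjl (by simpa using hj)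

end cyc

theorem thm_CyS : St_CyS := by
  classical
  intro n F S A G B B0 k 𝓛 st hr hA hG r v c e hr1 hp he hej hce hf
  have hreach := cys_reach st hr hA hp r le_rfl
  obtain ⟨U, hU⟩ : ∃ U : ZMod 2 → Set (Fin n → ZMod 2), U = fun b =>
      {y | ∃ a, cys_ok e (v 0) b a ∧ y ∈ cys_P A v c r b a} := ⟨_, rfl⟩
  obtain ⟨W, hW⟩ : ∃ W : Set (Fin n → ZMod 2), W = {y | ∃ b, True ∧ y ∈ U b} := ⟨_, rfl⟩
  obtain ⟨G', hG'⟩ : ∃ G' : Set (Fin n → ZMod 2), G' = {z | ∃ x ∈ G, ∃ y ∈ W, z = x + y} :=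
    ⟨_, rfl⟩
  -- elements of W
  have hWs : ∀ y, y ∈ W ↔ ∃ (x : ℕ → ZMod 2) (m : ℕ → Fin n → ZMod 2),
      cys_ok e (v 0) (x 0) (x r) ∧ (∀ j ≤ r, m j ∈ A (v j) (x j)) ∧
      (∀ j < r, cys_ok (c j) (v j) (x j) (x (j + 1))) ∧ y = ∑ j ∈ range (r + 1), m j := by
    intro y
    rw [hW, hU]
    constructor
    · rintro ⟨b, -, a, hok, hy⟩
      rw [cys_sem] at hy
      obtain ⟨x, m, h0, h1, h2, h3, h4⟩ := hy
      refine ⟨x, m, ?_, h2, h3, h4⟩
      rw [h0, h1]
      exact hok
    · rintro ⟨x, m, h1, h2, h3, h4⟩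
      refine ⟨x 0, trivial, x r, h1, ?_⟩
      rw [cys_sem]
      exact ⟨x, m, rfl, rfl, h2, h3, h4⟩
  have h1 := cys_add hreach U (fun b => by
    rw [hU]
    exact cys_union (Or.inl (Or.inr rfl)) _ _ (fun a => Or.inr ⟨(b, a), rfl⟩)
      (cys_disj st hp le_rfl _ _ _ _ (Or.inr (by decide))))
  have h2 : DReach (k + 1 + 8 * r + Fintype.card (ZMod 2) + 1) _ :=
    cys_add_one h1 (S := W) (by
      rw [hW]
      refine cys_union (Or.inl (Or.inl (Or.inr rfl))) _ _ (fun b => Or.inr ⟨b, rfl⟩) ?_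
      rw [hU, Set.disjoint_left]
      rintro y ⟨a, -, hy⟩ ⟨a', -, hy'⟩
      exact Set.disjoint_left.1 (cys_disj st hp le_rfl 0 1 a a' (Or.inl (by decide))) hy hy')
  have h3 : DReach (k + 1 + 8 * r + Fintype.card (ZMod 2) + 1 + 1) _ :=
    cys_add_one h2 (S := G') (by
      rw [hG']
      refine Or.inr (Or.inr ⟨G, Or.inl (Or.inl (Or.inl (Or.inl hG))), W, Or.inr rfl,
        ⟨B0, ?_, ?_⟩, rfl⟩)
      · intro x hx j hj
        exact st.val0 x hx j (by simpa using hj)
      · intro y hy j hj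
        rw [hWs] at hy
        obtain ⟨x, m, -, h2, -, h4⟩ := hy
        rw [h4]
        refine cys_supp st hp le_rfl x m h2 fun l hl hjl => ?_
        exact Finset.disjoint_left.1 (st.disj0 _ (hp.1 l hl)) hjl (by simpa using hj))
  have hpath : ∀ u, u ∈ (range (r + 1)).image v ↔ ∃ j ≤ r, v j = u := by
    intro u
    rw [Finset.mem_image]
    constructor
    · rintro ⟨j, hj, h⟩
      exact ⟨j, by have := Finset.mem_range.1 hj; omega, h⟩
    · rintro ⟨j, hj, h⟩
      exact ⟨j, Finset.mem_range.2 (by omega), h⟩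
  have hsub : (range (r + 1)).image v ⊆ S := by
    intro u hu
    obtain ⟨j, hj, rfl⟩ := (hpath u).1 hu
    exact hp.1 j hj
  have hinj : ∀ (m : Fin n → Fin n → ZMod 2), ∑ u ∈ (range (r + 1)).image v, m u =
      ∑ j ∈ range (r + 1), m (v j) := by
    intro m
    refine Finset.sum_image ?_
    intro i hi j hj hij
    have h1 := Finset.mem_range.1 (Finset.mem_coe.1 hi)
    have h2 := Finset.mem_range.1 (Finset.mem_coe.1 hj)
    exact hp.2.1 i (by omega) j (by omega) hij
  have hcS : ∀ j < r, c j ∈ inn F S := by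
    intro j hj
    obtain ⟨h4, h5⟩ := hp.2.2 j hj
    unfold inn
    rw [Finset.mem_filter]
    refine ⟨h4, ?_⟩
    rcases h5 with ⟨h6, h7⟩ | ⟨h6, h7⟩
    · rw [h6, h7]
      exact ⟨hp.1 j (by omega), hp.1 (j + 1) (by omega)⟩
    · rw [h6, h7]
      exact ⟨hp.1 (j + 1) (by omega), hp.1 j (by omega)⟩
  refine ⟨G', B0 ∪ (range (r + 1)).biUnion (fun j => B (v j)),
    𝓛 ∪ {∅} ∪ (Set.range fun p : ZMod 2 × ZMod 2 => cys_P A v c r p.1 p.2) ∪ Set.range U ∪ {W} ∪
      {G'}, ?_, ?_, ?_, ?_⟩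
  rotate_left
  · refine cys_le h3 ?_ (Set.Subset.refl _)
    have : Fintype.card (ZMod 2) = 2 := rfl
    rw [this]
    omega
  · intro w hw a
    have hwS : w ∈ S := (Finset.mem_sdiff.1 hw).1
    exact Or.inl (Or.inl (Or.inl (Or.inl (Or.inl (hA w hwS a)))))
  · exact Or.inr rfl
  refine ⟨?_, ?_, ?_, ?_, ?_, ?_⟩
  · intro u hu
    exact st.mem u (Finset.mem_sdiff.1 hu).1
  · intro u hu
    exact st.val u (Finset.mem_sdiff.1 hu).1
  · intro u hu w hw
    exact st.disj u (Finset.mem_sdiff.1 hu).1 w (Finset.mem_sdiff.1 hw).1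
  · intro u hu
    obtain ⟨huS, hup⟩ := Finset.mem_sdiff.1 hu
    rw [Finset.disjoint_union_right]
    refine ⟨st.disj0 u huS, ?_⟩
    rw [Finset.disjoint_biUnion_right]
    intro j hj
    have hj' := Finset.mem_range.1 hj
    refine st.disj u huS _ (hp.1 j (by omega)) ?_
    rintro rfl
    exact hup ((hpath _).2 ⟨j, by omega, rfl⟩)
  · intro y hy w hw
    rw [hG'] at hy
    obtain ⟨g, hg, u, hu, rfl⟩ := hy
    rw [hWs] at hu
    obtain ⟨x, m, -, h4, -, h5⟩ := hu
    rw [Finset.mem_union, not_or] at hw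
    have h6 : u w = 0 := by
      rw [h5]
      refine cys_supp st hp le_rfl x m h4 fun j hj hwj => hw.2 ?_
      rw [Finset.mem_biUnion]
      exact ⟨j, Finset.mem_range.2 (by omega), hwj⟩
    rw [Pi.add_apply, st.val0 g hg w hw.1, h6, add_zero]
  · intro z
    rw [st.sol z]
    constructor
    · rintro ⟨x, hx, g, hg, m, hm, rfl⟩
      refine ⟨x, ?_, g + ∑ j ∈ range (r + 1), m (v j), ?_, m, ?_, ?_⟩
      · intro f hfm
        apply hx f
        unfold inn at hfm ⊢
        rw [Finset.mem_filter] at hfm ⊢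
        exact ⟨hfm.1, (Finset.mem_sdiff.1 hfm.2.1).1, (Finset.mem_sdiff.1 hfm.2.2).1⟩
      · rw [hG']
        refine ⟨g, hg, _, (hWs _).2 ⟨fun j => x (v j), fun j => m (v j), ?_, ?_, ?_, rfl⟩, rfl⟩
        · exact (cys_ok_iff hej x).2 (hx e he)
        · intro j hj
          exact hm _ (hp.1 j hj)
        · intro j hj
          exact (cys_ok_iff (hp.2.2 j hj).2 x).2 (hx _ (hcS j hj))
      · intro u hu
        exact hm u (Finset.mem_sdiff.1 hu).1
      · rw [← hinj, add_assoc]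
        congr 1
        rw [add_comm]
        exact (Finset.sum_sdiff hsub).symm
    · rintro ⟨x', hx', g', hg', m', hm', rfl⟩
      rw [hG'] at hg'
      obtain ⟨g, hg, u, hu, rfl⟩ := hg'
      rw [hWs] at hu
      obtain ⟨xp, mp, h4, h5, h6, rfl⟩ := hu
      obtain ⟨x, hx⟩ : ∃ x : Fin n → ZMod 2, x = fun u => if h : ∃ j ≤ r, v j = u then
        xp h.choose else x' u := ⟨_, rfl⟩
      obtain ⟨m, hm⟩ : ∃ m : Fin n → Fin n → ZMod 2, m = fun u => if h : ∃ j ≤ r, v j = u then
        mp h.choose else m' u := ⟨_, rfl⟩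
      have hch : ∀ (j : ℕ) (hj : j ≤ r), ∀ h : ∃ i ≤ r, v i = v j, h.choose = j := by
        intro j hj h
        exact hp.2.1 _ h.choose_spec.1 _ hj h.choose_spec.2
      have hxv : ∀ j ≤ r, x (v j) = xp j := by
        intro j hj
        rw [hx]
        beta_reduce
        rw [dif_pos ⟨j, hj, rfl⟩, hch j hj]
      have hmv : ∀ j ≤ r, m (v j) = mp j := by
        intro j hj
        rw [hm]
        beta_reduce
        rw [dif_pos ⟨j, hj, rfl⟩, hch j hj]
      have hxn : ∀ u, (¬ ∃ j ≤ r, v j = u) → x u = x' u := by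
        intro u hu
        rw [hx]
        beta_reduce
        rw [dif_neg hu]
      have hmn : ∀ u, (¬ ∃ j ≤ r, v j = u) → m u = m' u := by
        intro u hu
        rw [hm]
        beta_reduce
        rw [dif_neg hu]
      refine ⟨x, ?_, g, hg, m, ?_, ?_⟩
      · intro f hfm
        by_cases ht : ∃ i ≤ r, f.1.1.1 = v i ∨ f.1.2.1 = v i
        · obtain ⟨i, hi, hfi⟩ := ht
          rcases hf f hfm i hi hfi with rfl | ⟨j, hj, rfl⟩
          · rw [← cys_ok_iff hej x, hxv 0 (by omega), hxv r le_rfl]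
            exact h4
          · rw [← cys_ok_iff (hp.2.2 j hj).2 x, hxv j (by omega), hxv (j + 1) (by omega)]
            exact h6 j hj
        · have hn1 : ¬ ∃ j ≤ r, v j = f.1.1.1 := fun ⟨j, hj, h⟩ => ht ⟨j, hj, Or.inl h.symm⟩
          have hn2 : ¬ ∃ j ≤ r, v j = f.1.2.1 := fun ⟨j, hj, h⟩ => ht ⟨j, hj, Or.inr h.symm⟩
          rw [hxn _ hn1, hxn _ hn2]
          apply hx' f
          unfold inn at hfm ⊢
          rw [Finset.mem_filter] at hfm ⊢
          refine ⟨hfm.1, Finset.mem_sdiff.2 ⟨hfm.2.1, fun h => hn1 ((hpath _).1 h)⟩,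
            Finset.mem_sdiff.2 ⟨hfm.2.2, fun h => hn2 ((hpath _).1 h)⟩⟩
      · intro u hu
        by_cases ht : ∃ j ≤ r, v j = u
        · obtain ⟨j, hj, rfl⟩ := ht
          rw [hmv j hj, hxv j hj]
          exact h5 j hj
        · rw [hmn u ht, hxn u ht]
          exact hm' u (Finset.mem_sdiff.2 ⟨hu, fun h => ht ((hpath _).1 h)⟩)
      · rw [← Finset.sum_sdiff hsub, hinj, add_assoc]
        congr 1
        rw [add_comm]
        refine congrArg₂ (· + ·) ?_ ?_
        · refine Finset.sum_congr rfl fun u hu => ?_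
          rw [hmn]
          exact fun h => (Finset.mem_sdiff.1 hu).2 ((hpath _).2 h)
        · refine Finset.sum_congr rfl fun j hj => ?_
          have := Finset.mem_range.1 hj
          rw [hmv j (by omega)]

end Pool.Agent.R2
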