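import Mathlib
import Pool.Agent.R2.Lin

/-!
# Random 2-CNF formulas: straight line programs
-/

namespace Pool.Agent.R2

open Finset Pool.Agent.Helper56.Iso Pool.Agent.Dichotomy Filter Topology

theorem dr_mono {ι : Type*} {𝓛 𝓛' : Set (Set (ι → ZMod 2))} {S : Set (ι → ZMod 2)}
    (h : DGood 𝓛 S) (hs : 𝓛 ⊆ 𝓛') : DGood 𝓛' S := by
  rcases h with h | ⟨T, hT, T', hT', h1, h2⟩ | ⟨T, hT, T', hT', h1, h2⟩
  · exact Or.inl h
  · exact Or.inr (Or.inl ⟨T, hs hT, T', hs hT', h1, h2⟩)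
  · exact Or.inr (Or.inr ⟨T, hs hT, T', hs hT', h1, h2⟩)

theorem dr_getElem {ι : Type*} {L : List (Set (ι → ZMod 2))} (hL : DChain L) (i : ℕ)
    (hi : i < L.length) :
    DGood {T | ∃ j, ∃ hj : j < L.length, i < j ∧ L[j] = T} L[i] := by
  induction L generalizing i with
  | nil => simp at hi
  | cons S L ih =>
    cases i with
    | zero =>
      refine dr_mono hL.1 ?_
      intro T hT
      obtain ⟨j, hj, h⟩ := List.getElem_of_mem hT
      exact ⟨j + 1, by simp [hj], by omega, by simpa using h⟩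
    | succ i =>
      have hi' : i < L.length := by simpa using hi
      have := ih hL.2 i hi'
      simp only [List.getElem_cons_succ]
      refine dr_mono this ?_
      rintro T ⟨j, hj, hij, h⟩
      exact ⟨j + 1, by simp [hj], by omega, by simpa using h⟩

theorem dr_prog {ι : Type*} {L : List (Set (ι → ZMod 2))} (hL : DChain L) :
    IsDProg (fun i : Fin L.length => L.length - (i : ℕ)) (fun i => L[(i : ℕ)]) := by
  have hrk : ∀ i j : Fin L.length, (i : ℕ) < j → L.length - (j : ℕ) < L.length - (i : ℕ) := by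
    intro i j hij
    have := j.2
    omega
  intro i
  rcases dr_getElem hL i i.2 with h | ⟨T, ⟨j, hj, hij, rfl⟩, T', ⟨k, hk, hik, rfl⟩, h1, h2⟩ |
    ⟨T, ⟨j, hj, hij, rfl⟩, T', ⟨k, hk, hik, rfl⟩, h1, h2⟩
  · exact Or.inl h
  · exact Or.inr (Or.inl ⟨⟨j, hj⟩, ⟨k, hk⟩, hrk i ⟨j, hj⟩ hij, hrk i ⟨k, hk⟩ hik, h1, h2⟩)
  · exact Or.inr (Or.inr ⟨⟨j, hj⟩, ⟨k, hk⟩, hrk i ⟨j, hj⟩ hij, hrk i ⟨k, hk⟩ hik, h1, h2⟩)

/-- see `St_DR` -/
theorem thm_DR : St_DR := by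
  refine ⟨?_, ?_, ?_, ?_⟩
  · rintro ι k 𝓛 S ⟨L, h1, h2, h3⟩ hS
    refine ⟨S :: L, ⟨dr_mono hS fun T hT => h2 T hT, h1⟩, ?_, ?_⟩
    · rintro T (hT | hT)
      · exact List.mem_cons_of_mem _ (h2 T hT)
      · have hT' : T = S := hT
        rw [hT']
        exact List.mem_cons_self
    · rw [List.length_cons]
      omega
  · intro ι
    exact ⟨[], trivial, fun _ h => absurd h (Set.notMem_empty _), le_rfl⟩
  · rintro ι k k' 𝓛 𝓛' ⟨L, h1, h2, h3⟩ hk hs
    exact ⟨L, h1, fun S hS => h2 S (hs hS), h3.trans hk⟩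
  · rintro ι k S ⟨L, h1, h2, h3⟩
    obtain ⟨j, hj, h⟩ := List.getElem_of_mem (h2 S rfl)
    refine ⟨Fin L.length, inferInstance, _, _, ⟨j, hj⟩, dr_prog h1, h, ?_⟩
    rw [Fintype.card_fin]
    exact h3

end Pool.Agent.R2
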