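import Mathlib
import Pool.Agent.R2.Basic
import Pool.Agent.Helper91.Dich.Path
import Pool.Agent.Helper34.XTW.Sumset

/-!
# The deterministic lower bound
-/

namespace Pool.Agent.R2

open Finset Pool.Agent.Helper56.Iso Pool.Agent.Dichotomy Filter Topology

theorem det_pow_floor {q : ℝ} (hq0 : 0 < q) (hq1 : q < 1) (m k : ℕ) (hk : 0 < k) {y : ℝ}
    (hy : y ≤ m) : q ^ (m / k) ≤ q⁻¹ * (2 : ℝ) ^ (-((-Real.logb 2 q) / k * y)) := by
  have hk' : (0 : ℝ) < k := by exact_mod_cast hk
  have h1 : (m : ℝ) / k - 1 ≤ ((m / k : ℕ) : ℝ) := by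
    have h2 : (m : ℝ) < (((m / k : ℕ) : ℝ) + 1) * k := by
      have h3 : m < (m / k + 1) * k := by
        have := Nat.div_add_mod m k
        have h4 := Nat.mod_lt m hk
        nlinarith
      exact_mod_cast h3
    have h5 : (m : ℝ) / k < ((m / k : ℕ) : ℝ) + 1 := by
      rw [div_lt_iff₀ hk']
      exact h2
    linarith
  have h6 : y / k - 1 ≤ ((m / k : ℕ) : ℝ) := by
    have : y / k ≤ m / k := div_le_div_of_nonneg_right hy hk'.le
    linarith
  calc q ^ (m / k) = q ^ ((m / k : ℕ) : ℝ) := (Real.rpow_natCast _ _).symm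
    _ ≤ q ^ (y / k - 1) := Real.rpow_le_rpow_of_exponent_ge hq0 hq1.le h6
    _ = q⁻¹ * q ^ (y / k) := by
        rw [Real.rpow_sub hq0, Real.rpow_one]
        field_simp
    _ = q⁻¹ * (2 : ℝ) ^ (-((-Real.logb 2 q) / k * y)) := by
        congr 1
        have h7 : (2 : ℝ) ^ (Real.logb 2 q) = q :=
          Real.rpow_logb (by norm_num) (by norm_num) hq0
        calc q ^ (y / k) = ((2 : ℝ) ^ (Real.logb 2 q)) ^ (y / k) := by rw [h7]
          _ = (2 : ℝ) ^ (Real.logb 2 q * (y / k)) := (Real.rpow_mul (by norm_num) _ _).symm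
          _ = _ := by
            congr 1
            ring

theorem det_q (K : ℕ) : (0 : ℝ) < 2 ^ K / (2 ^ K + 1) ∧ (2 : ℝ) ^ K / (2 ^ K + 1) < 1 ∧
    ((2 : ℝ) ^ K / (2 ^ K + 1))⁻¹ ≤ 2 ∧ 0 < -Real.logb 2 ((2 : ℝ) ^ K / (2 ^ K + 1)) := by
  have h1 : (1 : ℝ) ≤ 2 ^ K := one_le_pow₀ (by norm_num)
  have h2 : (0 : ℝ) < 2 ^ K / (2 ^ K + 1) := by positivity
  have h3 : (2 : ℝ) ^ K / (2 ^ K + 1) < 1 := by
    rw [div_lt_one (by positivity)]
    linarith
  refine ⟨h2, h3, ?_, ?_⟩
  · rw [inv_div, div_le_iff₀ (by positivity)]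
    linarith
  · rw [neg_pos]
    exact Real.logb_neg (by norm_num) h2 h3

theorem thm_Det (hKap : St_Kap) (hBet : St_Bet) : St_Det := by
  classical
  intro b J1 K1 hb hJ1 hK1
  obtain ⟨hq1, hq1', hq1i, hl1⟩ := det_q K1
  set q1 : ℝ := 2 ^ K1 / (2 ^ K1 + 1) with hq1d
  set c1 : ℝ := (-Real.logb 2 q1) / (3 * K1 + 1 : ℕ) * (b / 2) with hc1d
  have hc1 : 0 < c1 := by positivity
  refine ⟨c1 / 12, by positivity, ?_⟩
  intro ρ hρ J2 K2 D hJ2 hK2 hD
  obtain ⟨hq2, hq2', hq2i, hl2⟩ := det_q (2 * K2)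
  set q2 : ℝ := 2 ^ (2 * K2) / (2 ^ (2 * K2) + 1) with hq2d
  set c2 : ℝ := (-Real.logb 2 q2) / (6 * K2 * D + 1 : ℕ) * (ρ / 2) with hc2d
  have hc2 : 0 < c2 := by positivity
  -- the final inequality
  have hev : ∀ᶠ n : ℕ in atTop,
      2 * (2 : ℝ) ^ (-(c2 / 2 * n)) + 64 * (2 : ℝ) ^ (-(c1 / 2 * n)) < 1 := by
    have hlim : ∀ c : ℝ, 0 < c → Tendsto (fun n : ℕ => (2 : ℝ) ^ (-(c * n))) atTop (𝓝 0) := by
      intro c hc
      have h1 : Tendsto (fun n : ℕ => -(c * (n : ℝ))) atTop atBot := by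
        apply tendsto_neg_atTop_atBot.comp
        exact Tendsto.const_mul_atTop hc tendsto_natCast_atTop_atTop
      have h2 : Tendsto (fun x : ℝ => (2 : ℝ) ^ x) atBot (𝓝 0) := by
        have := Real.tendsto_exp_atBot.comp
          (Tendsto.const_mul_atBot (Real.log_pos (by norm_num : (1 : ℝ) < 2)) tendsto_id)
        refine this.congr fun x => ?_
        rw [Real.rpow_def_of_pos (by norm_num : (0 : ℝ) < 2)]
        rfl
      exact h2.comp h1
    have h3 := ((hlim (c2 / 2) (by positivity)).const_mul 2).add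
      ((hlim (c1 / 2) (by positivity)).const_mul 64)
    simp only [mul_zero, add_zero] at h3
    exact h3.eventually (gt_mem_nhds one_pos)
  obtain ⟨n0, hn0⟩ := eventually_atTop.1 hev
  refine ⟨min (c1 / 16) (c2 / 4), by positivity, n0, ?_⟩
  set c : ℝ := min (c1 / 16) (c2 / 4) with hcd
  have hcc1 : c ≤ c1 / 16 := min_le_left _ _
  have hcc2 : c ≤ c2 / 4 := min_le_right _ _
  have hc : 0 < c := by positivity
  intro n hn F hX hBad hGood g _ rk W M top hM hne hsub hfrac
  have hfinal := hn0 n hn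
  obtain ⟨X, hXc, hLink⟩ := hX
  by_contra hcon
  push Not at hcon
  have hn00 : (0 : ℝ) ≤ n := Nat.cast_nonneg n
  have hXn : (X.card : ℝ) ≤ n := by
    have := Finset.card_le_univ X
    rw [Fintype.card_fin] at this
    exact_mod_cast this
  -- the part of `X` which is not bad
  set X' : Finset (Fin n) := X.filter (fun v => ¬ Bad F J1 K1 v) with hX'
  have hX'c : b * n / 2 ≤ X'.card := by
    have h1 : (X.card : ℝ) ≤ X'.card + ({v : Fin n | Bad F J1 K1 v}.ncard : ℝ) := by
      have h2 : X.card = X'.card + (X.filter (fun v => ¬ ¬ Bad F J1 K1 v)).card := by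
        rw [hX']
        exact (Finset.card_filter_add_card_filter_not _).symm
      have h3 : (X.filter (fun v => ¬ ¬ Bad F J1 K1 v)).card ≤
          {v : Fin n | Bad F J1 K1 v}.ncard := by
        rw [← Set.ncard_coe_finset]
        apply Set.ncard_le_ncard _ (Set.toFinite _)
        intro v hv
        rw [Finset.mem_coe, Finset.mem_filter, not_not] at hv
        exact hv.2
      have h4 : X.card ≤ X'.card + {v : Fin n | Bad F J1 K1 v}.ncard := by omega
      exact_mod_cast h4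
    linarith
  -- cardinalities
  have hA : (0 : ℝ) < (M top).ncard := by
    exact_mod_cast (Set.ncard_pos (Set.toFinite (M top))).2 hne
  set T : ℝ := (2 : ℝ) ^ (c * n) with hT
  have hT0 : 0 < T := by positivity
  have hT1 : 1 ≤ T := by
    rw [hT]
    exact Real.one_le_rpow (by norm_num) (mul_nonneg hc.le hn00)
  have hSA : ((SOL F).ncard : ℝ) ≤ T * (M top).ncard := by
    rw [Real.rpow_neg (by norm_num)] at hfrac
    rw [← hT, inv_mul_le_iff₀ hT0] at hfrac
    exact hfrac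
  -- patterns
  set a : ℕ := ⌈c1 / 12 * X.card⌉₊ with ha
  have hapos : 0 ≤ c1 / 12 * (X.card : ℝ) := by positivity
  have hale : (a : ℝ) ≤ c1 / 12 * n + 1 := by
    have h1 : (a : ℝ) < c1 / 12 * X.card + 1 := Nat.ceil_lt_add_one hapos
    have h2 : c1 / 12 * (X.card : ℝ) ≤ c1 / 12 * n :=
      mul_le_mul_of_nonneg_left hXn (by positivity)
    linarith
  have hage : c1 / 12 * (X.card : ℝ) ≤ a := Nat.le_ceil _
  set β : ℝ := q2⁻¹ * (2 : ℝ) ^ (-(c2 * n)) * T with hβ
  set κ : ℝ := q1⁻¹ * (2 : ℝ) ^ (-(c1 * n)) * T with hκ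
  have hβ0 : 0 ≤ β := by positivity
  have hκ0 : 0 ≤ κ := by positivity
  have hbound := path_bound rk W (2 ^ a) Nat.one_le_two_pow M hM (M top) hne X top rfl β κ hβ0 hκ0
    (by
      intro U U' hUU hU hU'
      have hfr := Pool.Agent.Helper34.XTW.le_free_of_pat hU
      have hfr' := Pool.Agent.Helper34.XTW.le_free_of_pat hU'
      set S : Finset (Fin n) :=
        (Set.toFinite (Pool.Agent.Helper34.XTW.free U)).toFinset with hS
      set S' : Finset (Fin n) :=
        (Set.toFinite (Pool.Agent.Helper34.XTW.free U')).toFinset with hS'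
      have hmS : ∀ v, v ∈ S ↔ ∃ x ∈ U, ∃ y ∈ U, x v ≠ y v := by
        intro v
        rw [hS, Set.Finite.mem_toFinset]
        rfl
      have hmS' : ∀ v, v ∈ S' ↔ ∃ x ∈ U', ∃ y ∈ U', x v ≠ y v := by
        intro v
        rw [hS', Set.Finite.mem_toFinset]
        rfl
      have hcS : ((S ∩ X).card : ℝ) = (Pool.Agent.Helper34.XTW.free U ∩ X).ncard := by
        rw [← Set.ncard_coe_finset, Finset.coe_inter, hS, Set.Finite.coe_toFinset]
      have hcS' : ((S' ∩ X).card : ℝ) = (Pool.Agent.Helper34.XTW.free U' ∩ X).ncard := by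
        rw [← Set.ncard_coe_finset, Finset.coe_inter, hS', Set.Finite.coe_toFinset]
      have hcr := hLink S S' (by
        rw [hcS]
        exact hage.trans (by exact_mod_cast hfr)) (by
        rw [hcS']
        exact hage.trans (by exact_mod_cast hfr'))
      set E : Finset (Cl n) := (cross F S S').filter (fun e => GoodCl F J2 K2 D e) with hE
      have hEc : ρ * n / 2 ≤ E.card := by
        have h2 : (cross F S S').card = E.card +
            ((cross F S S').filter (fun e => ¬ GoodCl F J2 K2 D e)).card := by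
          rw [hE]
          exact (Finset.card_filter_add_card_filter_not _).symm
        have h3 : ((cross F S S').filter (fun e => ¬ GoodCl F J2 K2 D e)).card ≤
            {e : Cl n | e ∈ F ∧ ¬ GoodCl F J2 K2 D e}.ncard := by
          rw [← Set.ncard_coe_finset]
          apply Set.ncard_le_ncard _ (Set.toFinite _)
          intro e he
          rw [Finset.mem_coe, Finset.mem_filter, mem_cross] at he
          exact ⟨he.1.1, he.2⟩
        have h4 : ((cross F S S').card : ℝ) ≤ E.card +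
            ({e : Cl n | e ∈ F ∧ ¬ GoodCl F J2 K2 D e}.ncard : ℝ) := by
          have : (cross F S S').card ≤ E.card +
            {e : Cl n | e ∈ F ∧ ¬ GoodCl F J2 K2 D e}.ncard := by omega
          exact_mod_cast this
        linarith
      have hb1 := hBet F J2 K2 D E U U' S S' hJ2 (fun x hx y hy => hsub (hUU x hx y hy)) hmS hmS'
        (Finset.filter_subset _ _) (fun e he => (Finset.mem_filter.1 he).2)
      have hb2 := det_pow_floor hq2 hq2' E.card (6 * K2 * D + 1) (by omega) hEc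
      have hb3 : (-Real.logb 2 q2) / (6 * K2 * D + 1 : ℕ) * (ρ * n / 2) = c2 * n := by
        rw [hc2d]
        ring
      rw [hb3] at hb2
      have hb4 : ((ssum U U').ncard : ℝ) ≤ q2⁻¹ * (2 : ℝ) ^ (-(c2 * n)) * (SOL F).ncard := by
        refine hb1.trans ?_
        exact mul_le_mul_of_nonneg_right hb2 (Nat.cast_nonneg _)
      refine hb4.trans ?_
      rw [hβ, mul_assoc (q2⁻¹ * (2 : ℝ) ^ (-(c2 * n))) T]
      exact mul_le_mul_of_nonneg_left hSA (by positivity))
    (by
      intro p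
      have hk1 := hKap F J1 K1 X' p hJ1 (fun v hv => (Finset.mem_filter.1 hv).2)
      have hk2 := det_pow_floor hq1 hq1' X'.card (3 * K1 + 1) (by omega) hX'c
      have hk3 : (-Real.logb 2 q1) / (3 * K1 + 1 : ℕ) * (b * n / 2) = c1 * n := by
        rw [hc1d]
        ring
      rw [hk3] at hk2
      have hk4 : ({x | x ∈ M top ∧ ∀ i ∈ X, x i = p i}.ncard : ℝ) ≤
          ({x | x ∈ SOL F ∧ ∀ v ∈ X', x v = p v}.ncard : ℝ) := by
        have : {x | x ∈ M top ∧ ∀ i ∈ X, x i = p i}.ncard ≤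
            {x | x ∈ SOL F ∧ ∀ v ∈ X', x v = p v}.ncard := by
          apply Set.ncard_le_ncard _ (Set.toFinite _)
          intro x hx
          exact ⟨hsub hx.1, fun v hv => hx.2 v (Finset.mem_filter.1 hv).1⟩
        exact_mod_cast this
      refine hk4.trans (hk1.trans ?_)
      refine (mul_le_mul_of_nonneg_right hk2 (Nat.cast_nonneg _)).trans ?_
      rw [hκ, mul_assoc (q1⁻¹ * (2 : ℝ) ^ (-(c1 * n))) T]
      exact mul_le_mul_of_nonneg_left hSA (by positivity))
  -- the contradiction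
  set s : ℝ := (Fintype.card g : ℝ) with hs
  have hs0 : 0 ≤ s := Nat.cast_nonneg _
  have hW0 : (0 : ℝ) ≤ W := Nat.cast_nonneg _
  have hsT : s ≤ T := by nlinarith
  have hsWT : s * W ≤ T := by nlinarith
  set Kr : ℝ := (2 : ℝ) ^ (c1 / 12 * n + 1) with hKr
  have hKle : ((2 ^ a : ℕ) : ℝ) ≤ Kr := by
    push_cast
    rw [← Real.rpow_natCast]
    exact Real.rpow_le_rpow_of_exponent_le (by norm_num) hale
  have hKr1 : 1 ≤ Kr := by
    rw [hKr]
    apply Real.one_le_rpow (by norm_num)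
    positivity
  have hK0 : (0 : ℝ) ≤ ((2 ^ a : ℕ) : ℝ) := Nat.cast_nonneg _
  have hb5 : s * ((2 ^ a : ℕ) : ℝ) * W + 3 * s ^ 3 * ((2 ^ a : ℕ) : ℝ) ^ 3 ≤
      4 * (T ^ 3 * Kr ^ 3) := by
    have e1 : s * ((2 ^ a : ℕ) : ℝ) * W ≤ T ^ 3 * Kr ^ 3 := by
      calc s * ((2 ^ a : ℕ) : ℝ) * W = (s * W) * ((2 ^ a : ℕ) : ℝ) := by ring
        _ ≤ T * Kr := mul_le_mul hsWT hKle hK0 hT0.le
        _ ≤ T ^ 3 * Kr ^ 3 := by
          apply mul_le_mul (le_self_pow₀ hT1 (by norm_num)) (le_self_pow₀ hKr1 (by norm_num))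
            (by positivity) (by positivity)
    have e2 : s ^ 3 * ((2 ^ a : ℕ) : ℝ) ^ 3 ≤ T ^ 3 * Kr ^ 3 :=
      mul_le_mul (pow_le_pow_left₀ hs0 hsT 3) (pow_le_pow_left₀ hK0 hKle 3) (by positivity)
        (by positivity)
    linarith
  have hb6 : s * β ≤ 2 * (2 : ℝ) ^ (-(c2 / 2 * n)) := by
    calc s * β ≤ T * (2 * (2 : ℝ) ^ (-(c2 * n)) * T) := by
          apply mul_le_mul hsT _ hβ0 hT0.le
          rw [hβ]
          apply mul_le_mul_of_nonneg_right _ hT0.le
          exact mul_le_mul_of_nonneg_right hq2i (by positivity)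
      _ = 2 * (2 : ℝ) ^ (c * n + -(c2 * n) + c * n) := by
          rw [Real.rpow_add (by norm_num), Real.rpow_add (by norm_num), ← hT]
          ring
      _ ≤ 2 * (2 : ℝ) ^ (-(c2 / 2 * n)) := by
          apply mul_le_mul_of_nonneg_left _ (by norm_num)
          apply Real.rpow_le_rpow_of_exponent_le (by norm_num)
          nlinarith
  have hb7 : κ * (4 * (T ^ 3 * Kr ^ 3)) ≤ 64 * (2 : ℝ) ^ (-(c1 / 2 * n)) := by
    have e3 : T ^ 3 = (2 : ℝ) ^ (3 * (c * n)) := by
      rw [hT, ← Real.rpow_natCast, ← Real.rpow_mul (by norm_num)]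
      congr 1
      push_cast
      ring
    have e4 : Kr ^ 3 = 8 * (2 : ℝ) ^ (3 * (c1 / 12 * n)) := by
      rw [hKr, Real.rpow_add (by norm_num), Real.rpow_one, mul_pow, ← Real.rpow_natCast,
        ← Real.rpow_mul (by norm_num)]
      have : (c1 / 12 * (n : ℝ)) * ((3 : ℕ) : ℝ) = 3 * (c1 / 12 * n) := by
        push_cast
        ring
      rw [this]
      ring
    calc κ * (4 * (T ^ 3 * Kr ^ 3)) ≤ (2 * (2 : ℝ) ^ (-(c1 * n)) * T) * (4 * (T ^ 3 * Kr ^ 3)) := by
          apply mul_le_mul_of_nonneg_right _ (by positivity)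
          rw [hκ]
          apply mul_le_mul_of_nonneg_right _ hT0.le
          exact mul_le_mul_of_nonneg_right hq1i (by positivity)
      _ = 64 * (2 : ℝ) ^ (-(c1 * n) + c * n + 3 * (c * n) + 3 * (c1 / 12 * n)) := by
          rw [Real.rpow_add (by norm_num), Real.rpow_add (by norm_num),
            Real.rpow_add (by norm_num), ← e3, e4, ← hT]
          ring
      _ ≤ 64 * (2 : ℝ) ^ (-(c1 / 2 * n)) := by
          apply mul_le_mul_of_nonneg_left _ (by norm_num)
          apply Real.rpow_le_rpow_of_exponent_le (by norm_num)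
          nlinarith
  have hb8 : κ * (s * ((2 ^ a : ℕ) : ℝ) * W + 3 * s ^ 3 * ((2 ^ a : ℕ) : ℝ) ^ 3) ≤
      κ * (4 * (T ^ 3 * Kr ^ 3)) := mul_le_mul_of_nonneg_left hb5 hκ0
  linarith

end Pool.Agent.R2
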