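import Mathlib
import Pool.Agent.R2.Basic

/-!
# Few clauses meet a small set of variables
-/

namespace Pool.Agent.R2

open Finset Pool.Agent.Helper56.Iso Pool.Agent.Dichotomy Filter Topology

theorem edg_card1 {n : ℕ} (Z : Finset (Fin n)) :
    (univ.filter (fun e : Cl n => e.1.1.1 ∈ Z)).card ≤ Z.card * (4 * n) := by
  classical
  have h1 : (univ.filter (fun e : Cl n => e.1.1.1 ∈ Z)).card ≤
      (Z ×ˢ (univ : Finset (ZMod 2 × Lit n))).card := by
    refine Finset.card_le_card_of_injOn (fun e : Cl n => (e.1.1.1, (e.1.1.2, e.1.2))) ?_ ?_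
    · intro e he
      have h2 : e.1.1.1 ∈ Z := (Finset.mem_filter.1 (Finset.mem_coe.1 he)).2
      exact Finset.mem_coe.2 (Finset.mem_product.2 ⟨h2, Finset.mem_univ _⟩)
    · intro e _ e' _ h
      have h3 : (e.1.1.1, (e.1.1.2, e.1.2)) = (e'.1.1.1, (e'.1.1.2, e'.1.2)) := h
      have h4 := (Prod.ext_iff.1 h3).1
      have h5 := (Prod.ext_iff.1 h3).2
      have h6 := (Prod.ext_iff.1 h5).1
      have h7 := (Prod.ext_iff.1 h5).2
      exact Subtype.ext (Prod.ext (Prod.ext h4 h6) h7)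
  refine h1.trans (le_of_eq ?_)
  rw [Finset.card_product, Finset.card_univ, Fintype.card_prod, Fintype.card_prod, ZMod.card,
    Fintype.card_fin]
  ring

theorem edg_card2 {n : ℕ} (Z : Finset (Fin n)) :
    (univ.filter (fun e : Cl n => e.1.2.1 ∈ Z)).card ≤ Z.card * (4 * n) := by
  classical
  have h1 : (univ.filter (fun e : Cl n => e.1.2.1 ∈ Z)).card ≤
      (Z ×ˢ (univ : Finset (ZMod 2 × Lit n))).card := by
    refine Finset.card_le_card_of_injOn (fun e : Cl n => (e.1.2.1, (e.1.2.2, e.1.1))) ?_ ?_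
    · intro e he
      have h2 : e.1.2.1 ∈ Z := (Finset.mem_filter.1 (Finset.mem_coe.1 he)).2
      exact Finset.mem_coe.2 (Finset.mem_product.2 ⟨h2, Finset.mem_univ _⟩)
    · intro e _ e' _ h
      have h3 : (e.1.2.1, (e.1.2.2, e.1.1)) = (e'.1.2.1, (e'.1.2.2, e'.1.1)) := h
      have h4 := (Prod.ext_iff.1 h3).1
      have h5 := (Prod.ext_iff.1 h3).2
      have h6 := (Prod.ext_iff.1 h5).1
      have h7 := (Prod.ext_iff.1 h5).2
      exact Subtype.ext (Prod.ext h7 (Prod.ext h4 h6))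
  refine h1.trans (le_of_eq ?_)
  rw [Finset.card_product, Finset.card_univ, Fintype.card_prod, Fintype.card_prod, ZMod.card,
    Fintype.card_fin]
  ring

theorem edg_card {n : ℕ} (Z : Finset (Fin n)) :
    (univ.filter (fun e : Cl n => e.1.1.1 ∈ Z ∨ e.1.2.1 ∈ Z)).card ≤ Z.card * (8 * n) := by
  classical
  rw [Finset.filter_or]
  refine (Finset.card_union_le _ _).trans ?_
  have h1 := edg_card1 Z
  have h2 := edg_card2 Z
  calc _ ≤ Z.card * (4 * n) + Z.card * (4 * n) := Nat.add_le_add h1 h2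
    _ = Z.card * (8 * n) := by ring

theorem edg_meet {n : ℕ} (F : Finset (Cl n)) (Z : Finset (Fin n)) :
    meet F Z = F ∩ univ.filter (fun e : Cl n => e.1.1.1 ∈ Z ∨ e.1.2.1 ∈ Z) := by
  classical
  ext e
  rw [mem_meet, Finset.mem_inter, Finset.mem_filter]
  constructor
  · rintro ⟨h1, h2⟩
    exact ⟨h1, Finset.mem_univ _, h2⟩
  · rintro ⟨h1, _, h2⟩
    exact ⟨h1, h2⟩

/-- the bound for a single set -/
theorem edg_one {α γ : ℝ} (hα : 0 < α) (hγ : 0 < γ) {n : ℕ} (hn : 2 ≤ n)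
    (hp0 : 0 ≤ prob α n) (hp1 : prob α n ≤ 1) (Z : Finset (Fin n))
    (hZ : (Z.card : ℝ) ≤ 1 / (16 * α * Real.exp (2 / γ)) * n) :
    Pr (prob α n) (fun F : Finset (Cl n) => ¬ ((meet F Z).card : ℝ) ≤ γ * n) ≤
      Real.exp (-(3 / 2 * (n : ℝ))) := by
  classical
  set θ : ℝ := Real.exp (2 / γ) with hθ
  have hθ1 : 1 ≤ θ := by
    rw [hθ]
    exact Real.one_le_exp (by positivity)
  have hθ0 : 0 < θ := by linarith
  set R : Finset (Cl n) := univ.filter (fun e : Cl n => e.1.1.1 ∈ Z ∨ e.1.2.1 ∈ Z) with hR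
  set k : ℕ := ⌈γ * (n : ℝ)⌉₊ with hk
  have hn2 : (2 : ℝ) ≤ n := by exact_mod_cast hn
  have h1 : Pr (prob α n) (fun F : Finset (Cl n) => ¬ ((meet F Z).card : ℝ) ≤ γ * n) ≤
      Pr (prob α n) (fun F : Finset (Cl n) => k ≤ (F ∩ R).card) := by
    refine Pr_mono hp0 hp1 (fun F hF => ?_)
    rw [edg_meet F Z] at hF
    rw [hk]
    exact Nat.ceil_le.2 (le_of_lt (not_le.1 hF))
  refine h1.trans ?_
  have h2 := upper_tail hp0 hp1 hθ1 R k
  have h3 : Real.exp (2 * n) ≤ θ ^ k := by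
    have h4 : θ ^ k = Real.exp ((k : ℝ) * (2 / γ)) := by
      rw [hθ, ← Real.exp_nat_mul]
    rw [h4]
    apply Real.exp_le_exp.2
    have h5 : γ * (n : ℝ) ≤ k := Nat.le_ceil _
    have h6 : 2 * (n : ℝ) = γ * n * (2 / γ) := by
      field_simp
    rw [h6]
    exact mul_le_mul_of_nonneg_right h5 (by positivity)
  have h7 : prob α n * θ * (R.card : ℝ) ≤ n / 2 := by
    have h8 : (R.card : ℝ) ≤ Z.card * (8 * n) := by
      have := edg_card Z
      exact_mod_cast this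
    have h9 : (Z.card : ℝ) * (8 * n) ≤ 1 / (16 * α * θ) * n * (8 * n) :=
      mul_le_mul_of_nonneg_right hZ (by positivity)
    have h10 : prob α n * θ * (R.card : ℝ) ≤
        prob α n * θ * (1 / (16 * α * θ) * n * (8 * n)) :=
      mul_le_mul_of_nonneg_left (h8.trans h9) (by positivity)
    refine h10.trans ?_
    have hn1 : (0 : ℝ) < (n : ℝ) - 1 := by linarith
    have h11 : prob α n * θ * (1 / (16 * α * θ) * n * (8 * n)) =
        (n : ℝ) / 2 * (n / (2 * ((n : ℝ) - 1))) := by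
      unfold prob
      field_simp
      ring
    rw [h11]
    have h12 : (n : ℝ) / (2 * ((n : ℝ) - 1)) ≤ 1 := by
      rw [div_le_one (by positivity)]
      linarith
    calc (n : ℝ) / 2 * (n / (2 * ((n : ℝ) - 1))) ≤ (n : ℝ) / 2 * 1 :=
          mul_le_mul_of_nonneg_left h12 (by positivity)
      _ = (n : ℝ) / 2 := mul_one _
  have h13 : Pr (prob α n) (fun F : Finset (Cl n) => k ≤ (F ∩ R).card) * Real.exp (2 * n) ≤
      Real.exp (n / 2) := by
    refine le_trans ?_ (h2.trans (Real.exp_le_exp.2 h7))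
    exact mul_le_mul_of_nonneg_left h3 (Pr_nonneg hp0 hp1 _)
  have h14 : Real.exp (-(3 / 2 * (n : ℝ))) = Real.exp (n / 2) / Real.exp (2 * n) := by
    rw [← Real.exp_sub]
    congr 1
    ring
  rw [h14, le_div_iff₀ (Real.exp_pos _)]
  exact h13

theorem thm_Edg : St_Edg := by
  classical
  intro α γ hα hγ
  refine ⟨1 / (16 * α * Real.exp (2 / γ)), by positivity, ?_⟩
  have hu : Tendsto (fun n : ℕ => Real.exp (-(1 / 2 * (n : ℝ)))) atTop (𝓝 0) := by
    apply Real.tendsto_exp_neg_atTop_nhds_zero.comp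
    exact Tendsto.const_mul_atTop (by norm_num) tendsto_natCast_atTop_atTop
  refine whp_of_le hα.le hu ?_
  filter_upwards [eventually_prob α hα.le] with n hn
  obtain ⟨hn2, hp0, hp1⟩ := hn
  set I : Finset (Finset (Fin n)) :=
    univ.filter (fun Z => (Z.card : ℝ) ≤ 1 / (16 * α * Real.exp (2 / γ)) * n) with hI
  have h1 : Pr (prob α n) (fun F : Finset (Cl n) => ¬ ∀ Z : Finset (Fin n),
      (Z.card : ℝ) ≤ 1 / (16 * α * Real.exp (2 / γ)) * n → ((meet F Z).card : ℝ) ≤ γ * n) ≤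
      Pr (prob α n) (fun F : Finset (Cl n) => ∃ Z ∈ I, ¬ ((meet F Z).card : ℝ) ≤ γ * n) := by
    refine Pr_mono hp0 hp1 (fun F hF => ?_)
    rw [not_forall] at hF
    obtain ⟨Z, hZ⟩ := hF
    rw [Classical.not_imp] at hZ
    exact ⟨Z, Finset.mem_filter.2 ⟨Finset.mem_univ _, hZ.1⟩, hZ.2⟩
  refine h1.trans ?_
  refine (Pr_exists_le hp0 hp1 I
    (fun Z F => ¬ ((meet F Z).card : ℝ) ≤ γ * n)).trans ?_
  have h2 : ∀ Z ∈ I, Pr (prob α n)
      (fun F : Finset (Cl n) => ¬ ((meet F Z).card : ℝ) ≤ γ * n) ≤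
      Real.exp (-(3 / 2 * (n : ℝ))) := by
    intro Z hZ
    exact edg_one hα hγ hn2 hp0 hp1 Z (Finset.mem_filter.1 hZ).2
  refine (Finset.sum_le_sum h2).trans ?_
  rw [Finset.sum_const, nsmul_eq_mul]
  have h3 : (I.card : ℝ) ≤ 2 ^ n := by
    have h4 : I.card ≤ (univ : Finset (Finset (Fin n))).card :=
      Finset.card_le_card (Finset.filter_subset _ _)
    rw [Finset.card_univ, Fintype.card_finset, Fintype.card_fin] at h4
    exact_mod_cast h4
  have h5 : (2 : ℝ) ^ n ≤ Real.exp n := by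
    have h6 : (2 : ℝ) ≤ Real.exp 1 := by
      have := Real.add_one_le_exp (1 : ℝ)
      linarith
    calc (2 : ℝ) ^ n ≤ Real.exp 1 ^ n := pow_le_pow_left₀ (by norm_num) h6 n
      _ = Real.exp n := by rw [← Real.exp_nat_mul, mul_one]
  calc (I.card : ℝ) * Real.exp (-(3 / 2 * (n : ℝ)))
      ≤ Real.exp n * Real.exp (-(3 / 2 * (n : ℝ))) :=
        mul_le_mul_of_nonneg_right (h3.trans h5) (Real.exp_pos _).le
    _ = Real.exp (-(1 / 2 * (n : ℝ))) := by
        rw [← Real.exp_add]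
        congr 1
        ring

end Pool.Agent.R2
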