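import Mathlib
import Pool.Agent.R2.Basic

/-!
# R2 [Fub]: the clauses inside and outside of a set are independent
-/

namespace Pool.Agent.R2

open Finset Pool.Agent.Helper56.Iso Pool.Agent.Dichotomy Filter Topology

/-- The weight of the part `A` of `R`. -/
noncomputable def fub_w {α : Type} [DecidableEq α] (p : ℝ) (R A : Finset α) : ℝ :=
  ∏ e ∈ R, (if e ∈ A then p else 1 - p)

theorem fub_w_eq {α : Type} [DecidableEq α] (p : ℝ) {R A : Finset α} (h : A ⊆ R) :
    fub_w p R A = p ^ A.card * (1 - p) ^ (R \ A).card := by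
  unfold fub_w
  rw [Finset.prod_ite, Finset.filter_mem_eq_inter, Finset.inter_eq_right.2 h,
    Finset.filter_notMem_eq_sdiff, Finset.prod_const, Finset.prod_const]

theorem fub_wt {α : Type} [Fintype α] [DecidableEq α] (p : ℝ) (F : Finset α) :
    wt p F = fub_w p univ F := by
  rw [fub_w_eq p (Finset.subset_univ F)]
  rfl

theorem fub_sum_w {α : Type} [DecidableEq α] (p : ℝ) (R : Finset α) :
    ∑ A ∈ R.powerset, fub_w p R A = 1 := by
  have h := Finset.prod_add (fun _ : α => p) (fun _ => 1 - p) R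
  have h2 : ∏ _e ∈ R, (p + (1 - p)) = 1 := by
    apply Finset.prod_eq_one
    intro e _
    ring
  rw [h2] at h
  rw [h]
  apply Finset.sum_congr rfl
  intro A hA
  rw [fub_w_eq p (Finset.mem_powerset.1 hA), Finset.prod_const, Finset.prod_const]

theorem fub_w_split {α : Type} [Fintype α] [DecidableEq α] (p : ℝ) (H F : Finset α) :
    wt p F = fub_w p H (F ∩ H) * fub_w p Hᶜ (F \ H) := by
  rw [fub_wt]
  unfold fub_w
  rw [← Finset.prod_mul_prod_compl H]
  congr 1
  · apply Finset.prod_congr rfl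
    intro e he
    by_cases h : e ∈ F
    · rw [if_pos h, if_pos (Finset.mem_inter.2 ⟨h, he⟩)]
    · rw [if_neg h, if_neg (fun h' => h (Finset.mem_inter.1 h').1)]
  · apply Finset.prod_congr rfl
    intro e he
    have he' : e ∉ H := Finset.mem_compl.1 he
    by_cases h : e ∈ F
    · rw [if_pos h, if_pos (Finset.mem_sdiff.2 ⟨h, he'⟩)]
    · rw [if_neg h, if_neg (fun h' => h (Finset.mem_sdiff.1 h').1)]

/-- Sums over random sets in terms of the parts inside and outside of `H`. -/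
theorem fub_sum {α : Type} [Fintype α] [DecidableEq α] (p : ℝ) (H : Finset α)
    (g : Finset α → Finset α → ℝ) :
    ∑ F, wt p F * g (F ∩ H) (F \ H) =
      ∑ A ∈ H.powerset, ∑ B ∈ (Hᶜ).powerset, fub_w p H A * (fub_w p Hᶜ B * g A B) := by
  rw [← Finset.sum_product']
  refine Finset.sum_bij' (fun F _ => (F ∩ H, F \ H)) (fun q _ => q.1 ∪ q.2) ?_ ?_ ?_ ?_ ?_
  · intro F _
    refine Finset.mem_product.2 ⟨Finset.mem_powerset.2 Finset.inter_subset_right,
      Finset.mem_powerset.2 ?_⟩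
    intro e he
    exact Finset.mem_compl.2 (Finset.mem_sdiff.1 he).2
  · intro q _
    exact Finset.mem_univ _
  · intro F _
    change (F ∩ H) ∪ (F \ H) = F
    rw [Finset.union_comm]
    exact Finset.sdiff_union_inter F H
  · rintro ⟨A, B⟩ hq
    obtain ⟨hA, hB⟩ := Finset.mem_product.1 hq
    have hA' : A ⊆ H := Finset.mem_powerset.1 hA
    have hB' : ∀ e ∈ B, e ∉ H := fun e he =>
      Finset.mem_compl.1 ((Finset.mem_powerset.1 hB) he)
    change ((A ∪ B) ∩ H, (A ∪ B) \ H) = (A, B)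
    have e1 : (A ∪ B) ∩ H = A := by
      ext e
      rw [Finset.mem_inter, Finset.mem_union]
      exact ⟨fun h => h.1.elim id (fun h' => absurd h.2 (hB' e h')),
        fun h => ⟨Or.inl h, hA' h⟩⟩
    have e2 : (A ∪ B) \ H = B := by
      ext e
      rw [Finset.mem_sdiff, Finset.mem_union]
      exact ⟨fun h => h.1.elim (fun h' => absurd (hA' h') h.2) id,
        fun h => ⟨Or.inr h, hB' e h⟩⟩
    rw [e1, e2]
  · intro F _
    change wt p F * g (F ∩ H) (F \ H) =
      fub_w p H (F ∩ H) * (fub_w p Hᶜ (F \ H) * g (F ∩ H) (F \ H))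
    rw [fub_w_split p H F, mul_assoc]

theorem thm_Fub : St_Fub := by
  intro α _ _ p H f
  rw [fub_sum p H f, fub_sum p H (fun A _ => ∑ F', wt p F' * f A (F' \ H))]
  apply Finset.sum_congr rfl
  intro A _
  have h1 : ∑ F', wt p F' * f A (F' \ H) =
      ∑ A' ∈ H.powerset, ∑ B ∈ (Hᶜ).powerset, fub_w p H A' * (fub_w p Hᶜ B * f A B) :=
    fub_sum p H (fun _ B => f A B)
  have h2 : ∑ A' ∈ H.powerset, ∑ B ∈ (Hᶜ).powerset, fub_w p H A' * (fub_w p Hᶜ B * f A B) =
      ∑ B ∈ (Hᶜ).powerset, fub_w p Hᶜ B * f A B := by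
    have h3 : ∀ A' ∈ H.powerset, ∑ B ∈ (Hᶜ).powerset,
        fub_w p H A' * (fub_w p Hᶜ B * f A B) =
        fub_w p H A' * ∑ B ∈ (Hᶜ).powerset, fub_w p Hᶜ B * f A B := by
      intro A' _
      rw [Finset.mul_sum]
    rw [Finset.sum_congr rfl h3, ← Finset.sum_mul, fub_sum_w, one_mul]
  rw [h1, h2]
  have h4 : ∀ B ∈ (Hᶜ).powerset, fub_w p H A *
      (fub_w p Hᶜ B * ∑ B ∈ (Hᶜ).powerset, fub_w p Hᶜ B * f A B) =
      fub_w p Hᶜ B * (fub_w p H A * ∑ B ∈ (Hᶜ).powerset, fub_w p Hᶜ B * f A B) := by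
    intro B _
    ring
  rw [Finset.sum_congr rfl h4, ← Finset.sum_mul, fub_sum_w, one_mul, Finset.mul_sum]

end Pool.Agent.R2
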