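import Mathlib
import Pool.Agent.R2.Lin

/-!
# R2 [GBP]: below density one half there is no bicycle in the multigraph of the clauses
-/

namespace Pool.Agent.R2

open Finset Pool.Agent.Helper56.Iso Pool.Agent.Dichotomy Filter Topology

/-- The clauses on the variables `a` and `b`. -/
def gbp_near {n : ℕ} (a b : Fin n) : Finset (Cl n) :=
  univ.filter fun e => (e.1.1.1 = a ∧ e.1.2.1 = b) ∨ (e.1.1.1 = b ∧ e.1.2.1 = a)

theorem gbp_mem_near {n : ℕ} {a b : Fin n} {e : Cl n} : e ∈ gbp_near a b ↔ Joins e a b := by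
  unfold gbp_near Joins
  rw [Finset.mem_filter]
  exact and_iff_right (Finset.mem_univ _)

theorem gbp_near_card {n : ℕ} (a b : Fin n) : (gbp_near a b).card ≤ 4 := by
  classical
  have h4 : (univ : Finset (ZMod 2 × ZMod 2)).card = 4 := by
    rw [Finset.card_univ, Fintype.card_prod, ZMod.card]
  rw [← h4]
  refine Finset.card_le_card_of_injOn (fun e => (e.1.1.2, e.1.2.2)) (fun _ _ => by
    rw [Finset.mem_coe]
    exact Finset.mem_univ _) ?_
  intro e he f hf hef
  have he' : Joins e a b := gbp_mem_near.1 (Finset.mem_coe.1 he)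
  have hf' : Joins f a b := gbp_mem_near.1 (Finset.mem_coe.1 hf)
  have hef' : (e.1.1.2, e.1.2.2) = (f.1.1.2, f.1.2.2) := hef
  rw [Prod.mk.injEq] at hef'
  obtain ⟨h1, h2⟩ := hef'
  have he2 := e.2
  have hf2 := f.2
  have h3 : e.1.1.1 = f.1.1.1 ∧ e.1.2.1 = f.1.2.1 := by
    rcases he' with ⟨a1, a2⟩ | ⟨a1, a2⟩ <;> rcases hf' with ⟨b1, b2⟩ | ⟨b1, b2⟩
    · exact ⟨a1.trans b1.symm, a2.trans b2.symm⟩
    · exfalso
      rw [a1, a2] at he2
      rw [b1, b2] at hf2
      exact lt_asymm he2 hf2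
    · exfalso
      rw [a1, a2] at he2
      rw [b1, b2] at hf2
      exact lt_asymm he2 hf2
    · exact ⟨a1.trans b1.symm, a2.trans b2.symm⟩
  apply Subtype.ext
  exact Prod.ext (Prod.ext h3.1 h1) (Prod.ext h3.2 h2)

/-- The clauses which join `a` to a variable of the path `v`. -/
def gbp_E {n r : ℕ} (v : Fin (r + 1) → Fin n) (a : Fin n) : Finset (Cl n) :=
  univ.biUnion fun i => gbp_near a (v i)

theorem gbp_E_card {n r : ℕ} (v : Fin (r + 1) → Fin n) (a : Fin n) :
    (gbp_E v a).card ≤ 4 * (r + 1) := by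
  unfold gbp_E
  refine Finset.card_biUnion_le.trans ?_
  refine (Finset.sum_le_sum fun i _ => gbp_near_card a (v i)).trans (le_of_eq ?_)
  rw [Finset.sum_const, Finset.card_univ, Fintype.card_fin, smul_eq_mul]
  ring

/-- The possible clauses of a structure on the path `v`. -/
def gbp_P {n r : ℕ} (v : Fin (r + 1) → Fin n) : Finset ((Fin r → Cl n) × (Cl n × Cl n)) :=
  ((Fintype.piFinset fun i : Fin r => gbp_near (v i.castSucc) (v i.succ)) ×ˢ
    (gbp_E v (v 0) ×ˢ gbp_E v (v (Fin.last r)))).filter fun x =>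
      x.2.1 ≠ x.2.2 ∧ ∀ i, x.1 i ≠ x.2.1 ∧ x.1 i ≠ x.2.2

theorem gbp_P_card {n r : ℕ} (v : Fin (r + 1) → Fin n) :
    (gbp_P v).card ≤ 4 ^ r * (16 * (r + 1) ^ 2) := by
  unfold gbp_P
  refine (Finset.card_filter_le _ _).trans ?_
  rw [Finset.card_product, Finset.card_product, Fintype.card_piFinset]
  have h1 : (∏ i : Fin r, (gbp_near (v i.castSucc) (v i.succ)).card) ≤ 4 ^ r := by
    refine (Finset.prod_le_prod' fun i _ => gbp_near_card _ _).trans (le_of_eq ?_)
    rw [Finset.prod_const, Finset.card_univ, Fintype.card_fin]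
  have h2 : (gbp_E v (v 0)).card * (gbp_E v (v (Fin.last r))).card ≤ 16 * (r + 1) ^ 2 := by
    calc (gbp_E v (v 0)).card * (gbp_E v (v (Fin.last r))).card ≤
        (4 * (r + 1)) * (4 * (r + 1)) :=
          Nat.mul_le_mul (gbp_E_card v _) (gbp_E_card v _)
      _ = _ := by ring
  exact Nat.mul_le_mul h1 h2

/-- The index set of the union bound. -/
noncomputable def gbp_T (n : ℕ) : Finset
    ((r : ℕ) × (_ : Fin (r + 1) → Fin n) × ((Fin r → Cl n) × (Cl n × Cl n))) :=
  (range n).sigma fun r =>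
    (Fintype.piFinset fun _ : Fin (r + 1) => (univ : Finset (Fin n))).sigma fun v => gbp_P v

/-- The event of the union bound. -/
def gbp_ev {n : ℕ} (t : (r : ℕ) × (_ : Fin (r + 1) → Fin n) × ((Fin r → Cl n) × (Cl n × Cl n)))
    (F : Finset (Cl n)) : Prop :=
  Function.Injective t.2.1 ∧
    insert t.2.2.2.1 (insert t.2.2.2.2 (univ.image t.2.2.1)) ⊆ F

theorem gbp_event {n : ℕ} {F : Finset (Cl n)}
    (h : ∃ (r : ℕ) (v : ℕ → Fin n) (c : ℕ → Cl n) (e e' : Cl n), IsGBic F univ r v c e e') :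
    ∃ t ∈ gbp_T n, gbp_ev t F := by
  classical
  obtain ⟨r, v, c, e, e', ⟨-, hinj, hc⟩, he, he', hne, hce, ⟨i, hir, hi⟩, ⟨j, hjr, hj⟩⟩ := h
  have hvinj : Function.Injective (fun k : Fin (r + 1) => v k) := by
    intro a b hab
    apply Fin.ext
    exact hinj a (Nat.lt_succ_iff.1 a.2) b (Nat.lt_succ_iff.1 b.2) hab
  have hr : r < n := by
    have := Fintype.card_le_of_injective _ hvinj
    rw [Fintype.card_fin, Fintype.card_fin] at this
    omega
  refine ⟨⟨r, fun k => v k, (fun k => c k, (e, e'))⟩, ?_, ?_⟩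
  · unfold gbp_T
    rw [Finset.mem_sigma, Finset.mem_sigma]
    refine ⟨Finset.mem_range.2 hr, Fintype.mem_piFinset.2 fun _ => Finset.mem_univ _, ?_⟩
    unfold gbp_P
    rw [Finset.mem_filter, Finset.mem_product, Finset.mem_product]
    refine ⟨⟨?_, ?_, ?_⟩, hne, fun k => hce k k.2⟩
    · rw [Fintype.mem_piFinset]
      intro k
      exact gbp_mem_near.2 (hc k k.2).2
    · unfold gbp_E
      rw [Finset.mem_biUnion]
      exact ⟨⟨i, Nat.lt_succ_iff.2 hir⟩, Finset.mem_univ _, gbp_mem_near.2 hi⟩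
    · unfold gbp_E
      rw [Finset.mem_biUnion]
      exact ⟨⟨j, Nat.lt_succ_iff.2 hjr⟩, Finset.mem_univ _, gbp_mem_near.2 hj⟩
  · unfold gbp_ev
    refine ⟨hvinj, ?_⟩
    intro f hf
    rcases Finset.mem_insert.1 hf with rfl | hf
    · unfold inn at he
      exact (Finset.mem_filter.1 he).1
    rcases Finset.mem_insert.1 hf with rfl | hf
    · unfold inn at he'
      exact (Finset.mem_filter.1 he').1
    · obtain ⟨k, -, rfl⟩ := Finset.mem_image.1 hf
      exact (hc k k.2).1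

theorem gbp_inj {n r : ℕ} {v : Fin (r + 1) → Fin n} (hv : Function.Injective v)
    {c : Fin r → Cl n} (hc : ∀ i, Joins (c i) (v i.castSucc) (v i.succ)) :
    Function.Injective c := by
  intro i j hij
  have hi := hc i
  have hj := hc j
  rw [hij] at hi
  unfold Joins at hi hj
  apply Fin.ext
  rcases hi with ⟨a1, a2⟩ | ⟨a1, a2⟩ <;> rcases hj with ⟨b1, b2⟩ | ⟨b1, b2⟩
  · have h1 := congrArg Fin.val (hv (a1.symm.trans b1))
    rw [Fin.val_castSucc, Fin.val_castSucc] at h1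
    exact h1
  · have h1 := congrArg Fin.val (hv (a1.symm.trans b1))
    have h2 := congrArg Fin.val (hv (a2.symm.trans b2))
    rw [Fin.val_castSucc, Fin.val_succ] at h1
    rw [Fin.val_castSucc, Fin.val_succ] at h2
    omega
  · have h1 := congrArg Fin.val (hv (a1.symm.trans b1))
    have h2 := congrArg Fin.val (hv (a2.symm.trans b2))
    rw [Fin.val_castSucc, Fin.val_succ] at h1
    rw [Fin.val_castSucc, Fin.val_succ] at h2
    omega
  · have h1 := congrArg Fin.val (hv (a2.symm.trans b2))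
    rw [Fin.val_castSucc, Fin.val_castSucc] at h1
    exact h1

/-- see `St_GBP` -/
theorem thm_GBP (hInc : St_Inc) : St_GBP := by
  classical
  intro α hα hα1
  set β : ℝ := (1 + 2 * α) / 2 with hβ
  have hβ0 : 0 < β := by rw [hβ]; linarith
  have hβ1 : β < 1 := by rw [hβ]; linarith
  have hβ2 : 2 * α < β := by rw [hβ]; linarith
  have hsum : Summable fun r : ℕ => (((r + 1 : ℕ) : ℝ) ^ 2 * β ^ (r + 1)) := by
    have h1 : Summable fun r : ℕ => ((r : ℝ) ^ 2 * β ^ r) :=
      summable_pow_mul_geometric_of_norm_lt_one 2 (by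
        rw [Real.norm_eq_abs, abs_of_pos hβ0]
        exact hβ1)
    exact (summable_nat_add_iff 1).2 h1
  set K : ℝ := ∑' r : ℕ, (((r + 1 : ℕ) : ℝ) ^ 2 * β ^ (r + 1)) with hK
  have hK0 : 0 ≤ K := tsum_nonneg fun r => by positivity
  have hu : Tendsto (fun n : ℕ => (16 * α ^ 2 * β⁻¹ * K) / (n : ℝ)) atTop (𝓝 0) :=
    tendsto_const_div_atTop_nhds_zero_nat _
  have hqe : ∀ᶠ n : ℕ in atTop, 4 * (n : ℝ) * prob α n ≤ β := by
    have h1 : Tendsto (fun n : ℕ => (2 * α) / ((n : ℝ) - 1)) atTop (𝓝 0) := by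
      apply Tendsto.div_atTop tendsto_const_nhds
      exact tendsto_atTop_add_const_right _ _ tendsto_natCast_atTop_atTop
    have h2 : ∀ᶠ n : ℕ in atTop, (2 * α) / ((n : ℝ) - 1) < β - 2 * α :=
      h1.eventually (gt_mem_nhds (by linarith))
    filter_upwards [h2, eventually_ge_atTop 2] with n hn hn2
    have hnR : (2 : ℝ) ≤ n := by exact_mod_cast hn2
    have hn1 : (0 : ℝ) < (n : ℝ) - 1 := by linarith
    have h3 : 4 * (n : ℝ) * prob α n = 2 * α + 2 * α / ((n : ℝ) - 1) := by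
      unfold prob
      field_simp
      ring
    rw [h3]
    linarith
  refine whp_of_le hα.le hu ?_
  filter_upwards [eventually_prob α hα.le, hqe] with n hn hq
  obtain ⟨hn2, hp0, hp1⟩ := hn
  set p := prob α n with hp
  have hnR : (2 : ℝ) ≤ n := by exact_mod_cast hn2
  obtain ⟨hI1, -, -⟩ := hInc (α := Cl n) p hp0 hp1
  have h1 : Pr p (fun F => ¬ ¬ ∃ (r : ℕ) (v : ℕ → Fin n) (c : ℕ → Cl n) (e e' : Cl n),
      IsGBic F univ r v c e e') ≤ Pr p (fun F => ∃ t ∈ gbp_T n, gbp_ev t F) := by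
    refine Pr_mono hp0 hp1 fun F hF => gbp_event (not_not.1 hF)
  refine h1.trans ((Pr_exists_le hp0 hp1 _ _).trans ?_)
  have h2 : ∀ t ∈ gbp_T n, Pr p (gbp_ev t) ≤ p ^ (t.1 + 2) := by
    rintro ⟨r, v, c, e, e'⟩ ht
    unfold gbp_T at ht
    rw [Finset.mem_sigma, Finset.mem_sigma] at ht
    obtain ⟨_, _, hP⟩ := ht
    unfold gbp_P at hP
    obtain ⟨hpr, hne, h3⟩ := Finset.mem_filter.1 hP
    have hc : ∀ i, Joins (c i) (v i.castSucc) (v i.succ) := by
      intro i
      exact gbp_mem_near.1 (Fintype.mem_piFinset.1 (Finset.mem_product.1 hpr).1 i)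
    by_cases hv : Function.Injective v
    · have h5 : Pr p (gbp_ev (n := n) ⟨r, v, (c, (e, e'))⟩) ≤
          Pr p (fun F => insert e (insert e' (univ.image c)) ⊆ F) :=
        Pr_mono hp0 hp1 fun F hF => hF.2
      refine h5.trans (le_of_eq ?_)
      rw [hI1]
      congr 1
      have h6 : e ∉ insert e' (univ.image c) := by
        rw [Finset.mem_insert, not_or]
        refine ⟨hne, fun h => ?_⟩
        obtain ⟨k, -, hk⟩ := Finset.mem_image.1 h
        exact (h3 k).1 hk
      have h7 : e' ∉ univ.image c := by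
        intro h
        obtain ⟨k, -, hk⟩ := Finset.mem_image.1 h
        exact (h3 k).2 hk
      rw [Finset.card_insert_of_notMem h6, Finset.card_insert_of_notMem h7,
        Finset.card_image_of_injective _ (gbp_inj hv hc), Finset.card_univ, Fintype.card_fin]
    · have h5 : Pr p (gbp_ev (n := n) ⟨r, v, (c, (e, e'))⟩) ≤ 0 := by
        unfold Pr
        refine le_of_eq (Finset.sum_eq_zero fun F _ => ?_)
        exact ind_not fun h => hv h.1
      exact h5.trans (pow_nonneg hp0 _)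
  refine (Finset.sum_le_sum h2).trans ?_
  unfold gbp_T
  rw [Finset.sum_sigma]
  have hpn : p ≤ α / n := by
    rw [hp]
    unfold prob
    apply div_le_div_of_nonneg_left hα.le (by linarith)
    linarith
  have h3 : ∀ r ∈ range n, ∑ x ∈ (Fintype.piFinset fun _ : Fin (r + 1) =>
      (univ : Finset (Fin n))).sigma (fun v => gbp_P v), p ^ (r + 2) ≤
      (16 * n * p ^ 2 * β⁻¹) * (((r + 1 : ℕ) : ℝ) ^ 2 * β ^ (r + 1)) := by
    intro r _
    rw [Finset.sum_const, nsmul_eq_mul, Finset.card_sigma]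
    have h4 : ∑ v ∈ Fintype.piFinset fun _ : Fin (r + 1) => (univ : Finset (Fin n)),
        (gbp_P v).card ≤ n ^ (r + 1) * (4 ^ r * (16 * (r + 1) ^ 2)) := by
      refine (Finset.sum_le_sum fun v _ => gbp_P_card v).trans (le_of_eq ?_)
      rw [Finset.sum_const, smul_eq_mul, Fintype.card_piFinset, Finset.prod_const,
        Finset.card_univ, Finset.card_univ, Fintype.card_fin, Fintype.card_fin]
    have h5 : ((∑ v ∈ Fintype.piFinset fun _ : Fin (r + 1) => (univ : Finset (Fin n)),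
        (gbp_P v).card : ℕ) : ℝ) ≤
        (n : ℝ) ^ (r + 1) * (4 ^ r * (16 * ((r : ℝ) + 1) ^ 2)) := by exact_mod_cast h4
    have h6 : (4 * (n : ℝ) * p) ^ r ≤ β ^ r := pow_le_pow_left₀ (by positivity) hq r
    calc ((∑ v ∈ Fintype.piFinset fun _ : Fin (r + 1) => (univ : Finset (Fin n)),
        (gbp_P v).card : ℕ) : ℝ) * p ^ (r + 2) ≤
          ((n : ℝ) ^ (r + 1) * (4 ^ r * (16 * ((r : ℝ) + 1) ^ 2))) * p ^ (r + 2) :=
          mul_le_mul_of_nonneg_right h5 (pow_nonneg hp0 _)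
      _ = (16 * ((r : ℝ) + 1) ^ 2 * n * p ^ 2) * (4 * (n : ℝ) * p) ^ r := by
          rw [pow_add, pow_succ, mul_pow, mul_pow]
          ring
      _ ≤ (16 * ((r : ℝ) + 1) ^ 2 * n * p ^ 2) * β ^ r :=
          mul_le_mul_of_nonneg_left h6 (by positivity)
      _ = _ := by
          push_cast
          rw [pow_succ β r]
          field_simp
  refine (Finset.sum_le_sum h3).trans ?_
  rw [← Finset.mul_sum]
  have h6 : ∑ r ∈ range n, (((r + 1 : ℕ) : ℝ) ^ 2 * β ^ (r + 1)) ≤ K :=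
    hsum.sum_le_tsum _ fun r _ => by positivity
  have h7 : n * p ^ 2 ≤ α ^ 2 / n := by
    calc (n : ℝ) * p ^ 2 ≤ n * (α / n) ^ 2 := by gcongr
      _ = α ^ 2 / n := by
        field_simp
  calc (16 * n * p ^ 2 * β⁻¹) * ∑ r ∈ range n, (((r + 1 : ℕ) : ℝ) ^ 2 * β ^ (r + 1)) ≤
        (16 * n * p ^ 2 * β⁻¹) * K := mul_le_mul_of_nonneg_left h6 (by positivity)
    _ = (16 * β⁻¹ * K) * (n * p ^ 2) := by ring
    _ ≤ (16 * β⁻¹ * K) * (α ^ 2 / n) := mul_le_mul_of_nonneg_left h7 (by positivity)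
    _ = 16 * α ^ 2 * β⁻¹ * K / n := by
        field_simp

end Pool.Agent.R2
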