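import Mathlib
import Pool.Agent.R2.Basic

/-!
# R2 [Gnt]: the expansion property of the random formula
-/

namespace Pool.Agent.R2

open Finset Pool.Agent.Helper56.Iso Pool.Agent.Dichotomy Filter Topology

section gnt

variable {α : Type} [Fintype α] [DecidableEq α]

/-- The indicator function of an event. -/
noncomputable def gnt_f (P : Finset α → Prop) (F : Finset α) : ℝ :=
  Set.indicator {E | P E} (fun _ => (1 : ℝ)) F

omit [Fintype α] [DecidableEq α] in
theorem gnt_f_of {P : Finset α → Prop} {F : Finset α} (h : P F) : gnt_f P F = 1 :=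
  Set.indicator_of_mem (s := {E | P E}) h _

omit [Fintype α] [DecidableEq α] in
theorem gnt_f_not {P : Finset α → Prop} {F : Finset α} (h : ¬ P F) : gnt_f P F = 0 :=
  Set.indicator_of_notMem (s := {E | P E}) h _

omit [Fintype α] [DecidableEq α] in
theorem gnt_f_nonneg (P : Finset α → Prop) (F : Finset α) : 0 ≤ gnt_f P F := by
  by_cases h : P F
  · rw [gnt_f_of h]
    exact zero_le_one
  · rw [gnt_f_not h]

theorem gnt_Pr (p : ℝ) (P : Finset α → Prop) : Pr p P = ∑ F, wt p F * gnt_f P F := by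
  unfold Pr
  apply Finset.sum_congr rfl
  intro F _
  by_cases h : P F
  · rw [ind_of h, gnt_f_of h, mul_one]
  · rw [ind_not h, gnt_f_not h, mul_zero]

/-- Lower bound of the probability of an event for the union of two independent sets. -/
theorem gnt_two (hUni : St_Uni) {p p1 p2 u : ℝ} (h10 : 0 ≤ p1) (h11 : p1 ≤ 1) (h20 : 0 ≤ p2)
    (h21 : p2 ≤ 1) (hp : 1 - p = (1 - p1) * (1 - p2)) (A P : Finset α → Prop)
    (h : ∀ F, A F → Pr p2 (fun F' => ¬ P (F ∪ F')) ≤ u) :
    Pr p1 A * (1 - u) ≤ Pr p P := by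
  rw [gnt_Pr p P, hUni p p1 p2 (gnt_f P) hp, gnt_Pr p1 A, Finset.sum_mul]
  apply Finset.sum_le_sum
  intro F _
  rw [mul_assoc]
  apply mul_le_mul_of_nonneg_left _ (wt_nonneg h10 h11 F)
  by_cases hA : A F
  · rw [gnt_f_of hA, one_mul]
    have h1 := Pr_add_not p2 (fun F' => P (F ∪ F'))
    have h2 := h F hA
    have h3 : Pr p2 (fun F' => P (F ∪ F')) = ∑ F', wt p2 F' * gnt_f P (F ∪ F') := by
      rw [gnt_Pr]
      rfl
    rw [← h3]
    linarith
  · rw [gnt_f_not hA, zero_mul]
    exact Finset.sum_nonneg fun F' _ => mul_nonneg (wt_nonneg h20 h21 F') (gnt_f_nonneg P _)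

/-- An increasing event. -/
theorem gnt_mono (hUni : St_Uni) {p p1 : ℝ} (h10 : 0 ≤ p1) (h11 : p1 < 1) (hp : p1 ≤ p)
    (h1 : p ≤ 1) (P : Finset α → Prop) (h : ∀ F F', P F → P (F ∪ F')) : Pr p1 P ≤ Pr p P := by
  have h2 : 0 < 1 - p1 := by linarith
  have h3 : 1 - p = (1 - p1) * (1 - (p - p1) / (1 - p1)) := by
    field_simp
    ring
  have h4 : 0 ≤ (p - p1) / (1 - p1) := div_nonneg (by linarith) h2.le
  have h5 : (p - p1) / (1 - p1) ≤ 1 := by
    rw [div_le_one h2]
    linarith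
  have h6 := gnt_two hUni (u := 0) h10 h11.le h4 h5 h3 P P (by
    intro F hF
    have h7 : Pr ((p - p1) / (1 - p1)) (fun F' => ¬ P (F ∪ F')) = 0 := by
      unfold Pr
      apply Finset.sum_eq_zero
      intro F' _
      exact ind_not (Bad := fun F' => ¬ P (F ∪ F')) (not_not.2 (h F F' hF))
    rw [h7])
  linarith

/-- Three steps. -/
theorem gnt_main (hUni : St_Uni) {p p1 p2 u : ℝ} (h10 : 0 ≤ p1) (h20 : 0 ≤ p2)
    (hp : p1 + p2 = p) (h1 : p < 1) (A P : Finset α → Prop) (hP : ∀ F F', P F → P (F ∪ F'))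
    (h : ∀ F, A F → Pr p2 (fun F' => ¬ P (F ∪ F')) ≤ u) :
    Pr p1 A * (1 - u) ≤ Pr p P := by
  have h11 : p1 ≤ 1 := by linarith
  have h21 : p2 ≤ 1 := by linarith
  have h3 := gnt_two hUni (p := p1 + p2 - p1 * p2) h10 h11 h20 h21 (by ring) A P h
  have h4 : 0 ≤ p1 * p2 := mul_nonneg h10 h20
  have h5 : 0 ≤ p1 * (1 - p2) := mul_nonneg h10 (by linarith)
  have h6 := gnt_mono hUni (p := p) (p1 := p1 + p2 - p1 * p2) (by linarith) (by linarith)
    (by linarith) h1.le P hP
  linarith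

end gnt

theorem gnt_cross {n : ℕ} {F F' : Finset (Cl n)} (h : F ⊆ F') (S S' : Finset (Fin n)) :
    cross F S S' ⊆ cross F' S S' := by
  intro e he
  rw [mem_cross] at he ⊢
  exact ⟨h he.1, he.2⟩

theorem gnt_link {n : ℕ} {F F' : Finset (Cl n)} (h : F ⊆ F') {X : Finset (Fin n)} {ε ρ : ℝ}
    (hL : Link F X ε ρ) : Link F' X ε ρ := by
  intro S S' hS hS'
  have h1 : ((cross F S S').card : ℝ) ≤ (cross F' S S').card := by
    exact_mod_cast Finset.card_le_card (gnt_cross h S S')
  exact (hL S S' hS hS').trans h1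

theorem gnt_card {n : ℕ} {F : Finset (Cl n)} {L N : ℕ} {Q : Fin N → Finset (Fin n)}
    (h : Packing F L N Q) : (univ.biUnion Q).card = N * L := by
  rw [Finset.card_biUnion fun i _ j _ hij => h.2 i j hij]
  rw [Finset.sum_congr rfl fun i _ => (h.1 i).1, Finset.sum_const, Finset.card_univ,
    Fintype.card_fin, smul_eq_mul]

theorem thm_Gnt (hPck : St_Pck) (hSpr : St_Spr) (hLnk : St_Lnk) (hUni : St_Uni) : St_Gnt := by
  intro α hα
  obtain ⟨α₁, hα1, hα2⟩ := exists_between hα
  obtain ⟨b, hb, hW⟩ := hPck α₁ hα1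
  refine ⟨b, hb, ?_⟩
  intro ε hε
  obtain ⟨ρ', hρ', L0, hS⟩ := hSpr (α - α₁) b (ε / 2) (by linarith) hb (by linarith)
  have hL2 : 2 ≤ max L0 2 := le_max_right _ _
  obtain ⟨n0, hn0⟩ := hS (max L0 2) (le_max_left _ _)
  have hW1 := hW (max L0 2) (by omega)
  generalize max L0 2 = L at hL2 hn0 hW1
  have hL0 : (0 : ℝ) < L := by
    have : 0 < L := by omega
    exact_mod_cast this
  refine ⟨min ρ' (ε / 2 * (b / L)), lt_min hρ' (by positivity), ?_⟩
  have hρ1 : min ρ' (ε / 2 * (b / L)) ≤ ρ' := min_le_left _ _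
  have hρ2 : min ρ' (ε / 2 * (b / L)) ≤ ε / 2 * (b / L) := min_le_right _ _
  generalize min ρ' (ε / 2 * (b / L)) = ρ at hρ1 hρ2
  unfold Whp at hW1 ⊢
  have hlim : Tendsto (fun n : ℕ => (1 : ℝ) - 1 / n) atTop (𝓝 1) := by
    have := tendsto_one_div_atTop_nhds_zero_nat (𝕜 := ℝ)
    have h2 := this.const_sub 1
    rw [sub_zero] at h2
    exact h2
  have hlim2 := hW1.mul hlim
  rw [mul_one] at hlim2
  refine tendsto_of_tendsto_of_tendsto_of_le_of_le' hlim2 tendsto_const_nhds ?_ ?_
  · filter_upwards [eventually_prob_le α (q := 1 / 2) (by norm_num), eventually_ge_atTop 2,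
      eventually_ge_atTop n0] with n hp hn hnn
    apply gnt_main hUni (prob_nonneg (by linarith) hn) (prob_nonneg (by linarith : 0 ≤ α - α₁) hn)
    · unfold prob
      rw [← add_div]
      congr 1
      ring
    · linarith
    · rintro F F' ⟨X, hX1, hX2⟩
      exact ⟨X, hX1, gnt_link Finset.subset_union_left hX2⟩
    · rintro F ⟨N, Q, hN, hQ⟩
      have hp2 : 0 ≤ prob (α - α₁) n := prob_nonneg (by linarith) hn
      have hp3 : prob (α - α₁) n ≤ 1 := by
        have h1 : prob (α - α₁) n + prob α₁ n = prob α n := by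
          unfold prob
          rw [← add_div]
          congr 1
          ring
        have h2 : 0 ≤ prob α₁ n := prob_nonneg (by linarith) hn
        linarith
      refine le_trans (Pr_mono hp2 hp3 ?_) (hn0 n hnn N Q hN (fun i => (hQ.1 i).1) hQ.2)
      intro F' hF' hcon
      apply hF'
      refine ⟨univ.biUnion Q, ?_, ?_⟩
      · rw [gnt_card hQ]
        push_cast
        exact hN
      · apply hLnk F F' L N Q ε ρ hL2 hε hQ
        · intro I I' hd hI hI'
          refine le_trans ?_ (hcon I I' hd hI hI')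
          exact mul_le_mul_of_nonneg_right hρ1 (Nat.cast_nonneg _)
        · have h1 : b / L * n ≤ N := by
            rw [div_mul_eq_mul_div, div_le_iff₀ hL0]
            exact hN
          calc ρ * n ≤ ε / 2 * (b / L) * n := mul_le_mul_of_nonneg_right hρ2 (Nat.cast_nonneg _)
            _ = ε / 2 * (b / L * n) := by ring
            _ ≤ ε / 2 * N := mul_le_mul_of_nonneg_left h1 (by linarith)
  · filter_upwards [eventually_prob α (by linarith)] with n hn
    exact Pr_le_one hn.2.1 hn.2.2 _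

end Pool.Agent.R2
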