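import Mathlib
import Pool.Agent.R2.Basic

/-!
# Few clauses are not good
-/

namespace Pool.Agent.R2

open Finset Pool.Agent.Helper56.Iso Pool.Agent.Dichotomy Filter Topology

theorem goodE_card_univ (n : ℕ) : (univ : Finset (Cl n)).card ≤ n * (4 * n) := by
  classical
  have h1 : (univ : Finset (Cl n)).card ≤
      (univ : Finset (Lit n × Lit n)).card := by
    refine Finset.card_le_card_of_injOn (fun e : Cl n => e.1) ?_ ?_
    · intro e _
      exact Finset.mem_coe.2 (Finset.mem_univ _)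
    · intro e _ e' _ h
      exact Subtype.ext h
  refine h1.trans (le_of_eq ?_)
  rw [Finset.card_univ, Fintype.card_prod, Fintype.card_prod, ZMod.card, Fintype.card_fin]
  ring

/-- the number of clauses is linear -/
theorem goodE_lin {α : ℝ} (hα : 0 < α) :
    Whp α fun n F => (F.card : ℝ) ≤ (4 * α * Real.exp 1 + 1) * n := by
  classical
  have hu : Tendsto (fun n : ℕ => Real.exp (-(n : ℝ))) atTop (𝓝 0) :=
    Real.tendsto_exp_neg_atTop_nhds_zero.comp tendsto_natCast_atTop_atTop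
  refine whp_of_le hα.le hu ?_
  filter_upwards [eventually_prob α hα.le] with n hn
  obtain ⟨hn2, hp0, hp1⟩ := hn
  have hn2' : (2 : ℝ) ≤ n := by exact_mod_cast hn2
  set k : ℕ := ⌈(4 * α * Real.exp 1 + 1) * (n : ℝ)⌉₊ with hk
  have h1 : Pr (prob α n) (fun F : Finset (Cl n) =>
      ¬ (F.card : ℝ) ≤ (4 * α * Real.exp 1 + 1) * n) ≤
      Pr (prob α n) (fun F : Finset (Cl n) => k ≤ (F ∩ univ).card) := by
    refine Pr_mono hp0 hp1 (fun F hF => ?_)
    rw [Finset.inter_univ]
    exact Nat.ceil_le.2 (le_of_lt (not_le.1 hF))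
  refine h1.trans ?_
  have he1 : (1 : ℝ) ≤ Real.exp 1 := Real.one_le_exp (by norm_num)
  have h2 := upper_tail hp0 hp1 he1 (univ : Finset (Cl n)) k
  have h3 : Real.exp ((4 * α * Real.exp 1 + 1) * n) ≤ Real.exp 1 ^ k := by
    rw [← Real.exp_nat_mul, mul_one]
    exact Real.exp_le_exp.2 (Nat.le_ceil _)
  have h4 : prob α n * Real.exp 1 * ((univ : Finset (Cl n)).card : ℝ) ≤
      4 * α * Real.exp 1 * n := by
    have h5 : ((univ : Finset (Cl n)).card : ℝ) ≤ n * (4 * n) := by
      have := goodE_card_univ n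
      exact_mod_cast this
    have h6 : prob α n * Real.exp 1 * ((univ : Finset (Cl n)).card : ℝ) ≤
        prob α n * Real.exp 1 * (n * (4 * n)) :=
      mul_le_mul_of_nonneg_left h5 (by positivity)
    refine h6.trans ?_
    have hn1 : (0 : ℝ) < (n : ℝ) - 1 := by linarith
    have h7 : prob α n * Real.exp 1 * (n * (4 * n)) =
        4 * α * Real.exp 1 * n * (n / (2 * ((n : ℝ) - 1))) := by
      unfold prob
      field_simp
    rw [h7]
    have h8 : (n : ℝ) / (2 * ((n : ℝ) - 1)) ≤ 1 := by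
      rw [div_le_one (by positivity)]
      linarith
    calc 4 * α * Real.exp 1 * n * (n / (2 * ((n : ℝ) - 1))) ≤ 4 * α * Real.exp 1 * n * 1 :=
          mul_le_mul_of_nonneg_left h8 (by positivity)
      _ = 4 * α * Real.exp 1 * n := mul_one _
  have h9 : Pr (prob α n) (fun F : Finset (Cl n) => k ≤ (F ∩ univ).card) *
      Real.exp ((4 * α * Real.exp 1 + 1) * n) ≤ Real.exp (4 * α * Real.exp 1 * n) := by
    refine le_trans ?_ (h2.trans (Real.exp_le_exp.2 h4))
    exact mul_le_mul_of_nonneg_left h3 (Pr_nonneg hp0 hp1 _)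
  have h10 : Real.exp (-(n : ℝ)) =
      Real.exp (4 * α * Real.exp 1 * n) / Real.exp ((4 * α * Real.exp 1 + 1) * n) := by
    rw [← Real.exp_sub]
    congr 1
    ring
  rw [h10, le_div_iff₀ (Real.exp_pos _)]
  exact h9

theorem goodE_deg {n : ℕ} (F : Finset (Cl n)) :
    ∑ v : Fin n, (meet F {v}).card ≤ 2 * F.card := by
  classical
  have h1 : ∀ v : Fin n, (meet F {v}).card ≤
      (F.filter (fun e => e.1.1.1 = v)).card + (F.filter (fun e => e.1.2.1 = v)).card := by
    intro v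
    have h2 : meet F {v} ⊆ F.filter (fun e => e.1.1.1 = v) ∪ F.filter (fun e => e.1.2.1 = v) := by
      intro e he
      rw [mem_meet, Finset.mem_singleton, Finset.mem_singleton] at he
      rw [Finset.mem_union, Finset.mem_filter, Finset.mem_filter]
      rcases he.2 with h | h
      · exact Or.inl ⟨he.1, h⟩
      · exact Or.inr ⟨he.1, h⟩
    exact (Finset.card_le_card h2).trans (Finset.card_union_le _ _)
  have h3 : ∑ v : Fin n, (F.filter (fun e => e.1.1.1 = v)).card = F.card :=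
    (Finset.card_eq_sum_card_fiberwise (f := fun e : Cl n => e.1.1.1) (s := F) (t := univ)
      (fun e _ => Finset.mem_coe.2 (Finset.mem_univ _))).symm
  have h4 : ∑ v : Fin n, (F.filter (fun e => e.1.2.1 = v)).card = F.card :=
    (Finset.card_eq_sum_card_fiberwise (f := fun e : Cl n => e.1.2.1) (s := F) (t := univ)
      (fun e _ => Finset.mem_coe.2 (Finset.mem_univ _))).symm
  calc ∑ v : Fin n, (meet F {v}).card
      ≤ ∑ v : Fin n, ((F.filter (fun e => e.1.1.1 = v)).card +
        (F.filter (fun e => e.1.2.1 = v)).card) := Finset.sum_le_sum (fun v _ => h1 v)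
    _ = 2 * F.card := by
      rw [Finset.sum_add_distrib, h3, h4]
      ring

theorem thm_GoodE (hEdg : St_Edg) (hBadS : St_BadS) : St_GoodE := by
  classical
  intro α γ hα hα1 hγ
  obtain ⟨γ', hγ', hE⟩ := hEdg α γ hα hγ
  obtain ⟨J, K, hJ, hK, hB⟩ := hBadS α (γ' / 2) hα hα1 (by positivity)
  set C : ℝ := 4 * α * Real.exp 1 + 1 with hC
  have hC0 : 0 < C := by positivity
  set D : ℕ := ⌈4 * C / γ'⌉₊ + 1 with hD
  have hD1 : 1 ≤ D := Nat.succ_le_succ (Nat.zero_le _)
  have hDr : (0 : ℝ) < D := by exact_mod_cast hD1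
  have hDC : 2 * C ≤ D * (γ' / 2) := by
    have h1 : 4 * C / γ' ≤ D := by
      rw [hD]
      push_cast
      have h2 := Nat.le_ceil (4 * C / γ')
      linarith
    have h3 : 4 * C ≤ D * γ' := (div_le_iff₀ hγ').1 h1
    linarith
  refine ⟨J, K, D, hJ, hK, hD1, ?_⟩
  have e4 := (hE.and hα.le hB).and hα.le (goodE_lin hα)
  refine e4.mono hα.le (Eventually.of_forall (fun n F hF => ?_))
  obtain ⟨⟨h1, h2⟩, h3⟩ := hF
  have hn : (0 : ℝ) ≤ n := Nat.cast_nonneg n
  set Z1 : Finset (Fin n) := univ.filter (fun v => Bad F J K v) with hZ1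
  set Z2 : Finset (Fin n) := univ.filter (fun v => D < (meet F {v}).card) with hZ2
  have h4 : (Z1.card : ℝ) ≤ γ' / 2 * n := by
    have h5 : {v : Fin n | Bad F J K v} = (Z1 : Set (Fin n)) := by
      ext v
      rw [hZ1, Finset.coe_filter]
      exact ⟨fun h => ⟨Finset.mem_univ _, h⟩, fun h => h.2⟩
    rw [h5, Set.ncard_coe_finset] at h2
    exact h2
  have h6 : (Z2.card : ℝ) ≤ γ' / 2 * n := by
    have h7 : Z2.card * D ≤ 2 * F.card := by
      calc Z2.card * D = ∑ _v ∈ Z2, D := by rw [Finset.sum_const, smul_eq_mul]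
        _ ≤ ∑ v ∈ Z2, (meet F {v}).card :=
          Finset.sum_le_sum (fun v hv => le_of_lt (Finset.mem_filter.1 hv).2)
        _ ≤ ∑ v : Fin n, (meet F {v}).card :=
          Finset.sum_le_sum_of_subset (Finset.subset_univ _)
        _ ≤ 2 * F.card := goodE_deg F
    have h8 : (Z2.card : ℝ) * D ≤ 2 * F.card := by exact_mod_cast h7
    have h9 : (Z2.card : ℝ) * D ≤ γ' / 2 * n * D := by
      calc (Z2.card : ℝ) * D ≤ 2 * F.card := h8
        _ ≤ 2 * (C * n) := by linarith
        _ = 2 * C * n := by ring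
        _ ≤ D * (γ' / 2) * n := mul_le_mul_of_nonneg_right hDC hn
        _ = γ' / 2 * n * D := by ring
    exact le_of_mul_le_mul_right h9 hDr
  have h10 : ((Z1 ∪ Z2).card : ℝ) ≤ γ' * n := by
    have h11 : ((Z1 ∪ Z2).card : ℝ) ≤ Z1.card + Z2.card := by
      exact_mod_cast Finset.card_union_le Z1 Z2
    linarith
  have h12 := h1 (Z1 ∪ Z2) h10
  refine le_trans ?_ h12
  have h13 : {e : Cl n | e ∈ F ∧ ¬ GoodCl F J K D e} ⊆
      ((meet F (Z1 ∪ Z2) : Finset (Cl n)) : Set (Cl n)) := by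
    intro e he
    obtain ⟨heF, heG⟩ := he
    rw [Finset.mem_coe, mem_meet]
    refine ⟨heF, ?_⟩
    by_contra hcon
    rw [not_or] at hcon
    obtain ⟨hu, hv⟩ := hcon
    rw [Finset.mem_union, not_or] at hu hv
    have hb : ∀ v, v ∉ Z1 → ¬ Bad F J K v := fun v h hb =>
      h (Finset.mem_filter.2 ⟨Finset.mem_univ _, hb⟩)
    have hd : ∀ v, v ∉ Z2 → (meet F {v}).card ≤ D := by
      intro v h
      by_contra hc
      exact h (Finset.mem_filter.2 ⟨Finset.mem_univ _, not_le.1 hc⟩)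
    exact heG ⟨⟨hb _ hu.1, hb _ hv.1⟩, hd _ hu.2, hd _ hv.2⟩
  have h14 := Set.ncard_le_ncard h13 (Finset.finite_toSet _)
  rw [Set.ncard_coe_finset] at h14
  exact_mod_cast h14

end Pool.Agent.R2
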