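import Mathlib
import Pool.Agent.R2.Basic

/-!
# R2 [Inc]: inclusion probabilities, Markov, Chebyshev
-/

namespace Pool.Agent.R2

open Finset Pool.Agent.Helper56.Iso Pool.Agent.Dichotomy Filter Topology

theorem inc_sub {α : Type} [Fintype α] [DecidableEq α] (p : ℝ) (S : Finset α) :
    Pr p (fun F => S ⊆ F) = p ^ S.card := by
  have h := Finset.prod_add (fun _ : α => p) (fun e => if e ∈ S then 0 else 1 - p) univ
  rw [Finset.powerset_univ] at h
  have h2 : ∏ e : α, (p + (if e ∈ S then 0 else 1 - p)) = p ^ S.card := by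
    have h3 : ∀ e : α, (p + (if e ∈ S then 0 else 1 - p)) = (if e ∈ S then p else 1) := by
      intro e
      split_ifs <;> ring
    rw [Finset.prod_congr rfl (fun e _ => h3 e), Finset.prod_ite_mem, Finset.univ_inter,
      Finset.prod_const]
  rw [← h2, h]
  unfold Pr
  apply Finset.sum_congr rfl
  intro E _
  by_cases hE : S ⊆ E
  · rw [ind_of (Bad := fun F => S ⊆ F) hE, Finset.prod_const]
    have h4 : ∏ e ∈ univ \ E, (if e ∈ S then (0 : ℝ) else 1 - p) = (1 - p) ^ (univ \ E).card := by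
      rw [← Finset.prod_const]
      apply Finset.prod_congr rfl
      intro e he
      rw [if_neg fun hs => (Finset.mem_sdiff.1 he).2 (hE hs)]
    rw [h4]
    rfl
  · rw [ind_not (Bad := fun F => S ⊆ F) hE]
    obtain ⟨e, he, he2⟩ := Finset.not_subset.1 hE
    have h4 : ∏ e ∈ univ \ E, (if e ∈ S then (0 : ℝ) else 1 - p) = 0 := by
      apply Finset.prod_eq_zero (Finset.mem_sdiff.2 ⟨Finset.mem_univ e, he2⟩)
      rw [if_pos he]
    rw [h4, mul_zero]

theorem inc_markov {α : Type} [Fintype α] [DecidableEq α] {p : ℝ} (h0 : 0 ≤ p) (h1 : p ≤ 1)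
    (f : Finset α → ℝ) (t : ℝ) (hf : ∀ F, 0 ≤ f F) :
    Pr p (fun F => t ≤ f F) * t ≤ ∑ F, wt p F * f F := by
  unfold Pr
  rw [Finset.sum_mul]
  apply Finset.sum_le_sum
  intro E _
  have hw := wt_nonneg h0 h1 E
  by_cases hE : t ≤ f E
  · rw [ind_of (Bad := fun F => t ≤ f F) hE]
    exact mul_le_mul_of_nonneg_left hE hw
  · rw [ind_not (Bad := fun F => t ≤ f F) hE, zero_mul]
    exact mul_nonneg hw (hf E)

theorem thm_Inc : St_Inc := by
  intro α _ _ p h0 h1
  refine ⟨inc_sub p, fun f t hf _ => inc_markov h0 h1 f t hf, ?_⟩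
  intro f μ V t ht hμ hV
  have h2 := inc_markov h0 h1 (fun F => (f F - μ) ^ 2) (t ^ 2) (fun F => sq_nonneg _)
  have h3 : ∑ F, wt p F * (f F - μ) ^ 2 ≤ V := by
    have e1 : ∑ F, wt p F * (f F - μ) ^ 2 =
        ∑ F, wt p F * (f F) ^ 2 - 2 * μ * ∑ F, wt p F * f F + μ ^ 2 * ∑ F : Finset α, wt p F := by
      rw [Finset.mul_sum, Finset.mul_sum, ← Finset.sum_sub_distrib, ← Finset.sum_add_distrib]
      apply Finset.sum_congr rfl
      intro F _
      ring
    rw [e1, hμ, sum_wt]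
    nlinarith
  have h4 : Pr p (fun F => μ + t ≤ f F) ≤ Pr p (fun F => t ^ 2 ≤ (f F - μ) ^ 2) := by
    apply Pr_mono h0 h1
    intro F hF
    have h5 : t ≤ f F - μ := by linarith
    exact pow_le_pow_left₀ ht.le h5 2
  rw [le_div_iff₀ (by positivity)]
  calc Pr p (fun F => μ + t ≤ f F) * t ^ 2
      ≤ Pr p (fun F => t ^ 2 ≤ (f F - μ) ^ 2) * t ^ 2 :=
        mul_le_mul_of_nonneg_right h4 (by positivity)
    _ ≤ V := h2.trans h3

end Pool.Agent.R2
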