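import Mathlib
import Pool.Agent.R2.Basic
import Pool.Agent.Helper34.XTW.Entropy

/-!
# Random 2-CNF formulas: [Kap] patterns on variables which are not bad are unlikely
-/

namespace Pool.Agent.R2

open Finset Pool.Agent.Helper56.Iso Pool.Agent.Dichotomy Filter Topology

open Classical in
/-- the variables of the closure of a literal -/
noncomputable def kap_vr {n : ℕ} (F : Finset (Cl n)) (v : Fin n) (a : ZMod 2) :
    Finset (Fin n) := univ.filter fun u => ∃ b, (u, b) ∈ R F (v, a)

theorem kap_mem {n : ℕ} {F : Finset (Cl n)} {v : Fin n} {a : ZMod 2} {u : Fin n} :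
    u ∈ kap_vr F v a ↔ ∃ b, (u, b) ∈ R F (v, a) := by
  classical
  unfold kap_vr
  rw [Finset.mem_filter]
  exact ⟨fun h => h.2, fun h => ⟨Finset.mem_univ _, h⟩⟩

theorem kap_card {n : ℕ} (F : Finset (Cl n)) (v : Fin n) (a : ZMod 2) :
    (kap_vr F v a).card ≤ (R F (v, a)).ncard := by
  classical
  have h1 : ((kap_vr F v a : Finset (Fin n)) : Set (Fin n)) =
      (fun z : Lit n => z.1) '' R F (v, a) := by
    ext u
    rw [Finset.mem_coe, kap_mem]
    constructor
    · rintro ⟨b, hb⟩
      exact ⟨(u, b), hb, rfl⟩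
    · rintro ⟨z, hz, rfl⟩
      exact ⟨z.2, hz⟩
  rw [← Set.ncard_coe_finset, h1]
  exact Set.ncard_image_le (Set.toFinite _)

theorem kap_zmod (a : ZMod 2) : a = 0 ∨ a = 1 := by
  revert a
  decide

theorem thm_Kap (hOv : St_Ov) (hCls : St_Cls) : St_Kap := by
  classical
  intro n F J K X p hJ hX
  have hcl : ∀ v ∈ X, ∀ a, Cons (R F (v, a)) := by
    intro v hv a
    have hb := hX v hv
    exact (hCls F J (v, a) hJ (fun h => hb ⟨a, Or.inl h⟩)
      (fun h => hb ⟨a, Or.inr (Or.inl h)⟩)).2.1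
  have hK : ∀ v ∈ X, ∀ a, (kap_vr F v a).card ≤ K := by
    intro v hv a
    refine (kap_card F v a).trans (not_lt.1 fun h => ?_)
    exact hX v hv ⟨a, Or.inr (Or.inr h)⟩
  set nb : Fin n → Finset (Fin n) := fun v => kap_vr F v (p v + 1) with hnb
  set nb' : Fin n → Finset (Fin n) := fun v => nb v ∪ X.filter fun u => v ∈ nb u with hnb'
  have hsub : ∀ v, (X.filter fun u => v ∈ nb u) ⊆ kap_vr F v 0 ∪ kap_vr F v 1 := by
    intro v u hu
    rw [Finset.mem_filter, hnb] at hu
    obtain ⟨b, hb⟩ := kap_mem.1 hu.2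
    have h1 := R_contra hb
    have h2 : neg (u, p u + 1) = (u, p u) := by
      unfold neg
      have h3 : ∀ c : ZMod 2, c + 1 + 1 = c := by decide
      rw [Prod.mk.injEq]
      exact ⟨rfl, h3 _⟩
    rw [h2] at h1
    rw [Finset.mem_union]
    rcases kap_zmod (b + 1) with h3 | h3
    · left
      refine kap_mem.2 ⟨p u, ?_⟩
      have h4 : neg (v, b) = (v, (0 : ZMod 2)) := by
        unfold neg
        rw [Prod.mk.injEq]
        exact ⟨rfl, h3⟩
      rw [h4] at h1
      exact h1
    · right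
      refine kap_mem.2 ⟨p u, ?_⟩
      have h4 : neg (v, b) = (v, (1 : ZMod 2)) := by
        unfold neg
        rw [Prod.mk.injEq]
        exact ⟨rfl, h3⟩
      rw [h4] at h1
      exact h1
  have hnb'card : ∀ v ∈ X, (nb' v).card ≤ 3 * K := by
    intro v hv
    refine (Finset.card_union_le _ _).trans ?_
    have h1 : (nb v).card ≤ K := hK v hv _
    have h2 := (Finset.card_le_card (hsub v)).trans (Finset.card_union_le _ _)
    have h3 := hK v hv 0
    have h4 := hK v hv 1
    omega
  obtain ⟨M, hMX, hM1, hM2⟩ := Pool.Agent.Helper34.XTW.exists_far X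
    (fun v : Fin n => ({v} : Finset (Fin n))) nb' (by
      intro i hi j hj h
      rw [Finset.disjoint_singleton_left] at h ⊢
      intro h1
      apply h
      rw [hnb'] at h1 ⊢
      simp only [Finset.mem_union, Finset.mem_filter] at h1 ⊢
      rcases h1 with h1 | h1
      · exact Or.inr ⟨hi, h1⟩
      · exact Or.inl h1.2)
  have hcard : X.card ≤ M.card * (3 * K + 1) := by
    have h1 : X ⊆ M.biUnion fun j => insert j (nb' j) := by
      intro i hi
      obtain ⟨j, hj, h⟩ := hM2 i hi
      rw [Finset.mem_biUnion]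
      refine ⟨j, hj, ?_⟩
      rw [Finset.mem_insert]
      rcases h with h | h
      · exact Or.inl h
      · rw [Finset.disjoint_singleton_left, not_not] at h
        exact Or.inr h
    refine (Finset.card_le_card h1).trans (Finset.card_biUnion_le.trans ?_)
    refine (Finset.sum_le_card_nsmul _ _ (3 * K + 1) (fun j hj => ?_)).trans ?_
    · exact (Finset.card_insert_le _ _).trans (Nat.succ_le_succ (hnb'card j (hMX hj)))
    · exact le_of_eq (smul_eq_mul _ _)
  have hM3 : X.card / (3 * K + 1) ≤ M.card := by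
    apply Nat.div_le_of_le_mul
    rw [mul_comm]
    exact hcard
  have hsw := Pool.Agent.Helper34.XTW.switch (SOL F) M (fun v : Fin n => ({v} : Finset (Fin n)))
    nb (fun v x => x v = p v) K (by
      intro i hi j hj hij
      have h1 := hM1 i hi j hj hij
      rw [Finset.disjoint_singleton_left] at h1 ⊢
      intro h2
      exact h1 (Finset.mem_union_left _ h2)) (by
      intro i _ x y hxy hx
      rw [hxy i (Finset.mem_singleton_self _)]
      exact hx) (fun i hi => hK i (hMX hi) _) (by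
      intro i hi x hx
      obtain ⟨y, hy, hy1, hy2⟩ := hOv F (R F (i, p i + 1)) x
        (fun z hz z' hzz => mem_R_step hz hzz) (hcl i (hMX hi) _) hx
      refine ⟨y, hy, fun v hv => hy2 v fun a ha => hv (kap_mem.2 ⟨a, ha⟩), ?_⟩
      have h1 : y i = p i + 1 := hy1 (i, p i + 1) (mem_R_self _)
      rw [h1]
      have h2 : ∀ c : ZMod 2, c + 1 ≠ c := by decide
      exact h2 _)
  have h1 : (({x | x ∈ SOL F ∧ ∀ v ∈ X, x v = p v} : Set (Fin n → ZMod 2)).ncard : ℝ) ≤
      (({x ∈ SOL F | ∀ i ∈ M, x i = p i} : Set (Fin n → ZMod 2)).ncard : ℝ) := by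
    have h2 : ({x | x ∈ SOL F ∧ ∀ v ∈ X, x v = p v} : Set (Fin n → ZMod 2)) ⊆
        {x ∈ SOL F | ∀ i ∈ M, x i = p i} := fun x hx => ⟨hx.1, fun i hi => hx.2 i (hMX hi)⟩
    exact_mod_cast Set.ncard_le_ncard h2 (Set.toFinite _)
  refine h1.trans (hsw.trans ?_)
  refine mul_le_mul_of_nonneg_right ?_ (Nat.cast_nonneg _)
  have h3 : (0 : ℝ) < 2 ^ K := by positivity
  refine pow_le_pow_of_le_one (by positivity) ?_ hM3
  rw [div_le_one (by positivity)]
  linarith

end Pool.Agent.R2
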