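import Mathlib
import Pool.Agent.R2.Lin

/-!
# Random 2-CNF formulas: the longest path argument
-/

namespace Pool.Agent.R2

open Finset Pool.Agent.Helper56.Iso Pool.Agent.Dichotomy Filter Topology

variable {n : ℕ}

theorem lp_symm {e : Cl n} {u v : Fin n} (h : Joins e u v) : Joins e v u := h.elim Or.inr Or.inl

theorem lp_ne {e : Cl n} {u v : Fin n} (h : Joins e u v) : u ≠ v := by
  have h1 := ne_of_lt e.2
  rintro rfl
  rcases h with ⟨h2, h3⟩ | ⟨h2, h3⟩ <;> exact h1 (h2.trans h3.symm)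

theorem lp_exists {e : Cl n} {u : Fin n} (h : e.1.1.1 = u ∨ e.1.2.1 = u) : ∃ w, Joins e u w := by
  rcases h with h | h
  · exact ⟨_, Or.inl ⟨h, rfl⟩⟩
  · exact ⟨_, Or.inr ⟨rfl, h⟩⟩

theorem lp_mem {e : Cl n} {u w : Fin n} (h : Joins e u w) : e.1.1.1 = u ∨ e.1.2.1 = u := by
  rcases h with h | h
  · exact Or.inl h.1
  · exact Or.inr h.2

theorem lp_pair {e : Cl n} {u w u' w' : Fin n} (h : Joins e u w) (h' : Joins e u' w') :
    (u = u' ∧ w = w') ∨ (u = w' ∧ w = u') := by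
  rcases h with ⟨h1, h2⟩ | ⟨h1, h2⟩ <;> rcases h' with ⟨h3, h4⟩ | ⟨h3, h4⟩
  · exact Or.inl ⟨h1.symm.trans h3, h2.symm.trans h4⟩
  · exact Or.inr ⟨h1.symm.trans h3, h2.symm.trans h4⟩
  · exact Or.inr ⟨h2.symm.trans h4, h1.symm.trans h3⟩
  · exact Or.inl ⟨h2.symm.trans h4, h1.symm.trans h3⟩

theorem lp_inS {F : Finset (Cl n)} {S : Finset (Fin n)} {f : Cl n} (hf : f ∈ inn F S)
    {u w : Fin n} (h : Joins f u w) : w ∈ S := by
  unfold inn at hf
  obtain ⟨-, h1, h2⟩ := mem_filter.1 hf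
  rcases h with h | h
  · rw [← h.2]; exact h2
  · rw [← h.1]; exact h1

theorem lp_inF {F : Finset (Cl n)} {S : Finset (Fin n)} {f : Cl n} (hf : f ∈ inn F S) :
    f ∈ F := (mem_filter.1 hf).1

/-- The path can be prolonged. -/
theorem lp_prolong {F : Finset (Cl n)} {S : Finset (Fin n)} {r : ℕ}
    (hr : ¬ ∃ (v : ℕ → Fin n) (c : ℕ → Cl n), IsGPath F S (r + 1) v c) {v : ℕ → Fin n}
    {c : ℕ → Cl n} (h : IsGPath F S r v c) {f : Cl n} (hf : f ∈ inn F S) {w : Fin n}
    (hw : Joins f (v r) w) : ∃ i ≤ r, w = v i := by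
  by_contra hcon
  push Not at hcon
  obtain ⟨h1, h2, h3⟩ := h
  apply hr
  refine ⟨fun i => if i ≤ r then v i else w, fun i => if i < r then c i else f, ?_, ?_, ?_⟩
  · intro i hi
    by_cases h4 : i ≤ r
    · simp only [if_pos h4]
      exact h1 i h4
    · simp only [if_neg h4]
      exact lp_inS hf hw
  · intro i hi j hj hij
    by_cases h4 : i ≤ r <;> by_cases h5 : j ≤ r
    · simp only [if_pos h4, if_pos h5] at hij
      exact h2 i h4 j h5 hij
    · simp only [if_pos h4, if_neg h5] at hij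
      exact absurd hij.symm (hcon i h4)
    · simp only [if_neg h4, if_pos h5] at hij
      exact absurd hij (hcon j h5)
    · omega
  · intro i hi
    by_cases h4 : i < r
    · have h5 : i ≤ r := h4.le
      have h6 : i + 1 ≤ r := h4
      simp only [if_pos h4, if_pos h5, if_pos h6]
      exact h3 i h4
    · have h5 : i = r := by omega
      subst h5
      have h6 : ¬ i + 1 ≤ i := by omega
      simp only [if_neg h4, if_pos (le_refl i), if_neg h6]
      exact ⟨lp_inF hf, hw⟩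

theorem lp_rev {F : Finset (Cl n)} {S : Finset (Fin n)} {r : ℕ} {v : ℕ → Fin n}
    {c : ℕ → Cl n} (h : IsGPath F S r v c) :
    IsGPath F S r (fun i => v (r - i)) (fun i => c (r - 1 - i)) := by
  obtain ⟨h1, h2, h3⟩ := h
  refine ⟨fun i _ => h1 _ (Nat.sub_le r i), fun i hi j hj hij => ?_, fun i hi => ?_⟩
  · have := h2 _ (Nat.sub_le r i) _ (Nat.sub_le r j) hij
    omega
  · obtain ⟨h4, h5⟩ := h3 (r - 1 - i) (by omega)
    refine ⟨h4, ?_⟩
    have e1 : r - 1 - i + 1 = r - i := by omega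
    have e2 : r - (i + 1) = r - 1 - i := by omega
    show Joins (c (r - 1 - i)) (v (r - i)) (v (r - (i + 1)))
    rw [e2]
    rw [e1] at h5
    exact lp_symm h5

/-- The variables of the cycle. -/
def lp_v (r : ℕ) (v : ℕ → Fin n) (j : ℕ) : Fin n := v (j % (r + 1))

/-- The clauses of the cycle. -/
def lp_c (r : ℕ) (c : ℕ → Cl n) (e : Cl n) (j : ℕ) : Cl n :=
  if j % (r + 1) = r then e else c (j % (r + 1))

theorem lp_cyc_joins {F : Finset (Cl n)} {S : Finset (Fin n)} {r : ℕ} {v : ℕ → Fin n}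
    {c : ℕ → Cl n} (h : IsGPath F S r v c) {e : Cl n} (he : e ∈ inn F S)
    (hj : Joins e (v 0) (v r)) (j : ℕ) :
    lp_c r c e j ∈ F ∧ Joins (lp_c r c e j) (lp_v r v j) (lp_v r v (j + 1)) := by
  have hlt : j % (r + 1) < r + 1 := Nat.mod_lt _ (Nat.succ_pos r)
  unfold lp_c lp_v
  by_cases h1 : j % (r + 1) = r
  · have h2 : (j + 1) % (r + 1) = 0 := by
      rw [Nat.add_mod, h1]
      rcases Nat.eq_zero_or_pos r with h0 | h0
      · subst h0
        simp
      · rw [Nat.mod_eq_of_lt (show 1 < r + 1 by omega), Nat.mod_self]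
    rw [if_pos h1, h1, h2]
    exact ⟨lp_inF he, lp_symm hj⟩
  · have h3 : j % (r + 1) < r := by omega
    have h2 : (j + 1) % (r + 1) = j % (r + 1) + 1 := by
      rw [Nat.add_mod, Nat.mod_eq_of_lt (show 1 < r + 1 by omega)]
      exact Nat.mod_eq_of_lt (by omega)
    rw [if_neg h1, h2]
    exact h.2.2 _ h3

theorem lp_mod_inj {r s i j : ℕ} (hi : i ≤ r) (hj : j ≤ r)
    (h : (s + i) % (r + 1) = (s + j) % (r + 1)) : i = j := by
  have h1 : s + i ≡ s + j [MOD (r + 1)] := h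
  have h2 : i ≡ j [MOD (r + 1)] := Nat.ModEq.add_left_cancel' s h1
  have h3 : i % (r + 1) = j % (r + 1) := h2
  rwa [Nat.mod_eq_of_lt (by omega), Nat.mod_eq_of_lt (by omega)] at h3

theorem lp_rot {F : Finset (Cl n)} {S : Finset (Fin n)} {r : ℕ} {v : ℕ → Fin n}
    {c : ℕ → Cl n} (h : IsGPath F S r v c) {e : Cl n} (he : e ∈ inn F S)
    (hj : Joins e (v 0) (v r)) (s : ℕ) :
    IsGPath F S r (fun j => lp_v r v (s + j)) (fun j => lp_c r c e (s + j)) := by
  refine ⟨fun i _ => ?_, fun i hi j hj hij => ?_, fun i _ => ?_⟩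
  · exact h.1 _ (Nat.lt_succ_iff.1 (Nat.mod_lt _ (Nat.succ_pos r)))
  · exact lp_mod_inj hi hj (h.2.1 _ (Nat.lt_succ_iff.1 (Nat.mod_lt _ (Nat.succ_pos r))) _
      (Nat.lt_succ_iff.1 (Nat.mod_lt _ (Nat.succ_pos r))) hij)
  · exact lp_cyc_joins h he hj (s + i)

/-- The clauses of a path are determined by the position. -/
theorem lp_c_inj {F : Finset (Cl n)} {S : Finset (Fin n)} {r : ℕ} {v : ℕ → Fin n}
    {c : ℕ → Cl n} (h : IsGPath F S r v c) {i j : ℕ} (hi : i < r) (hj : j < r)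
    (hij : c i = c j) : i = j := by
  have h1 := (h.2.2 i hi).2
  have h2 := (h.2.2 j hj).2
  rw [hij] at h1
  rcases lp_pair h1 h2 with ⟨h3, _⟩ | ⟨h3, h4⟩
  · exact h.2.1 i hi.le j hj.le h3
  · have h5 := h.2.1 i hi.le (j + 1) hj h3
    have h6 := h.2.1 (i + 1) hi j hj.le h4
    omega

theorem lp_cyc_inj {F : Finset (Cl n)} {S : Finset (Fin n)} {r : ℕ} {v : ℕ → Fin n}
    {c : ℕ → Cl n} (h : IsGPath F S r v c) {e : Cl n} (hce : ∀ i < r, c i ≠ e) {a b : ℕ}
    (hab : lp_c r c e a = lp_c r c e b) : a % (r + 1) = b % (r + 1) := by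
  have ha : a % (r + 1) < r + 1 := Nat.mod_lt _ (Nat.succ_pos r)
  have hb : b % (r + 1) < r + 1 := Nat.mod_lt _ (Nat.succ_pos r)
  unfold lp_c at hab
  by_cases h1 : a % (r + 1) = r <;> by_cases h2 : b % (r + 1) = r
  · rw [h1, h2]
  · rw [if_pos h1, if_neg h2] at hab
    exact absurd hab.symm (hce _ (by omega))
  · rw [if_neg h1, if_pos h2] at hab
    exact absurd hab (hce _ (by omega))
  · rw [if_neg h1, if_neg h2] at hab
    exact lp_c_inj h (by omega) (by omega) hab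

/-- A clause at the last variable of a path of maximal length which is not the last clause of the
path. -/
theorem lp_end {F : Finset (Cl n)} {S : Finset (Fin n)} {r : ℕ}
    (hr : ¬ ∃ (v : ℕ → Fin n) (c : ℕ → Cl n), IsGPath F S (r + 1) v c)
    (hS : ∀ v ∈ S, 2 ≤ (inc F S v).card) {v : ℕ → Fin n} {c : ℕ → Cl n}
    (h : IsGPath F S r v c) :
    ∃ e ∈ inn F S, (∃ i ≤ r, Joins e (v r) (v i)) ∧ ∀ i < r, c i ≠ e := by
  have h1 := hS (v r) (h.1 r le_rfl)
  obtain ⟨e, he, hne⟩ := exists_mem_ne (show 1 < (inc F S (v r)).card by omega) (c (r - 1))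
  unfold inc at he
  obtain ⟨he1, he2⟩ := mem_filter.1 he
  obtain ⟨w, hw⟩ := lp_exists he2
  obtain ⟨i, hi, rfl⟩ := lp_prolong hr h he1 hw
  refine ⟨e, he1, ⟨i, hi, hw⟩, ?_⟩
  intro j hj hje
  have h3 := (h.2.2 j hj).2
  rw [hje] at h3
  have h4 : j + 1 = r := by
    rcases lp_pair h3 hw with ⟨h5, _⟩ | ⟨_, h5⟩
    · have := h.2.1 j hj.le r le_rfl h5
      omega
    · exact h.2.1 (j + 1) hj r le_rfl h5
  apply hne
  rw [← hje]
  congr 1
  omega

theorem thm_LP : St_LP := by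
  intro n F S hSne hbic hS
  obtain ⟨r, ⟨v, c, hp⟩, hr⟩ : ∃ r, (∃ (v : ℕ → Fin n) (c : ℕ → Cl n), IsGPath F S r v c) ∧
      ¬ ∃ (v : ℕ → Fin n) (c : ℕ → Cl n), IsGPath F S (r + 1) v c := by
    by_contra hcon
    push Not at hcon
    have hall : ∀ r, ∃ (v : ℕ → Fin n) (c : ℕ → Cl n), IsGPath F S r v c := by
      intro r
      induction r with
      | zero =>
        obtain ⟨u, hu⟩ := hSne
        have h1 : 0 < (inc F S u).card := by
          have := hS u hu
          omega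
        obtain ⟨e, _⟩ := card_pos.1 h1
        refine ⟨fun _ => u, fun _ => e, fun _ _ => hu, fun i hi j hj _ => by omega,
          fun i hi => by omega⟩
      | succ r ih =>
        exact hcon r ih
    obtain ⟨v, c, h⟩ := hall n
    have h1 : (range (n + 1)).card ≤ (univ : Finset (Fin n)).card := by
      refine card_le_card_of_injOn v (fun i _ => mem_univ _) ?_
      intro i hi j hj hij
      exact h.2.1 i (Nat.lt_succ_iff.1 (mem_range.1 (mem_coe.1 hi))) j
        (Nat.lt_succ_iff.1 (mem_range.1 (mem_coe.1 hj))) hij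
    rw [card_range, card_univ, Fintype.card_fin] at h1
    omega
  obtain ⟨e', he', ⟨i', hi', hj'⟩, hc'⟩ := lp_end hr hS hp
  obtain ⟨e, he, ⟨i, hi, hj⟩, hc⟩ := lp_end hr hS (lp_rev hp)
  simp only [Nat.sub_self] at hj
  have hr1 : 1 ≤ r := by
    by_contra hcon
    have h0 : r = 0 := by omega
    subst h0
    have h1 : i' = 0 := by omega
    subst h1
    exact lp_ne hj' rfl
  have hc2 : ∀ j < r, c j ≠ e := by
    intro j hj
    have := hc (r - 1 - j) (by omega)
    have e1 : r - 1 - (r - 1 - j) = j := by omega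
    simpa only [e1] using this
  have hee : e = e' := by
    by_contra hne
    exact hbic ⟨r, v, c, e, e', hp, he, he', hne, fun j hj => ⟨hc2 j hj, hc' j hj⟩,
      ⟨r - i, Nat.sub_le r i, hj⟩, ⟨i', hi', hj'⟩⟩
  have hv0r : v 0 ≠ v r := fun h => by
    have := hp.2.1 0 (Nat.zero_le r) r le_rfl h
    omega
  have hjoin : Joins e (v 0) (v r) := by
    rw [← hee] at hj'
    rcases lp_pair hj hj' with ⟨h1, _⟩ | ⟨_, h1⟩
    · exact absurd h1 hv0r
    · rw [← h1]
      exact hj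
  refine ⟨r, v, c, e, hr1, hp, he, hjoin, hc2, ?_⟩
  intro f hf i hi hfi
  by_contra hcon
  push Not at hcon
  obtain ⟨hfe, hfc⟩ := hcon
  obtain ⟨w, hw⟩ := lp_exists hfi
  have hq := lp_rot hp he hjoin (i + 1)
  have hlast : lp_v r v (i + 1 + r) = v i := by
    unfold lp_v
    have h1 : (i + 1 + r) % (r + 1) = i := by
      rw [show i + 1 + r = i + (r + 1) by omega, Nat.add_mod_right]
      exact Nat.mod_eq_of_lt (by omega)
    rw [h1]
  have hw' : Joins f (lp_v r v (i + 1 + r)) w := by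
    rw [hlast]
    exact hw
  obtain ⟨j, hj2, hwj⟩ := lp_prolong hr hq hf hw'
  have hf' : ∀ a, lp_c r c e a ≠ f := by
    intro a ha
    unfold lp_c at ha
    by_cases h1 : a % (r + 1) = r
    · rw [if_pos h1] at ha
      exact hfe ha.symm
    · rw [if_neg h1] at ha
      have h2 : a % (r + 1) < r + 1 := Nat.mod_lt _ (Nat.succ_pos r)
      exact hfc _ (by omega) ha.symm
  have hci : lp_c r c e i ∈ inn F S := by
    obtain ⟨h1, h2⟩ := lp_cyc_joins hp he hjoin i
    have h3 : lp_v r v i ∈ S := hp.1 _ (Nat.lt_succ_iff.1 (Nat.mod_lt _ (Nat.succ_pos r)))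
    have h4 : lp_v r v (i + 1) ∈ S := hp.1 _ (Nat.lt_succ_iff.1 (Nat.mod_lt _ (Nat.succ_pos r)))
    refine mem_filter.2 ⟨h1, ?_⟩
    rcases h2 with ⟨h5, h6⟩ | ⟨h5, h6⟩
    · rw [h5, h6]
      exact ⟨h3, h4⟩
    · rw [h5, h6]
      exact ⟨h4, h3⟩
  refine hbic ⟨r, _, _, lp_c r c e i, f, hq, hci, hf, hf' i, fun a ha => ⟨?_, hf' _⟩,
    ⟨r, le_rfl, ?_⟩, ⟨j, hj2, ?_⟩⟩
  · intro h1
    have h2 := lp_cyc_inj hp hc2 h1
    have h3 : (i + 1 + a) % (r + 1) = (i + (r + 1)) % (r + 1) := by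
      rw [h2, Nat.add_mod_right]
    have h4 : (i + 1 + a) % (r + 1) = (i + 1 + r) % (r + 1) := by
      rw [h3]
      congr 1
      omega
    have := lp_mod_inj ha.le le_rfl h4
    omega
  · have h1 := (lp_cyc_joins hp he hjoin i).2
    show Joins (lp_c r c e i) (lp_v r v (i + 1 + 0)) (lp_v r v (i + 1 + r))
    rw [hlast, Nat.add_zero]
    have h2 : lp_v r v i = v i := by
      unfold lp_v
      rw [Nat.mod_eq_of_lt (by omega)]
    rw [h2] at h1
    exact lp_symm h1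
  · show Joins f (lp_v r v (i + 1 + r)) (lp_v r v (i + 1 + j))
    rw [← hwj]
    exact hw'

end Pool.Agent.R2
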