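import Mathlib
import Pool.Agent.R2.Lin

/-!
# R2 [Lf]: elimination of a variable with at most one clause
-/

namespace Pool.Agent.R2

open Finset Pool.Agent.Helper56.Iso Pool.Agent.Dichotomy Filter Topology

theorem lf_add {ι : Type} {k : ℕ} {𝓛 : Set (Set (ι → ZMod 2))} {S : Set (ι → ZMod 2)}
    (h : DReach k 𝓛) (hS : DGood 𝓛 S) : DReach (k + 1) (insert S 𝓛) := by
  obtain ⟨L, hL, hm, hl⟩ := h
  refine ⟨S :: L, ⟨?_, hL⟩, ?_, ?_⟩
  · rcases hS with h | ⟨T, hT, T', hT', h1, h2⟩ | ⟨T, hT, T', hT', h1, h2⟩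
    · exact Or.inl h
    · exact Or.inr (Or.inl ⟨T, hm T hT, T', hm T' hT', h1, h2⟩)
    · exact Or.inr (Or.inr ⟨T, hm T hT, T', hm T' hT', h1, h2⟩)
  · intro T hT
    rcases hT with rfl | hT
    · exact List.mem_cons_self
    · exact List.mem_cons_of_mem _ (hm T hT)
  · rw [List.length_cons]
    omega

theorem lf_mono {ι : Type} {k k' : ℕ} {𝓛 : Set (Set (ι → ZMod 2))} (h : DReach k 𝓛)
    (hk : k ≤ k') : DReach k' 𝓛 := by
  obtain ⟨L, hL, hm, hl⟩ := h
  exact ⟨L, hL, hm, hl.trans hk⟩

theorem lf_two (a : ZMod 2) : a = 0 ∨ a = 1 := by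
  revert a
  decide

theorem lf_ne {a b : ZMod 2} (h : a ≠ b) : a = b + 1 := by
  revert a b
  decide

theorem lf_ne_add (b : ZMod 2) : b + 1 ≠ b := by
  revert b
  decide

theorem lf_inn {n : ℕ} {F : Finset (Cl n)} {S : Finset (Fin n)} {v : Fin n} {e : Cl n} :
    e ∈ inn F (S.erase v) ↔ e ∈ inn F S ∧ e.1.1.1 ≠ v ∧ e.1.2.1 ≠ v := by
  unfold inn
  rw [mem_filter, mem_filter, mem_erase, mem_erase]
  constructor
  · rintro ⟨h1, ⟨h2, h3⟩, h4, h5⟩
    exact ⟨⟨h1, h3, h5⟩, h2, h4⟩
  · rintro ⟨⟨h1, h3, h5⟩, h2, h4⟩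
    exact ⟨h1, ⟨h2, h3⟩, h4, h5⟩

section

variable {n : ℕ} {F : Finset (Cl n)} {S : Finset (Fin n)}
    {A : Fin n → ZMod 2 → Set (Fin n → ZMod 2)} {G : Set (Fin n → ZMod 2)}
    {B : Fin n → Finset (Fin n)} {B0 : Finset (Fin n)}

theorem lf_zero_of (h : Stt F S A G B B0) {v : Fin n} (hv : v ∈ S) {y : Fin n → ZMod 2}
    (hy : y ∈ A v 0 ∪ A v 1) {w : Fin n} (hw : w ∉ B v) : y w = 0 := by
  rcases hy with hy | hy
  · exact (h.val v hv _ y hy).2 w hw
  · exact (h.val v hv _ y hy).2 w hw

theorem lf_union (h : Stt F S A G B B0) {v : Fin n} (hv : v ∈ S) :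
    Disjoint (A v 0) (A v 1) := by
  rw [Set.disjoint_left]
  intro y h0 h1
  have h2 := (h.val v hv _ y h0).1
  have h3 := (h.val v hv _ y h1).1
  rw [h2] at h3
  exact zero_ne_one h3

theorem lf_case0 (h : Stt F S A G B B0) {v : Fin n} (hv : v ∈ S) (h0 : inc F S v = ∅) :
    Stt F (S.erase v) A {z | ∃ x ∈ G, ∃ y ∈ A v 0 ∪ A v 1, z = x + y} B (B0 ∪ B v) := by
  refine ⟨fun u hu => h.mem u (mem_of_mem_erase hu), fun u hu => h.val u (mem_of_mem_erase hu),
    fun u hu w hw => h.disj u (mem_of_mem_erase hu) w (mem_of_mem_erase hw),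
    fun u hu => disjoint_union_right.2 ⟨h.disj0 u (mem_of_mem_erase hu),
      h.disj u (mem_of_mem_erase hu) v hv (ne_of_mem_erase hu)⟩, ?_, ?_⟩
  · rintro _ ⟨x, hx, y, hy, rfl⟩ w hw
    rw [mem_union, not_or] at hw
    rw [Pi.add_apply, h.val0 x hx w hw.1, lf_zero_of h hv hy hw.2, add_zero]
  · intro z
    rw [h.sol z]
    have hE : ∀ e ∈ inn F S, e.1.1.1 ≠ v ∧ e.1.2.1 ≠ v := by
      intro e he
      have h1 : e ∉ inc F S v := by
        rw [h0]
        exact notMem_empty e
      unfold inc at h1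
      rw [mem_filter, not_and, not_or] at h1
      exact h1 he
    constructor
    · rintro ⟨x, hx, g, hg, m, hm, rfl⟩
      refine ⟨x, fun e he => hx e (lf_inn.1 he).1, g + m v, ⟨g, hg, m v, ?_, rfl⟩, m,
        fun u hu => hm u (mem_of_mem_erase hu), ?_⟩
      · have h1 := hm v hv
        rcases lf_two (x v) with h2 | h2
        · rw [h2] at h1
          exact Or.inl h1
        · rw [h2] at h1
          exact Or.inr h1
      · rw [← add_sum_erase S m hv, add_assoc]
    · rintro ⟨x, hx, _, ⟨g, hg, y, hy, rfl⟩, m, hm, rfl⟩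
      have hya : ∃ a : ZMod 2, y ∈ A v a := by
        rcases hy with hy | hy
        · exact ⟨0, hy⟩
        · exact ⟨1, hy⟩
      obtain ⟨a, hya⟩ := hya
      refine ⟨Function.update x v a, ?_, g, hg, Function.update m v y, ?_, ?_⟩
      · intro e he
        have h1 := hE e he
        rw [Function.update_of_ne h1.1, Function.update_of_ne h1.2]
        exact hx e (lf_inn.2 ⟨he, h1⟩)
      · intro u hu
        by_cases huv : u = v
        · subst huv
          rw [Function.update_self, Function.update_self]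
          exact hya
        · rw [Function.update_of_ne huv, Function.update_of_ne huv]
          exact hm u (mem_erase.2 ⟨huv, hu⟩)
      · rw [← add_sum_erase S _ hv, Function.update_self, add_assoc]
        congr 2
        apply sum_congr rfl
        intro u hu
        rw [Function.update_of_ne (ne_of_mem_erase hu)]

open Classical in
/-- The sets which are added at `w`. -/
noncomputable def lf_X (A : Fin n → ZMod 2 → Set (Fin n → ZMod 2)) (v : Fin n) (a0 b0 b : ZMod 2) :
    Set (Fin n → ZMod 2) :=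
  if b = b0 then A v (a0 + 1) else A v 0 ∪ A v 1

theorem lf_X_sub {v : Fin n} {a0 b0 b : ZMod 2} {y : Fin n → ZMod 2} (hy : y ∈ lf_X A v a0 b0 b) :
    ∃ a, y ∈ A v a ∧ ¬ (a = a0 ∧ b = b0) := by
  unfold lf_X at hy
  by_cases hb : b = b0
  · rw [if_pos hb] at hy
    exact ⟨a0 + 1, hy, fun h => lf_ne_add a0 h.1⟩
  · rw [if_neg hb] at hy
    rcases hy with hy | hy
    · exact ⟨0, hy, fun h => hb h.2⟩
    · exact ⟨1, hy, fun h => hb h.2⟩

theorem lf_X_of {v : Fin n} {a0 b0 a b : ZMod 2} {y : Fin n → ZMod 2} (hy : y ∈ A v a)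
    (hab : ¬ (a = a0 ∧ b = b0)) : y ∈ lf_X A v a0 b0 b := by
  unfold lf_X
  by_cases hb : b = b0
  · rw [if_pos hb]
    have h1 : a ≠ a0 := fun h => hab ⟨h, hb⟩
    rw [lf_ne h1] at hy
    exact hy
  · rw [if_neg hb]
    rcases lf_two a with h1 | h1
    · rw [h1] at hy
      exact Or.inl hy
    · rw [h1] at hy
      exact Or.inr hy

/-- The new sets. -/
noncomputable def lf_A (A : Fin n → ZMod 2 → Set (Fin n → ZMod 2)) (v w : Fin n) (a0 b0 : ZMod 2) :
    Fin n → ZMod 2 → Set (Fin n → ZMod 2) :=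
  Function.update A w fun b => {z | ∃ x ∈ A w b, ∃ y ∈ lf_X A v a0 b0 b, z = x + y}

theorem lf_case1 (h : Stt F S A G B B0) {v w : Fin n} (hv : v ∈ S) (hw : w ∈ S) (hvw : v ≠ w)
    {e0 : Cl n} (he0 : e0 ∈ inn F S) {a0 b0 : ZMod 2}
    (hsat : ∀ x : Fin n → ZMod 2, (x e0.1.1.1 = e0.1.1.2 ∧ x e0.1.2.1 = e0.1.2.2) ↔
      (x v = a0 ∧ x w = b0))
    (hE : ∀ e ∈ inn F S, e ≠ e0 → e.1.1.1 ≠ v ∧ e.1.2.1 ≠ v) :
    Stt F (S.erase v) (lf_A A v w a0 b0) G (Function.update B w (B w ∪ B v)) B0 := by
  have hwS : w ∈ S.erase v := mem_erase.2 ⟨fun h => hvw h.symm, hw⟩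
  have hXz : ∀ b, ∀ y ∈ lf_X A v a0 b0 b, ∀ i ∉ B v, y i = 0 := by
    intro b y hy i hi
    obtain ⟨a, ha, -⟩ := lf_X_sub hy
    exact (h.val v hv a y ha).2 i hi
  have hwv : w ∉ B v := by
    intro h1
    exact disjoint_left.1 (h.disj v hv w hw hvw) h1 (h.mem w hw)
  refine ⟨?_, ?_, ?_, ?_, h.val0, ?_⟩
  · intro u hu
    by_cases huw : u = w
    · subst huw
      rw [Function.update_self]
      exact mem_union_left _ (h.mem u hw)
    · rw [Function.update_of_ne huw]
      exact h.mem u (mem_of_mem_erase hu)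
  · intro u hu a y hy
    by_cases huw : u = w
    · subst huw
      unfold lf_A at hy
      rw [Function.update_self] at hy ⊢
      obtain ⟨y1, hy1, y2, hy2, rfl⟩ := hy
      obtain ⟨h1, h2⟩ := h.val u hw a y1 hy1
      refine ⟨?_, fun i hi => ?_⟩
      · rw [Pi.add_apply, h1, hXz _ _ hy2 u hwv, add_zero]
      · rw [mem_union, not_or] at hi
        rw [Pi.add_apply, h2 i hi.1, hXz _ _ hy2 i hi.2, add_zero]
    · unfold lf_A at hy
      rw [Function.update_of_ne huw] at hy ⊢
      exact h.val u (mem_of_mem_erase hu) a y hy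
  · intro u hu u' hu' hne
    have hu1 := mem_of_mem_erase hu
    have hu1' := mem_of_mem_erase hu'
    by_cases huw : u = w
    · subst huw
      rw [Function.update_self, Function.update_of_ne (fun h => hne h.symm)]
      exact disjoint_union_left.2 ⟨h.disj _ hu1 _ hu1' hne,
        h.disj _ hv _ hu1' (fun h => ne_of_mem_erase hu' h.symm)⟩
    · rw [Function.update_of_ne huw]
      by_cases huw' : u' = w
      · subst huw'
        rw [Function.update_self]
        exact disjoint_union_right.2 ⟨h.disj _ hu1 _ hu1' hne,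
          h.disj _ hu1 _ hv (ne_of_mem_erase hu)⟩
      · rw [Function.update_of_ne huw']
        exact h.disj _ hu1 _ hu1' hne
  · intro u hu
    by_cases huw : u = w
    · subst huw
      rw [Function.update_self]
      exact disjoint_union_left.2 ⟨h.disj0 u hw, h.disj0 v hv⟩
    · rw [Function.update_of_ne huw]
      exact h.disj0 u (mem_of_mem_erase hu)
  · intro z
    rw [h.sol z]
    constructor
    · rintro ⟨x, hx, g, hg, m, hm, rfl⟩
      refine ⟨x, fun e he => hx e (lf_inn.1 he).1, g, hg, Function.update m w (m w + m v), ?_, ?_⟩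
      · intro u hu
        by_cases huw : u = w
        · subst huw
          unfold lf_A
          rw [Function.update_self, Function.update_self]
          refine ⟨m u, hm u hw, m v, lf_X_of (hm v hv) ?_, rfl⟩
          rw [← hsat x]
          exact hx e0 he0
        · unfold lf_A
          rw [Function.update_of_ne huw, Function.update_of_ne huw]
          exact hm u (mem_of_mem_erase hu)
      · rw [← add_sum_erase S m hv, ← add_sum_erase (S.erase v) m hwS,
          ← add_sum_erase (S.erase v) _ hwS, Function.update_self]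
        have h1 : ∑ u ∈ (S.erase v).erase w, Function.update m w (m w + m v) u =
            ∑ u ∈ (S.erase v).erase w, m u := by
          apply sum_congr rfl
          intro u hu
          rw [Function.update_of_ne (ne_of_mem_erase hu)]
        rw [h1]
        abel
    · rintro ⟨x, hx, g, hg, m, hm, rfl⟩
      have h1 := hm w hwS
      unfold lf_A at h1
      rw [Function.update_self] at h1
      obtain ⟨y1, hy1, y2, hy2, hy⟩ := h1
      obtain ⟨a, ha, hab⟩ := lf_X_sub hy2
      refine ⟨Function.update x v a, ?_, g, hg, Function.update (Function.update m w y1) v y2,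
        ?_, ?_⟩
      · intro e he
        by_cases hee : e = e0
        · rw [hee, hsat, Function.update_self, Function.update_of_ne (fun h => hvw h.symm)]
          exact hab
        · have h2 := hE e he hee
          rw [Function.update_of_ne h2.1, Function.update_of_ne h2.2]
          exact hx e (lf_inn.2 ⟨he, h2⟩)
      · intro u hu
        by_cases huv : u = v
        · subst huv
          rw [Function.update_self, Function.update_self]
          exact ha
        · rw [Function.update_of_ne huv, Function.update_of_ne huv]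
          by_cases huw : u = w
          · subst huw
            rw [Function.update_self]
            exact hy1
          · rw [Function.update_of_ne huw]
            have h3 := hm u (mem_erase.2 ⟨huv, hu⟩)
            unfold lf_A at h3
            rw [Function.update_of_ne huw] at h3
            exact h3
      · rw [← add_sum_erase S _ hv, ← add_sum_erase (S.erase v) _ hwS,
          ← add_sum_erase (S.erase v) _ hwS, Function.update_self,
          Function.update_of_ne (fun h => hvw h.symm), Function.update_self, hy]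
        have h1 : ∑ u ∈ (S.erase v).erase w, Function.update (Function.update m w y1) v y2 u =
            ∑ u ∈ (S.erase v).erase w, m u := by
          apply sum_congr rfl
          intro u hu
          rw [Function.update_of_ne (ne_of_mem_erase (mem_of_mem_erase hu)),
            Function.update_of_ne (ne_of_mem_erase hu)]
        rw [h1]
        abel

end

/-- see `St_Lf` -/
theorem thm_Lf : St_Lf := by
  classical
  intro n F S A G B B0 k 𝓛 h hk hA hG v hv hc
  have hU : DReach (k + 1) (insert (A v 0 ∪ A v 1) 𝓛) :=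
    lf_add hk (Or.inr (Or.inl ⟨A v 0, hA v hv 0, A v 1, hA v hv 1, lf_union h hv, rfl⟩))
  rcases Nat.le_one_iff_eq_zero_or_eq_one.1 hc with hc | hc
  · rw [card_eq_zero] at hc
    have hGd : DGood (insert (A v 0 ∪ A v 1) 𝓛)
        {z | ∃ x ∈ G, ∃ y ∈ A v 0 ∪ A v 1, z = x + y} := by
      refine Or.inr (Or.inr ⟨G, Or.inr hG, A v 0 ∪ A v 1, Or.inl rfl, ⟨(B0 : Set (Fin n)), ?_, ?_⟩,
        rfl⟩)
      · intro x hx i hi
        exact h.val0 x hx i (fun h => hi (mem_coe.2 h))
      · intro y hy i hi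
        exact lf_zero_of h hv hy (fun h1 => disjoint_left.1 (h.disj0 v hv) h1 (mem_coe.1 hi))
    refine ⟨A, _, B, _, _, lf_case0 h hv hc, lf_mono (lf_add hU hGd) (by omega), ?_, Or.inl rfl⟩
    intro w hw a
    exact Or.inr (Or.inr (hA w (mem_of_mem_erase hw) a))
  · obtain ⟨e0, he0⟩ := card_eq_one.1 hc
    have hmem : e0 ∈ inc F S v := by
      rw [he0]
      exact mem_singleton_self _
    unfold inc at hmem
    rw [mem_filter] at hmem
    obtain ⟨hin, hor⟩ := hmem
    have hin' := hin
    unfold inn at hin'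
    rw [mem_filter] at hin'
    have hE : ∀ e ∈ inn F S, e ≠ e0 → e.1.1.1 ≠ v ∧ e.1.2.1 ≠ v := by
      intro e he hne
      have h1 : e ∉ inc F S v := by
        rw [he0, mem_singleton]
        exact hne
      unfold inc at h1
      rw [mem_filter, not_and, not_or] at h1
      exact h1 he
    have hex : ∃ (w : Fin n) (a0 b0 : ZMod 2), w ∈ S ∧ v ≠ w ∧ ∀ x : Fin n → ZMod 2,
        (x e0.1.1.1 = e0.1.1.2 ∧ x e0.1.2.1 = e0.1.2.2) ↔ (x v = a0 ∧ x w = b0) := by
      rcases hor with h1 | h1
      · refine ⟨e0.1.2.1, e0.1.1.2, e0.1.2.2, hin'.2.2, ?_, fun x => ?_⟩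
        · rw [← h1]
          exact ne_of_lt e0.2
        · rw [h1]
      · refine ⟨e0.1.1.1, e0.1.2.2, e0.1.1.2, hin'.2.1, ?_, fun x => ?_⟩
        · rw [← h1]
          exact (ne_of_lt e0.2).symm
        · rw [h1]
          exact and_comm
    obtain ⟨w, a0, b0, hw, hvw, hsat⟩ := hex
    have hXd : ∀ b, lf_X A v a0 b0 b ∈ insert (A v 0 ∪ A v 1) 𝓛 := by
      intro b
      unfold lf_X
      by_cases hb : b = b0
      · rw [if_pos hb]
        exact Or.inr (hA v hv _)
      · rw [if_neg hb]
        exact Or.inl rfl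
    have hgood : ∀ b, DGood (insert (A v 0 ∪ A v 1) 𝓛)
        {z | ∃ x ∈ A w b, ∃ y ∈ lf_X A v a0 b0 b, z = x + y} := by
      intro b
      refine Or.inr (Or.inr ⟨A w b, Or.inr (hA w hw b), lf_X A v a0 b0 b, hXd b,
        ⟨(B w : Set (Fin n)), ?_, ?_⟩, rfl⟩)
      · intro x hx i hi
        exact (h.val w hw b x hx).2 i (fun h => hi (mem_coe.2 h))
      · intro y hy i hi
        obtain ⟨a, ha, -⟩ := lf_X_sub hy
        exact (h.val v hv a y ha).2 i
          (fun h1 => disjoint_left.1 (h.disj v hv w hw hvw) h1 (mem_coe.1 hi))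
    have hmonoG : ∀ (𝓛1 𝓛2 : Set (Set (Fin n → ZMod 2))) (T : Set (Fin n → ZMod 2)), 𝓛1 ⊆ 𝓛2 →
        DGood 𝓛1 T → DGood 𝓛2 T := by
      intro 𝓛1 𝓛2 T hsub hT
      rcases hT with h | ⟨T, hT, T', hT', h1, h2⟩ | ⟨T, hT, T', hT', h1, h2⟩
      · exact Or.inl h
      · exact Or.inr (Or.inl ⟨T, hsub hT, T', hsub hT', h1, h2⟩)
      · exact Or.inr (Or.inr ⟨T, hsub hT, T', hsub hT', h1, h2⟩)
    have h3 := lf_add (lf_add hU (hgood 0)) (hmonoG _ _ _ (Set.subset_insert _ _) (hgood 1))
    refine ⟨lf_A A v w a0 b0, G, _, B0, _, lf_case1 h hv hw hvw hin hsat hE, h3, ?_,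
      Or.inr (Or.inr (Or.inr hG))⟩
    intro u hu a
    unfold lf_A
    by_cases huw : u = w
    · subst huw
      rw [Function.update_self]
      rcases lf_two a with rfl | rfl
      · exact Or.inr (Or.inl rfl)
      · exact Or.inl rfl
    · rw [Function.update_of_ne huw]
      exact Or.inr (Or.inr (Or.inr (hA u (mem_of_mem_erase hu) a)))

end Pool.Agent.R2
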