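import Mathlib
import Pool.Agent.R2.Lin

/-!
# Random 2-CNF formulas: the program of linear size
-/

namespace Pool.Agent.R2

open Finset Pool.Agent.Helper56.Iso Pool.Agent.Dichotomy Filter Topology

private lemma lind_gbic_mono {n : ℕ} {F : Finset (Cl n)} {S S' : Finset (Fin n)} (hSS : S' ⊆ S)
    (h : ¬ ∃ (r : ℕ) (v : ℕ → Fin n) (c : ℕ → Cl n) (e e' : Cl n), IsGBic F S r v c e e') :
    ¬ ∃ (r : ℕ) (v : ℕ → Fin n) (c : ℕ → Cl n) (e e' : Cl n), IsGBic F S' r v c e e' := by
  rintro ⟨r, v, c, e, e', h1, h2, h3, h4, h5, h6, h7⟩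
  have hinn : ∀ f, f ∈ inn F S' → f ∈ inn F S := by
    intro f hf
    unfold inn at hf ⊢
    rw [mem_filter] at hf ⊢
    exact ⟨hf.1, hSS hf.2.1, hSS hf.2.2⟩
  exact h ⟨r, v, c, e, e', ⟨fun i hi => hSS (h1.1 i hi), h1.2.1, h1.2.2⟩, hinn e h2,
    hinn e' h3, h4, h5, h6, h7⟩

private lemma lind_empty {n : ℕ} {F : Finset (Cl n)}
    {A : Fin n → ZMod 2 → Set (Fin n → ZMod 2)} {G : Set (Fin n → ZMod 2)}
    {B : Fin n → Finset (Fin n)} {B0 : Finset (Fin n)} (h : Stt F ∅ A G B B0) : SOL F = G := by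
  ext z
  rw [h.sol z]
  constructor
  · rintro ⟨x, _, g, hg, m, _, hz⟩
    rw [Finset.sum_empty, add_zero] at hz
    rw [hz]
    exact hg
  · intro hz
    refine ⟨0, ?_, z, hz, 0, ?_, ?_⟩
    · intro e he
      unfold inn at he
      rw [mem_filter] at he
      exact absurd he.2.1 (Finset.notMem_empty _)
    · intro v hv
      exact absurd hv (Finset.notMem_empty _)
    · rw [Finset.sum_empty, add_zero]

private lemma lind_main (hDR : St_DR) (hLf : St_Lf) (hCyS : St_CyS) (hLP : St_LP) {n : ℕ}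
    (F : Finset (Cl n)) (N : ℕ) : ∀ (S : Finset (Fin n)), S.card ≤ N →
    ∀ (A : Fin n → ZMod 2 → Set (Fin n → ZMod 2)) (G : Set (Fin n → ZMod 2))
      (B : Fin n → Finset (Fin n)) (B0 : Finset (Fin n)) (k : ℕ)
      (𝓛 : Set (Set (Fin n → ZMod 2))), Stt F S A G B B0 → DReach k 𝓛 →
    (∀ v ∈ S, ∀ a, A v a ∈ 𝓛) → G ∈ 𝓛 →
    (¬ ∃ (r : ℕ) (v : ℕ → Fin n) (c : ℕ → Cl n) (e e' : Cl n), IsGBic F S r v c e e') →
    DReach (k + 8 * S.card) {SOL F} := by
  classical
  induction N with
  | zero =>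
    intro S hS A G B B0 k 𝓛 hst hk hA hG _
    have hS0 : S = ∅ := Finset.card_eq_zero.1 (by omega)
    subst hS0
    rw [lind_empty hst]
    exact hDR.2.2.1 k _ 𝓛 {G} hk (by omega) (Set.singleton_subset_iff.2 hG)
  | succ N ih =>
    intro S hS A G B B0 k 𝓛 hst hk hA hG hno
    rcases S.eq_empty_or_nonempty with hS0 | hSne
    · subst hS0
      rw [lind_empty hst]
      exact hDR.2.2.1 k _ 𝓛 {G} hk (by omega) (Set.singleton_subset_iff.2 hG)
    by_cases hdeg : ∀ v ∈ S, 2 ≤ (inc F S v).card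
    · obtain ⟨r, v, c, e, hr, hpath, he, hj, hce, hf⟩ := hLP F S hSne hno hdeg
      obtain ⟨G', B0', 𝓛', h1, h2, h3, h4⟩ :=
        hCyS F S A G B B0 k 𝓛 hst hk hA hG r v c e hr hpath he hj hce hf
      have hsub : (range (r + 1)).image v ⊆ S := by
        intro w hw
        rw [mem_image] at hw
        obtain ⟨i, hi, rfl⟩ := hw
        rw [mem_range] at hi
        exact hpath.1 i (by omega)
      have hcard : ((range (r + 1)).image v).card = r + 1 := by
        rw [card_image_of_injOn, card_range]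
        intro i hi j hj' hij
        rw [mem_coe, mem_range] at hi hj'
        exact hpath.2.1 i (by omega) j (by omega) hij
      have hcS : (S \ (range (r + 1)).image v).card + (r + 1) = S.card := by
        have e0 := card_sdiff_add_card_eq_card hsub
        rwa [hcard] at e0
      have h5 := ih (S \ (range (r + 1)).image v) (by omega) A G' B B0' _ 𝓛' h1 h2 h3 h4
        (lind_gbic_mono sdiff_subset hno)
      have e1 : k + 8 * (r + 1) + 8 * (S \ (range (r + 1)).image v).card = k + 8 * S.card := by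
        omega
      rwa [e1] at h5
    · push Not at hdeg
      obtain ⟨v, hv, hv2⟩ := hdeg
      obtain ⟨A', G', B', B0', 𝓛', h1, h2, h3, h4⟩ :=
        hLf F S A G B B0 k 𝓛 hst hk hA hG v hv (by omega)
      have hcS : (S.erase v).card + 1 = S.card := card_erase_add_one hv
      have h5 := ih (S.erase v) (by omega) A' G' B' B0' _ 𝓛' h1 h2 h3 h4
        (lind_gbic_mono (erase_subset _ _) hno)
      exact hDR.2.2.1 _ _ _ _ h5 (by omega) subset_rfl

private lemma lind_start (hDR : St_DR) (n : ℕ) (T : Finset (Fin n)) :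
    DReach (T.card + 1) ({({0} : Set (Fin n → ZMod 2))} ∪
      {S : Set (Fin n → ZMod 2) | ∃ v ∈ T, S = {Pi.single v 1}}) := by
  classical
  induction T using Finset.induction_on with
  | empty =>
    have h1 := hDR.1 0 ∅ ({0} : Set (Fin n → ZMod 2)) hDR.2.1 (Or.inl ⟨0, subset_rfl⟩)
    refine hDR.2.2.1 _ _ _ _ h1 (by simp) ?_
    rintro S (hS | ⟨v, hv, _⟩)
    · exact Or.inr hS
    · exact absurd hv (Finset.notMem_empty _)
  | insert v T hv ih =>
    have h1 := hDR.1 _ _ ({Pi.single v 1} : Set (Fin n → ZMod 2)) ih (Or.inl ⟨_, subset_rfl⟩)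
    refine hDR.2.2.1 _ _ _ _ h1 (by rw [card_insert_of_notMem hv]) ?_
    rintro S (hS | ⟨w, hw, hS⟩)
    · exact Or.inl (Or.inl hS)
    · rcases mem_insert.1 hw with rfl | hw
      · exact Or.inr hS
      · exact Or.inl (Or.inr ⟨w, hw, hS⟩)

private lemma lind_stt {n : ℕ} (F : Finset (Cl n)) :
    Stt F univ (fun v a => {Pi.single v a}) {0} (fun v => {v}) ∅ where
  mem v _ := mem_singleton_self v
  val v _ a y hy := by
    rw [Set.mem_singleton_iff] at hy
    subst hy
    constructor
    · exact Pi.single_eq_same (M := fun _ : Fin n => ZMod 2) v a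
    · intro w hw
      rw [mem_singleton] at hw
      exact Pi.single_eq_of_ne (M := fun _ : Fin n => ZMod 2) hw a
  disj v _ w _ hvw := disjoint_singleton.2 hvw
  disj0 v _ := disjoint_empty_right _
  val0 y hy w _ := by
    rw [Set.mem_singleton_iff] at hy
    subst hy
    rfl
  sol z := by
    have hsum : ∀ x : Fin n → ZMod 2, ∑ v, (Pi.single v (x v) : Fin n → ZMod 2) = x :=
      fun x => Finset.univ_sum_single x
    constructor
    · intro hz
      refine ⟨z, fun e he => ?_, 0, rfl, fun v => Pi.single v (z v), fun v _ => rfl, ?_⟩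
      · unfold inn at he
        rw [mem_filter] at he
        exact hz e he.1
      · rw [hsum, zero_add]
    · rintro ⟨x, hx, g, hg, m, hm, hz⟩
      rw [Set.mem_singleton_iff] at hg
      subst hg
      have hm' : ∀ v ∈ (univ : Finset (Fin n)), m v = Pi.single v (x v) := fun v hv => hm v hv
      rw [sum_congr rfl hm', hsum, zero_add] at hz
      subst hz
      intro e he
      refine hx e ?_
      unfold inn
      rw [mem_filter]
      exact ⟨he, mem_univ _, mem_univ _⟩

theorem thm_LinD (hDR : St_DR) (hLf : St_Lf) (hCyS : St_CyS) (hLP : St_LP) : St_LinD := by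
  intro n F hno
  have h1 := lind_start hDR n univ
  have h2 := lind_main hDR hLf hCyS hLP F (univ : Finset (Fin n)).card univ le_rfl _ _ _ _ _ _
    (lind_stt F) h1 (by
      intro v _ a
      have ha : a = 0 ∨ a = 1 := by
        revert a
        decide
      rcases ha with rfl | rfl
      · left
        rw [Set.mem_singleton_iff, Pi.single_zero]
      · right
        exact ⟨v, mem_univ v, rfl⟩) (Or.inl rfl) hno
  have h3 : (univ : Finset (Fin n)).card + 1 + 8 * (univ : Finset (Fin n)).card = 9 * n + 1 := by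
    rw [card_univ, Fintype.card_fin]
    omega
  rw [h3] at h2
  exact hDR.2.2.2 _ _ h2

end Pool.Agent.R2
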