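import Mathlib
import Pool.Agent.R2.Basic

/-!
# Pieces and sprinkling give the expansion property
-/

namespace Pool.Agent.R2

open Finset Pool.Agent.Helper56.Iso Pool.Agent.Dichotomy Filter Topology

theorem lnk_conn {n : ℕ} {F : Finset (Cl n)} {P P' : Finset (Fin n)} (hd : Disjoint P P')
    {Q : Finset (Fin n)} (hQ : Conn F Q)
    (h : ∀ e ∈ F, e.1.1.1 ∈ Q → e.1.2.1 ∈ Q →
      (e.1.1.1 ∈ P ∧ e.1.2.1 ∈ P) ∨ (e.1.1.1 ∈ P' ∧ e.1.2.1 ∈ P')) :
    Q.card = 1 ∨ Q ⊆ P ∨ Q ⊆ P' := by
  induction hQ with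
  | single v => exact Or.inl (Finset.card_singleton v)
  | grow Q u v hQ hu hv hadj ih =>
    right
    have key : (u ∈ P ∧ v ∈ P) ∨ (u ∈ P' ∧ v ∈ P') := by
      obtain ⟨a, b, e, he, h1 | h1⟩ := hadj
      · have e1 : e.1.1.1 = u := by rw [h1]
        have e2 : e.1.2.1 = v := by rw [h1]
        have h2 := h e he (by rw [e1]; exact Finset.mem_insert_of_mem hu)
          (by rw [e2]; exact Finset.mem_insert_self _ _)
        rw [e1, e2] at h2
        exact h2
      · have e1 : e.1.1.1 = v := by rw [h1]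
        have e2 : e.1.2.1 = u := by rw [h1]
        have h2 := h e he (by rw [e1]; exact Finset.mem_insert_self _ _)
          (by rw [e2]; exact Finset.mem_insert_of_mem hu)
        rw [e1, e2] at h2
        rcases h2 with h2 | h2
        · exact Or.inl ⟨h2.2, h2.1⟩
        · exact Or.inr ⟨h2.2, h2.1⟩
    have ih' := ih (fun e he h1 h2 => h e he (Finset.mem_insert_of_mem h1)
      (Finset.mem_insert_of_mem h2))
    rcases ih' with h3 | h3 | h3
    · obtain ⟨w, hw⟩ := Finset.card_eq_one.1 h3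
      have hwu : w = u := by
        rw [hw, Finset.mem_singleton] at hu
        exact hu.symm
      subst hwu
      rw [hw]
      rcases key with h4 | h4
      · left
        rw [Finset.insert_subset_iff, Finset.singleton_subset_iff]
        exact ⟨h4.2, h4.1⟩
      · right
        rw [Finset.insert_subset_iff, Finset.singleton_subset_iff]
        exact ⟨h4.2, h4.1⟩
    · rcases key with h4 | h4
      · exact Or.inl (Finset.insert_subset_iff.2 ⟨h4.2, h3⟩)
      · exact absurd h4.1 (Finset.disjoint_left.1 hd (h3 hu))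
    · rcases key with h4 | h4
      · exact absurd (h3 hu) (Finset.disjoint_left.1 hd h4.1)
      · exact Or.inr (Finset.insert_subset_iff.2 ⟨h4.2, h3⟩)

theorem lnk_disj {n : ℕ} (S S' : Finset (Fin n)) : Disjoint (S \ S') (S' \ S) := by
  rw [Finset.disjoint_left]
  intro v hv hv'
  exact (Finset.mem_sdiff.1 hv').2 (Finset.mem_sdiff.1 hv).1

theorem lnk_count {n L N : ℕ} {Q : Fin N → Finset (Fin n)} (hL : 2 ≤ L)
    (hc : ∀ i, (Q i).card = L) (hdis : ∀ i j, i ≠ j → Disjoint (Q i) (Q j)) {S T T' : Finset (Fin n)}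
    (hST' : Disjoint S T') {ε : ℝ}
    (hS : ε * ((univ.biUnion Q).card : ℝ) ≤ (S ∩ univ.biUnion Q).card)
    (hbad : ((univ.filter fun i => ¬ Q i ⊆ T ∧ ¬ Q i ⊆ T').card : ℝ) < ε / 2 * N) :
    ε / 2 * N ≤ ((univ.filter fun i => Q i ⊆ T).card : ℝ) := by
  have h1 : (univ.biUnion Q).card = N * L := by
    rw [Finset.card_biUnion (fun i _ j _ hij => hdis i j hij)]
    rw [Finset.sum_congr rfl (fun i _ => hc i), Finset.sum_const, Finset.card_univ,
      Fintype.card_fin, smul_eq_mul]
  have h2 : S ∩ univ.biUnion Q ⊆ ((univ.filter fun i => Q i ⊆ T) ∪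
      (univ.filter fun i => ¬ Q i ⊆ T ∧ ¬ Q i ⊆ T')).biUnion Q := by
    intro v hv
    rw [Finset.mem_inter, Finset.mem_biUnion] at hv
    obtain ⟨hvS, i, -, hi⟩ := hv
    rw [Finset.mem_biUnion]
    refine ⟨i, ?_, hi⟩
    rw [Finset.mem_union, Finset.mem_filter, Finset.mem_filter]
    by_cases h3 : Q i ⊆ T
    · exact Or.inl ⟨Finset.mem_univ _, h3⟩
    · right
      refine ⟨Finset.mem_univ _, h3, fun h4 => ?_⟩
      exact Finset.disjoint_left.1 hST' hvS (h4 hi)
  have h3 : (S ∩ univ.biUnion Q).card ≤ ((univ.filter fun i => Q i ⊆ T).card +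
      (univ.filter fun i => ¬ Q i ⊆ T ∧ ¬ Q i ⊆ T').card) * L := by
    refine (Finset.card_le_card h2).trans (Finset.card_biUnion_le.trans ?_)
    refine (Finset.sum_le_card_nsmul _ _ L (fun i _ => (hc i).le)).trans ?_
    rw [smul_eq_mul]
    exact Nat.mul_le_mul_right _ (Finset.card_union_le _ _)
  have hL' : (0 : ℝ) < L := by
    have : 0 < L := by omega
    exact_mod_cast this
  have h4 : ((S ∩ univ.biUnion Q).card : ℝ) ≤ (((univ.filter fun i => Q i ⊆ T).card : ℝ) +
      ((univ.filter fun i => ¬ Q i ⊆ T ∧ ¬ Q i ⊆ T').card : ℝ)) * L := by exact_mod_cast h3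
  have h5 : ε * N * L ≤ (((univ.filter fun i => Q i ⊆ T).card : ℝ) +
      ((univ.filter fun i => ¬ Q i ⊆ T ∧ ¬ Q i ⊆ T').card : ℝ)) * L := by
    refine le_trans (le_of_eq ?_) (hS.trans h4)
    rw [h1]
    push_cast
    ring
  have h6 := le_of_mul_le_mul_right h5 hL'
  linarith

theorem thm_Lnk : St_Lnk := by
  classical
  intro n F1 F2 L N Q ε ρ hL hε hP hspr hρ S S' hS hS'
  obtain ⟨hQ, hdis⟩ := hP
  have hd := lnk_disj S S'
  have hsub1 : cross F1 S S' ⊆ cross (F1 ∪ F2) S S' := by
    intro e he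
    rw [mem_cross] at he ⊢
    exact ⟨Finset.mem_union_left _ he.1, he.2⟩
  by_cases hbad : ((univ.filter fun i => ¬ Q i ⊆ S \ S' ∧ ¬ Q i ⊆ S' \ S).card : ℝ) < ε / 2 * N
  · -- many pieces of both types
    have hI := lnk_count (T := S \ S') (T' := S' \ S) hL (fun i => (hQ i).1) hdis
      (Finset.disjoint_sdiff) hS hbad
    have hbad' : ((univ.filter fun i => ¬ Q i ⊆ S' \ S ∧ ¬ Q i ⊆ S \ S').card : ℝ) <
        ε / 2 * N := by
      have : (univ.filter fun i => ¬ Q i ⊆ S' \ S ∧ ¬ Q i ⊆ S \ S') =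
          (univ.filter fun i => ¬ Q i ⊆ S \ S' ∧ ¬ Q i ⊆ S' \ S) := by
        apply Finset.filter_congr
        intro i _
        exact and_comm
      rw [this]
      exact hbad
    have hI' := lnk_count (T := S' \ S) (T' := S \ S') hL (fun i => (hQ i).1) hdis
      (Finset.disjoint_sdiff) hS' hbad'
    have hII : Disjoint (univ.filter fun i => Q i ⊆ S \ S') (univ.filter fun i => Q i ⊆ S' \ S) := by
      rw [Finset.disjoint_left]
      intro i hi hi'
      have h1 := (Finset.mem_filter.1 hi).2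
      have h2 := (Finset.mem_filter.1 hi').2
      have h3 : (Q i).Nonempty := by
        rw [← Finset.card_pos, (hQ i).1]
        omega
      obtain ⟨v, hv⟩ := h3
      exact Finset.disjoint_left.1 hd (h1 hv) (h2 hv)
    have h4 := hspr _ _ hII hI hI'
    refine h4.trans ?_
    have h5 : betw F2 ((univ.filter fun i => Q i ⊆ S \ S').biUnion Q)
        ((univ.filter fun i => Q i ⊆ S' \ S).biUnion Q) ⊆ cross (F1 ∪ F2) S S' := by
      intro e he
      rw [mem_betw] at he
      rw [mem_cross]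
      have hA : ∀ v, v ∈ (univ.filter fun i => Q i ⊆ S \ S').biUnion Q → v ∈ S \ S' := by
        intro v hv
        obtain ⟨i, hi, hvi⟩ := Finset.mem_biUnion.1 hv
        exact (Finset.mem_filter.1 hi).2 hvi
      have hB : ∀ v, v ∈ (univ.filter fun i => Q i ⊆ S' \ S).biUnion Q → v ∈ S' \ S := by
        intro v hv
        obtain ⟨i, hi, hvi⟩ := Finset.mem_biUnion.1 hv
        exact (Finset.mem_filter.1 hi).2 hvi
      refine ⟨Finset.mem_union_right _ he.1, ?_⟩
      rcases he.2 with h6 | h6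
      · have a1 := hA _ h6.1
        have a2 := hB _ h6.2
        exact ⟨fun h => Finset.disjoint_left.1 hd h.2 a2,
          fun h => Finset.disjoint_left.1 hd a1 h.1⟩
      · have a1 := hB _ h6.1
        have a2 := hA _ h6.2
        exact ⟨fun h => Finset.disjoint_left.1 hd h.1 a1,
          fun h => Finset.disjoint_left.1 hd a2 h.2⟩
    exact_mod_cast Finset.card_le_card h5
  · -- many mixed pieces
    push Not at hbad
    have hex : ∀ i ∈ (univ.filter fun i => ¬ Q i ⊆ S \ S' ∧ ¬ Q i ⊆ S' \ S),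
        ∃ e ∈ cross F1 S S', e.1.1.1 ∈ Q i := by
      intro i hi
      have h1 := (Finset.mem_filter.1 hi).2
      by_contra hcon
      push Not at hcon
      have h2 := lnk_conn hd (hQ i).2 (fun e he h3 h4 => by
        by_contra h5
        rw [not_or] at h5
        exact hcon e (mem_cross.2 ⟨he, h5.1, h5.2⟩) h3)
      rcases h2 with h2 | h2 | h2
      · rw [(hQ i).1] at h2
        omega
      · exact h1.1 h2
      · exact h1.2 h2
    have hcard : (univ.filter fun i => ¬ Q i ⊆ S \ S' ∧ ¬ Q i ⊆ S' \ S).card ≤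
        (cross F1 S S').card := by
      rcases (univ.filter fun i => ¬ Q i ⊆ S \ S' ∧ ¬ Q i ⊆ S' \ S).eq_empty_or_nonempty with
        h0 | ⟨i0, hi0⟩
      · rw [h0, Finset.card_empty]
        exact Nat.zero_le _
      · obtain ⟨e0, -, -⟩ := hex i0 hi0
        have : Nonempty (Cl n) := ⟨e0⟩
        choose! f hf1 hf2 using hex
        apply Finset.card_le_card_of_injOn f (fun i hi => hf1 i hi)
        intro i hi j hj hij
        by_contra hne
        have h1 := hf2 i hi
        have h2 := hf2 j hj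
        rw [hij] at h1
        exact Finset.disjoint_left.1 (hdis i j hne) h1 h2
    have h7 : ((univ.filter fun i => ¬ Q i ⊆ S \ S' ∧ ¬ Q i ⊆ S' \ S).card : ℝ) ≤
        ((cross (F1 ∪ F2) S S').card : ℝ) := by
      exact_mod_cast hcard.trans (Finset.card_le_card hsub1)
    linarith

end Pool.Agent.R2
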