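import Mathlib
import Pool.Agent.R2.Basic

/-!
# Random 2-CNF formulas: locality of the exploration
-/

namespace Pool.Agent.R2

open Finset Pool.Agent.Helper56.Iso Pool.Agent.Dichotomy Filter Topology

theorem loc_mem_RS {n : ℕ} {F : Finset (Cl n)} {A N : Finset (Fin n)} {v : Fin n} :
    v ∈ RS F A N ↔ Rch F A N v := by
  classical
  unfold RS
  rw [Finset.mem_filter]
  exact ⟨fun h => h.2, fun h => ⟨Finset.mem_univ _, h⟩⟩

theorem loc_adj {n : ℕ} {F F' : Finset (Cl n)} {B : Finset (Fin n)}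
    (h : ∀ e : Cl n, e.1.1.1 ∈ B → e.1.2.1 ∈ B → (e ∈ F ↔ e ∈ F')) {u v : Fin n} (hu : u ∈ B)
    (hv : v ∈ B) (huv : Adj F u v) : Adj F' u v := by
  obtain ⟨a, b, e, he, h1 | h1⟩ := huv
  · refine ⟨a, b, e, (h e ?_ ?_).1 he, Or.inl h1⟩
    · rw [h1]
      exact hu
    · rw [h1]
      exact hv
  · refine ⟨a, b, e, (h e ?_ ?_).1 he, Or.inr h1⟩
    · rw [h1]
      exact hv
    · rw [h1]
      exact hu

theorem loc_rch {n : ℕ} {F F' : Finset (Cl n)} {A N : Finset (Fin n)}
    (h : ∀ e : Cl n, e.1.1.1 ∈ A ∪ N → e.1.2.1 ∈ A ∪ N → (e ∈ F ↔ e ∈ F')) {v : Fin n}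
    (hv : Rch F A N v) : v ∈ A ∪ N ∧ Rch F' A N v := by
  induction hv with
  | base v hv => exact ⟨Finset.mem_union_right _ hv, Rch.base v hv⟩
  | step u v _ hvA huv ih =>
    have hvB : v ∈ A ∪ N := Finset.mem_union_left _ hvA
    exact ⟨hvB, Rch.step u v ih.2 hvA (loc_adj h ih.1 hvB huv)⟩

theorem loc_conn {n : ℕ} {F F' : Finset (Cl n)} {B : Finset (Fin n)}
    (h : ∀ e : Cl n, e.1.1.1 ∈ B → e.1.2.1 ∈ B → (e ∈ F ↔ e ∈ F')) {Q : Finset (Fin n)}
    (hQ : Conn F Q) (hQB : Q ⊆ B) : Conn F' Q := by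
  induction hQ with
  | single v => exact Conn.single v
  | grow Q u v _ hu hv huv ih =>
    have h1 : Q ⊆ B := (Finset.subset_insert v Q).trans hQB
    exact Conn.grow Q u v (ih h1) hu hv
      (loc_adj h (h1 hu) (hQB (Finset.mem_insert_self v Q)) huv)

theorem loc_rtg {n : ℕ} {F : Finset (Cl n)} {Q : Finset (Fin n)} (hQ : Conn F Q) :
    ∀ x ∈ Q, ∀ w ∈ Q, Relation.ReflTransGen (Adj F) x w := by
  induction hQ with
  | single v =>
    intro x hx w hw
    rw [Finset.mem_singleton] at hx hw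
    rw [hx, hw]
  | grow Q u v _ hu hv huv ih =>
    intro x hx w hw
    rcases Finset.mem_insert.1 hx with h1 | h1
    · rw [h1]
      rcases Finset.mem_insert.1 hw with h2 | h2
      · rw [h2]
      · exact Relation.ReflTransGen.head huv.symm (ih u hu w h2)
    · rcases Finset.mem_insert.1 hw with h2 | h2
      · rw [h2]
        exact Relation.ReflTransGen.tail (ih x h1 u hu) huv
      · exact ih x h1 w h2

theorem loc_rch_of_rtg {n : ℕ} {F : Finset (Cl n)} {v w : Fin n}
    (h : Relation.ReflTransGen (Adj F) v w) : Rch F (univ.erase v) {v} w := by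
  induction h with
  | refl => exact Rch.base v (Finset.mem_singleton_self v)
  | @tail b c _ hbc ih =>
    by_cases hcv : c = v
    · exact Rch.base c (Finset.mem_singleton.2 hcv)
    · exact Rch.step b c ih (Finset.mem_erase.2 ⟨hcv, Finset.mem_univ _⟩) hbc

/-- what is reached from one variable is connected -/
theorem loc_conn_RS {n : ℕ} (F : Finset (Cl n)) (A : Finset (Fin n)) (v : Fin n) :
    Conn F (RS F A {v}) := by
  classical
  have hne : ((univ : Finset (Finset (Fin n))).filter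
      (fun Q => Conn F Q ∧ v ∈ Q ∧ Q ⊆ RS F A {v})).Nonempty := by
    refine ⟨{v}, Finset.mem_filter.2 ⟨Finset.mem_univ _, Conn.single v,
      Finset.mem_singleton_self v, ?_⟩⟩
    intro w hw
    exact loc_mem_RS.2 (Rch.base w hw)
  obtain ⟨Q, hQ, hmax⟩ := Finset.exists_max_image _ (fun Q : Finset (Fin n) => Q.card) hne
  obtain ⟨_, hQc, hvQ, hQs⟩ := Finset.mem_filter.1 hQ
  have hall : ∀ w, Rch F A {v} w → w ∈ Q := by
    intro w hw
    induction hw with
    | base w hw =>
      rw [Finset.mem_singleton.1 hw]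
      exact hvQ
    | step u w hu hwA huw ih =>
      by_contra hwQ
      have h1 := hmax (insert w Q) (Finset.mem_filter.2 ⟨Finset.mem_univ _,
        Conn.grow Q u w hQc ih hwQ huw, Finset.mem_insert_of_mem hvQ, by
          intro x hx
          rcases Finset.mem_insert.1 hx with rfl | hx
          · exact loc_mem_RS.2 (Rch.step u x hu hwA huw)
          · exact hQs hx⟩)
      rw [Finset.card_insert_of_notMem hwQ] at h1
      omega
  have h2 : RS F A {v} = Q := by
    apply Finset.Subset.antisymm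
    · intro w hw
      exact hall w (loc_mem_RS.1 hw)
    · exact hQs
  rw [h2]
  exact hQc

theorem loc_sub {n : ℕ} {F : Finset (Cl n)} {Q : Finset (Fin n)} (hQ : Conn F Q) :
    ∀ k, 1 ≤ k → k ≤ Q.card → ∃ Q' ⊆ Q, Conn F Q' ∧ Q'.card = k := by
  induction hQ with
  | single v =>
    intro k h1 h2
    rw [Finset.card_singleton] at h2
    refine ⟨{v}, Finset.Subset.refl _, Conn.single v, ?_⟩
    rw [Finset.card_singleton]
    omega
  | grow Q u v hQ hu hv huv ih =>
    intro k h1 h2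
    rw [Finset.card_insert_of_notMem hv] at h2
    rcases Nat.lt_or_ge Q.card k with h3 | h3
    · refine ⟨insert v Q, Finset.Subset.refl _, Conn.grow Q u v hQ hu hv huv, ?_⟩
      rw [Finset.card_insert_of_notMem hv]
      omega
    · obtain ⟨Q', h4, h5, h6⟩ := ih k h1 h3
      exact ⟨Q', h4.trans (Finset.subset_insert v Q), h5, h6⟩

/-- see `St_Loc` -/
theorem thm_Loc : St_Loc := by
  refine ⟨?_, ?_, ?_, ?_⟩
  · intro n F F' A N h
    have h' : ∀ e : Cl n, e.1.1.1 ∈ A ∪ N → e.1.2.1 ∈ A ∪ N → (e ∈ F' ↔ e ∈ F) :=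
      fun e h1 h2 => (h e h1 h2).symm
    have hRS : RS F A N = RS F' A N := by
      ext v
      rw [loc_mem_RS, loc_mem_RS]
      exact ⟨fun hv => (loc_rch h hv).2, fun hv => (loc_rch h' hv).2⟩
    refine ⟨hRS, ?_⟩
    intro L m
    unfold Ev Small
    rw [hRS]
    have hsub : ∀ Q ⊆ A \ RS F' A N, Q ⊆ A ∪ N := fun Q hQ =>
      hQ.trans (Finset.sdiff_subset.trans Finset.subset_union_left)
    constructor
    · rintro ⟨h1, h2⟩
      exact ⟨h1, fun Q hQ hc => h2 Q hQ (loc_conn h' hc (hsub Q hQ))⟩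
    · rintro ⟨h1, h2⟩
      exact ⟨h1, fun Q hQ hc => h2 Q hQ (loc_conn h hc (hsub Q hQ))⟩
  · intro n F Q v hQ hv w hw
    exact loc_mem_RS.2 (loc_rch_of_rtg (loc_rtg hQ v hv w hw))
  · intro n F A v L hv hS
    refine ⟨?_, ?_⟩
    · rw [add_zero]
      refine hS _ ?_ (loc_conn_RS F (A.erase v) v)
      intro w hw
      have h1 := loc_mem_RS.1 hw
      cases h1 with
      | base w hw =>
        rw [Finset.mem_singleton.1 hw]
        exact hv
      | step u w _ hwA _ => exact (Finset.mem_erase.1 hwA).2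
    · intro Q hQ hc
      exact hS Q (hQ.trans (Finset.sdiff_subset.trans (Finset.erase_subset _ _))) hc
  · intro n F A L hL h Q hQ hc
    by_contra hcon
    obtain ⟨Q', h1, h2, h3⟩ := loc_sub hc L hL (not_lt.1 hcon)
    exact h Q' (h1.trans hQ) h2 h3

end Pool.Agent.R2
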