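import Mathlib
import Pool.Agent.R2.Basic

/-!
# R2 [Mgf]: the generating function of the number of neighbours
-/

namespace Pool.Agent.R2

open Finset Pool.Agent.Helper56.Iso Pool.Agent.Dichotomy Filter Topology

/-- The clauses on the variables `u`, `v`. -/
def mgf_H {n : ℕ} (u v : Fin n) : Finset (Cl n) :=
  univ.filter fun e => (e.1.1.1 = u ∧ e.1.2.1 = v) ∨ (e.1.1.1 = v ∧ e.1.2.1 = u)

theorem mgf_mem {n : ℕ} {u v : Fin n} {e : Cl n} : e ∈ mgf_H u v ↔
    (e.1.1.1 = u ∧ e.1.2.1 = v) ∨ (e.1.1.1 = v ∧ e.1.2.1 = u) := by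
  unfold mgf_H
  rw [Finset.mem_filter]
  exact and_iff_right (Finset.mem_univ _)

theorem mgf_card {n : ℕ} {u v : Fin n} (h : u ≠ v) : (mgf_H u v).card = 4 := by
  have hne : ∀ q : ZMod 2 × ZMod 2, ((u, q.1) : Lit n).1 ≠ ((v, q.2) : Lit n).1 := fun _ => h
  have e1 : mgf_H u v = (univ : Finset (ZMod 2 × ZMod 2)).image
      (fun q => mkCl (u, q.1) (v, q.2) (hne q)) := by
    ext e
    rw [mgf_mem, Finset.mem_image]
    constructor
    · rintro (⟨h1, h2⟩ | ⟨h1, h2⟩)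
      · refine ⟨(e.1.1.2, e.1.2.2), Finset.mem_univ _, ?_⟩
        refine (eq_mkCl _ (Or.inl ?_)).symm
        exact Prod.ext (Prod.ext h1 rfl) (Prod.ext h2 rfl)
      · refine ⟨(e.1.2.2, e.1.1.2), Finset.mem_univ _, ?_⟩
        refine (eq_mkCl _ (Or.inr ?_)).symm
        exact Prod.ext (Prod.ext h1 rfl) (Prod.ext h2 rfl)
    · rintro ⟨q, _, rfl⟩
      rcases mkCl_val (u, q.1) (v, q.2) (hne q) with h3 | h3
      · left
        rw [h3]
        exact ⟨rfl, rfl⟩
      · right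
        rw [h3]
        exact ⟨rfl, rfl⟩
  have hinj : Function.Injective
      (fun q : ZMod 2 × ZMod 2 => mkCl ((u, q.1) : Lit n) (v, q.2) (hne q)) := by
    intro q q' hq
    have h4 : (mkCl ((u, q.1) : Lit n) (v, q.2) (hne q)).1 =
        (mkCl ((u, q'.1) : Lit n) (v, q'.2) (hne q')).1 := congrArg Subtype.val hq
    rcases mkCl_val ((u, q.1) : Lit n) (v, q.2) (hne q) with h5 | h5 <;>
      rcases mkCl_val ((u, q'.1) : Lit n) (v, q'.2) (hne q') with h6 | h6
    · rw [h5, h6] at h4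
      exact Prod.ext (congrArg (fun t => t.1.2) h4) (congrArg (fun t => t.2.2) h4)
    · rw [h5, h6] at h4
      exact absurd (congrArg (fun t => t.1.1) h4) h
    · rw [h5, h6] at h4
      exact absurd (congrArg (fun t => t.1.1) h4).symm h
    · rw [h5, h6] at h4
      exact Prod.ext (congrArg (fun t => t.2.2) h4) (congrArg (fun t => t.1.2) h4)
  rw [e1, Finset.card_image_of_injective _ hinj, Finset.card_univ, Fintype.card_prod,
    ZMod.card]

theorem mgf_adj {n : ℕ} {u v : Fin n} {F : Finset (Cl n)} :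
    Adj F u v ↔ (F ∩ mgf_H u v).Nonempty := by
  constructor
  · rintro ⟨a, b, e, he, h1 | h1⟩
    · refine ⟨e, Finset.mem_inter.2 ⟨he, mgf_mem.2 (Or.inl ?_)⟩⟩
      rw [h1]
      exact ⟨rfl, rfl⟩
    · refine ⟨e, Finset.mem_inter.2 ⟨he, mgf_mem.2 (Or.inr ?_)⟩⟩
      rw [h1]
      exact ⟨rfl, rfl⟩
  · rintro ⟨e, he⟩
    obtain ⟨he1, he2⟩ := Finset.mem_inter.1 he
    rcases mgf_mem.1 he2 with ⟨h1, h2⟩ | ⟨h1, h2⟩
    · exact ⟨e.1.1.2, e.1.2.2, e, he1, Or.inl (Prod.ext (Prod.ext h1 rfl) (Prod.ext h2 rfl))⟩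
    · exact ⟨e.1.2.2, e.1.1.2, e, he1, Or.inr (Prod.ext (Prod.ext h1 rfl) (Prod.ext h2 rfl))⟩

/-- the clauses on `u`, `v` are not clauses on `u`, `w` -/
theorem mgf_sdiff {n : ℕ} {u v w : Fin n} (h : w ≠ v) (hu : w ≠ u) {F : Finset (Cl n)} :
    Adj (F \ mgf_H u v) u w ↔ Adj F u w := by
  rw [mgf_adj, mgf_adj]
  have e1 : (F \ mgf_H u v) ∩ mgf_H u w = F ∩ mgf_H u w := by
    ext e
    rw [Finset.mem_inter, Finset.mem_inter, Finset.mem_sdiff]
    constructor
    · rintro ⟨⟨h1, _⟩, h2⟩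
      exact ⟨h1, h2⟩
    · rintro ⟨h1, h2⟩
      refine ⟨⟨h1, fun h3 => ?_⟩, h2⟩
      rcases mgf_mem.1 h2 with ⟨h4, h5⟩ | ⟨h4, h5⟩ <;>
        rcases mgf_mem.1 h3 with ⟨h6, h7⟩ | ⟨h6, h7⟩
      · exact h (h5.symm.trans h7)
      · exact hu (h5.symm.trans h7)
      · exact hu (h4.symm.trans h6)
      · exact h (h4.symm.trans h6)
  rw [e1]

theorem mgf_nbr_sdiff {n : ℕ} {u v : Fin n} {A : Finset (Fin n)} (hv : v ∉ A) (hu : u ∉ A)
    (F : Finset (Cl n)) : nbr (F \ mgf_H u v) A u = nbr F A u := by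
  classical
  unfold nbr
  apply Finset.filter_congr
  intro w hw
  have h1 : w ≠ v := fun h => hv (by rw [← h]; exact hw)
  have h2 : w ≠ u := fun h => hu (by rw [← h]; exact hw)
  exact mgf_sdiff h1 h2

theorem mgf_nbr_insert {n : ℕ} {u v : Fin n} {A : Finset (Fin n)} (hv : v ∉ A)
    (θ : ℝ) (F : Finset (Cl n)) : θ ^ (nbr F (insert v A) u).card =
      (θ + (1 - θ) * 0 ^ (F ∩ mgf_H u v).card) * θ ^ (nbr F A u).card := by
  classical
  unfold nbr
  rw [Finset.filter_insert]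
  by_cases h : Adj F u v
  · have h1 : (F ∩ mgf_H u v).card ≠ 0 := (Finset.card_pos.2 (mgf_adj.1 h)).ne'
    rw [if_pos h, Finset.card_insert_of_notMem (fun h2 => hv (Finset.mem_filter.1 h2).1),
      zero_pow h1, pow_succ]
    ring
  · have h1 : (F ∩ mgf_H u v).card = 0 := by
      rw [Finset.card_eq_zero]
      exact Finset.not_nonempty_iff_eq_empty.1 (fun h2 => h (mgf_adj.2 h2))
    rw [if_neg h, h1, pow_zero]
    ring

theorem thm_Mgf (hFub : St_Fub) : St_Mgf := by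
  classical
  intro n p θ A u hu
  induction A using Finset.induction_on with
  | empty =>
    have h1 : ∀ F : Finset (Cl n), wt p F * θ ^ (nbr F ∅ u).card = wt p F := by
      intro F
      have h2 : nbr F ∅ u = ∅ := by
        unfold nbr
        exact Finset.filter_empty _
      rw [h2, Finset.card_empty, pow_zero, mul_one]
    rw [Finset.sum_congr rfl (fun F _ => h1 F), sum_wt, Finset.card_empty, pow_zero]
  | insert v A hv ih =>
    have huA : u ∉ A := fun h => hu (Finset.mem_insert_of_mem h)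
    have huv : u ≠ v := fun h => hu (h ▸ Finset.mem_insert_self v A)
    have ih' := ih huA
    have h1 : ∀ F : Finset (Cl n), wt p F * θ ^ (nbr F (insert v A) u).card =
        wt p F * ((θ + (1 - θ) * 0 ^ (F ∩ mgf_H u v).card) *
          θ ^ (nbr (F \ mgf_H u v) A u).card) := by
      intro F
      rw [mgf_nbr_insert hv, mgf_nbr_sdiff hv huA]
    rw [Finset.sum_congr rfl (fun F _ => h1 F),
      hFub p (mgf_H u v) (fun X Y => (θ + (1 - θ) * 0 ^ X.card) * θ ^ (nbr Y A u).card)]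
    have h2 : ∀ F : Finset (Cl n), wt p F * ∑ F', wt p F' *
        ((θ + (1 - θ) * 0 ^ (F ∩ mgf_H u v).card) * θ ^ (nbr (F' \ mgf_H u v) A u).card) =
        (wt p F * θ + (1 - θ) * (wt p F * 0 ^ (F ∩ mgf_H u v).card)) *
          ((1 - p) ^ 4 + (1 - (1 - p) ^ 4) * θ) ^ A.card := by
      intro F
      rw [← ih']
      have h3 : ∑ F', wt p F' * ((θ + (1 - θ) * 0 ^ (F ∩ mgf_H u v).card) *
          θ ^ (nbr (F' \ mgf_H u v) A u).card) =
          (θ + (1 - θ) * 0 ^ (F ∩ mgf_H u v).card) *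
            ∑ F', wt p F' * θ ^ (nbr F' A u).card := by
        rw [Finset.mul_sum]
        apply Finset.sum_congr rfl
        intro F' _
        rw [mgf_nbr_sdiff hv huA]
        ring
      rw [h3]
      ring
    rw [Finset.sum_congr rfl (fun F _ => h2 F), ← Finset.sum_mul, Finset.sum_add_distrib,
      ← Finset.sum_mul, ← Finset.mul_sum, sum_wt, mgf p 0 (mgf_H u v), mgf_card huv,
      Finset.card_insert_of_notMem hv, pow_succ]
    ring

end Pool.Agent.R2
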