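import Mathlib
import Pool.Agent.R2.Basic

/-!
# Random 2-CNF formulas: [Ov] overriding a solution by a closed and consistent set of literals
-/

namespace Pool.Agent.R2

open Finset Pool.Agent.Helper56.Iso Pool.Agent.Dichotomy Filter Topology

theorem ov_zmod (a b : ZMod 2) : b = a ∨ b = a + 1 := by
  revert a b
  decide

theorem ov_ne (a : ZMod 2) : a + 1 ≠ a := by
  revert a
  decide

theorem thm_Ov : St_Ov := by
  classical
  intro n F T x hT hc hx
  let y : Fin n → ZMod 2 := fun v => if (v, x v + 1) ∈ T then x v + 1 else x v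
  have h1 : ∀ z ∈ T, y z.1 = z.2 := by
    intro z hz
    rcases ov_zmod (x z.1) z.2 with h | h
    · have h2 : (z.1, x z.1 + 1) ∉ T := by
        have h3 := hc z hz
        unfold neg at h3
        rw [h] at h3
        exact h3
      simp only [y]
      rw [if_neg h2, h]
    · have h2 : (z.1, x z.1 + 1) ∈ T := by
        rw [← h]
        exact hz
      simp only [y]
      rw [if_pos h2, h]
  have h2 : ∀ z : Lit n, z ∉ T → y z.1 = z.2 → x z.1 = z.2 := by
    intro z hz h
    simp only [y] at h
    split_ifs at h with h3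
    · rw [h] at h3
      exact absurd h3 hz
    · exact h
  refine ⟨y, ?_, h1, ?_⟩
  · intro e he hy
    have hHas : Has F e.1.1 e.1.2 := ⟨e, he, Or.inl rfl⟩
    by_cases k1 : e.1.1 ∈ T
    · have h3 : neg e.1.2 ∈ T := by
        refine hT _ k1 _ ?_
        unfold Imp
        rw [neg_neg']
        exact hHas
      have h4 := h1 _ h3
      rw [neg_fst, neg_snd, hy.2] at h4
      exact ov_ne _ h4.symm
    · by_cases k2 : e.1.2 ∈ T
      · have h3 : neg e.1.1 ∈ T := by
          refine hT _ k2 _ ?_
          unfold Imp
          rw [neg_neg']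
          exact hHas.symm
        have h4 := h1 _ h3
        rw [neg_fst, neg_snd, hy.1] at h4
        exact ov_ne _ h4.symm
      · exact hx e he ⟨h2 _ k1 hy.1, h2 _ k2 hy.2⟩
  · intro v hv
    simp only [y]
    rw [if_neg (hv _)]

end Pool.Agent.R2
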