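import Mathlib
import Pool.Agent.R2.Basic

/-!
# Random 2-CNF formulas: a linear number of disjoint connected pieces
-/

namespace Pool.Agent.R2

open Finset Pool.Agent.Helper56.Iso Pool.Agent.Dichotomy Filter Topology

private theorem pck_card {n L N : ℕ} {F : Finset (Cl n)} {Q : Fin N → Finset (Fin n)}
    (h : Packing F L N Q) : (univ.biUnion Q).card = N * L := by
  rw [card_biUnion fun i _ j _ hij => h.2 i j hij, Finset.sum_congr rfl fun i _ => (h.1 i).1]
  simp

private theorem pck_ext {n L N : ℕ} {F : Finset (Cl n)} {Q : Fin N → Finset (Fin n)}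
    (h : Packing F L N Q) {Q' : Finset (Fin n)} (h1 : Q' ⊆ univ \ univ.biUnion Q)
    (h2 : Conn F Q') (h3 : Q'.card = L) :
    Packing F L (N + 1) (Fin.cons Q' Q : Fin (N + 1) → Finset (Fin n)) := by
  have hd : ∀ i, Disjoint Q' (Q i) := by
    intro i
    refine Finset.disjoint_left.2 fun v hv hv2 => ?_
    exact (Finset.mem_sdiff.1 (h1 hv)).2 (mem_biUnion.2 ⟨i, mem_univ i, hv2⟩)
  constructor
  · intro i
    refine Fin.cases ?_ (fun j => ?_) i
    · rw [Fin.cons_zero]
      exact ⟨h3, h2⟩
    · rw [Fin.cons_succ]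
      exact h.1 j
  · intro i
    refine Fin.cases ?_ (fun i' => ?_) i
    · intro j
      refine Fin.cases ?_ (fun j' => ?_) j
      · intro hij
        exact absurd rfl hij
      · intro _
        rw [Fin.cons_zero, Fin.cons_succ]
        exact hd j'
    · intro j
      refine Fin.cases ?_ (fun j' => ?_) j
      · intro _
        rw [Fin.cons_zero, Fin.cons_succ]
        exact (hd i').symm
      · intro hij
        rw [Fin.cons_succ, Fin.cons_succ]
        refine h.2 i' j' fun hcon => hij ?_
        rw [hcon]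

private theorem pck_max {n : ℕ} (F : Finset (Cl n)) (L : ℕ) (hL : 1 ≤ L) :
    ∃ (N : ℕ) (Q : Fin N → Finset (Fin n)), Packing F L N Q ∧
      ∀ Q' ⊆ univ \ univ.biUnion Q, Conn F Q' → Q'.card ≠ L := by
  by_contra hcon
  push Not at hcon
  have key : ∀ N : ℕ, ∃ Q : Fin N → Finset (Fin n), Packing F L N Q := by
    intro N
    induction N with
    | zero => exact ⟨Fin.elim0, fun i => i.elim0, fun i => i.elim0⟩
    | succ N ih =>
      obtain ⟨Q, hQ⟩ := ih
      obtain ⟨Q', h1, h2, h3⟩ := hcon N Q hQ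
      exact ⟨_, pck_ext hQ h1 h2 h3⟩
  obtain ⟨Q, hQ⟩ := key (n + 1)
  have h1 := pck_card hQ
  have h2 : (univ.biUnion Q).card ≤ n := (card_le_univ _).trans (by simp)
  have h3 : n + 1 ≤ (n + 1) * L := Nat.le_mul_of_pos_right _ (by omega)
  omega

/-- The parameters. -/
private theorem pck_par {c δ : ℝ} (hc : 0 < c) (hδ : 0 < δ) :
    ∃ x b : ℝ, 0 < x ∧ x ≤ 1 ∧ 0 < b ∧
      -(c * (δ - b)) + b * (-Real.log x) + x ≤ -(c * δ / 4) := by
  have hcd : 0 < c * δ := mul_pos hc hδ
  set x : ℝ := min 1 (c * δ / 4) with hx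
  have hx0 : 0 < x := lt_min one_pos (by positivity)
  have hx1 : x ≤ 1 := min_le_left _ _
  have hx2 : x ≤ c * δ / 4 := min_le_right _ _
  have hlog : 0 ≤ -Real.log x := by
    have := Real.log_nonpos hx0.le hx1
    linarith
  set y : ℝ := -Real.log x with hy
  set b : ℝ := min (δ / 4) (c * δ / (4 * (y + 1))) with hb
  have hb0 : 0 < b := lt_min (by positivity) (by positivity)
  have hb1 : b ≤ δ / 4 := min_le_left _ _
  have hb2 : b ≤ c * δ / (4 * (y + 1)) := min_le_right _ _
  refine ⟨x, b, hx0, hx1, hb0, ?_⟩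
  have h1 : c * b ≤ c * (δ / 4) := mul_le_mul_of_nonneg_left hb1 hc.le
  have h2 : b * y ≤ c * δ / 4 := by
    have h3 : b * (y + 1) ≤ c * δ / (4 * (y + 1)) * (y + 1) :=
      mul_le_mul_of_nonneg_right hb2 (by linarith)
    have h4 : c * δ / (4 * (y + 1)) * (y + 1) = c * δ / 4 := by
      have : y + 1 ≠ 0 := by linarith
      field_simp
    have h5 : 0 ≤ b := hb0.le
    linarith [mul_nonneg h5 hlog]
  show -(c * (δ - b)) + b * y + x ≤ -(c * δ / 4)
  have h6 : c * (δ - b) = c * δ - c * b := by ring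
  have h7 : c * (δ / 4) = c * δ / 4 := by ring
  linarith

private theorem pck_sum_pow {n : ℕ} (x : ℝ) :
    ∑ D : Finset (Fin n), x ^ D.card = (1 + x) ^ n := by
  have h := Finset.sum_pow_mul_eq_add_pow x 1 (univ : Finset (Fin n))
  rw [Finset.powerset_univ] at h
  simp only [one_pow, mul_one, card_univ, Fintype.card_fin] at h
  rw [h, add_comm]

/-- keep this signature -/
theorem thm_Pck (hLoc : St_Loc) (hSup : St_Sup) : St_Pck := by
  classical
  intro α hα
  have hα0 : 0 ≤ α := by linarith
  obtain ⟨δ, c, hδ, hδ1, hc, hS⟩ := hSup α hα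
  obtain ⟨x, b, hx0, hx1, hb0, hpar⟩ := pck_par hc hδ
  refine ⟨b, hb0, fun L hL => ?_⟩
  obtain ⟨C, n0, hn0⟩ := hS L hL
  have hcd : 0 < c * δ / 4 := by positivity
  refine whp_of_le hα0 (u := fun n : ℕ => |C| * Real.exp (-(c * δ / 4) * n)) ?_ ?_
  · have h1 : Tendsto (fun n : ℕ => -(c * δ / 4) * (n : ℝ)) atTop atBot :=
      tendsto_natCast_atTop_atTop.const_mul_atTop_of_neg (by linarith)
    have h2 := (Real.tendsto_exp_atBot.comp h1).const_mul |C|
    rw [mul_zero] at h2
    exact h2
  · filter_upwards [eventually_prob α hα0, eventually_ge_atTop n0] with n hn hnn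
    have hn1 : (0 : ℝ) ≤ n := Nat.cast_nonneg n
    have h1 : Pr (prob α n) (fun F => ¬ ∃ (N : ℕ) (Q : Fin N → Finset (Fin n)),
        b * n ≤ N * L ∧ Packing F L N Q) ≤
        Pr (prob α n) (fun F => ∃ D ∈ (univ : Finset (Finset (Fin n))).filter
          (fun D => (D.card : ℝ) < b * n), Small F (univ \ D) L) := by
      refine Pr_mono hn.2.1 hn.2.2 fun F hF => ?_
      obtain ⟨N, Q, hQ, hmax⟩ := pck_max F L hL
      have hlt : (N : ℝ) * L < b * n := by
        by_contra hle
        exact hF ⟨N, Q, not_lt.1 hle, hQ⟩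
      refine ⟨univ.biUnion Q, ?_, ?_⟩
      · rw [Finset.mem_filter]
        refine ⟨mem_univ _, ?_⟩
        rw [pck_card hQ]
        push_cast
        exact hlt
      · exact hLoc.2.2.2 F _ L hL hmax
    refine h1.trans ((Pr_exists_le hn.2.1 hn.2.2 _ _).trans ?_)
    have hlogx : Real.log x ≤ 0 := Real.log_nonpos hx0.le hx1
    have h2 : ∀ D ∈ (univ : Finset (Finset (Fin n))).filter (fun D => (D.card : ℝ) < b * n),
        Pr (prob α n) (fun F => Small F (univ \ D) L) ≤
          |C| * Real.exp (-(c * (δ - b)) * n + b * (-Real.log x) * n) * x ^ D.card := by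
      intro D hD
      rw [Finset.mem_filter] at hD
      have hDn : D.card ≤ n := (card_le_univ _).trans (by simp)
      have h3 : (((univ \ D : Finset (Fin n)).card : ℕ) : ℝ) = n - D.card := by
        rw [card_sdiff_of_subset (subset_univ D), card_univ, Fintype.card_fin,
          Nat.cast_sub hDn]
      refine (hn0 n hnn (univ \ D)).trans ?_
      rw [h3]
      have h4 : C * Real.exp (-(c * ((n : ℝ) - D.card - (1 - δ) * n))) ≤
          |C| * Real.exp (-(c * ((n : ℝ) - D.card - (1 - δ) * n))) :=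
        mul_le_mul_of_nonneg_right (le_abs_self C) (Real.exp_pos _).le
      refine h4.trans ?_
      rw [mul_assoc]
      refine mul_le_mul_of_nonneg_left ?_ (abs_nonneg C)
      have h5 : x ^ D.card = Real.exp (Real.log x * D.card) := by
        rw [mul_comm, Real.exp_nat_mul, Real.exp_log hx0]
      rw [h5, ← Real.exp_add]
      refine Real.exp_le_exp.2 ?_
      have h6 : 0 ≤ (b * n - D.card) * (-Real.log x) :=
        mul_nonneg (by linarith [hD.2]) (by linarith)
      have h7 : 0 ≤ c * (b * n - D.card) := mul_nonneg hc.le (by linarith [hD.2])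
      nlinarith [h6, h7]
    refine (Finset.sum_le_sum h2).trans ?_
    have h8 : ∑ D ∈ (univ : Finset (Finset (Fin n))).filter (fun D => (D.card : ℝ) < b * n),
        |C| * Real.exp (-(c * (δ - b)) * n + b * (-Real.log x) * n) * x ^ D.card ≤
        ∑ D : Finset (Fin n),
          |C| * Real.exp (-(c * (δ - b)) * n + b * (-Real.log x) * n) * x ^ D.card := by
      refine Finset.sum_le_sum_of_subset_of_nonneg (Finset.filter_subset _ _) fun D _ _ => ?_
      positivity
    refine h8.trans ?_
    rw [← Finset.mul_sum, pck_sum_pow, mul_assoc]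
    refine mul_le_mul_of_nonneg_left ?_ (abs_nonneg C)
    have h9 : (1 + x) ^ n ≤ Real.exp (x * n) := by
      rw [mul_comm, Real.exp_nat_mul]
      refine pow_le_pow_left₀ (by linarith) ?_ n
      have := Real.add_one_le_exp x
      linarith
    refine (mul_le_mul_of_nonneg_left h9 (Real.exp_pos _).le).trans ?_
    rw [← Real.exp_add]
    refine Real.exp_le_exp.2 ?_
    have h10 := mul_le_mul_of_nonneg_right hpar hn1
    linarith

end Pool.Agent.R2
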