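import Mathlib
import Pool.Agent.R2.Basic

/-!
# Random 2-CNF formulas: [Pcl] the clauses of a path
-/

namespace Pool.Agent.R2

open Finset Pool.Agent.Helper56.Iso Pool.Agent.Dichotomy Filter Topology

theorem thm_Pcl : St_Pcl := by
  classical
  intro n r w hw
  have hne : ∀ i : Fin r, (w i.castSucc).1 ≠ (neg (w i.succ)).1 := by
    intro i h
    rw [neg_fst] at h
    have h1 : i.castSucc = i.succ := hw h
    exact absurd h1 (Fin.castSucc_lt_succ).ne
  have hpcl : pcl w = univ.image fun i : Fin r =>
      mkCl (w i.castSucc) (neg (w i.succ)) (hne i) := by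
    ext e
    unfold pcl
    rw [Finset.mem_filter, Finset.mem_image]
    constructor
    · rintro ⟨-, i, hi⟩
      exact ⟨i, Finset.mem_univ _, (eq_mkCl (hne i) hi).symm⟩
    · rintro ⟨i, -, rfl⟩
      exact ⟨Finset.mem_univ _, i, mkCl_val _ _ _⟩
  constructor
  · rw [hpcl, Finset.card_image_of_injective, Finset.card_univ, Fintype.card_fin]
    intro i j hij
    have h1 : (mkCl (w i.castSucc) (neg (w i.succ)) (hne i)).1 =
        (mkCl (w j.castSucc) (neg (w j.succ)) (hne j)).1 := congrArg Subtype.val hij
    have h2 : ({(w i.castSucc).1, (w i.succ).1} : Finset (Fin n)) =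
        {(w j.castSucc).1, (w j.succ).1} := by
      rcases mkCl_val _ _ (hne i) with h3 | h3 <;> rcases mkCl_val _ _ (hne j) with h4 | h4 <;>
        rw [h3, h4, Prod.mk.injEq] at h1
      · rw [h1.1, ← neg_fst (w i.succ), h1.2, neg_fst]
      · rw [h1.1, ← neg_fst (w i.succ), h1.2, neg_fst, Finset.pair_comm]
      · rw [← h1.1, h1.2, neg_fst, neg_fst, Finset.pair_comm]
      · rw [h1.2, ← neg_fst (w i.succ), h1.1, neg_fst]
    have h3 : ({i.castSucc, i.succ} : Finset (Fin (r + 1))) = {j.castSucc, j.succ} := by
      apply Finset.image_injective hw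
      rw [Finset.image_insert, Finset.image_insert, Finset.image_singleton,
        Finset.image_singleton]
      exact h2
    have h4 : i.castSucc ∈ ({j.castSucc, j.succ} : Finset (Fin (r + 1))) := by
      rw [← h3]
      exact Finset.mem_insert_self _ _
    have h5 : j.castSucc ∈ ({i.castSucc, i.succ} : Finset (Fin (r + 1))) := by
      rw [h3]
      exact Finset.mem_insert_self _ _
    rw [Finset.mem_insert, Finset.mem_singleton] at h4 h5
    rcases h4 with h4 | h4
    · exact Fin.castSucc_injective _ h4
    · rcases h5 with h5 | h5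
      · exact (Fin.castSucc_injective _ h5).symm
      · have e1 : (i : ℕ) = j + 1 := congrArg Fin.val h4
        have e2 : (j : ℕ) = i + 1 := congrArg Fin.val h5
        omega
  · intro F
    rw [hpcl]
    constructor
    · rintro ⟨-, h⟩ e he
      obtain ⟨i, -, rfl⟩ := Finset.mem_image.1 he
      exact (has_iff (hne i)).1 (h i)
    · intro h
      refine ⟨hw, fun i => ?_⟩
      exact (has_iff (hne i)).2 (h (Finset.mem_image.2 ⟨i, Finset.mem_univ _, rfl⟩))

end Pool.Agent.R2
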