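import Mathlib
import Pool.Agent.R2.Basic

/-!
# Random 2-CNF formulas: one step of the exploration
-/

namespace Pool.Agent.R2

open Finset Pool.Agent.Helper56.Iso Pool.Agent.Dichotomy Filter Topology

theorem rec_mem_RS {n : ℕ} {F : Finset (Cl n)} {A N : Finset (Fin n)} {v : Fin n} :
    v ∈ RS F A N ↔ Rch F A N v := by
  classical
  unfold RS
  rw [Finset.mem_filter]
  exact ⟨fun h => h.2, fun h => ⟨Finset.mem_univ _, h⟩⟩

theorem rec_mem_nbr {n : ℕ} {F : Finset (Cl n)} {A : Finset (Fin n)} {u v : Fin n} :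
    v ∈ nbr F A u ↔ v ∈ A ∧ Adj F u v := by
  classical
  unfold nbr
  rw [Finset.mem_filter]

theorem rec_one {n : ℕ} {F : Finset (Cl n)} {A N : Finset (Fin n)} {u : Fin n}
    {v : Fin n} (h : Rch F A N v) :
    v = u ∨ Rch F (A \ nbr F A u) (N.erase u ∪ nbr F A u) v := by
  induction h with
  | base v hv =>
    by_cases h : v = u
    · exact Or.inl h
    · exact Or.inr (Rch.base v (Finset.mem_union_left _ (Finset.mem_erase.2 ⟨h, hv⟩)))
  | step w v hw hvA hwv ih =>
    right
    by_cases hB : v ∈ nbr F A u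
    · exact Rch.base v (Finset.mem_union_right _ hB)
    · rcases ih with h | h
      · exact absurd (rec_mem_nbr.2 ⟨hvA, h ▸ hwv⟩) hB
      · exact Rch.step w v h (Finset.mem_sdiff.2 ⟨hvA, hB⟩) hwv

theorem rec_two {n : ℕ} {F : Finset (Cl n)} {A N : Finset (Fin n)} {u : Fin n} (hu : u ∈ N)
    {v : Fin n} (h : Rch F (A \ nbr F A u) (N.erase u ∪ nbr F A u) v) : Rch F A N v := by
  induction h with
  | base v hv =>
    rcases Finset.mem_union.1 hv with h | h
    · exact Rch.base v (Finset.mem_erase.1 h).2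
    · rw [rec_mem_nbr] at h
      exact Rch.step u v (Rch.base u hu) h.1 h.2
  | step w v _ hvA hwv ih => exact Rch.step w v ih (Finset.mem_sdiff.1 hvA).1 hwv

theorem rec_three {n : ℕ} {F : Finset (Cl n)} {A N : Finset (Fin n)} {u : Fin n}
    (hd : Disjoint A N) (hu : u ∈ N) {v : Fin n}
    (h : Rch F (A \ nbr F A u) (N.erase u ∪ nbr F A u) v) : v ≠ u := by
  have hA : ∀ w ∈ A, w ≠ u := by
    rintro w hw rfl
    exact Finset.disjoint_left.1 hd hw hu
  induction h with
  | base v hv =>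
    rcases Finset.mem_union.1 hv with h | h
    · exact (Finset.mem_erase.1 h).1
    · exact hA v (rec_mem_nbr.1 h).1
  | step w v _ hvA _ _ => exact hA v (Finset.mem_sdiff.1 hvA).1

/-- see `St_Rec` -/
theorem thm_Rec : St_Rec := by
  intro n F A N u hd hu
  have h1 : RS F A N = insert u (RS F (A \ nbr F A u) (N.erase u ∪ nbr F A u)) := by
    ext v
    rw [Finset.mem_insert, rec_mem_RS, rec_mem_RS]
    constructor
    · exact rec_one
    · rintro (rfl | h)
      · exact Rch.base _ hu
      · exact rec_two hu h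
  have h2 : u ∉ RS F (A \ nbr F A u) (N.erase u ∪ nbr F A u) := by
    intro h
    exact rec_three hd hu (rec_mem_RS.1 h) rfl
  refine ⟨h1, h2, ?_⟩
  intro L m
  unfold Ev
  have hc : (RS F A N).card = (RS F (A \ nbr F A u) (N.erase u ∪ nbr F A u)).card + 1 := by
    rw [h1, Finset.card_insert_of_notMem h2]
  have hs : A \ RS F A N = (A \ nbr F A u) \ RS F (A \ nbr F A u) (N.erase u ∪ nbr F A u) := by
    rw [h1]
    ext v
    simp only [Finset.mem_sdiff, Finset.mem_insert, not_or]
    constructor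
    · rintro ⟨a1, a2, a3⟩
      refine ⟨⟨a1, fun a4 => a3 ?_⟩, a3⟩
      exact rec_mem_RS.2 (Rch.base v (Finset.mem_union_right _ a4))
    · rintro ⟨⟨a1, _⟩, a3⟩
      refine ⟨a1, ?_, a3⟩
      rintro rfl
      exact Finset.disjoint_left.1 hd a1 hu
  rw [hc, hs, add_assoc, add_comm 1 m]

end Pool.Agent.R2
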