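import Mathlib
import Pool.Agent.R2.Basic

/-!
# Random 2-CNF formulas: an unsatisfiable formula contains a bicycle
-/

namespace Pool.Agent.R2

open Finset Pool.Agent.Helper56.Iso Pool.Agent.Dichotomy Filter Topology

variable {n : ℕ} {F : Finset (Cl n)}

/-! ### Closures -/

private theorem satd_incons {z z' : Lit n} (h1 : z' ∈ R F z) (h2 : neg z' ∈ R F z) :
    neg z ∈ R F z :=
  mem_R_trans h2 (R_contra h1)

/-- A closed consistent set with a literal of every variable of `V`. -/
private theorem satd_closed (hc : ∀ v : Fin n, ∃ a : ZMod 2, Cons (R F (v, a)))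
    (V : Finset (Fin n)) :
    ∃ T : Set (Lit n), (∀ z ∈ T, ∀ z', Imp F z z' → z' ∈ T) ∧ Cons T ∧
      ∀ v ∈ V, ∃ a : ZMod 2, (v, a) ∈ T := by
  classical
  induction V using Finset.induction_on with
  | empty =>
    refine ⟨∅, fun z hz => absurd hz (Set.notMem_empty z), fun z hz => absurd hz
      (Set.notMem_empty z), fun v hv => absurd hv (Finset.notMem_empty v)⟩
  | insert v V hv ih =>
    obtain ⟨T, h1, h2, h3⟩ := ih
    by_cases hT : ∃ a : ZMod 2, (v, a) ∈ T
    · refine ⟨T, h1, h2, fun u hu => ?_⟩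
      rcases Finset.mem_insert.1 hu with rfl | hu
      · exact hT
      · exact h3 u hu
    · obtain ⟨a, ha⟩ := hc v
      have hT' : ∀ z ∈ T, ∀ z' ∈ R F z, z' ∈ T := by
        intro z hz z' hz'
        have h0 : Relation.ReflTransGen (Imp F) z z' := hz'
        clear hz'
        induction h0 with
        | refl => exact hz
        | tail _ h5 ih => exact h1 _ ih _ h5
      have hcross : ∀ z' ∈ T, neg z' ∉ R F (v, a) := by
        intro z' hz' h4
        have h5 := R_contra h4
        rw [neg_neg'] at h5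
        have h6 := hT' z' hz' _ h5
        exact hT ⟨a + 1, h6⟩
      refine ⟨T ∪ R F (v, a), ?_, ?_, ?_⟩
      · rintro z (hz | hz) z' hz'
        · exact Or.inl (h1 z hz z' hz')
        · exact Or.inr (mem_R_step hz hz')
      · rintro z (hz | hz) (h4 | h4)
        · exact h2 z hz h4
        · exact hcross z hz h4
        · have h5 : neg (neg z) ∈ R F (v, a) := by
            rw [neg_neg']
            exact hz
          exact hcross (neg z) h4 h5
        · exact ha z hz h4
      · intro u hu
        rcases Finset.mem_insert.1 hu with rfl | hu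
        · exact ⟨a, Or.inr (mem_R_self _)⟩
        · obtain ⟨b, hb⟩ := h3 u hu
          exact ⟨b, Or.inl hb⟩

private theorem satd_exists (h : SOL F = ∅) :
    ∃ z : Lit n, neg z ∈ R F z ∧ z ∈ R F (neg z) := by
  by_contra hcon
  push Not at hcon
  have hc : ∀ v : Fin n, ∃ a : ZMod 2, Cons (R F (v, a)) := by
    intro v
    by_contra hv
    push Not at hv
    have key : ∀ z : Lit n, z.1 = v → neg z ∈ R F z := by
      intro z hz
      have h1 := hv z.2
      rw [show (v, z.2) = z from Prod.ext hz.symm rfl] at h1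
      unfold Cons at h1
      push Not at h1
      obtain ⟨z', h2, h3⟩ := h1
      exact satd_incons h2 h3
    have h1 := key (v, 0) rfl
    have h2 := key (neg (v, 0)) rfl
    rw [neg_neg'] at h2
    exact hcon _ h1 h2
  obtain ⟨T, h1, h2, h3⟩ := satd_closed hc univ
  choose x hx using fun v => h3 v (mem_univ v)
  have hmem : x ∈ SOL F := by
    intro e he ⟨h4, h5⟩
    have h6 : e.1.1 ∈ T := by
      have := hx e.1.1.1
      rw [h4] at this
      exact this
    have h7 : e.1.2 ∈ T := by
      have := hx e.1.2.1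
      rw [h5] at this
      exact this
    have h8 : Imp F e.1.1 (neg e.1.2) := by
      unfold Imp
      rw [neg_neg']
      exact ⟨e, he, Or.inl rfl⟩
    exact h2 _ h7 (h1 _ h6 _ h8)
  rw [h] at hmem
  exact hmem

/-! ### Walks without repetitions -/

private theorem satd_walk {α : Type} {r : α → α → Prop} {a b : α}
    (h : Relation.ReflTransGen r a b) :
    ∃ (p : ℕ) (g : ℕ → α), g 0 = a ∧ g p = b ∧ (∀ i < p, r (g i) (g (i + 1))) ∧
      ∀ i j, i < j → j ≤ p → g i ≠ g j := by
  classical
  have h0 : ∃ (p : ℕ), ∃ (g : ℕ → α), g 0 = a ∧ g p = b ∧ ∀ i < p, r (g i) (g (i + 1)) := by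
    induction h with
    | refl => exact ⟨0, fun _ => a, rfl, rfl, fun i hi => absurd hi (Nat.not_lt_zero i)⟩
    | @tail c d _ h2 ih =>
      obtain ⟨p, g, g0, gp, hg⟩ := ih
      refine ⟨p + 1, fun m => if m ≤ p then g m else d, ?_, ?_, ?_⟩
      · simp [g0]
      · simp
      · intro i hi
        rcases Nat.lt_succ_iff_lt_or_eq.1 hi with h3 | h3
        · have h4 : i ≤ p := h3.le
          have h5 : i + 1 ≤ p := h3
          simp only [h4, h5, if_true]
          exact hg i h3
        · subst h3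
          have h5 : ¬ (i + 1 ≤ i) := by omega
          simp only [le_refl, h5, if_true, if_false]
          rw [gp]
          exact h2
  obtain ⟨g, g0, gp, hg⟩ := Nat.find_spec h0
  refine ⟨Nat.find h0, g, g0, gp, hg, ?_⟩
  intro i j hij hj heq
  set p := Nat.find h0 with hp
  have hlt : p - (j - i) < p := by omega
  refine Nat.find_min h0 hlt ⟨fun m => if m ≤ i then g m else g (m + (j - i)), ?_, ?_, ?_⟩
  · simp [g0]
  · by_cases h1 : p - (j - i) ≤ i
    · simp only [h1, if_true]
      have h2 : p - (j - i) = i := by omega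
      have h3 : p = j := by omega
      rw [h2, heq, ← h3]
      exact gp
    · simp only [h1, if_false]
      have h2 : p - (j - i) + (j - i) = p := by omega
      rw [h2]
      exact gp
  · intro m hm
    rcases lt_trichotomy m i with h1 | h1 | h1
    · have h2 : m ≤ i := h1.le
      have h3 : m + 1 ≤ i := h1
      simp only [h2, h3, if_true]
      exact hg m (by omega)
    · subst h1
      have h3 : ¬ (m + 1 ≤ m) := by omega
      simp only [le_refl, h3, if_true, if_false]
      have h4 : m + 1 + (j - m) = j + 1 := by omega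
      rw [h4, heq]
      exact hg j (by omega)
    · have h2 : ¬ (m ≤ i) := by omega
      have h3 : ¬ (m + 1 ≤ i) := by omega
      simp only [h2, h3, if_false]
      have h4 : m + 1 + (j - i) = m + (j - i) + 1 := by omega
      rw [h4]
      exact hg _ (by omega)

/-! ### The bicycle -/

private theorem satd_pair {e : Cl n} {x y x' y' : Lit n} (h : e.1 = (x, y) ∨ e.1 = (y, x))
    (h' : e.1 = (x', y') ∨ e.1 = (y', x')) : (x = x' ∧ y = y') ∨ (x = y' ∧ y = x') := by
  rcases h with h | h <;> rcases h' with h' | h' <;> rw [h] at h' <;>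
    simp only [Prod.mk.injEq] at h' <;> tauto

/-- keep this signature -/
theorem thm_SatD : St_SatD := by
  classical
  intro n F hF
  obtain ⟨z, hz1, hz2⟩ := satd_exists hF
  obtain ⟨p, g, g0, gp, hg, ginj⟩ := satd_walk (r := Imp F) hz1
  obtain ⟨q, h, h0, hq, hh, -⟩ := satd_walk (r := Imp F) hz2
  -- the first repetition in the first walk
  have hp0 : 0 < p := by
    rcases Nat.eq_zero_or_pos p with h1 | h1
    · rw [h1, g0] at gp
      exact absurd gp.symm (neg_ne z)
    · exact h1
  have hq0 : 0 < q := by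
    rcases Nat.eq_zero_or_pos q with h1 | h1
    · rw [h1, h0] at hq
      exact absurd hq (neg_ne z)
    · exact h1
  have hex1 : ∃ j, j ≤ p ∧ ∃ i < j, (g j).1 = (g i).1 := ⟨p, le_rfl, 0, hp0, by rw [gp, g0]; rfl⟩
  obtain ⟨hjp, i, hij, hgi⟩ := Nat.find_spec hex1
  have hjmin := fun m (hm : m < Nat.find hex1) => Nat.find_min hex1 hm
  obtain ⟨j', hj'⟩ : ∃ j', Nat.find hex1 = j' + 1 := ⟨Nat.find hex1 - 1, by omega⟩
  rw [hj'] at hjp hij hgi hjmin
  have H1 : ∀ a b, a < b → b ≤ j' → (g a).1 ≠ (g b).1 := by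
    intro a b hab hb heq
    exact hjmin b (by omega) ⟨by omega, a, hab, heq.symm⟩
  have hgne : g i ≠ g (j' + 1) := ginj i (j' + 1) hij hjp
  have hgneg : g (j' + 1) = neg (g i) := by
    rcases eq_or_neg hgi with h1 | h1
    · exact absurd h1.symm hgne
    · exact h1
  have hstep : Imp F (g j') (g (j' + 1)) := hg j' (by omega)
  have hij' : i < j' := by
    rcases Nat.lt_succ_iff_lt_or_eq.1 hij with h1 | h1
    · exact h1
    · subst h1
      exact absurd hgi.symm (Imp.ne hstep)
  -- the first repetition in the second walk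
  have hex2 : ∃ k, 0 < k ∧ k ≤ q ∧
      ((∃ a ≤ j', (h k).1 = (g a).1) ∨ ∃ a < k, (h k).1 = (h a).1) :=
    ⟨q, hq0, le_rfl, Or.inl ⟨0, Nat.zero_le _, by rw [hq, g0]⟩⟩
  obtain ⟨hk0, hkq, hk⟩ := Nat.find_spec hex2
  have hkmin := fun m (hm : m < Nat.find hex2) => Nat.find_min hex2 hm
  obtain ⟨k', hk'⟩ : ∃ k', Nat.find hex2 = k' + 1 := ⟨Nat.find hex2 - 1, by omega⟩
  rw [hk'] at hkq hk hkmin
  have H3 : ∀ b, 0 < b → b ≤ k' → ∀ a ≤ j', (h b).1 ≠ (g a).1 := by
    intro b hb hbk a ha heq
    exact hkmin b (by omega) ⟨hb, by omega, Or.inl ⟨a, ha, heq⟩⟩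
  have H3' : ∀ b, 0 < b → b ≤ k' → ∀ a < b, (h b).1 ≠ (h a).1 := by
    intro b hb hbk a ha heq
    exact hkmin b (by omega) ⟨hb, by omega, Or.inr ⟨a, ha, heq⟩⟩
  have hstep' : Imp F (h k') (h (k' + 1)) := hh k' (by omega)
  have hh0 : h 0 = neg (g 0) := by rw [h0, g0]
  -- the path
  set W : ℕ → Lit n := fun m => if m ≤ j' then neg (g (j' - m)) else h (m - j') with hW
  have W1 : ∀ m, m ≤ j' → W m = neg (g (j' - m)) := fun m hm => if_pos hm
  have W2 : ∀ b, W (j' + b) = h b := by
    intro b
    rcases Nat.eq_zero_or_pos b with h1 | h1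
    · subst h1
      rw [W1 _ (by omega), hh0]
      have : j' - (j' + 0) = 0 := by omega
      rw [this]
    · have h2 : ¬ (j' + b ≤ j') := by omega
      have h3 : j' + b - j' = b := by omega
      show (if j' + b ≤ j' then _ else _) = _
      rw [if_neg h2, h3]
  have Wstep : ∀ m, m < j' + k' → Imp F (W m) (W (m + 1)) := by
    intro m hm
    rcases Nat.lt_or_ge m j' with h1 | h1
    · rw [W1 m h1.le, W1 (m + 1) h1]
      have h2 : j' - m = j' - (m + 1) + 1 := by omega
      rw [h2]
      exact (hg (j' - (m + 1)) (by omega)).contra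
    · obtain ⟨b, rfl⟩ := Nat.exists_eq_add_of_le h1
      rw [W2 b, add_assoc, W2 (b + 1)]
      exact hh b (by omega)
  have Winj : ∀ a b, a < b → b ≤ j' + k' → (W a).1 ≠ (W b).1 := by
    intro a b hab hb
    rcases Nat.lt_or_ge j' b with h1 | h1
    · obtain ⟨b', rfl⟩ := Nat.exists_eq_add_of_le h1.le
      rw [W2 b']
      rcases Nat.lt_or_ge j' a with h2 | h2
      · obtain ⟨a', rfl⟩ := Nat.exists_eq_add_of_le h2.le
        rw [W2 a']
        exact (H3' b' (by omega) (by omega) a' (by omega)).symm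
      · rw [W1 a h2]
        exact (H3 b' (by omega) (by omega) (j' - a) (by omega)).symm
    · rw [W1 a (by omega), W1 b h1]
      exact (H1 (j' - b) (j' - a) (by omega) (by omega)).symm
  have hr : j' + k' + 1 = j' + k' + 1 := rfl
  set w : Fin (j' + k' + 1) → Lit n := fun m => W m with hw
  have hpath : IsPath F w := by
    constructor
    · intro a b hab
      by_contra hne
      rcases lt_or_gt_of_ne (fun h1 : (a : ℕ) = b => hne (Fin.ext h1)) with h1 | h1
      · exact Winj a b h1 (by omega) hab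
      · exact Winj b a h1 (by omega) hab.symm
    · intro m
      exact Wstep m m.2
  -- the clauses of the path
  have hpcl : ∀ c ∈ pcl w,
      (∃ l, l + 1 ≤ j' ∧ (c.1 = (neg (g (l + 1)), g l) ∨ c.1 = (g l, neg (g (l + 1))))) ∨
      ∃ b, b + 1 ≤ k' ∧ (c.1 = (h b, neg (h (b + 1))) ∨ c.1 = (neg (h (b + 1)), h b)) := by
    intro c hc
    unfold pcl at hc
    rw [mem_filter] at hc
    obtain ⟨-, m, hm⟩ := hc
    have hm1 : (w m.castSucc) = W m := rfl
    have hm2 : (w m.succ) = W (m + 1) := rfl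
    rw [hm1, hm2] at hm
    have hmlt := m.2
    rcases Nat.lt_or_ge (m : ℕ) j' with h1 | h1
    · rw [W1 _ h1.le, W1 _ (show (m : ℕ) + 1 ≤ j' from h1), neg_neg'] at hm
      refine Or.inl ⟨j' - (m + 1), by omega, ?_⟩
      have h2 : j' - (m : ℕ) = j' - (m + 1) + 1 := by omega
      rw [h2] at hm
      exact hm
    · obtain ⟨b, hb⟩ := Nat.exists_eq_add_of_le h1
      rw [hb, W2 b, add_assoc, W2 (b + 1)] at hm
      exact Or.inr ⟨b, by omega, hm⟩
  -- the two clauses
  have hne1 : (g j').1 ≠ (neg (g (j' + 1))).1 := Has.ne hstep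
  have hne2 : (h k').1 ≠ (neg (h (k' + 1))).1 := Has.ne hstep'
  have he := mkCl_val (g j') (neg (g (j' + 1))) hne1
  have he' := mkCl_val (h k') (neg (h (k' + 1))) hne2
  have heF : mkCl (g j') (neg (g (j' + 1))) hne1 ∈ F := (has_iff hne1).1 hstep
  have heF' : mkCl (h k') (neg (h (k' + 1))) hne2 ∈ F := (has_iff hne2).1 hstep'
  set e := mkCl (g j') (neg (g (j' + 1))) hne1
  set e' := mkCl (h k') (neg (h (k' + 1))) hne2
  have hgn : neg (g (j' + 1)) = g i := by rw [hgneg, neg_neg']
  rw [hgn] at he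
  refine ⟨j' + k', w, e, e', hpath, heF, heF', ?_, ?_, ?_, ?_, ?_⟩
  · intro heq
    rw [← heq] at he'
    rcases satd_pair he he' with ⟨h1, h2⟩ | ⟨h1, h2⟩
    · rcases Nat.eq_zero_or_pos k' with h3 | h3
      · rw [h3, hh0] at h1
        exact H1 0 j' (by omega) le_rfl (by rw [h1]; rfl)
      · exact H3 k' h3 le_rfl j' le_rfl (by rw [h1])
    · rcases Nat.eq_zero_or_pos k' with h3 | h3
      · rw [h3, hh0] at h2
        rcases Nat.eq_zero_or_pos i with h4 | h4
        · rw [h4] at h2
          exact neg_ne _ h2.symm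
        · exact H1 0 i h4 hij'.le (by rw [h2]; rfl)
      · exact H3 k' h3 le_rfl i hij'.le (by rw [h2])
  · intro hmem
    rcases hpcl e hmem with ⟨l, hl, h1⟩ | ⟨b, hb, h1⟩
    · rcases satd_pair he h1 with ⟨h2, h3⟩ | ⟨h2, h3⟩
      · rcases Nat.lt_or_ge (l + 1) j' with h4 | h4
        · exact H1 (l + 1) j' h4 le_rfl (by rw [h2]; rfl)
        · have h5 : l + 1 = j' := by omega
          rw [h5] at h2
          exact neg_ne _ h2.symm
      · exact H1 l j' (by omega) le_rfl (by rw [h2])
    · rcases satd_pair he h1 with ⟨h2, h3⟩ | ⟨h2, h3⟩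
      · exact H3 (b + 1) (by omega) hb i hij'.le (by rw [h3]; rfl)
      · exact H3 (b + 1) (by omega) hb j' le_rfl (by rw [h2]; rfl)
  · intro hmem
    rcases hpcl e' hmem with ⟨l, hl, h1⟩ | ⟨b, hb, h1⟩
    · rcases satd_pair he' h1 with ⟨h2, h3⟩ | ⟨h2, h3⟩
      · rcases Nat.eq_zero_or_pos k' with h4 | h4
        · rw [h4, hh0] at h2
          exact H1 0 (l + 1) (by omega) hl (by rw [neg_inj h2])
        · exact H3 k' h4 le_rfl (l + 1) hl (by rw [h2]; rfl)
      · rcases Nat.eq_zero_or_pos k' with h4 | h4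
        · rw [h4, hh0] at h2
          rcases Nat.eq_zero_or_pos l with h5 | h5
          · rw [h5] at h2
            exact neg_ne _ h2
          · exact H1 0 l h5 (by omega) (by rw [← h2]; rfl)
        · exact H3 k' h4 le_rfl l (by omega) (by rw [h2])
    · rcases satd_pair he' h1 with ⟨h2, h3⟩ | ⟨h2, h3⟩
      · exact H3' k' (by omega) le_rfl b (by omega) (by rw [h2])
      · rcases Nat.lt_or_ge (b + 1) k' with h4 | h4
        · exact H3' k' (by omega) le_rfl (b + 1) h4 (by rw [h2]; rfl)
        · have h5 : b + 1 = k' := by omega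
          rw [h5] at h2
          exact neg_ne _ h2.symm
  · have hw0 : (w 0).1 = (g j').1 := by
      show (W 0).1 = _
      rw [W1 0 (Nat.zero_le _)]
      rfl
    have hwi : (w ⟨j' - i, by omega⟩).1 = (g i).1 := by
      show (W (j' - i)).1 = _
      rw [W1 _ (by omega), show j' - (j' - i) = i by omega]
      rfl
    refine ⟨⟨j' - i, by omega⟩, ?_⟩
    rw [hw0, hwi]
    rcases he with h1 | h1
    · left
      rw [h1]
      exact ⟨rfl, rfl⟩
    · right
      rw [h1]
      exact ⟨rfl, rfl⟩
  · have hwl : (w (Fin.last (j' + k'))).1 = (h k').1 := by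
      show (W (j' + k')).1 = _
      rw [W2]
    have hind : ∃ m : Fin (j' + k' + 1), (w m).1 = (h (k' + 1)).1 := by
      rcases hk with ⟨a, ha, h1⟩ | ⟨a, ha, h1⟩
      · refine ⟨⟨j' - a, by omega⟩, ?_⟩
        show (W (j' - a)).1 = _
        rw [W1 _ (by omega), show j' - (j' - a) = a by omega, h1]
        rfl
      · refine ⟨⟨j' + a, by omega⟩, ?_⟩
        show (W (j' + a)).1 = _
        rw [W2, h1]
    obtain ⟨m, hm⟩ := hind
    refine ⟨m, ?_⟩
    rw [hwl, hm]
    rcases he' with h1 | h1
    · left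
      rw [h1]
      exact ⟨rfl, rfl⟩
    · right
      rw [h1]
      exact ⟨rfl, rfl⟩

end Pool.Agent.R2
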