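import Mathlib
import Pool.Agent.R2.Basic
import Pool.Agent.R2.PC

/-!
# Random 2-CNF formulas: there is no bicycle below density one
-/

namespace Pool.Agent.R2

open Finset Pool.Agent.Helper56.Iso Pool.Agent.Dichotomy Filter Topology

/-- The clauses on the variables `a` and `b`. -/
def satp_near {n : ℕ} (a b : Fin n) : Finset (Cl n) :=
  univ.filter fun e => (e.1.1.1 = a ∧ e.1.2.1 = b) ∨ (e.1.2.1 = a ∧ e.1.1.1 = b)

theorem satp_near_card {n : ℕ} (a b : Fin n) : (satp_near a b).card ≤ 4 := by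
  classical
  have h4 : (univ : Finset (ZMod 2 × ZMod 2)).card = 4 := by
    rw [Finset.card_univ, Fintype.card_prod, ZMod.card]
  rw [← h4]
  refine Finset.card_le_card_of_injOn (fun e => (e.1.1.2, e.1.2.2)) (fun _ _ => by
    rw [Finset.mem_coe]
    exact Finset.mem_univ _) ?_
  intro e he f hf hef
  have he' : (e.1.1.1 = a ∧ e.1.2.1 = b) ∨ (e.1.2.1 = a ∧ e.1.1.1 = b) := by
    have := Finset.mem_coe.1 he
    unfold satp_near at this
    exact (Finset.mem_filter.1 this).2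
  have hf' : (f.1.1.1 = a ∧ f.1.2.1 = b) ∨ (f.1.2.1 = a ∧ f.1.1.1 = b) := by
    have := Finset.mem_coe.1 hf
    unfold satp_near at this
    exact (Finset.mem_filter.1 this).2
  have hef' : (e.1.1.2, e.1.2.2) = (f.1.1.2, f.1.2.2) := hef
  rw [Prod.mk.injEq] at hef'
  obtain ⟨h1, h2⟩ := hef'
  have he2 := e.2
  have hf2 := f.2
  have h3 : e.1.1.1 = f.1.1.1 ∧ e.1.2.1 = f.1.2.1 := by
    rcases he' with ⟨a1, a2⟩ | ⟨a1, a2⟩ <;> rcases hf' with ⟨b1, b2⟩ | ⟨b1, b2⟩
    · exact ⟨a1.trans b1.symm, a2.trans b2.symm⟩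
    · exfalso
      rw [a1, a2] at he2
      rw [b1, b2] at hf2
      exact lt_asymm he2 hf2
    · exfalso
      rw [a1, a2] at he2
      rw [b1, b2] at hf2
      exact lt_asymm he2 hf2
    · exact ⟨a2.trans b2.symm, a1.trans b1.symm⟩
  apply Subtype.ext
  exact Prod.ext (Prod.ext h3.1 h1) (Prod.ext h3.2 h2)

/-- The clauses which join `a` to a variable of the path `w`. -/
def satp_E {n r : ℕ} (w : Fin (r + 1) → Lit n) (a : Fin n) : Finset (Cl n) :=
  univ.biUnion fun i => satp_near a (w i).1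

theorem satp_E_card {n r : ℕ} (w : Fin (r + 1) → Lit n) (a : Fin n) :
    (satp_E w a).card ≤ 4 * (r + 1) := by
  unfold satp_E
  refine Finset.card_biUnion_le.trans ?_
  refine (Finset.sum_le_sum fun i _ => satp_near_card a (w i).1).trans (le_of_eq ?_)
  rw [Finset.sum_const, Finset.card_univ, Fintype.card_fin, smul_eq_mul]
  ring

/-- The possible pairs of additional clauses. -/
def satp_P {n r : ℕ} (w : Fin (r + 1) → Lit n) : Finset (Cl n × Cl n) :=
  (satp_E w (w 0).1 ×ˢ satp_E w (w (Fin.last r)).1).filter fun x =>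
    x.1 ≠ x.2 ∧ x.1 ∉ pcl w ∧ x.2 ∉ pcl w

theorem satp_P_card {n r : ℕ} (w : Fin (r + 1) → Lit n) :
    (satp_P w).card ≤ 16 * (r + 1) ^ 2 := by
  unfold satp_P
  refine (Finset.card_filter_le _ _).trans ?_
  rw [Finset.card_product]
  calc (satp_E w (w 0).1).card * (satp_E w (w (Fin.last r)).1).card ≤
      (4 * (r + 1)) * (4 * (r + 1)) :=
        Nat.mul_le_mul (satp_E_card w _) (satp_E_card w _)
    _ = _ := by ring

/-- The index set of the union bound. -/
noncomputable def satp_T (n : ℕ) :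
    Finset ((r : ℕ) × (_ : Fin (r + 1) → Lit n) × (Cl n × Cl n)) :=
  (range n).sigma fun r => (pc_W n r).sigma fun w => satp_P w

/-- The event of the union bound. -/
def satp_ev {n : ℕ} (t : (r : ℕ) × (_ : Fin (r + 1) → Lit n) × (Cl n × Cl n))
    (F : Finset (Cl n)) : Prop :=
  insert t.2.2.1 (insert t.2.2.2 (pcl t.2.1)) ⊆ F

theorem satp_event (hPcl : St_Pcl) {n : ℕ} {F : Finset (Cl n)}
    (h : ∃ (r : ℕ) (w : Fin (r + 1) → Lit n) (e e' : Cl n), IsBic F w e e') :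
    ∃ t ∈ satp_T n, satp_ev t F := by
  classical
  obtain ⟨r, w, e, e', hw, he, he', hne, hep, hep', ⟨i, hi⟩, ⟨j, hj⟩⟩ := h
  have hr : r < n := by
    have := Fintype.card_le_of_injective _ hw.1
    rw [Fintype.card_fin, Fintype.card_fin] at this
    omega
  refine ⟨⟨r, w, (e, e')⟩, ?_, ?_⟩
  · unfold satp_T
    rw [Finset.mem_sigma, Finset.mem_sigma]
    refine ⟨Finset.mem_range.2 hr, pc_mem.2 hw.1, ?_⟩
    unfold satp_P
    rw [Finset.mem_filter, Finset.mem_product]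
    refine ⟨⟨?_, ?_⟩, hne, hep, hep'⟩
    · unfold satp_E satp_near
      rw [Finset.mem_biUnion]
      exact ⟨i, Finset.mem_univ _, Finset.mem_filter.2 ⟨Finset.mem_univ _, hi⟩⟩
    · unfold satp_E satp_near
      rw [Finset.mem_biUnion]
      exact ⟨j, Finset.mem_univ _, Finset.mem_filter.2 ⟨Finset.mem_univ _, hj⟩⟩
  · unfold satp_ev
    intro f hf
    rcases Finset.mem_insert.1 hf with rfl | hf
    · exact he
    rcases Finset.mem_insert.1 hf with rfl | hf
    · exact he'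
    · exact ((hPcl w hw.1).2 F).1 hw hf

/-- see `St_SatP` -/
theorem thm_SatP (hPcl : St_Pcl) (hInc : St_Inc) : St_SatP := by
  classical
  intro α hα hα1
  have hsum : Summable fun r : ℕ => (((r + 1 : ℕ) : ℝ) ^ 2 * α ^ (r + 1)) := by
    have h1 : Summable fun r : ℕ => ((r : ℝ) ^ 2 * α ^ r) :=
      summable_pow_mul_geometric_of_norm_lt_one 2 (by
        rw [Real.norm_eq_abs, abs_of_pos hα]
        exact hα1)
    exact (summable_nat_add_iff 1).2 h1
  set K : ℝ := ∑' r : ℕ, (((r + 1 : ℕ) : ℝ) ^ 2 * α ^ (r + 1)) with hK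
  have hK0 : 0 ≤ K := tsum_nonneg fun r => by positivity
  have hu : Tendsto (fun n : ℕ => (32 * α * K) / (n : ℝ)) atTop (𝓝 0) :=
    tendsto_const_div_atTop_nhds_zero_nat _
  refine whp_of_le hα.le hu ?_
  filter_upwards [eventually_prob α hα.le] with n hn
  obtain ⟨hn2, hp0, hp1⟩ := hn
  set p := prob α n with hp
  have hnR : (2 : ℝ) ≤ n := by exact_mod_cast hn2
  obtain ⟨hI1, -, -⟩ := hInc (α := Cl n) p hp0 hp1
  have h1 : Pr p (fun F => ¬ ¬ ∃ (r : ℕ) (w : Fin (r + 1) → Lit n) (e e' : Cl n),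
      IsBic F w e e') ≤ Pr p (fun F => ∃ t ∈ satp_T n, satp_ev t F) := by
    refine Pr_mono hp0 hp1 fun F hF => satp_event hPcl (not_not.1 hF)
  refine h1.trans ((Pr_exists_le hp0 hp1 _ _).trans ?_)
  have h2 : ∀ t ∈ satp_T n, Pr p (satp_ev t) = p ^ (t.1 + 2) := by
    rintro ⟨r, w, e, e'⟩ ht
    unfold satp_T at ht
    rw [Finset.mem_sigma, Finset.mem_sigma] at ht
    obtain ⟨_, hw, hP⟩ := ht
    have hw' := pc_mem.1 hw
    unfold satp_P at hP
    obtain ⟨_, hne, h3, h4⟩ := Finset.mem_filter.1 hP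
    have h5 : Pr p (satp_ev (n := n) ⟨r, w, (e, e')⟩) =
        Pr p (fun F => insert e (insert e' (pcl w)) ⊆ F) := rfl
    rw [h5, hI1]
    congr 1
    have h6 : e ∉ insert e' (pcl w) := by
      rw [Finset.mem_insert, not_or]
      exact ⟨hne, h3⟩
    rw [Finset.card_insert_of_notMem h6, Finset.card_insert_of_notMem h4, (hPcl w hw').1]
  rw [Finset.sum_congr rfl h2]
  unfold satp_T
  rw [Finset.sum_sigma]
  have hpn : p ≤ α / n := by
    rw [hp]
    unfold prob
    apply div_le_div_of_nonneg_left hα.le (by linarith)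
    linarith
  have h3 : ∀ r ∈ range n, ∑ x ∈ (pc_W n r).sigma (fun w => satp_P w), p ^ (r + 2) ≤
      (32 * n * p ^ 2 * α⁻¹) * (((r + 1 : ℕ) : ℝ) ^ 2 * α ^ (r + 1)) := by
    intro r _
    rw [Finset.sum_const, nsmul_eq_mul, Finset.card_sigma]
    have h4 : ∑ w ∈ pc_W n r, (satp_P w).card ≤ (pc_W n r).card * (16 * (r + 1) ^ 2) := by
      refine (Finset.sum_le_sum fun w _ => satp_P_card w).trans (le_of_eq ?_)
      rw [Finset.sum_const, smul_eq_mul]
    have h5 : ((∑ w ∈ pc_W n r, (satp_P w).card : ℕ) : ℝ) ≤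
        ((pc_W n r).card : ℝ) * (16 * ((r : ℝ) + 1) ^ 2) := by exact_mod_cast h4
    calc ((∑ w ∈ pc_W n r, (satp_P w).card : ℕ) : ℝ) * p ^ (r + 2) ≤
          (((pc_W n r).card : ℝ) * (16 * ((r : ℝ) + 1) ^ 2)) * p ^ (r + 2) :=
          mul_le_mul_of_nonneg_right h5 (pow_nonneg hp0 _)
      _ = (16 * ((r : ℝ) + 1) ^ 2 * p ^ 2) * (((pc_W n r).card : ℝ) * p ^ r) := by
          rw [pow_add]
          ring
      _ ≤ (16 * ((r : ℝ) + 1) ^ 2 * p ^ 2) * (2 * n * α ^ r) :=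
          mul_le_mul_of_nonneg_left (pc_mean hα hn2 r) (by positivity)
      _ = _ := by
          push_cast
          rw [pow_succ]
          field_simp
          ring
  refine (Finset.sum_le_sum h3).trans ?_
  rw [← Finset.mul_sum]
  have h6 : ∑ r ∈ range n, (((r + 1 : ℕ) : ℝ) ^ 2 * α ^ (r + 1)) ≤ K :=
    hsum.sum_le_tsum _ fun r _ => by positivity
  have h7 : n * p ^ 2 ≤ α ^ 2 / n := by
    calc (n : ℝ) * p ^ 2 ≤ n * (α / n) ^ 2 := by gcongr
      _ = α ^ 2 / n := by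
        field_simp
  calc (32 * n * p ^ 2 * α⁻¹) * ∑ r ∈ range n, (((r + 1 : ℕ) : ℝ) ^ 2 * α ^ (r + 1)) ≤
        (32 * n * p ^ 2 * α⁻¹) * K := mul_le_mul_of_nonneg_left h6 (by positivity)
    _ = (32 * α⁻¹ * K) * (n * p ^ 2) := by ring
    _ ≤ (32 * α⁻¹ * K) * (α ^ 2 / n) := mul_le_mul_of_nonneg_left h7 (by positivity)
    _ = 32 * α * K / n := by
        field_simp

end Pool.Agent.R2
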