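import Mathlib
import Pool.Agent.R2.Basic
import Pool.Agent.R2.Stmts

/-!
# R2 / Spr: sprinkling
-/

namespace Pool.Agent.R2

open Finset Pool.Agent.Helper56.Iso Pool.Agent.Dichotomy Filter Topology

/-- the number of clauses between two disjoint sets -/
private theorem spr_card {n : ℕ} (Z Z' : Finset (Fin n)) (hd : Disjoint Z Z') :
    Z.card * Z'.card ≤ (betw (univ : Finset (Cl n)) Z Z').card := by
  classical
  rw [← Finset.card_product]
  have hne : ∀ q ∈ Z ×ˢ Z', q.1 ≠ q.2 := by
    intro q hq h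
    obtain ⟨h1, h2⟩ := Finset.mem_product.1 hq
    rw [← h] at h2
    exact Finset.disjoint_left.1 hd h1 h2
  let φ : Fin n × Fin n → Lit n × Lit n := fun q =>
    if q.1 < q.2 then ((q.1, 0), (q.2, 0)) else ((q.2, 0), (q.1, 0))
  have h1 : Z ×ˢ Z' ⊆ (Z ×ˢ Z') := subset_rfl
  rw [← Finset.card_map (Function.Embedding.subtype fun e : Lit n × Lit n => e.1.1 < e.2.1)
    (s := betw (univ : Finset (Cl n)) Z Z')]
  refine Finset.card_le_card_of_injOn φ (fun q hq => ?_) (fun q hq q' hq' h => ?_)
  · have hq2 := Finset.mem_coe.1 hq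
    have h3 := hne q hq2
    obtain ⟨h4, h5⟩ := Finset.mem_product.1 hq2
    refine Finset.mem_coe.2 (Finset.mem_map.2 ?_)
    by_cases hlt : q.1 < q.2
    · refine ⟨⟨((q.1, 0), (q.2, 0)), hlt⟩, ?_, ?_⟩
      · rw [mem_betw]
        exact ⟨mem_univ _, Or.inl ⟨h4, h5⟩⟩
      · simp [φ, hlt]
    · have hlt2 : q.2 < q.1 := lt_of_le_of_ne (not_lt.1 hlt) h3.symm
      refine ⟨⟨((q.2, 0), (q.1, 0)), hlt2⟩, ?_, ?_⟩
      · rw [mem_betw]
        exact ⟨mem_univ _, Or.inr ⟨h5, h4⟩⟩
      · simp [φ, hlt]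
  · have hq2 := Finset.mem_coe.1 hq
    have hq2' := Finset.mem_coe.1 hq'
    obtain ⟨h4, h5⟩ := Finset.mem_product.1 hq2
    obtain ⟨h4', h5'⟩ := Finset.mem_product.1 hq2'
    have hx : ∀ x : Fin n, x ∈ Z → x ∈ Z' → False := fun x a b =>
      Finset.disjoint_left.1 hd a b
    simp only [φ] at h
    split_ifs at h
    · simp only [Prod.mk.injEq, and_true] at h
      exact Prod.ext h.1 h.2
    · simp only [Prod.mk.injEq, and_true] at h
      exact (hx q.1 h4 (h.1 ▸ h5')).elim
    · simp only [Prod.mk.injEq, and_true] at h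
      exact (hx q.1 h4 (h.2 ▸ h5')).elim
    · simp only [Prod.mk.injEq, and_true] at h
      exact Prod.ext h.2 h.1

/-- keep this signature -/
theorem thm_Spr : St_Spr := by
  classical
  intro α b η hα hb hη
  set c : ℝ := α * η ^ 2 * b ^ 2 / 4 with hc
  have hc0 : 0 < c := by positivity
  have hl2 : 0 < Real.log 2 := Real.log_pos (by norm_num)
  have hl4 : 0 < Real.log 4 := Real.log_pos (by norm_num)
  refine ⟨c / (4 * Real.log 2), by positivity, ?_⟩
  obtain ⟨L0, hL0⟩ := exists_nat_ge (4 * Real.log 4 / c)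
  refine ⟨max 1 L0, fun L hL => ?_⟩
  have hL1 : 1 ≤ L := (le_max_left _ _).trans hL
  have hL2 : (L0 : ℝ) ≤ L := by exact_mod_cast (le_max_right _ _).trans hL
  have hLR : (1 : ℝ) ≤ L := by exact_mod_cast hL1
  obtain ⟨n1, hn1⟩ := exists_nat_ge (8 / c ^ 2)
  obtain ⟨n2, hn2⟩ := exists_nat_ge (1 + α / 2)
  refine ⟨max 2 (max n1 n2), fun n hn N Q hbn hQ hQd => ?_⟩
  have m2 : 2 ≤ n := (le_max_left _ _).trans hn
  have mn1 : (n1 : ℝ) ≤ n := by
    exact_mod_cast ((le_max_left _ _).trans (le_max_right _ _)).trans hn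
  have mn2 : (n2 : ℝ) ≤ n := by
    exact_mod_cast ((le_max_right _ _).trans (le_max_right _ _)).trans hn
  have hnR : (2 : ℝ) ≤ n := by exact_mod_cast m2
  set p : ℝ := prob α n with hp
  have hp0 : 0 ≤ p := prob_nonneg hα.le m2
  have hp1 : p ≤ 1 := by
    rw [hp]
    unfold prob
    rw [div_le_one (by linarith)]
    linarith
  set ρ : ℝ := c / (4 * Real.log 2) with hρ
  have hρ0 : 0 < ρ := by positivity
  -- sizes
  have hbi : ∀ I : Finset (Fin N), (I.biUnion Q).card = I.card * L := by
    intro I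
    rw [Finset.card_biUnion fun i _ j _ hij => hQd i j hij]
    simp [hQ]
  have hNL : N * L ≤ n := by
    have h1 := hbi univ
    rw [Finset.card_univ, Fintype.card_fin] at h1
    rw [← h1]
    have h2 := Finset.card_le_univ ((univ : Finset (Fin N)).biUnion Q)
    rwa [Fintype.card_fin] at h2
  have hNLR : (N : ℝ) * L ≤ n := by exact_mod_cast hNL
  -- one pair
  have hone : ∀ I I' : Finset (Fin N), Disjoint I I' → η * N ≤ I.card → η * N ≤ I'.card →
      Pr p (fun F => ¬ ρ * n ≤ ((betw F (I.biUnion Q) (I'.biUnion Q)).card : ℝ)) ≤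
        Real.exp (c / 4 * n - c * n) := by
    intro I I' hd hI hI'
    set Z := I.biUnion Q with hZ
    set Z' := I'.biUnion Q with hZ'
    have hZd : Disjoint Z Z' := by
      rw [hZ, hZ', Finset.disjoint_biUnion_left]
      intro i hi
      rw [Finset.disjoint_biUnion_right]
      intro j hj
      refine hQd i j ?_
      rintro rfl
      exact Finset.disjoint_left.1 hd hi hj
    set R : Finset (Cl n) := betw univ Z Z' with hR
    have hER : ∀ F : Finset (Cl n), F ∩ R = betw F Z Z' := by
      intro F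
      ext e
      rw [Finset.mem_inter, hR, mem_betw, mem_betw]
      constructor
      · rintro ⟨h1, -, h2⟩
        exact ⟨h1, h2⟩
      · rintro ⟨h1, h2⟩
        exact ⟨h1, mem_univ _, h2⟩
    set k : ℕ := ⌊ρ * n⌋₊ with hk
    have h1 : Pr p (fun F => ¬ ρ * n ≤ ((betw F Z Z').card : ℝ)) ≤
        Pr p (fun F => (F ∩ R).card ≤ k) := by
      refine Pr_mono hp0 hp1 fun F hF => ?_
      rw [hER]
      refine Nat.le_floor ?_
      exact (not_le.1 hF).le
    refine h1.trans ((lower_tail hp0 hp1 R k).trans ?_)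
    -- sizes
    have hZc : η * b * n ≤ Z.card := by
      rw [hZ, hbi]
      push_cast
      calc η * b * n = η * (b * n) := by ring
        _ ≤ η * (N * L) := mul_le_mul_of_nonneg_left hbn hη.le
        _ = (η * N) * L := by ring
        _ ≤ I.card * L := mul_le_mul_of_nonneg_right hI (by positivity)
    have hZc' : η * b * n ≤ Z'.card := by
      rw [hZ', hbi]
      push_cast
      calc η * b * n = η * (b * n) := by ring
        _ ≤ η * (N * L) := mul_le_mul_of_nonneg_left hbn hη.le
        _ = (η * N) * L := by ring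
        _ ≤ I'.card * L := mul_le_mul_of_nonneg_right hI' (by positivity)
    have hRc : (η * b * n) * (η * b * n) ≤ R.card := by
      have h2 : ((Z.card * Z'.card : ℕ) : ℝ) ≤ R.card := by exact_mod_cast spr_card Z Z' hZd
      push_cast at h2
      refine le_trans ?_ h2
      exact mul_le_mul hZc hZc' (by positivity) (by positivity)
    have hpR : c * n ≤ p * R.card / 2 := by
      have hp2 : α / (2 * n) ≤ p := by
        rw [hp]
        unfold prob
        refine div_le_div_of_nonneg_left hα.le (by linarith) (by linarith)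
      have h3 : α / (2 * n) * ((η * b * n) * (η * b * n)) ≤ p * R.card :=
        mul_le_mul hp2 hRc (by positivity) hp0
      have h4 : α / (2 * n) * ((η * b * n) * (η * b * n)) = 2 * (c * n) := by
        rw [hc]
        have : (n : ℝ) ≠ 0 := by linarith
        field_simp
        ring
      linarith
    have h2k : (2 : ℝ) ^ k ≤ Real.exp (c / 4 * n) := by
      have h5 : (2 : ℝ) ^ k = Real.exp (k * Real.log 2) := by
        rw [Real.exp_nat_mul, Real.exp_log (by norm_num)]
      rw [h5]
      refine Real.exp_le_exp.2 ?_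
      have h6 : (k : ℝ) ≤ ρ * n := Nat.floor_le (by positivity)
      calc (k : ℝ) * Real.log 2 ≤ ρ * n * Real.log 2 := mul_le_mul_of_nonneg_right h6 hl2.le
        _ = c / 4 * n := by
          rw [hρ]
          field_simp
    calc (2 : ℝ) ^ k * Real.exp (-(p * R.card / 2)) ≤
        Real.exp (c / 4 * n) * Real.exp (-(c * n)) := by
          refine mul_le_mul h2k (Real.exp_le_exp.2 (by linarith)) (Real.exp_pos _).le
            (Real.exp_pos _).le
      _ = Real.exp (c / 4 * n - c * n) := by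
          rw [← Real.exp_add, sub_eq_add_neg]
  -- union bound
  set T : Finset (Finset (Fin N) × Finset (Fin N)) := univ.filter fun q =>
    Disjoint q.1 q.2 ∧ η * N ≤ q.1.card ∧ η * N ≤ q.2.card with hT
  have h7 : Pr p (fun F => ¬ ∀ I I' : Finset (Fin N), Disjoint I I' → η * N ≤ I.card →
      η * N ≤ I'.card → ρ * n ≤ (betw F (I.biUnion Q) (I'.biUnion Q)).card) ≤
      Pr p (fun F => ∃ q ∈ T,
        ¬ ρ * n ≤ ((betw F (q.1.biUnion Q) (q.2.biUnion Q)).card : ℝ)) := by
    refine Pr_mono hp0 hp1 fun F hF => ?_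
    push Not at hF
    obtain ⟨I, I', h8, h9, h10, h11⟩ := hF
    exact ⟨(I, I'), Finset.mem_filter.2 ⟨mem_univ _, h8, h9, h10⟩, not_le.2 h11⟩
  refine h7.trans ((Pr_exists_le hp0 hp1 T _).trans ?_)
  have h12 : ∑ q ∈ T, Pr p (fun F =>
      ¬ ρ * n ≤ ((betw F (q.1.biUnion Q) (q.2.biUnion Q)).card : ℝ)) ≤
      T.card * Real.exp (c / 4 * n - c * n) := by
    rw [← nsmul_eq_mul]
    refine Finset.sum_le_card_nsmul _ _ _ fun q hq => ?_
    obtain ⟨-, h8, h9, h10⟩ := Finset.mem_filter.1 hq
    exact hone q.1 q.2 h8 h9 h10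
  refine h12.trans ?_
  have hTc : (T.card : ℝ) ≤ Real.exp (c / 4 * n) := by
    have h13 : T.card ≤ 4 ^ N := by
      refine (Finset.card_le_univ T).trans (le_of_eq ?_)
      rw [Fintype.card_prod, Fintype.card_finset, Fintype.card_fin, ← mul_pow]
      norm_num
    have h14 : (T.card : ℝ) ≤ 4 ^ N := by exact_mod_cast h13
    refine h14.trans ?_
    have h5 : (4 : ℝ) ^ N = Real.exp (N * Real.log 4) := by
      rw [Real.exp_nat_mul, Real.exp_log (by norm_num)]
    rw [h5]
    refine Real.exp_le_exp.2 ?_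
    have h15 : 4 * Real.log 4 / c ≤ L := hL0.trans hL2
    rw [div_le_iff₀ hc0] at h15
    have h16 : (N : ℝ) * (4 * Real.log 4) ≤ N * (L * c) :=
      mul_le_mul_of_nonneg_left h15 (Nat.cast_nonneg N)
    have h17 : (N : ℝ) * L * c ≤ n * c := mul_le_mul_of_nonneg_right hNLR hc0.le
    nlinarith
  calc (T.card : ℝ) * Real.exp (c / 4 * n - c * n) ≤
      Real.exp (c / 4 * n) * Real.exp (c / 4 * n - c * n) :=
        mul_le_mul_of_nonneg_right hTc (Real.exp_pos _).le
    _ = (Real.exp (c / 2 * n))⁻¹ := by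
        rw [← Real.exp_add, ← Real.exp_neg]
        congr 1
        ring
    _ ≤ 1 / n := by
        rw [one_div]
        have hn0 : (0 : ℝ) < n := by linarith
        rw [inv_le_inv₀ (Real.exp_pos _) hn0]
        have hq := Real.quadratic_le_exp_of_nonneg (by positivity : 0 ≤ c / 2 * (n : ℝ))
        have h18 : 8 / c ^ 2 ≤ n := hn1.trans mn1
        rw [div_le_iff₀ (by positivity)] at h18
        have h19 : (n : ℝ) ≤ (c / 2 * n) ^ 2 / 2 := by
          have : (n : ℝ) * 8 ≤ n * (n * c ^ 2) := mul_le_mul_of_nonneg_left h18 hn0.le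
          nlinarith
        have h20 : 0 ≤ c / 2 * (n : ℝ) := by positivity
        linarith

end Pool.Agent.R2
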