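import Mathlib
import Pool.Agent.R2.Basic

/-!
# Random 2-CNF formulas: above density one half
-/

namespace Pool.Agent.R2

open Finset Pool.Agent.Helper56.Iso Pool.Agent.Dichotomy Filter Topology

private theorem sup_Pr_eq {α : Type} [Fintype α] [DecidableEq α] (p : ℝ) (P : Finset α → Prop)
    [DecidablePred P] :
    Pr p P = ∑ F : Finset α, wt p F * (if P F then 1 else 0) := by
  unfold Pr
  refine Finset.sum_congr rfl fun F _ => ?_
  by_cases h : P F
  · rw [ind_of h, if_pos h, mul_one]
  · rw [ind_not h, if_neg h, mul_zero]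

/-- The clauses between `u` and `A`. -/
private def sup_H {n : ℕ} (A : Finset (Fin n)) (u : Fin n) : Finset (Cl n) :=
  univ.filter fun e => (e.1.1.1 = u ∧ e.1.2.1 ∈ A) ∨ (e.1.2.1 = u ∧ e.1.1.1 ∈ A)

private theorem sup_mem_nbr {n : ℕ} {F : Finset (Cl n)} {A : Finset (Fin n)} {u v : Fin n} :
    v ∈ nbr F A u ↔ v ∈ A ∧ Adj F u v := by
  classical
  unfold nbr
  exact Finset.mem_filter

private theorem sup_nbr {n : ℕ} (F : Finset (Cl n)) (A : Finset (Fin n)) (u : Fin n) :
    nbr (F ∩ sup_H A u) A u = nbr F A u := by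
  ext v
  rw [sup_mem_nbr, sup_mem_nbr]
  refine and_congr_right fun hv => ?_
  constructor
  · rintro ⟨a, b, h⟩
    exact ⟨a, b, h.mono inter_subset_left⟩
  · rintro ⟨a, b, e, he, h⟩
    refine ⟨a, b, e, mem_inter.2 ⟨he, ?_⟩, h⟩
    unfold sup_H
    rw [mem_filter]
    refine ⟨mem_univ _, ?_⟩
    rcases h with h | h <;> rw [h]
    · exact Or.inl ⟨rfl, hv⟩
    · exact Or.inr ⟨rfl, hv⟩

private theorem sup_Ev (hLoc : St_Loc) {n : ℕ} (F : Finset (Cl n)) (A A' N' : Finset (Fin n))
    (u : Fin n) (hu : u ∉ A' ∪ N') (L m : ℕ) :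
    Ev L (F \ sup_H A u) A' N' m ↔ Ev L F A' N' m := by
  refine (hLoc.1 (F \ sup_H A u) F A' N' ?_).2 L m
  intro e he1 he2
  rw [Finset.mem_sdiff]
  constructor
  · exact fun h => h.1
  · intro h
    refine ⟨h, fun h2 => ?_⟩
    unfold sup_H at h2
    rw [mem_filter] at h2
    rcases h2.2 with h3 | h3
    · exact hu (h3.1 ▸ he1)
    · exact hu (h3.1 ▸ he2)

private theorem sup_RS_empty {n : ℕ} (F : Finset (Cl n)) (A : Finset (Fin n)) :
    RS F A ∅ = ∅ := by
  classical
  unfold RS
  rw [filter_eq_empty_iff]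
  intro v _ h
  induction h with
  | base v hv => exact absurd hv (Finset.notMem_empty v)
  | step u v _ _ _ ih => exact ih (mem_univ _)

private theorem sup_RS_sub {n : ℕ} (F : Finset (Cl n)) (A N : Finset (Fin n)) :
    N ⊆ RS F A N := by
  classical
  intro v hv
  unfold RS
  rw [mem_filter]
  exact ⟨mem_univ _, Rch.base v hv⟩

/-- The number of neighbours: the generating function. -/
private theorem sup_gen (hMgf : St_Mgf) {n : ℕ} {p θ l : ℝ} (hp0 : 0 ≤ p) (hp : p ≤ 1)
    (hθ0 : 0 ≤ θ) (hθ : θ ≤ 1) (A : Finset (Fin n)) (u : Fin n) (hu : u ∉ A)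
    (hl : l ≤ (1 - (1 - p) ^ 4) * A.card) :
    (∑ F : Finset (Cl n), wt p F * θ ^ (nbr F A u).card) ≤ Real.exp (-(l * (1 - θ))) := by
  rw [hMgf p θ A u hu]
  have hq1 : (1 - p) ^ 4 ≤ 1 := pow_le_one₀ (by linarith) (by linarith)
  have hq2 : 0 ≤ (1 - p) ^ 4 := by positivity
  have h1 : (1 - p) ^ 4 + (1 - (1 - p) ^ 4) * θ = -((1 - (1 - p) ^ 4) * (1 - θ)) + 1 := by ring
  have h3 : 0 ≤ (1 - p) ^ 4 + (1 - (1 - p) ^ 4) * θ := by
    have := mul_nonneg (sub_nonneg.2 hq1) hθ0
    linarith
  have h2 : (1 - p) ^ 4 + (1 - (1 - p) ^ 4) * θ ≤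
      Real.exp (-((1 - (1 - p) ^ 4) * (1 - θ))) := by
    rw [h1]
    exact Real.add_one_le_exp _
  refine (pow_le_pow_left₀ h3 h2 _).trans ?_
  rw [← Real.exp_nat_mul]
  refine Real.exp_le_exp.2 ?_
  have h4 := mul_le_mul_of_nonneg_right hl (sub_nonneg.2 hθ)
  have h5 : (A.card : ℝ) * (-((1 - (1 - p) ^ 4) * (1 - θ))) =
      -((1 - (1 - p) ^ 4) * A.card * (1 - θ)) := by ring
  rw [h5]
  linarith

/-- The bound of the exploration. -/
private theorem sup_main (hRec : St_Rec) (hLoc : St_Loc) (hFub : St_Fub) (hMgf : St_Mgf)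
    {n : ℕ} {p θ c l t : ℝ} (hp0 : 0 ≤ p) (hp : p ≤ 1) (hθ0 : 0 < θ) (hθ : θ ≤ 1) (hc0 : 0 ≤ c)
    (ht : 0 < t) (hc : Real.exp c * Real.exp (-(l * (1 - θ))) ≤ θ)
    (hq : ∀ A : Finset (Fin n), t ≤ A.card → l ≤ (1 - (1 - p) ^ 4) * A.card) (L : ℕ) :
    ∀ (s : ℕ) (A N : Finset (Fin n)), 2 * A.card + N.card = s → Disjoint A N → ∀ m : ℕ,
      Pr p (fun F => Ev L F A N m) ≤ Real.exp (c * (t + L)) * (θ ^ L)⁻¹ *
        (θ ^ N.card * Real.exp (-(c * (A.card + N.card)))) := by
  classical
  intro s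
  induction s using Nat.strong_induction_on with
  | _ s ih =>
    intro A N hs hAN m
    rcases lt_or_ge (A.card : ℝ) t with hA | hA
    · rcases Nat.lt_or_ge N.card L with hN | hN
      · refine (Pr_le_one hp0 hp _).trans ?_
        have h1 : Real.exp (c * (t + L)) * (θ ^ L)⁻¹ *
            (θ ^ N.card * Real.exp (-(c * (A.card + N.card)))) =
            Real.exp (c * ((t - A.card) + (L - N.card))) * ((θ ^ L)⁻¹ * θ ^ N.card) := by
          have h2 : Real.exp (c * ((t - A.card) + (L - N.card))) =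
              Real.exp (c * (t + L)) * Real.exp (-(c * (A.card + N.card))) := by
            rw [← Real.exp_add]
            congr 1
            ring
          rw [h2]
          ring
        rw [h1]
        have h3 : 1 ≤ Real.exp (c * ((t - A.card) + (L - N.card))) := by
          apply Real.one_le_exp
          apply mul_nonneg hc0
          have : (N.card : ℝ) ≤ L := by exact_mod_cast hN.le
          linarith
        have h4 : 1 ≤ (θ ^ L)⁻¹ * θ ^ N.card := by
          rw [← div_eq_inv_mul, le_div_iff₀ (by positivity), one_mul]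
          exact pow_le_pow_of_le_one hθ0.le hθ hN.le
        exact one_le_mul_of_one_le_of_one_le h3 h4
      · have h1 : Pr p (fun F => Ev L F A N m) = 0 := by
          rw [sup_Pr_eq]
          refine Finset.sum_eq_zero fun F _ => ?_
          rw [if_neg, mul_zero]
          rintro ⟨h2, _⟩
          have := card_le_card (sup_RS_sub F A N)
          omega
        rw [h1]
        positivity
    rcases N.eq_empty_or_nonempty with hN | ⟨u, hu⟩
    · subst hN
      have hA0 : 0 < A.card := by
        have : (0 : ℝ) < A.card := lt_of_lt_of_le ht hA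
        exact_mod_cast this
      obtain ⟨v, hv⟩ := card_pos.1 hA0
      have h1 : Pr p (fun F => Ev L F A ∅ m) ≤ Pr p (fun F => Ev L F (A.erase v) {v} 0) := by
        refine Pr_mono hp0 hp fun F hF => ?_
        refine hLoc.2.2.1 F A v L hv ?_
        have h2 := hF.2
        rwa [sup_RS_empty, sdiff_empty] at h2
      refine h1.trans ?_
      have hlt : 2 * (A.erase v).card + ({v} : Finset (Fin n)).card < s := by
        rw [card_erase_of_mem hv, card_singleton]
        rw [card_empty] at hs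
        omega
      refine (ih _ hlt (A.erase v) {v} rfl (by simp) 0).trans ?_
      refine mul_le_mul_of_nonneg_left ?_ (by positivity)
      rw [card_singleton, card_empty, pow_one, pow_zero, card_erase_of_mem hv]
      have h3 : (((A.card - 1 : ℕ) : ℝ) + ((1 : ℕ) : ℝ)) = (A.card : ℝ) + ((0 : ℕ) : ℝ) := by
        rw [Nat.cast_sub hA0]
        push_cast
        ring
      rw [h3]
      exact mul_le_mul_of_nonneg_right hθ (Real.exp_pos _).le
    · have huA : u ∉ A := fun h => (Finset.disjoint_left.1 hAN h) hu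
      have hnb : ∀ F : Finset (Cl n), nbr F A u ⊆ A := by
        intro F v hv
        exact (sup_mem_nbr.1 hv).1
      have hdis : ∀ F : Finset (Cl n), Disjoint (N.erase u) (nbr F A u) := by
        intro F
        refine Finset.disjoint_left.2 fun v hv hv2 => ?_
        exact (Finset.disjoint_left.1 hAN (hnb F hv2)) (mem_of_mem_erase hv)
      have hcard : ∀ F : Finset (Cl n), (N.erase u ∪ nbr F A u).card =
          N.card - 1 + (nbr F A u).card := by
        intro F
        rw [card_union_of_disjoint (hdis F), card_erase_of_mem hu]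
      have hNpos : 0 < N.card := card_pos.2 ⟨u, hu⟩
      have hu' : ∀ F : Finset (Cl n), u ∉ (A \ nbr F A u) ∪ (N.erase u ∪ nbr F A u) := by
        intro F h
        rcases mem_union.1 h with h | h
        · exact huA (mem_sdiff.1 h).1
        · rcases mem_union.1 h with h | h
          · exact (notMem_erase u N) h
          · exact huA (hnb F h)
      have hdis2 : ∀ F : Finset (Cl n), Disjoint (A \ nbr F A u) (N.erase u ∪ nbr F A u) := by
        intro F
        refine Finset.disjoint_left.2 fun v hv hv2 => ?_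
        rcases mem_union.1 hv2 with h | h
        · exact (Finset.disjoint_left.1 hAN (mem_sdiff.1 hv).1) (mem_of_mem_erase h)
        · exact (mem_sdiff.1 hv).2 h
      set f : Finset (Cl n) → Finset (Cl n) → ℝ := fun X Y =>
        if Ev L Y (A \ nbr X A u) (N.erase u ∪ nbr X A u) (m + 1) then 1 else 0 with hf
      have hf2 : ∀ F F' : Finset (Cl n), f (F ∩ sup_H A u) (F' \ sup_H A u) =
          if Ev L F' (A \ nbr F A u) (N.erase u ∪ nbr F A u) (m + 1) then 1 else 0 := by
        intro F F'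
        rw [hf]
        simp only [sup_nbr]
        simp only [sup_Ev hLoc F' A _ _ u (hu' F)]
      have h1 : Pr p (fun F => Ev L F A N m) =
          ∑ F, wt p F * f (F ∩ sup_H A u) (F \ sup_H A u) := by
        rw [sup_Pr_eq]
        refine Finset.sum_congr rfl fun F _ => ?_
        rw [hf2]
        congr 1
        have h2 := (hRec F A N u hAN hu).2.2 L m
        simp only [h2]
      rw [h1, hFub]
      set K0 : ℝ := Real.exp (c * (t + L)) * (θ ^ L)⁻¹ with hK0
      have hK0' : 0 ≤ K0 := by positivity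
      have h4 : ∀ F : Finset (Cl n), ∑ F', wt p F' * f (F ∩ sup_H A u) (F' \ sup_H A u) ≤
          K0 * (θ ^ (N.card - 1) * Real.exp (-(c * (A.card + (N.card - 1 : ℕ))))) *
            θ ^ (nbr F A u).card := by
        intro F
        have h5 : ∑ F', wt p F' * f (F ∩ sup_H A u) (F' \ sup_H A u) =
            Pr p (fun F' => Ev L F' (A \ nbr F A u) (N.erase u ∪ nbr F A u) (m + 1)) := by
          rw [sup_Pr_eq]
          refine Finset.sum_congr rfl fun F' _ => ?_
          rw [hf2]
        rw [h5]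
        have h6 : 2 * (A \ nbr F A u).card + (N.erase u ∪ nbr F A u).card < s := by
          rw [hcard F, card_sdiff_of_subset (hnb F)]
          have h7 := card_le_card (hnb F)
          omega
        refine (ih _ h6 _ _ rfl (hdis2 F) (m + 1)).trans (le_of_eq ?_)
        rw [hcard F, pow_add]
        have h8 : (((A \ nbr F A u).card : ℝ) + ((N.card - 1 + (nbr F A u).card : ℕ) : ℝ)) =
            (A.card : ℝ) + ((N.card - 1 : ℕ) : ℝ) := by
          rw [card_sdiff_of_subset (hnb F), Nat.cast_sub (card_le_card (hnb F)), Nat.cast_add]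
          ring
        rw [h8]
        ring
      have h8 : ∑ F, wt p F * ∑ F', wt p F' * f (F ∩ sup_H A u) (F' \ sup_H A u) ≤
          ∑ F, wt p F * (K0 * (θ ^ (N.card - 1) *
            Real.exp (-(c * (A.card + (N.card - 1 : ℕ))))) * θ ^ (nbr F A u).card) :=
        Finset.sum_le_sum fun F _ => mul_le_mul_of_nonneg_left (h4 F) (wt_nonneg hp0 hp F)
      refine h8.trans ?_
      have h9 : ∑ F, wt p F * (K0 * (θ ^ (N.card - 1) *
            Real.exp (-(c * (A.card + (N.card - 1 : ℕ))))) * θ ^ (nbr F A u).card) =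
          K0 * (θ ^ (N.card - 1) * Real.exp (-(c * (A.card + (N.card - 1 : ℕ))))) *
          ∑ F, wt p F * θ ^ (nbr F A u).card := by
        rw [Finset.mul_sum]
        refine Finset.sum_congr rfl fun F _ => ?_
        ring
      rw [h9]
      have h10 := sup_gen hMgf hp0 hp hθ0.le hθ A u huA (hq A hA)
      have h11 : 0 ≤ K0 * (θ ^ (N.card - 1) *
          Real.exp (-(c * (A.card + (N.card - 1 : ℕ))))) := by positivity
      refine (mul_le_mul_of_nonneg_left h10 h11).trans ?_
      have h12 : θ ^ N.card = θ ^ (N.card - 1) * θ := by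
        rw [← pow_succ]
        congr 1
        omega
      have h13 : Real.exp (-(c * (A.card + (N.card - 1 : ℕ)))) =
          Real.exp (-(c * (A.card + N.card))) * Real.exp c := by
        rw [← Real.exp_add]
        congr 1
        rw [Nat.cast_sub hNpos]
        push_cast
        ring
      rw [h12, h13]
      calc K0 * (θ ^ (N.card - 1) * (Real.exp (-(c * (A.card + N.card))) * Real.exp c)) *
            Real.exp (-(l * (1 - θ)))
          = K0 * (θ ^ (N.card - 1) * Real.exp (-(c * (A.card + N.card)))) *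
            (Real.exp c * Real.exp (-(l * (1 - θ)))) := by ring
        _ ≤ K0 * (θ ^ (N.card - 1) * Real.exp (-(c * (A.card + N.card)))) * θ :=
            mul_le_mul_of_nonneg_left hc (by positivity)
        _ = _ := by ring

/-- see `St_Sup` -/
theorem thm_Sup (hRec : St_Rec) (hLoc : St_Loc) (hFub : St_Fub) (hMgf : St_Mgf) : St_Sup := by
  classical
  intro α hα
  set l : ℝ := (1 + 2 * α) / 2 with hldef
  have hl1 : 1 < l := by rw [hldef]; linarith
  have hl2 : l < 2 * α := by rw [hldef]; linarith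
  have hl0 : 0 < l := by linarith
  have hα0 : 0 < 2 * α := by linarith
  set θ : ℝ := (l + 1) / (2 * l) with hθdef
  have hθ0 : 0 < θ := by positivity
  have hθ1 : θ < 1 := by
    rw [hθdef, div_lt_one (by positivity)]
    linarith
  have hlx : l * (1 - θ) = (l - 1) / 2 := by
    rw [hθdef]
    field_simp
    ring
  have hlt : Real.exp (-(l * (1 - θ))) < θ := by
    rw [hlx, Real.exp_neg, hθdef]
    have h1 : (l - 1) / 2 + 1 < Real.exp ((l - 1) / 2) := Real.add_one_lt_exp (by linarith)
    have h2 : (l + 1) / 2 < Real.exp ((l - 1) / 2) := by linarith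
    rw [inv_lt_comm₀ (Real.exp_pos _) (by positivity), inv_div]
    refine lt_of_le_of_lt ?_ h2
    rw [div_le_div_iff₀ (by linarith) (by norm_num)]
    nlinarith [sq_nonneg (l - 1)]
  set c : ℝ := Real.log θ + l * (1 - θ) with hcdef
  have hc0 : 0 < c := by
    have := (Real.lt_log_iff_exp_lt hθ0).2 hlt
    linarith
  have hc : Real.exp c * Real.exp (-(l * (1 - θ))) ≤ θ := by
    rw [← Real.exp_add, hcdef, add_neg_cancel_right, Real.exp_log hθ0]
  set δ : ℝ := (1 - l / (2 * α)) / 2 with hδdef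
  have hr1 : l / (2 * α) < 1 := by
    rw [div_lt_one hα0]
    exact hl2
  have hr0 : 0 < l / (2 * α) := by positivity
  have hδ0 : 0 < δ := by rw [hδdef]; linarith
  have hδ1 : δ < 1 := by rw [hδdef]; linarith
  have hgap : l < (1 - δ) * (2 * α) := by
    have h1 : l / (2 * α) < 1 - δ := by rw [hδdef]; linarith
    rwa [div_lt_iff₀ hα0] at h1
  refine ⟨δ, c, hδ0, hδ1, hc0, ?_⟩
  intro L hL
  have hε : 0 < (1 - l / ((1 - δ) * (2 * α))) / 2 := by
    have : l / ((1 - δ) * (2 * α)) < 1 := by
      rw [div_lt_one (by linarith)]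
      exact hgap
    linarith
  have hev : ∀ᶠ n : ℕ in atTop, (2 ≤ n ∧ 0 ≤ prob α n ∧ prob α n ≤ 1) ∧
      prob α n ≤ (1 - l / ((1 - δ) * (2 * α))) / 2 :=
    (eventually_prob α (by linarith)).and (eventually_prob_le α hε)
  obtain ⟨n0, hn0⟩ := eventually_atTop.1 hev
  refine ⟨Real.exp (c * L) * (θ ^ L)⁻¹, n0, ?_⟩
  intro n hn A
  obtain ⟨⟨hn2, hp0, hp1⟩, hps⟩ := hn0 n hn
  set p := prob α n with hpdef
  have hnR : (2 : ℝ) ≤ n := by exact_mod_cast hn2
  have ht : 0 < (1 - δ) * (n : ℝ) := by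
    apply mul_pos <;> linarith
  have h4pn : 4 * p * ((n : ℝ) - 1) = 2 * α := by
    have : (n : ℝ) - 1 ≠ 0 := by linarith
    rw [hpdef]
    unfold prob
    field_simp
    ring
  have hq : ∀ B : Finset (Fin n), (1 - δ) * (n : ℝ) ≤ B.card → l ≤ (1 - (1 - p) ^ 4) * B.card := by
    intro B hB
    have h1 : 4 * p - 6 * p ^ 2 ≤ 1 - (1 - p) ^ 4 := by
      have e1 : 1 - (1 - p) ^ 4 - (4 * p - 6 * p ^ 2) = p ^ 3 * (4 - p) := by ring
      have e2 : 0 ≤ p ^ 3 * (4 - p) := mul_nonneg (by positivity) (by linarith)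
      linarith
    have h2 : 0 ≤ 1 - (1 - p) ^ 4 := by
      have := pow_le_one₀ (n := 4) (sub_nonneg.2 hp1) (by linarith : 1 - p ≤ 1)
      linarith
    have h3 : (1 - (1 - p) ^ 4) * ((1 - δ) * n) ≤ (1 - (1 - p) ^ 4) * B.card :=
      mul_le_mul_of_nonneg_left hB h2
    have h4 : (4 * p - 6 * p ^ 2) * ((1 - δ) * n) ≤ (1 - (1 - p) ^ 4) * ((1 - δ) * n) :=
      mul_le_mul_of_nonneg_right h1 ht.le
    have h5 : (4 * p - 6 * p ^ 2) * ((1 - δ) * n) =
        (1 - 3 / 2 * p) * ((1 - δ) * (4 * p * n)) := by ring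
    have h6 : 2 * α ≤ 4 * p * n := by
      have : 4 * p * ((n : ℝ) - 1) ≤ 4 * p * n := by
        apply mul_le_mul_of_nonneg_left _ (by linarith)
        linarith
      linarith
    have h7 : l / ((1 - δ) * (2 * α)) ≤ 1 - 3 / 2 * p := by linarith
    have h8 : 0 < (1 - δ) * (2 * α) := by linarith
    have h9 : l ≤ (1 - 3 / 2 * p) * ((1 - δ) * (2 * α)) := by
      rwa [div_le_iff₀ h8] at h7
    have h10 : 0 ≤ 1 - 3 / 2 * p := by
      have : 0 < l / ((1 - δ) * (2 * α)) := by positivity
      linarith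
    have h11 : (1 - 3 / 2 * p) * ((1 - δ) * (2 * α)) ≤
        (1 - 3 / 2 * p) * ((1 - δ) * (4 * p * n)) := by
      apply mul_le_mul_of_nonneg_left _ h10
      apply mul_le_mul_of_nonneg_left h6
      linarith
    linarith
  have hmain := sup_main hRec hLoc hFub hMgf (n := n) hp0 hp1 hθ0 hθ1.le hc0.le ht hc hq L
    _ A ∅ rfl (Finset.disjoint_empty_right A) 0
  have h1 : Pr p (fun F => Small F A L) ≤ Pr p (fun F => Ev L F A ∅ 0) := by
    refine Pr_mono hp0 hp1 fun F hF => ?_
    unfold Ev
    rw [sup_RS_empty, card_empty, sdiff_empty]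
    exact ⟨by omega, hF⟩
  refine h1.trans (hmain.trans (le_of_eq ?_))
  rw [card_empty, pow_zero, one_mul]
  have h2 : Real.exp (c * ((1 - δ) * n + L)) * Real.exp (-(c * (A.card + ((0 : ℕ) : ℝ)))) =
      Real.exp (c * L) * Real.exp (-(c * (A.card - (1 - δ) * n))) := by
    rw [← Real.exp_add, ← Real.exp_add]
    congr 1
    push_cast
    ring
  calc Real.exp (c * ((1 - δ) * n + L)) * (θ ^ L)⁻¹ *
        Real.exp (-(c * (A.card + ((0 : ℕ) : ℝ))))
      = (Real.exp (c * ((1 - δ) * n + L)) * Real.exp (-(c * (A.card + ((0 : ℕ) : ℝ))))) *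
        (θ ^ L)⁻¹ := by ring
    _ = _ := by
      rw [h2]
      ring

end Pool.Agent.R2
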