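import Mathlib
import Pool.Agent.R2.Basic
import Pool.Agent.R2.Fub

/-!
# R2 [Uni]: the union of two independent random sets
-/

namespace Pool.Agent.R2

open Finset Pool.Agent.Helper56.Iso Pool.Agent.Dichotomy Filter Topology

/-- The second random set, given the first one. -/
theorem uni_inner {α : Type} [Fintype α] [DecidableEq α] (p : ℝ) (F : Finset α)
    (f : Finset α → ℝ) :
    ∑ F', wt p F' * f (F ∪ F') = ∑ B ∈ (Fᶜ).powerset, fub_w p Fᶜ B * f (F ∪ B) := by
  have h1 : ∀ F' : Finset α, F ∪ F' = F ∪ (F' \ F) := fun F' =>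
    Finset.union_sdiff_self_eq_union.symm
  have h2 : ∑ F', wt p F' * f (F ∪ F') = ∑ F', wt p F' * f (F ∪ (F' \ F)) := by
    apply Finset.sum_congr rfl
    intro F' _
    rw [← h1 F']
  rw [h2]
  have h3 := fub_sum p F (fun _ B => f (F ∪ B))
  rw [h3]
  have h4 : ∀ A ∈ F.powerset, ∑ B ∈ (Fᶜ).powerset, fub_w p F A * (fub_w p Fᶜ B * f (F ∪ B)) =
      fub_w p F A * ∑ B ∈ (Fᶜ).powerset, fub_w p Fᶜ B * f (F ∪ B) := by
    intro A _
    rw [Finset.mul_sum]
  rw [Finset.sum_congr rfl h4, ← Finset.sum_mul, fub_sum_w, one_mul]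

/-- Reindexing by the union. -/
theorem uni_reindex {α : Type} [Fintype α] [DecidableEq α] (Φ : Finset α → Finset α → ℝ) :
    ∑ F : Finset α, ∑ B ∈ (Fᶜ).powerset, Φ F B =
      ∑ G : Finset α, ∑ F ∈ G.powerset, Φ F (G \ F) := by
  rw [Finset.sum_sigma', Finset.sum_sigma']
  refine Finset.sum_bij' (fun q _ => (⟨q.1 ∪ q.2, q.1⟩ : (_ : Finset α) × Finset α))
    (fun q _ => (⟨q.2, q.1 \ q.2⟩ : (_ : Finset α) × Finset α)) ?_ ?_ ?_ ?_ ?_
  · rintro ⟨F, B⟩ _
    exact Finset.mem_sigma.2 ⟨Finset.mem_univ _,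
      Finset.mem_powerset.2 Finset.subset_union_left⟩
  · rintro ⟨G, F⟩ _
    refine Finset.mem_sigma.2 ⟨Finset.mem_univ _, Finset.mem_powerset.2 ?_⟩
    intro e he
    exact Finset.mem_compl.2 (Finset.mem_sdiff.1 he).2
  · rintro ⟨F, B⟩ hq
    have hB : B ⊆ Fᶜ := Finset.mem_powerset.1 (Finset.mem_sigma.1 hq).2
    have e1 : (F ∪ B) \ F = B := by
      ext e
      rw [Finset.mem_sdiff, Finset.mem_union]
      exact ⟨fun h => h.1.elim (fun h' => absurd h' h.2) id,
        fun h => ⟨Or.inr h, Finset.mem_compl.1 (hB h)⟩⟩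
    change (⟨F, (F ∪ B) \ F⟩ : (_ : Finset α) × Finset α) = ⟨F, B⟩
    rw [e1]
  · rintro ⟨G, F⟩ hq
    have hF : F ⊆ G := Finset.mem_powerset.1 (Finset.mem_sigma.1 hq).2
    have e1 : F ∪ (G \ F) = G := Finset.union_sdiff_of_subset hF
    change (⟨F ∪ (G \ F), F⟩ : (_ : Finset α) × Finset α) = ⟨G, F⟩
    rw [e1]
  · rintro ⟨F, B⟩ hq
    have hB : B ⊆ Fᶜ := Finset.mem_powerset.1 (Finset.mem_sigma.1 hq).2
    have e1 : (F ∪ B) \ F = B := by
      ext e
      rw [Finset.mem_sdiff, Finset.mem_union]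
      exact ⟨fun h => h.1.elim (fun h' => absurd h' h.2) id,
        fun h => ⟨Or.inr h, Finset.mem_compl.1 (hB h)⟩⟩
    change Φ F B = Φ F ((F ∪ B) \ F)
    rw [e1]

theorem uni_weight {α : Type} [Fintype α] [DecidableEq α] (p p1 p2 : ℝ)
    (hp : 1 - p = (1 - p1) * (1 - p2)) (G : Finset α) :
    ∑ F ∈ G.powerset, wt p1 F * fub_w p2 Fᶜ (G \ F) = wt p G := by
  have h1 : ∀ F ∈ G.powerset, wt p1 F * fub_w p2 Fᶜ (G \ F) =
      (p1 ^ F.card * ((1 - p1) * p2) ^ (G \ F).card) * (1 - p) ^ (univ \ G).card := by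
    intro F hF
    have hFG : F ⊆ G := Finset.mem_powerset.1 hF
    have h2 : G \ F ⊆ Fᶜ := fun e he => Finset.mem_compl.2 (Finset.mem_sdiff.1 he).2
    rw [fub_w_eq p2 h2]
    have h3 : Fᶜ \ (G \ F) = univ \ G := by
      ext e
      rw [Finset.mem_sdiff, Finset.mem_compl, Finset.mem_sdiff, Finset.mem_sdiff]
      constructor
      · intro h
        exact ⟨Finset.mem_univ e, fun hG => h.2 ⟨hG, h.1⟩⟩
      · intro h
        exact ⟨fun hF' => h.2 (hFG hF'), fun h' => h.2 h'.1⟩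
    have h4 : (univ \ F).card = (G \ F).card + (univ \ G).card := by
      have h5 : univ \ F = (G \ F) ∪ (univ \ G) := by
        ext e
        rw [Finset.mem_union, Finset.mem_sdiff, Finset.mem_sdiff, Finset.mem_sdiff]
        constructor
        · intro h
          by_cases hG : e ∈ G
          · exact Or.inl ⟨hG, h.2⟩
          · exact Or.inr ⟨h.1, hG⟩
        · rintro (h | h)
          · exact ⟨Finset.mem_univ e, h.2⟩
          · exact ⟨Finset.mem_univ e, fun h' => h.2 (hFG h')⟩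
      have h6 : Disjoint (G \ F) (univ \ G) := by
        rw [Finset.disjoint_left]
        intro e he he'
        exact (Finset.mem_sdiff.1 he').2 (Finset.mem_sdiff.1 he).1
      rw [h5, Finset.card_union_of_disjoint h6]
    rw [h3]
    unfold wt
    rw [h4, pow_add, hp, mul_pow, mul_pow]
    ring
  rw [Finset.sum_congr rfl h1, ← Finset.sum_mul]
  have h7 : ∑ F ∈ G.powerset, (p1 ^ F.card * ((1 - p1) * p2) ^ (G \ F).card) = p ^ G.card := by
    have h8 := Finset.prod_add (fun _ : α => p1) (fun _ => (1 - p1) * p2) G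
    have h9 : ∏ _e ∈ G, (p1 + (1 - p1) * p2) = p ^ G.card := by
      rw [Finset.prod_const]
      congr 1
      linarith
    rw [← h9, h8]
    apply Finset.sum_congr rfl
    intro F _
    rw [Finset.prod_const, Finset.prod_const]
  rw [h7]
  rfl

theorem thm_Uni : St_Uni := by
  intro α _ _ p p1 p2 f hp
  have h1 : ∑ F, wt p1 F * ∑ F', wt p2 F' * f (F ∪ F') =
      ∑ F : Finset α, ∑ B ∈ (Fᶜ).powerset, wt p1 F * (fub_w p2 Fᶜ B * f (F ∪ B)) := by
    apply Finset.sum_congr rfl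
    intro F _
    rw [uni_inner, Finset.mul_sum]
  rw [h1, uni_reindex (fun F B => wt p1 F * (fub_w p2 Fᶜ B * f (F ∪ B)))]
  apply Finset.sum_congr rfl
  intro G _
  rw [← uni_weight p p1 p2 hp G, Finset.sum_mul]
  apply Finset.sum_congr rfl
  intro F hF
  rw [Finset.union_sdiff_of_subset (Finset.mem_powerset.1 hF)]
  ring

end Pool.Agent.R2
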