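import Mathlib
import Pool.Agent.R2.Asm
import Pool.Agent.R2.Ov
import Pool.Agent.R2.Cls
import Pool.Agent.R2.Cnt
import Pool.Agent.R2.Kap
import Pool.Agent.R2.Bet
import Pool.Agent.R2.Det
import Pool.Agent.R2.Lnk
import Pool.Agent.R2.SatD
import Pool.Agent.R2.SatP
import Pool.Agent.R2.Pcl
import Pool.Agent.R2.Rec
import Pool.Agent.R2.Loc
import Pool.Agent.R2.Inc
import Pool.Agent.R2.Fub
import Pool.Agent.R2.Uni
import Pool.Agent.R2.Mgf
import Pool.Agent.R2.Ovl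
import Pool.Agent.R2.PC
import Pool.Agent.R2.CC
import Pool.Agent.R2.Edg
import Pool.Agent.R2.BadS
import Pool.Agent.R2.GoodE
import Pool.Agent.R2.Sup
import Pool.Agent.R2.Pck
import Pool.Agent.R2.Spr
import Pool.Agent.R2.Gnt
import Pool.Agent.R2.DR
import Pool.Agent.R2.Lf
import Pool.Agent.R2.CyS
import Pool.Agent.R2.LP
import Pool.Agent.R2.LinD
import Pool.Agent.R2.GBP

/-!
# Random 2-CNF formulas: the theorem
-/

namespace Pool.Agent.R2

theorem easy (α : ℝ) (h0 : 0 < α) (h1 : α < 1 / 2) : Whp α fun n F => EasyD F (9 * n + 1) := by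
  apply (thm_GBP thm_Inc α h0 h1).mono h0.le
  exact Filter.Eventually.of_forall fun n F hF => thm_LinD thm_DR thm_Lf thm_CyS thm_LP F hF

theorem hard (α : ℝ) (h0 : 1 / 2 < α) (h1 : α < 1) :
    ∃ c : ℝ, 0 < c ∧ Whp α fun n F => (SOL F).Nonempty ∧
      Hard F ((2 : ℝ) ^ (-(c * n))) ((2 : ℝ) ^ (c * n)) := by
  have hCls : St_Cls := thm_Cls
  have hMgf : St_Mgf := thm_Mgf thm_Fub
  have hSup : St_Sup := thm_Sup thm_Rec thm_Loc thm_Fub hMgf
  have hPck : St_Pck := thm_Pck thm_Loc hSup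
  have hGnt : St_Gnt := thm_Gnt hPck thm_Spr thm_Lnk thm_Uni
  have hPC : St_PC := thm_PC thm_Pcl thm_Inc thm_Ovl
  have hCC : St_CC := thm_CC thm_Pcl thm_Inc
  have hBadS : St_BadS := thm_BadS (thm_Cnt hCls) hPC hCC
  have hGoodE : St_GoodE := thm_GoodE thm_Edg hBadS
  have hDet : St_Det := thm_Det (thm_Kap thm_Ov hCls) (thm_Bet thm_Ov hCls)
  exact assemble_hard hGnt hBadS hGoodE hDet thm_SatD (thm_SatP thm_Pcl thm_Inc) α h0 h1

end Pool.Agent.R2
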