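import Mathlib
import Pool.Agent.R2.Basic
import Pool.Agent.R2.Stmts

/-!
# R2 / Ovl: paths which overlap a given set of clauses
-/

namespace Pool.Agent.R2

open Finset Pool.Agent.Helper56.Iso Pool.Agent.Dichotomy Filter Topology

section chain

variable {V : Type} [Fintype V]

private theorem ovl_cons {r : ℕ} (F : (Fin (r + 2) → V) → ℝ) :
    ∑ w : Fin (r + 2) → V, F w = ∑ w' : Fin (r + 1) → V, ∑ v : V, F (Fin.cons v w') := by
  rw [← (Fin.consEquiv fun _ : Fin (r + 2) => V).sum_comp, Fintype.sum_prod_type, Finset.sum_comm]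
  rfl

/-- sums over chains with an initial weight -/
private theorem ovl_Q (f : V → V → ℝ) (hf : ∀ z z', 0 ≤ f z z') (B : ℝ) (hB : 0 ≤ B)
    (hrow : ∀ z, ∑ z', f z z' ≤ B) (r : ℕ) : ∀ u : V → ℝ, (∀ z, 0 ≤ u z) →
    ∑ w : Fin (r + 1) → V, u (w 0) * ∏ j : Fin r, f (w j.castSucc) (w j.succ) ≤
      (∑ z, u z) * B ^ r := by
  induction r with
  | zero =>
    intro u hu
    simp only [Finset.univ_eq_empty, Finset.prod_empty, mul_one, pow_zero]
    refine le_of_eq ?_
    exact (Equiv.funUnique (Fin 1) V).sum_comp u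
  | succ r ih =>
    intro u hu
    rw [ovl_cons]
    have h1 : ∀ (w' : Fin (r + 1) → V), ∑ v : V, u ((Fin.cons v w' : Fin (r + 2) → V) 0) *
        ∏ j : Fin (r + 1), f ((Fin.cons v w' : Fin (r + 2) → V) j.castSucc)
          ((Fin.cons v w' : Fin (r + 2) → V) j.succ) =
        (∑ v, u v * f v (w' 0)) * ∏ j : Fin r, f (w' j.castSucc) (w' j.succ) := by
      intro w'
      rw [Finset.sum_mul]
      refine Finset.sum_congr rfl fun v _ => ?_
      rw [Fin.prod_univ_succ]
      simp only [Fin.cons_zero, Fin.castSucc_zero, Fin.cons_succ, Fin.castSucc_succ, mul_assoc]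
    simp only [h1]
    refine (ih (fun z => ∑ v, u v * f v z)
      (fun z => Finset.sum_nonneg fun v _ => mul_nonneg (hu v) (hf v z))).trans ?_
    have h2 : ∑ z, ∑ v, u v * f v z ≤ (∑ v, u v) * B := by
      rw [Finset.sum_comm, Finset.sum_mul]
      refine Finset.sum_le_sum fun v _ => ?_
      rw [← Finset.mul_sum]
      exact mul_le_mul_of_nonneg_left (hrow v) (hu v)
    calc (∑ z, ∑ v, u v * f v z) * B ^ r ≤ (∑ v, u v) * B * B ^ r :=
          mul_le_mul_of_nonneg_right h2 (pow_nonneg hB r)
      _ = (∑ v, u v) * B ^ (r + 1) := by ring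

/-- sums over chains with one special step -/
private theorem ovl_P (f h : V → V → ℝ) (hf : ∀ z z', 0 ≤ f z z') (hh : ∀ z z', 0 ≤ h z z')
    (B : ℝ) (hB : 0 ≤ B) (hrow : ∀ z, ∑ z', f z z' ≤ B) (hcol : ∀ z', ∑ z, f z z' ≤ B) (r : ℕ) :
    ∀ i : Fin (r + 1), ∑ w : Fin (r + 2) → V, ∏ j : Fin (r + 1),
      (if j = i then h else f) (w j.castSucc) (w j.succ) ≤ (∑ z, ∑ z', h z z') * B ^ r := by
  induction r with
  | zero =>
    intro i
    have hi : i = 0 := Fin.ext (by omega)
    subst hi
    rw [ovl_cons]
    have h1 : ∀ (w' : Fin (0 + 1) → V) (v : V), ∏ j : Fin (0 + 1),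
        (if j = 0 then h else f) ((Fin.cons v w' : Fin (0 + 2) → V) j.castSucc)
          ((Fin.cons v w' : Fin (0 + 2) → V) j.succ) = h v (w' 0) := by
      intro w' v
      rw [Fin.prod_univ_succ]
      simp
    simp only [h1, pow_zero, mul_one]
    refine le_of_eq ?_
    rw [Finset.sum_comm]
    refine Finset.sum_congr rfl fun v _ => ?_
    exact (Equiv.funUnique (Fin 1) V).sum_comp fun z' => h v z'
  | succ r ih =>
    intro i
    rw [ovl_cons]
    have hH : 0 ≤ ∑ z, ∑ z', h z z' :=
      Finset.sum_nonneg fun z _ => Finset.sum_nonneg fun z' _ => hh z z'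
    refine Fin.cases ?_ (fun i' => ?_) i
    · have h1 : ∀ (w' : Fin (r + 2) → V), ∑ v : V, ∏ j : Fin (r + 2),
          (if j = 0 then h else f) ((Fin.cons v w' : Fin (r + 3) → V) j.castSucc)
            ((Fin.cons v w' : Fin (r + 3) → V) j.succ) =
          (∑ v, h v (w' 0)) * ∏ j : Fin (r + 1), f (w' j.castSucc) (w' j.succ) := by
        intro w'
        rw [Finset.sum_mul]
        refine Finset.sum_congr rfl fun v _ => ?_
        rw [Fin.prod_univ_succ]
        simp only [Fin.cons_zero, Fin.castSucc_zero, Fin.cons_succ, Fin.castSucc_succ, if_true,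
          Fin.succ_ne_zero, if_false]
      simp only [h1]
      refine (ovl_Q f hf B hB hrow (r + 1) (fun z => ∑ v, h v z)
        (fun z => Finset.sum_nonneg fun v _ => hh v z)).trans (le_of_eq ?_)
      rw [Finset.sum_comm]
    · have h1 : ∀ (w' : Fin (r + 2) → V), ∑ v : V, ∏ j : Fin (r + 2),
          (if j = i'.succ then h else f) ((Fin.cons v w' : Fin (r + 3) → V) j.castSucc)
            ((Fin.cons v w' : Fin (r + 3) → V) j.succ) =
          (∑ v, f v (w' 0)) * ∏ j : Fin (r + 1),
            (if j = i' then h else f) (w' j.castSucc) (w' j.succ) := by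
        intro w'
        rw [Finset.sum_mul]
        refine Finset.sum_congr rfl fun v _ => ?_
        rw [Fin.prod_univ_succ]
        simp only [Fin.cons_zero, Fin.castSucc_zero, Fin.cons_succ, Fin.castSucc_succ,
          Fin.succ_inj, (Fin.succ_ne_zero _).symm, if_false]
      simp only [h1]
      calc ∑ w' : Fin (r + 2) → V, (∑ v, f v (w' 0)) * ∏ j : Fin (r + 1),
            (if j = i' then h else f) (w' j.castSucc) (w' j.succ) ≤
            ∑ w' : Fin (r + 2) → V, B * ∏ j : Fin (r + 1),
            (if j = i' then h else f) (w' j.castSucc) (w' j.succ) := by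
            refine Finset.sum_le_sum fun w' _ => mul_le_mul_of_nonneg_right (hcol _) ?_
            refine Finset.prod_nonneg fun j _ => ?_
            split_ifs
            · exact hh _ _
            · exact hf _ _
        _ = B * ∑ w' : Fin (r + 2) → V, ∏ j : Fin (r + 1),
            (if j = i' then h else f) (w' j.castSucc) (w' j.succ) := by
            rw [Finset.mul_sum]
        _ ≤ B * ((∑ z, ∑ z', h z z') * B ^ r) := mul_le_mul_of_nonneg_left (ih i') hB
        _ = (∑ z, ∑ z', h z z') * B ^ (r + 1) := by ring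

end chain

open Classical in
/-- number of steps from `z` -/
private theorem ovl_row {n : ℕ} (S : Finset (Cl n)) (z : Lit n) :
    ((univ.filter fun z' : Lit n => Imp S z z').card : ℝ) ≤ S.card := by
  have h : (univ.filter fun z' : Lit n => Imp S z z') ⊆
      S.image fun e => if e.1.1 = z then neg e.1.2 else neg e.1.1 := by
    intro z' hz'
    rw [Finset.mem_filter] at hz'
    obtain ⟨e, he, h1 | h1⟩ := hz'.2
    · refine Finset.mem_image.2 ⟨e, he, ?_⟩
      rw [h1]
      simp
    · refine Finset.mem_image.2 ⟨e, he, ?_⟩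
      rw [h1]
      have h2 : neg z' ≠ z := by
        intro h3
        have h4 := e.2
        rw [h1, h3] at h4
        exact lt_irrefl _ h4
      simp [h2]
  exact_mod_cast (Finset.card_le_card h).trans Finset.card_image_le

open Classical in
private theorem ovl_col {n : ℕ} (S : Finset (Cl n)) (z' : Lit n) :
    ((univ.filter fun z : Lit n => Imp S z z').card : ℝ) ≤ S.card := by
  have h : (univ.filter fun z : Lit n => Imp S z z').card ≤
      (univ.filter fun z : Lit n => Imp S (neg z') z).card := by
    refine Finset.card_le_card_of_injOn neg (fun z hz => ?_) fun z _ z₂ _ h => neg_inj h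
    have hz2 := (Finset.mem_filter.1 (Finset.mem_coe.1 hz)).2
    exact Finset.mem_coe.2 (Finset.mem_filter.2 ⟨mem_univ _, hz2.contra⟩)
  have h2 : ((univ.filter fun z : Lit n => Imp S z z').card : ℝ) ≤
      (univ.filter fun z : Lit n => Imp S (neg z') z).card := by exact_mod_cast h
  exact h2.trans (ovl_row S (neg z'))

open Classical in
private theorem ovl_tot {n : ℕ} (S : Finset (Cl n)) :
    ∑ z : Lit n, ((univ.filter fun z' : Lit n => Imp S z z').card : ℝ) ≤ 2 * S.card := by
  have h0 : ∑ z : Lit n, (univ.filter fun z' : Lit n => Imp S z z').card =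
      (univ.filter fun q : Lit n × Lit n => Imp S q.1 q.2).card := by
    simp only [Finset.card_filter]
    exact (Fintype.sum_prod_type (fun q : Lit n × Lit n => if Imp S q.1 q.2 then 1 else 0)).symm
  have h : (univ.filter fun q : Lit n × Lit n => Imp S q.1 q.2) ⊆
      (S.image fun e => (e.1.1, neg e.1.2)) ∪ S.image fun e => (e.1.2, neg e.1.1) := by
    rintro ⟨z, z'⟩ hz'
    rw [Finset.mem_filter] at hz'
    obtain ⟨e, he, h1 | h1⟩ := hz'.2
    · refine Finset.mem_union_left _ (Finset.mem_image.2 ⟨e, he, ?_⟩)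
      rw [h1]
      simp
    · refine Finset.mem_union_right _ (Finset.mem_image.2 ⟨e, he, ?_⟩)
      rw [h1]
      simp
  have h2 := (Finset.card_le_card h).trans ((Finset.card_union_le _ _).trans
    (add_le_add Finset.card_image_le Finset.card_image_le))
  rw [← h0] at h2
  have h3 : (∑ z : Lit n, ((univ.filter fun z' : Lit n => Imp S z z').card : ℝ)) ≤
      S.card + S.card := by exact_mod_cast h2
  linarith

private theorem ovl_p {n : ℕ} (hn : 2 ≤ n) (α : ℝ) (z : Lit n) :
    ∑ z' : Lit n, (if z.1 = z'.1 then 0 else prob α n) = α := by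
  rw [Fintype.sum_prod_type]
  have h1 : ∀ v : Fin n, ∑ _a : ZMod 2, (if z.1 = v then (0 : ℝ) else prob α n) =
      2 * prob α n - if z.1 = v then 2 * prob α n else 0 := by
    intro v
    rw [Finset.sum_const, Finset.card_univ, ZMod.card, nsmul_eq_mul]
    split_ifs <;> push_cast <;> ring
  simp only [h1]
  rw [Finset.sum_sub_distrib, Finset.sum_const, Finset.card_univ, Fintype.card_fin,
    Finset.sum_ite_eq, nsmul_eq_mul]
  simp only [mem_univ, if_true, prob]
  have h2 : (2 : ℝ) ≤ n := by exact_mod_cast hn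
  have h3 : (n : ℝ) - 1 ≠ 0 := by
    intro h
    linarith
  field_simp

open Classical in
private theorem ovl_main {n : ℕ} (p : ℝ) (h0 : 0 ≤ p) (h1 : p ≤ 1) (S : Finset (Cl n)) {r : ℕ}
    (w : Fin (r + 1) → Lit n) (hw : Function.Injective fun i => (w i).1) :
    p ^ (pcl w \ S).card ≤ ∏ j : Fin r, (if Imp S (w j.castSucc) (w j.succ) then 1 else
      if (w j.castSucc).1 = (w j.succ).1 then 0 else p) := by
  have hne : ∀ j : Fin r, (w j.castSucc).1 ≠ (neg (w j.succ)).1 := by
    intro j h
    have h2 : j.castSucc = j.succ := hw h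
    exact (Fin.castSucc_lt_succ (i := j)).ne h2
  have e1 : ∏ j : Fin r, (if Imp S (w j.castSucc) (w j.succ) then 1 else
      if (w j.castSucc).1 = (w j.succ).1 then 0 else p) =
      p ^ (univ.filter fun j : Fin r => ¬ Imp S (w j.castSucc) (w j.succ)).card := by
    rw [← Finset.prod_const, Finset.prod_filter]
    refine Finset.prod_congr rfl fun j _ => ?_
    have h2 : (w j.castSucc).1 ≠ (w j.succ).1 := hne j
    by_cases h3 : Imp S (w j.castSucc) (w j.succ)
    · simp [h3]
    · simp [h3, h2]
  rw [e1]
  refine pow_le_pow_of_le_one h0 h1 ?_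
  refine Finset.card_le_card_of_injOn (fun j => mkCl (w j.castSucc) (neg (w j.succ)) (hne j))
    (fun j hj => ?_) (fun j _ k _ hjk => ?_)
  · have hj2 := (Finset.mem_filter.1 (Finset.mem_coe.1 hj)).2
    refine Finset.mem_coe.2 (Finset.mem_sdiff.2 ⟨?_, fun h => hj2 ?_⟩)
    · unfold pcl
      exact Finset.mem_filter.2 ⟨mem_univ _, j, mkCl_val _ _ _⟩
    · exact (has_iff (hne j)).2 h
  · have a1 := mkCl_val (w j.castSucc) (neg (w j.succ)) (hne j)
    have a2 := mkCl_val (w k.castSucc) (neg (w k.succ)) (hne k)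
    simp only at hjk
    rw [hjk] at a1
    have key : ((w j.castSucc).1 = (w k.castSucc).1 ∧ (w j.succ).1 = (w k.succ).1) ∨
        ((w j.castSucc).1 = (w k.succ).1 ∧ (w j.succ).1 = (w k.castSucc).1) := by
      rcases a1 with a1 | a1 <;> rcases a2 with a2 | a2
      · rw [a1] at a2
        have b1 := congrArg (fun q => q.1.1) a2
        have b2 := congrArg (fun q => q.2.1) a2
        exact Or.inl ⟨b1, b2⟩
      · rw [a1] at a2
        have b1 := congrArg (fun q => q.1.1) a2
        have b2 := congrArg (fun q => q.2.1) a2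
        exact Or.inr ⟨b1, b2⟩
      · rw [a1] at a2
        have b1 := congrArg (fun q => q.1.1) a2
        have b2 := congrArg (fun q => q.2.1) a2
        exact Or.inr ⟨b2, b1⟩
      · rw [a1] at a2
        have b1 := congrArg (fun q => q.1.1) a2
        have b2 := congrArg (fun q => q.2.1) a2
        exact Or.inl ⟨b2, b1⟩
    rcases key with ⟨b1, b2⟩ | ⟨b1, b2⟩
    · have := hw b1
      exact Fin.castSucc_injective _ this
    · exfalso
      have c1 : j.castSucc = k.succ := hw b1
      have c2 : j.succ = k.castSucc := hw b2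
      have d1 := congrArg Fin.val c1
      have d2 := congrArg Fin.val c2
      simp only [Fin.val_castSucc, Fin.val_succ] at d1 d2
      omega

/-- keep this signature -/
theorem thm_Ovl : St_Ovl := by
  classical
  intro α r hα
  refine ⟨r * (2 * r * (r + α) ^ (r - 1)), fun n hn hp1 S hS => ?_⟩
  have hp0 : 0 ≤ prob α n := prob_nonneg hα.le hn
  have hSR : (S.card : ℝ) ≤ r := by exact_mod_cast hS
  set p : ℝ := prob α n with hp
  set h : Lit n → Lit n → ℝ := fun z z' => if Imp S z z' then 1 else 0 with hh
  set f : Lit n → Lit n → ℝ := fun z z' => if Imp S z z' then 1 else if z.1 = z'.1 then 0 else p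
    with hf
  have hh0 : ∀ z z', 0 ≤ h z z' := by
    intro z z'
    simp only [hh]
    split_ifs <;> norm_num
  have hf0 : ∀ z z', 0 ≤ f z z' := by
    intro z z'
    simp only [hf]
    split_ifs
    · norm_num
    · exact le_rfl
    · exact hp0
  have hfle : ∀ z z', f z z' ≤ h z z' + if z.1 = z'.1 then 0 else p := by
    intro z z'
    simp only [hf, hh]
    split_ifs
    · norm_num
    · linarith
    · norm_num
    · linarith
  have hrow : ∀ z, ∑ z', f z z' ≤ r + α := by
    intro z
    refine (Finset.sum_le_sum fun z' _ => hfle z z').trans ?_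
    rw [Finset.sum_add_distrib, hp, ovl_p hn α z]
    have h2 : ∑ z', h z z' = ((univ.filter fun z' : Lit n => Imp S z z').card : ℝ) := by
      simp only [hh]
      rw [Finset.sum_boole]
    rw [h2]
    have := ovl_row S z
    linarith
  have hcol : ∀ z', ∑ z, f z z' ≤ r + α := by
    intro z'
    refine (Finset.sum_le_sum fun z _ => hfle z z').trans ?_
    have h3 : ∑ z : Lit n, (if z.1 = z'.1 then 0 else p) = α := by
      rw [← ovl_p hn α z', hp]
      refine Finset.sum_congr rfl fun z _ => ?_
      simp only [eq_comm]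
    rw [Finset.sum_add_distrib, h3]
    have h2 : ∑ z, h z z' = ((univ.filter fun z : Lit n => Imp S z z').card : ℝ) := by
      simp only [hh]
      rw [Finset.sum_boole]
    rw [h2]
    have := ovl_col S z'
    linarith
  have hH : ∑ z, ∑ z', h z z' ≤ 2 * r := by
    have h2 : ∀ z, ∑ z', h z z' = ((univ.filter fun z' : Lit n => Imp S z z').card : ℝ) := by
      intro z
      simp only [hh]
      rw [Finset.sum_boole]
    simp only [h2]
    have := ovl_tot S
    linarith
  -- the case without steps
  rcases Nat.eq_zero_or_pos r with hr | hr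
  · subst hr
    refine (Finset.sum_nonpos fun w _ => ?_).trans (by simp)
    refine le_of_eq (Set.indicator_of_notMem ?_ _)
    rintro ⟨-, e, he⟩
    have he2 := (Finset.mem_inter.1 he).1
    unfold pcl at he2
    obtain ⟨i, -⟩ := (Finset.mem_filter.1 he2).2
    exact i.elim0
  obtain ⟨r', rfl⟩ : ∃ r', r = r' + 1 := ⟨r - 1, by omega⟩
  have hBn : 0 ≤ ((r' + 1 : ℕ) : ℝ) + α := by positivity
  have hP := ovl_P f h hf0 hh0 _ hBn hrow hcol r'
  calc ∑ w : Fin (r' + 1 + 1) → Lit n, Set.indicator
        {w | Function.Injective (fun i => (w i).1) ∧ (pcl w ∩ S).Nonempty}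
        (fun w => p ^ (pcl w \ S).card) w
      ≤ ∑ w : Fin (r' + 2) → Lit n, ∑ i : Fin (r' + 1), ∏ j : Fin (r' + 1),
        (if j = i then h else f) (w j.castSucc) (w j.succ) := by
        refine Finset.sum_le_sum fun w _ => ?_
        have hnn : ∀ i : Fin (r' + 1), 0 ≤ ∏ j : Fin (r' + 1),
            (if j = i then h else f) (w j.castSucc) (w j.succ) := by
          intro i
          refine Finset.prod_nonneg fun j _ => ?_
          split_ifs
          · exact hh0 _ _
          · exact hf0 _ _
        by_cases hw : Function.Injective (fun i => (w i).1) ∧ (pcl w ∩ S).Nonempty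
        · rw [Set.indicator_of_mem (show w ∈ {w : Fin (r' + 1 + 1) → Lit n |
            Function.Injective (fun i => (w i).1) ∧ (pcl w ∩ S).Nonempty} from hw)]
          obtain ⟨hinj, e, he⟩ := hw
          have he1 := (Finset.mem_inter.1 he).1
          have he2 := (Finset.mem_inter.1 he).2
          unfold pcl at he1
          obtain ⟨i, hi⟩ := (Finset.mem_filter.1 he1).2
          have hImp : Imp S (w i.castSucc) (w i.succ) := ⟨e, he2, hi⟩
          refine (ovl_main p hp0 hp1 S w hinj).trans ?_
          refine le_trans (le_of_eq ?_) (Finset.single_le_sum (fun i _ => hnn i) (mem_univ i))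
          refine Finset.prod_congr rfl fun j _ => ?_
          by_cases hji : j = i
          · subst hji
            simp [hh, hImp]
          · simp only [hji, if_false, hf]
        · rw [Set.indicator_of_notMem (show w ∉ {w : Fin (r' + 1 + 1) → Lit n |
            Function.Injective (fun i => (w i).1) ∧ (pcl w ∩ S).Nonempty} from hw)]
          exact Finset.sum_nonneg fun i _ => hnn i
    _ = ∑ i : Fin (r' + 1), ∑ w : Fin (r' + 2) → Lit n, ∏ j : Fin (r' + 1),
        (if j = i then h else f) (w j.castSucc) (w j.succ) := Finset.sum_comm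
    _ ≤ ∑ _i : Fin (r' + 1), (2 * ((r' + 1 : ℕ) : ℝ)) * (((r' + 1 : ℕ) : ℝ) + α) ^ r' := by
        refine Finset.sum_le_sum fun i _ => (hP i).trans ?_
        exact mul_le_mul_of_nonneg_right hH (pow_nonneg hBn _)
    _ = ((r' + 1 : ℕ) : ℝ) * (2 * ((r' + 1 : ℕ) : ℝ) *
        (((r' + 1 : ℕ) : ℝ) + α) ^ (r' + 1 - 1)) := by
        rw [Finset.sum_const, Finset.card_univ, Fintype.card_fin, nsmul_eq_mul]
        simp

end Pool.Agent.R2
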