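import Mathlib
import Pool.Agent.R2.Basic

/-!
# Random 2-CNF formulas: the small program
-/

set_option autoImplicit false

namespace Pool.Agent.R2

open Finset Pool.Agent.Helper56.Iso Pool.Agent.Dichotomy Filter Topology

/-- enumeration of a finite set by sets with at most one element -/
theorem prg_enum {X : Type} (L : Set X) (N : ℕ) (hf : L.Finite) (h : L.ncard ≤ N) :
    ∃ f : Fin N → Set X, (∀ i, (f i).Finite ∧ (f i).ncard ≤ 1) ∧ ∀ x, x ∈ L ↔ ∃ i, x ∈ f i := by
  classical
  have : Fintype L := hf.fintype
  have hc : Fintype.card L ≤ Fintype.card (Fin N) := by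
    rw [Fintype.card_fin]
    have h1 : Fintype.card L = L.ncard := by
      rw [← Nat.card_eq_fintype_card]
      rfl
    rw [h1]
    exact h
  obtain ⟨ι⟩ := Function.Embedding.nonempty_of_card_le hc
  refine ⟨fun i => {x | ∃ hx : x ∈ L, ι ⟨x, hx⟩ = i}, fun i => ?_, fun x => ?_⟩
  · have hsub : {x | ∃ hx : x ∈ L, ι ⟨x, hx⟩ = i}.Subsingleton := by
      rintro x ⟨hx, h1⟩ y ⟨hy, h2⟩
      have h3 := ι.injective (h1.trans h2.symm)
      exact congrArg Subtype.val h3
    refine ⟨hsub.finite, (Set.ncard_le_one hsub.finite).2 fun a ha b hb => hsub ha hb⟩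
  · constructor
    · intro hx
      exact ⟨ι ⟨x, hx⟩, hx, rfl⟩
    · rintro ⟨i, hx, -⟩
      exact hx

theorem prg_comp {n : ℕ} (F : Finset (Cl n)) (m : ℕ) (h : ∀ Q, Conn F Q → Q.card ≤ m)
    (v : Fin n) : ∃ Q : Finset (Fin n), Q.card ≤ m ∧
      ∀ u, Relation.ReflTransGen (Adj F) v u → u ∈ Q := by
  classical
  obtain ⟨Q, hQ, hmax⟩ := Finset.exists_max_image
    ((univ : Finset (Finset (Fin n))).filter fun Q => Conn F Q ∧ v ∈ Q) Finset.card
    ⟨{v}, Finset.mem_filter.2 ⟨Finset.mem_univ _, Conn.single v, Finset.mem_singleton_self v⟩⟩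
  obtain ⟨-, hQ1, hQ2⟩ := Finset.mem_filter.1 hQ
  refine ⟨Q, h Q hQ1, fun u hu => ?_⟩
  induction hu with
  | refl => exact hQ2
  | @tail b c _ hbc ih =>
    by_contra hc
    have h1 : Conn F (insert c Q) := Conn.grow Q b c hQ1 ih hc hbc
    have h2 := hmax (insert c Q) (Finset.mem_filter.2
      ⟨Finset.mem_univ _, h1, Finset.mem_insert_of_mem hQ2⟩)
    rw [Finset.card_insert_of_notMem hc] at h2
    omega

/-- a representative of the component -/
theorem prg_rep {n : ℕ} (F : Finset (Cl n)) (m : ℕ) (h : ∀ Q, Conn F Q → Q.card ≤ m) :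
    ∃ rep : Fin n → Fin n, (∀ u v, Adj F u v → rep u = rep v) ∧
      ∀ j, (univ.filter fun v => rep v = j).card ≤ m := by
  classical
  set D : Fin n → Finset (Fin n) := fun v =>
    univ.filter (Relation.ReflTransGen (Adj F) v) with hD
  have hmem : ∀ u v, u ∈ D v ↔ Relation.ReflTransGen (Adj F) v u := by
    intro u v
    rw [hD]
    simp only [Finset.mem_filter, Finset.mem_univ, true_and]
  have hsym : ∀ u v, Relation.ReflTransGen (Adj F) v u → Relation.ReflTransGen (Adj F) u v := by
    intro u v huv
    induction huv with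
    | refl => exact Relation.ReflTransGen.refl
    | tail _ h2 ih => exact Relation.ReflTransGen.head h2.symm ih
  have hne : ∀ v, (D v).Nonempty := fun v => ⟨v, (hmem v v).2 Relation.ReflTransGen.refl⟩
  refine ⟨fun v => (D v).min' (hne v), ?_, ?_⟩
  · intro u v huv
    have h1 : D u = D v := by
      ext w
      rw [hmem, hmem]
      constructor
      · intro h2
        exact Relation.ReflTransGen.head huv.symm h2
      · intro h2
        exact Relation.ReflTransGen.head huv h2
    simp only [h1]
  · intro j
    rcases Finset.eq_empty_or_nonempty (univ.filter fun v => (D v).min' (hne v) = j) with h0 | h0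
    · rw [h0, Finset.card_empty]
      exact Nat.zero_le _
    · obtain ⟨v, hv⟩ := h0
      obtain ⟨Q, hQ, hQ2⟩ := prg_comp F m h v
      refine (Finset.card_le_card fun u hu => ?_).trans hQ
      apply hQ2
      have h1 : j ∈ D v := by
        rw [← (Finset.mem_filter.1 hv).2]
        exact Finset.min'_mem _ _
      have h2 : j ∈ D u := by
        rw [← (Finset.mem_filter.1 hu).2]
        exact Finset.min'_mem _ _
      exact ((hmem _ _).1 h1).trans (hsym _ _ ((hmem _ _).1 h2))

theorem thm_Prg : St_Prg := by
  classical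
  intro n F m hm
  obtain ⟨rep, hrep, hcard⟩ := prg_rep F m hm
  have hrepe : ∀ e ∈ F, rep e.1.1.1 = rep e.1.2.1 := by
    intro e he
    exact hrep _ _ ⟨e.1.1.2, e.1.2.2, e, he, Or.inl rfl⟩
  set L : Fin n → Set (Fin n → ZMod 2) := fun j => {x | (∀ v, x v ≠ 0 → rep v = j) ∧
    ∀ e ∈ F, rep e.1.1.1 = j → ¬ (x e.1.1.1 = e.1.1.2 ∧ x e.1.2.1 = e.1.2.2)} with hL
  set T : ℕ → Set (Fin n → ZMod 2) := fun j => {x | (∀ v, x v ≠ 0 → (rep v).val < j) ∧
    ∀ e ∈ F, (rep e.1.1.1).val < j → ¬ (x e.1.1.1 = e.1.1.2 ∧ x e.1.2.1 = e.1.2.2)} with hT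
  have hLcard : ∀ j, (L j).ncard ≤ 2 ^ m := by
    intro j
    set C : Finset (Fin n) := univ.filter fun v => rep v = j with hC
    have h1 : Set.InjOn (fun (x : Fin n → ZMod 2) (v : C) => x v) (L j) := by
      intro x hx y hy hxy
      funext v
      by_cases hv : v ∈ C
      · exact congrFun hxy ⟨v, hv⟩
      · have h2 : ∀ z ∈ L j, z v = 0 := by
          intro z hz
          by_contra h3
          exact hv (Finset.mem_filter.2 ⟨Finset.mem_univ _, hz.1 v h3⟩)
        rw [h2 x hx, h2 y hy]
    have h2 : ((fun (x : Fin n → ZMod 2) (v : C) => x v) '' L j).ncard ≤ 2 ^ C.card := by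
      refine (Set.ncard_le_ncard (Set.subset_univ _) Set.finite_univ).trans ?_
      rw [Set.ncard_univ, Nat.card_eq_fintype_card, Fintype.card_fun, ZMod.card,
        Fintype.card_coe]
    rw [Set.InjOn.ncard_image h1] at h2
    exact h2.trans (Nat.pow_le_pow_right (by norm_num) (hcard j))
  choose f hf1 hf2 using fun j => prg_enum (L j) (2 ^ m) (Set.toFinite _) (hLcard j)
  -- one step
  have hstep : ∀ (j : Fin n) (x : Fin n → ZMod 2), x ∈ T (j.val + 1) ↔
      ∃ y ∈ T j.val, ∃ z ∈ L j, x = y + z := by
    intro j x
    constructor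
    · rintro ⟨hx1, hx2⟩
      refine ⟨fun v => if (rep v).val < j.val then x v else 0, ⟨?_, ?_⟩,
        fun v => if rep v = j then x v else 0, ⟨?_, ?_⟩, ?_⟩
      · intro v hv
        by_contra h1
        exact hv (if_neg h1)
      · intro e he h1
        have h2 : (rep e.1.2.1).val < j.val := by
          rw [← hrepe e he]
          exact h1
        simp only [h1, h2, if_true]
        exact hx2 e he (by omega)
      · intro v hv
        by_contra h1
        exact hv (if_neg h1)
      · intro e he h1
        have h2 : rep e.1.2.1 = j := by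
          rw [← hrepe e he]
          exact h1
        simp only [h1, h2, if_true]
        exact hx2 e he (by rw [h1]; omega)
      · funext v
        simp only [Pi.add_apply]
        rcases lt_trichotomy (rep v).val j.val with h1 | h1 | h1
        · have h2 : rep v ≠ j := fun h => by rw [h] at h1; exact lt_irrefl _ h1
          rw [if_pos h1, if_neg h2, add_zero]
        · have h2 : rep v = j := Fin.ext h1
          have h3 : ¬ (rep v).val < j.val := by omega
          rw [if_neg h3, if_pos h2, zero_add]
        · have h2 : rep v ≠ j := fun h => by rw [h] at h1; exact lt_irrefl _ h1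
          have h3 : ¬ (rep v).val < j.val := by omega
          rw [if_neg h3, if_neg h2, add_zero]
          by_contra h4
          have := hx1 v h4
          omega
    · rintro ⟨y, ⟨hy1, hy2⟩, z, ⟨hz1, hz2⟩, rfl⟩
      have hy0 : ∀ v, rep v = j → y v = 0 := by
        intro v hv
        by_contra h1
        have := hy1 v h1
        rw [hv] at this
        exact lt_irrefl _ this
      have hz0 : ∀ v, (rep v).val < j.val → z v = 0 := by
        intro v hv
        by_contra h1
        have := hz1 v h1
        rw [this] at hv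
        exact lt_irrefl _ hv
      refine ⟨fun v hv => ?_, fun e he h1 => ?_⟩
      · by_contra h1
        apply hv
        have h2 : y v = 0 := by
          by_contra h3
          have := hy1 v h3
          omega
        have h3 : z v = 0 := by
          by_contra h3
          have := hz1 v h3
          rw [this] at h1
          omega
        rw [Pi.add_apply, h2, h3, add_zero]
      · have h4 := hrepe e he
        rcases Nat.lt_succ_iff_lt_or_eq.1 h1 with h5 | h5
        · rw [Pi.add_apply, Pi.add_apply, hz0 _ h5, hz0 _ (by rw [← h4]; exact h5), add_zero,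
            add_zero]
          exact hy2 e he h5
        · have h6 : rep e.1.1.1 = j := Fin.ext h5
          rw [Pi.add_apply, Pi.add_apply, hy0 _ h6, hy0 _ (by rw [← h4]; exact h6), zero_add,
            zero_add]
          exact hz2 e he h6
  refine ⟨(Fin n × Fin (2 ^ m)) ⊕ Fin (n + 1), inferInstance,
    Sum.elim (fun _ => 0) (fun j => j.val + 1), Sum.elim (fun q => f q.1 q.2) (fun j => T j.val),
    Sum.inr (Fin.last n), ?_, ?_, ?_⟩
  · rintro (q | j)
    · exact Or.inl (hf1 q.1 q.2)
    · rcases Nat.eq_zero_or_pos j.val with h0 | h0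
      · left
        have h1 : T j.val = {0} := by
          ext x
          rw [h0, Set.mem_singleton_iff]
          constructor
          · rintro ⟨hx, -⟩
            funext v
            by_contra h2
            exact absurd (hx v h2) (Nat.not_lt_zero _)
          · rintro rfl
            exact ⟨fun v hv => absurd rfl hv, fun e _ h2 => absurd h2 (Nat.not_lt_zero _)⟩
        change (T j.val).Finite ∧ (T j.val).ncard ≤ 1
        rw [h1]
        exact ⟨Set.finite_singleton _, by rw [Set.ncard_singleton]⟩
      · right
        right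
        have hj : j.val - 1 < n := by
          have := j.isLt
          omega
        refine ⟨∅, {p | ∃ i : Fin (2 ^ m), p = (Sum.inr ⟨j.val - 1, by omega⟩,
          Sum.inl (⟨j.val - 1, hj⟩, i))}, ?_, ?_, ?_⟩
        · intro a ha
          exact absurd ha (Set.notMem_empty a)
        · rintro p ⟨i, rfl⟩
          constructor
          · change j.val - 1 + 1 < j.val + 1
            omega
          · change 0 < j.val + 1
            omega
        · intro x
          have h1 := hstep ⟨j.val - 1, hj⟩ x
          have h2 : j.val - 1 + 1 = j.val := by omega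
          simp only [h2] at h1
          change x ∈ T j.val ↔ _
          rw [h1]
          constructor
          · rintro ⟨y, hy, z, hz, rfl⟩
            obtain ⟨i, hi⟩ := (hf2 _ z).1 hz
            exact Or.inr ⟨_, ⟨i, rfl⟩, y, hy, z, hi, rfl⟩
          · rintro (⟨a, ha, -⟩ | ⟨p, ⟨i, rfl⟩, y, hy, z, hz, rfl⟩)
            · exact absurd ha (Set.notMem_empty a)
            · exact ⟨y, hy, z, (hf2 _ z).2 ⟨i, hz⟩, rfl⟩
  · change T n = SOL F
    ext x
    constructor
    · rintro ⟨-, hx⟩ e he
      exact hx e he (rep e.1.1.1).isLt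
    · intro hx
      exact ⟨fun v _ => (rep v).isLt, fun e he _ => hx e he⟩
  · rw [Fintype.card_sum, Fintype.card_prod, Fintype.card_fin, Fintype.card_fin, Fintype.card_fin]
    push_cast
    have h1 : (0 : ℝ) ≤ n := Nat.cast_nonneg n
    have h2 : (0 : ℝ) ≤ 2 ^ m := by positivity
    nlinarith

end Pool.Agent.R2
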