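import Pool.Agent.R2.Main

/-!
# MP_4ed1f9_lc: the complexity threshold of exact counting for random 2-CNF formulas

The random 2-CNF formula `F` on `n` variables contains each of the `2 n (n - 1)` possible clauses
independently with probability `prob α n = α / (2 (n - 1))`, so `α n` clauses are expected; it is
satisfiable with high probability if `α < 1` and unsatisfiable if `α > 1` (Chvátal and Reed 1992,
Goerdt 1992).  Here: for `α < 1 / 2` the solutions form a gate of a deterministic decomposable
program (a d-DNNF) with at most `9 n + 1` gates, and for `1 / 2 < α < 1` every XOR program one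
of whose gates is a set of solutions which contains at least a `2 ^ (- c n)` fraction of all
solutions has size at least `2 ^ (c n)`.

Definitions: `Cl`, `SOL`, `prob`, `Whp`, `Hard` in `Pool/Agent/R2/Defs.lean`, `IsDProg`, `EasyD` in
`Pool/Agent/R2/Lin.lean`, `Pr`, `wt` in `Pool/Agent/Helper56/Iso/Prob.lean`, `IsProg` in
`Pool/Agent/Helper91/Dich/Defs.lean`.
-/

namespace Pool.Agent.Results.MP_4ed1f9_lc.RandomTwoSat

open Pool.Agent.R2

theorem result (α : ℝ) (h0 : 0 < α) :
    (α < 1 / 2 → Whp α fun n F => EasyD F (9 * n + 1)) ∧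
    (1 / 2 < α → α < 1 → ∃ c : ℝ, 0 < c ∧ Whp α fun n F => (SOL F).Nonempty ∧
      Hard F ((2 : ℝ) ^ (-(c * n))) ((2 : ℝ) ^ (c * n))) :=
  ⟨easy α h0, hard α⟩

end Pool.Agent.Results.MP_4ed1f9_lc.RandomTwoSat
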