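import Mathlib
import Pool.Agent.R2.Basic

/-!
# Random 2-CNF formulas: below density one half all components are small
-/

namespace Pool.Agent.R2

open Finset Pool.Agent.Helper56.Iso Pool.Agent.Dichotomy Filter Topology

private theorem sub_Pr_eq {α : Type} [Fintype α] [DecidableEq α] (p : ℝ) (P : Finset α → Prop)
    [DecidablePred P] :
    Pr p P = ∑ F : Finset α, wt p F * (if P F then 1 else 0) := by
  unfold Pr
  refine Finset.sum_congr rfl fun F _ => ?_
  by_cases h : P F
  · rw [ind_of h, if_pos h, mul_one]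
  · rw [ind_not h, if_neg h, mul_zero]

/-- The clauses between `u` and `A`. -/
private def sub_H {n : ℕ} (A : Finset (Fin n)) (u : Fin n) : Finset (Cl n) :=
  univ.filter fun e => (e.1.1.1 = u ∧ e.1.2.1 ∈ A) ∨ (e.1.2.1 = u ∧ e.1.1.1 ∈ A)

private theorem sub_mem_nbr {n : ℕ} {F : Finset (Cl n)} {A : Finset (Fin n)} {u v : Fin n} :
    v ∈ nbr F A u ↔ v ∈ A ∧ Adj F u v := by
  classical
  unfold nbr
  exact Finset.mem_filter

private theorem sub_nbr {n : ℕ} (F : Finset (Cl n)) (A : Finset (Fin n)) (u : Fin n) :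
    nbr (F ∩ sub_H A u) A u = nbr F A u := by
  ext v
  rw [sub_mem_nbr, sub_mem_nbr]
  refine and_congr_right fun hv => ?_
  constructor
  · rintro ⟨a, b, h⟩
    exact ⟨a, b, h.mono inter_subset_left⟩
  · rintro ⟨a, b, e, he, h⟩
    refine ⟨a, b, e, mem_inter.2 ⟨he, ?_⟩, h⟩
    unfold sub_H
    rw [mem_filter]
    refine ⟨mem_univ _, ?_⟩
    rcases h with h | h <;> rw [h]
    · exact Or.inl ⟨rfl, hv⟩
    · exact Or.inr ⟨rfl, hv⟩

private theorem sub_RS (hLoc : St_Loc) {n : ℕ} (F : Finset (Cl n)) (A A' N' : Finset (Fin n))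
    (u : Fin n) (hu : u ∉ A' ∪ N') :
    RS (F \ sub_H A u) A' N' = RS F A' N' := by
  refine (hLoc.1 (F \ sub_H A u) F A' N' ?_).1
  intro e he1 he2
  rw [Finset.mem_sdiff]
  constructor
  · exact fun h => h.1
  · intro h
    refine ⟨h, fun h2 => ?_⟩
    unfold sub_H at h2
    rw [mem_filter] at h2
    rcases h2.2 with h3 | h3
    · exact hu (h3.1 ▸ he1)
    · exact hu (h3.1 ▸ he2)

private theorem sub_RS_empty {n : ℕ} (F : Finset (Cl n)) (A : Finset (Fin n)) :
    RS F A ∅ = ∅ := by
  classical
  unfold RS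
  rw [filter_eq_empty_iff]
  intro v _ h
  induction h with
  | base v hv => exact absurd hv (Finset.notMem_empty v)
  | step u v _ _ _ ih => exact ih (mem_univ _)

/-- The number of neighbours: the generating function. -/
private theorem sub_gen (hMgf : St_Mgf) {n : ℕ} (hn : 2 ≤ n) {α θ : ℝ} (hα : 0 < α)
    (hp : prob α n ≤ 1) (hθ : 1 ≤ θ) (A : Finset (Fin n)) (u : Fin n) (hu : u ∉ A) :
    (∑ F : Finset (Cl n), wt (prob α n) F * θ ^ (nbr F A u).card) ≤
      Real.exp (2 * α * (θ - 1)) := by
  rw [hMgf (prob α n) θ A u hu]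
  set p := prob α n with hpdef
  have hp0 : 0 ≤ p := prob_nonneg hα.le hn
  have hn' : (0 : ℝ) < (n : ℝ) - 1 := by
    have : (2 : ℝ) ≤ n := by exact_mod_cast hn
    linarith
  have hq : 1 - (1 - p) ^ 4 ≤ 4 * p := by
    have h1 := one_add_mul_le_pow (a := -p) (by linarith) 4
    have h2 : (1 + -p : ℝ) = 1 - p := by ring
    rw [h2] at h1
    push_cast at h1
    linarith
  have hq0 : 0 ≤ 1 - (1 - p) ^ 4 := by
    have : (1 - p) ^ 4 ≤ 1 := pow_le_one₀ (by linarith) (by linarith)
    linarith
  have h1 : (1 - p) ^ 4 + (1 - (1 - p) ^ 4) * θ = (1 - (1 - p) ^ 4) * (θ - 1) + 1 := by ring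
  rw [h1]
  have h2 : (1 - (1 - p) ^ 4) * (θ - 1) + 1 ≤ Real.exp (4 * p * (θ - 1)) := by
    refine le_trans ?_ (Real.add_one_le_exp _)
    have := mul_le_mul_of_nonneg_right hq (sub_nonneg.2 hθ)
    linarith
  have h3 : 0 ≤ (1 - (1 - p) ^ 4) * (θ - 1) + 1 := by
    have := mul_nonneg hq0 (sub_nonneg.2 hθ)
    linarith
  refine (pow_le_pow_left₀ h3 h2 _).trans ?_
  rw [← Real.exp_nat_mul]
  refine Real.exp_le_exp.2 ?_
  have hA : (A.card : ℝ) ≤ (n : ℝ) - 1 := by
    have h4 : A.card + 1 ≤ n := by
      rw [← card_insert_of_notMem hu]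
      exact (card_le_univ _).trans (by simp)
    have : ((A.card + 1 : ℕ) : ℝ) ≤ n := by exact_mod_cast h4
    push_cast at this
    linarith
  have h5 : 4 * p * ((n : ℝ) - 1) = 2 * α := by
    rw [hpdef]
    unfold prob
    field_simp
    ring
  have h6 : 0 ≤ 4 * p * (θ - 1) := mul_nonneg (by linarith) (sub_nonneg.2 hθ)
  calc (A.card : ℝ) * (4 * p * (θ - 1)) ≤ ((n : ℝ) - 1) * (4 * p * (θ - 1)) :=
        mul_le_mul_of_nonneg_right hA h6
    _ = 4 * p * ((n : ℝ) - 1) * (θ - 1) := by ring
    _ = 2 * α * (θ - 1) := by rw [h5]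

/-- The tail of the exploration. -/
private theorem sub_tail (hRec : St_Rec) (hLoc : St_Loc) (hFub : St_Fub) (hMgf : St_Mgf)
    {n : ℕ} (hn : 2 ≤ n) {α θ c : ℝ} (hα : 0 < α) (hp : prob α n ≤ 1) (hθ : 1 ≤ θ)
    (hc : Real.exp c * Real.exp (2 * α * (θ - 1)) ≤ θ) :
    ∀ (s : ℕ) (A N : Finset (Fin n)), 2 * A.card + N.card = s → Disjoint A N → ∀ l : ℕ,
      Pr (prob α n) (fun F => l ≤ (RS F A N).card) ≤ θ ^ N.card * Real.exp (-(c * l)) := by
  classical
  have hp0 : 0 ≤ prob α n := prob_nonneg hα.le hn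
  have hθ0 : 0 < θ := by linarith
  intro s
  induction s using Nat.strong_induction_on with
  | _ s ih =>
    intro A N hs hAN l
    rcases Nat.eq_zero_or_pos l with h0 | h0
    · subst h0
      refine (Pr_le_one hp0 hp _).trans ?_
      simp only [Nat.cast_zero, mul_zero, neg_zero, Real.exp_zero, mul_one]
      exact one_le_pow₀ hθ
    obtain ⟨l', rfl⟩ : ∃ l', l = l' + 1 := ⟨l - 1, by omega⟩
    rcases N.eq_empty_or_nonempty with hN | ⟨u, hu⟩
    · subst hN
      have h1 : Pr (prob α n) (fun F => l' + 1 ≤ (RS F A ∅).card) = 0 := by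
        rw [sub_Pr_eq]
        refine Finset.sum_eq_zero fun F _ => ?_
        rw [sub_RS_empty, if_neg (by simp), mul_zero]
      rw [h1]
      positivity
    · have huA : u ∉ A := fun h => (Finset.disjoint_left.1 hAN h) hu
      have hnb : ∀ F : Finset (Cl n), nbr F A u ⊆ A := by
        intro F v hv
        exact (sub_mem_nbr.1 hv).1
      have hdis : ∀ F : Finset (Cl n), Disjoint (N.erase u) (nbr F A u) := by
        intro F
        refine Finset.disjoint_left.2 fun v hv hv2 => ?_
        exact (Finset.disjoint_left.1 hAN (hnb F hv2)) (mem_of_mem_erase hv)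
      have hcard : ∀ F : Finset (Cl n), (N.erase u ∪ nbr F A u).card =
          N.card - 1 + (nbr F A u).card := by
        intro F
        rw [card_union_of_disjoint (hdis F), card_erase_of_mem hu]
      have hNpos : 0 < N.card := card_pos.2 ⟨u, hu⟩
      have hu' : ∀ F : Finset (Cl n), u ∉ (A \ nbr F A u) ∪ (N.erase u ∪ nbr F A u) := by
        intro F h
        rcases mem_union.1 h with h | h
        · exact huA (mem_sdiff.1 h).1
        · rcases mem_union.1 h with h | h
          · exact (notMem_erase u N) h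
          · exact huA (hnb F h)
      have hdis2 : ∀ F : Finset (Cl n), Disjoint (A \ nbr F A u) (N.erase u ∪ nbr F A u) := by
        intro F
        refine Finset.disjoint_left.2 fun v hv hv2 => ?_
        rcases mem_union.1 hv2 with h | h
        · exact (Finset.disjoint_left.1 hAN (mem_sdiff.1 hv).1) (mem_of_mem_erase h)
        · exact (mem_sdiff.1 hv).2 h
      set f : Finset (Cl n) → Finset (Cl n) → ℝ := fun X Y =>
        if l' ≤ (RS Y (A \ nbr X A u) (N.erase u ∪ nbr X A u)).card then 1 else 0 with hf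
      have hf2 : ∀ F F' : Finset (Cl n), f (F ∩ sub_H A u) (F' \ sub_H A u) =
          if l' ≤ (RS F' (A \ nbr F A u) (N.erase u ∪ nbr F A u)).card then 1 else 0 := by
        intro F F'
        rw [hf]
        simp only [sub_nbr]
        rw [sub_RS hLoc F' A _ _ u (hu' F)]
      have h1 : Pr (prob α n) (fun F => l' + 1 ≤ (RS F A N).card) =
          ∑ F, wt (prob α n) F * f (F ∩ sub_H A u) (F \ sub_H A u) := by
        rw [sub_Pr_eq]
        refine Finset.sum_congr rfl fun F _ => ?_
        rw [hf2]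
        congr 1
        have h2 := hRec F A N u hAN hu
        have h3 : (RS F A N).card = (RS F (A \ nbr F A u) (N.erase u ∪ nbr F A u)).card + 1 := by
          rw [h2.1, card_insert_of_notMem h2.2.1]
        rw [h3]
        simp only [Nat.add_le_add_iff_right]
      rw [h1, hFub]
      have h4 : ∀ F : Finset (Cl n), ∑ F', wt (prob α n) F' * f (F ∩ sub_H A u) (F' \ sub_H A u) ≤
          θ ^ (N.card - 1) * θ ^ (nbr F A u).card * Real.exp (-(c * l')) := by
        intro F
        have h5 : ∑ F', wt (prob α n) F' * f (F ∩ sub_H A u) (F' \ sub_H A u) =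
            Pr (prob α n) (fun F' => l' ≤
              (RS F' (A \ nbr F A u) (N.erase u ∪ nbr F A u)).card) := by
          rw [sub_Pr_eq]
          refine Finset.sum_congr rfl fun F' _ => ?_
          rw [hf2]
        rw [h5, ← pow_add, ← hcard F]
        have h6 : 2 * (A \ nbr F A u).card + (N.erase u ∪ nbr F A u).card < s := by
          rw [hcard F, card_sdiff_of_subset (hnb F)]
          have h7 := card_le_card (hnb F)
          omega
        exact ih _ h6 _ _ rfl (hdis2 F) l'
      have h8 : ∑ F, wt (prob α n) F *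
          ∑ F', wt (prob α n) F' * f (F ∩ sub_H A u) (F' \ sub_H A u) ≤
          ∑ F, wt (prob α n) F * (θ ^ (N.card - 1) * θ ^ (nbr F A u).card *
            Real.exp (-(c * l'))) :=
        Finset.sum_le_sum fun F _ => mul_le_mul_of_nonneg_left (h4 F) (wt_nonneg hp0 hp F)
      refine h8.trans ?_
      have h9 : ∑ F, wt (prob α n) F * (θ ^ (N.card - 1) * θ ^ (nbr F A u).card *
            Real.exp (-(c * l'))) = θ ^ (N.card - 1) * Real.exp (-(c * l')) *
          ∑ F, wt (prob α n) F * θ ^ (nbr F A u).card := by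
        rw [Finset.mul_sum]
        refine Finset.sum_congr rfl fun F _ => ?_
        ring
      rw [h9]
      have h10 := sub_gen hMgf hn hα hp hθ A u huA
      have h11 : 0 ≤ θ ^ (N.card - 1) * Real.exp (-(c * l')) := by positivity
      refine (mul_le_mul_of_nonneg_left h10 h11).trans ?_
      have h12 : θ ^ N.card = θ ^ (N.card - 1) * θ := by
        rw [← pow_succ]
        congr 1
        omega
      have h13 : Real.exp (-(c * ((l' + 1 : ℕ) : ℝ))) = Real.exp (-(c * l')) * Real.exp (-c) := by
        rw [← Real.exp_add]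
        congr 1
        push_cast
        ring
      rw [h12, h13]
      have h14 : Real.exp (2 * α * (θ - 1)) ≤ θ * Real.exp (-c) := by
        rw [Real.exp_neg, ← div_eq_mul_inv, le_div_iff₀ (Real.exp_pos c)]
        linarith
      calc θ ^ (N.card - 1) * Real.exp (-(c * l')) * Real.exp (2 * α * (θ - 1))
          ≤ θ ^ (N.card - 1) * Real.exp (-(c * l')) * (θ * Real.exp (-c)) :=
            mul_le_mul_of_nonneg_left h14 h11
        _ = _ := by ring

/-- keep this signature -/
theorem thm_Sub (hRec : St_Rec) (hLoc : St_Loc) (hFub : St_Fub) (hMgf : St_Mgf) : St_Sub := by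
  classical
  intro α hα hα2
  set θ : ℝ := 1 / (2 * α) with hθdef
  have h2α : 0 < 2 * α := by linarith
  have hθ : 1 ≤ θ := by
    rw [hθdef, le_div_iff₀ h2α]
    linarith
  have hθ0 : 0 < θ := by linarith
  have hexp : 2 * α * (θ - 1) = 1 - 2 * α := by
    rw [hθdef]
    field_simp
  have hlt : Real.exp (1 - 2 * α) < θ := by
    have h1 : (2 * α - 1) + 1 < Real.exp (2 * α - 1) := Real.add_one_lt_exp (by linarith)
    have h2 : Real.exp (1 - 2 * α) * Real.exp (2 * α - 1) = 1 := by
      rw [← Real.exp_add]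
      simp
    rw [hθdef, lt_div_iff₀ h2α]
    have h3 := mul_lt_mul_of_pos_left h1 (Real.exp_pos (1 - 2 * α))
    rw [h2] at h3
    linarith
  set c : ℝ := Real.log θ - (1 - 2 * α) with hcdef
  have hc0 : 0 < c := by
    have := (Real.lt_log_iff_exp_lt hθ0).2 hlt
    linarith
  have hc : Real.exp c * Real.exp (2 * α * (θ - 1)) ≤ θ := by
    rw [hexp, ← Real.exp_add, hcdef, sub_add_cancel, Real.exp_log hθ0]
  refine ⟨2 / c, by positivity, ?_⟩
  refine whp_of_le hα.le (u := fun n : ℕ => θ / n) ?_ ?_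
  · exact tendsto_const_nhds.div_atTop tendsto_natCast_atTop_atTop
  · filter_upwards [eventually_prob α hα.le] with n hn
    have hn0 : (0 : ℝ) < n := by
      have : (0 : ℕ) < n := by omega
      exact_mod_cast this
    set l : ℕ := ⌊2 / c * Real.log n⌋₊ + 1 with hl
    have hlog : 0 ≤ Real.log n := Real.log_nonneg (by exact_mod_cast (show 1 ≤ n by omega))
    have hl2 : 2 / c * Real.log n ≤ l := by
      rw [hl]
      push_cast
      exact (Nat.lt_floor_add_one _).le
    have h1 : Pr (prob α n) (fun F => ¬ ∀ Q : Finset (Fin n), Conn F Q →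
        (Q.card : ℝ) ≤ 2 / c * Real.log n) ≤
        Pr (prob α n) (fun F => ∃ v ∈ (univ : Finset (Fin n)),
          l ≤ (RS F (univ.erase v) {v}).card) := by
      refine Pr_mono hn.2.1 hn.2.2 fun F hF => ?_
      push Not at hF
      obtain ⟨Q, hQ, hlt⟩ := hF
      have hne : Q.Nonempty := by
        rw [nonempty_iff_ne_empty]
        rintro rfl
        simp only [card_empty, Nat.cast_zero] at hlt
        have : 0 ≤ 2 / c * Real.log n := by positivity
        linarith
      obtain ⟨v, hv⟩ := hne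
      refine ⟨v, mem_univ v, ?_⟩
      have h2 := card_le_card (hLoc.2.1 F Q v hQ hv)
      refine le_trans ?_ h2
      rw [hl]
      exact Nat.floor_lt (by positivity) |>.2 hlt
    refine h1.trans ((Pr_exists_le hn.2.1 hn.2.2 _ _).trans ?_)
    have h3 : ∀ v ∈ (univ : Finset (Fin n)),
        Pr (prob α n) (fun F => l ≤ (RS F (univ.erase v) {v}).card) ≤
          θ * Real.exp (-(c * l)) := by
      intro v _
      have := sub_tail hRec hLoc hFub hMgf hn.1 hα hn.2.2 hθ hc _ (univ.erase v) {v} rfl
        (by simp) l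
      simpa using this
    refine (Finset.sum_le_sum h3).trans ?_
    rw [sum_const, card_univ, Fintype.card_fin, nsmul_eq_mul]
    have h4 : Real.exp (-(c * l)) ≤ 1 / (n : ℝ) ^ 2 := by
      have h5 : -(c * l) ≤ -(2 * Real.log n) := by
        have := mul_le_mul_of_nonneg_left hl2 hc0.le
        have h6 : c * (2 / c * Real.log n) = 2 * Real.log n := by
          field_simp
        rw [h6] at this
        linarith
      refine (Real.exp_le_exp.2 h5).trans ?_
      rw [Real.exp_neg, two_mul, Real.exp_add, Real.exp_log hn0, one_div, pow_two]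
    calc (n : ℝ) * (θ * Real.exp (-(c * l))) ≤ n * (θ * (1 / (n : ℝ) ^ 2)) := by
          gcongr
      _ = θ / n := by
          field_simp

end Pool.Agent.R2
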